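import Pool.Agent.P8H4.PL.An8

/-!
# The nonvanishing of the twisted sums over a `p`-extension of abelian fields: the theorem
-/

set_option autoImplicit false

open NumberField IsDedekindDomain H300.HW DirichletCharacter
open Pool.Agent.H921R2.TatePole
open W165.CE (pw pw_eq intCast_mem_iff)

namespace Pool.Agent.P8H4.PL

open Pool.Agent.Y702.L (pv local_all local_quad mem_v_of_below)
open Pool.Agent.H82R3.EK (natCast_mem_iff liesOver_of_mem below_eq_of_mem)

section places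

variable {k K : Type} [Field k] [NumberField k] [Field K] [NumberField K] [Algebra k K]

lemma below_under (v : HeightOneSpectrum (𝓞 K)) : below (v.under (𝓞 k)) = below v := by
  apply below_eq_of_mem k
  show ((below v : ℕ) : 𝓞 k) ∈ v.asIdeal.under (𝓞 k)
  rw [Ideal.mem_comap, map_natCast]
  exact (nm_eq v).2.2

omit [NumberField k] [NumberField K] in
lemma exists_over (w : HeightOneSpectrum (𝓞 k)) : ∃ v : HeightOneSpectrum (𝓞 K),
    v.under (𝓞 k) = w := by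
  have := w.isPrime
  obtain ⟨⟨P, hP, hP2⟩⟩ := w.asIdeal.nonempty_primesOver (S := 𝓞 K)
  refine ⟨⟨P, hP, ?_⟩, ?_⟩
  · rintro rfl
    apply w.ne_bot
    rw [hP2.over]
    exact Ideal.under_bot _ _
  · apply HeightOneSpectrum.ext
    exact hP2.over.symm

lemma exists_below (l : Nat.Primes) : ∃ v : HeightOneSpectrum (𝓞 K), below v = l := by
  have hprime : (Ideal.span {((l : ℕ) : ℤ)}).IsPrime := by
    rw [Ideal.span_singleton_prime (by exact_mod_cast l.2.ne_zero)]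
    exact Nat.prime_iff_prime_int.1 l.2
  obtain ⟨P⟩ := (Ideal.span {((l : ℕ) : ℤ)}).nonempty_primesOver (S := 𝓞 K)
  exact ⟨((plEquiv l).symm P).1, ((plEquiv l).symm P).2⟩

lemma prime_iff_deg (v : HeightOneSpectrum (𝓞 K)) :
    (Ideal.absNorm v.asIdeal).Prime ↔ deg v = 1 := by
  have h1 : Ideal.absNorm v.asIdeal = (below v : ℕ) ^ deg v := (nm_eq v).1
  rw [h1]
  constructor
  · intro h
    exact Nat.Prime.eq_one_of_pow h
  · intro h
    rw [h, pow_one]
    exact (below v).2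

lemma deg_under (v : HeightOneSpectrum (𝓞 K)) : deg (v.under (𝓞 k)) ∣ deg v := by
  have := v.isPrime
  rw [← deg_eq, ← deg_eq]
  exact ⟨_, Ideal.inertiaDeg_tower (R := ℤ) (v.asIdeal.under (𝓞 k)) v.asIdeal⟩

lemma prime_down (D : ℤ) (h : ∀ v : HeightOneSpectrum (𝓞 K), ((D : ℤ) : 𝓞 K) ∈ v.asIdeal →
      (Ideal.absNorm v.asIdeal).Prime) (w : HeightOneSpectrum (𝓞 k))
    (hw : ((D : ℤ) : 𝓞 k) ∈ w.asIdeal) : (Ideal.absNorm w.asIdeal).Prime := by
  obtain ⟨v, rfl⟩ := exists_over (K := K) w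
  have h1 : ((D : ℤ) : 𝓞 K) ∈ v.asIdeal := by
    have h2 : ((D : ℤ) : 𝓞 k) ∈ v.asIdeal.under (𝓞 k) := hw
    rw [Ideal.mem_comap, map_intCast] at h2
    exact h2
  rw [prime_iff_deg]
  have h3 := (prime_iff_deg v).1 (h v h1)
  have h4 := deg_under (k := k) v
  rw [h3] at h4
  exact Nat.dvd_one.1 h4

/-- the degree of the places above `l` in a Galois extension -/
lemma deg_const [IsGalois ℚ k] {w w' : HeightOneSpectrum (𝓞 k)} (h : below w = below w') :
    deg w = deg w' := by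
  have hl : Fact (below w : ℕ).Prime := ⟨(below w).2⟩
  have := w.isPrime
  have := w'.isPrime
  have := liesOver_of_mem k (below w).2 w (mem_v_of_below rfl)
  have := liesOver_of_mem k (below w).2 w' (mem_v_of_below h.symm)
  rw [← deg_eq, ← deg_eq,
    ← Ideal.inertiaDegIn_eq_inertiaDeg (Ideal.span {((below w : ℕ) : ℤ)}) w.asIdeal Gal(k/ℚ),
    ← Ideal.inertiaDegIn_eq_inertiaDeg (Ideal.span {((below w : ℕ) : ℤ)}) w'.asIdeal Gal(k/ℚ)]

lemma pts_const [IsGalois ℚ k] (W : WeierstrassCurve ℤ)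
    {w w' : HeightOneSpectrum (𝓞 k)} (h : below w = below w') :
    Pool.Agent.Y702.G.pts W (𝓞 k ⧸ w.asIdeal) = Pool.Agent.Y702.G.pts W (𝓞 k ⧸ w'.asIdeal) := by
  have h1 := av_eq' W w (if ((below w : ℕ) : ℤ) ∣ W.Δ then 0 else ((below w : ℕ) : ℂ))
    (fun h => if_neg h) (fun h => if_pos h)
  have h2 := av_eq' W w' (if ((below w' : ℕ) : ℤ) ∣ W.Δ then 0 else ((below w' : ℕ) : ℂ))
    (fun h => if_neg h) (fun h => if_pos h)
  rw [← h, ← deg_const h] at h2
  rw [← h2] at h1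
  have h3 : Pool.Agent.Y702.G.av W w = Pool.Agent.Y702.G.av W w' := by exact_mod_cast h1
  have h4 : Ideal.absNorm w.asIdeal = Ideal.absNorm w'.asIdeal := by
    have e1 : Ideal.absNorm w.asIdeal = (below w : ℕ) ^ deg w := (nm_eq w).1
    have e2 : Ideal.absNorm w'.asIdeal = (below w' : ℕ) ^ deg w' := (nm_eq w').1
    rw [e1, e2, ← h, deg_const h]
  unfold Pool.Agent.Y702.G.av at h3
  rw [h4] at h3
  have h5 : (Pool.Agent.Y702.G.pts W (𝓞 k ⧸ w.asIdeal) : ℤ) =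
      Pool.Agent.Y702.G.pts W (𝓞 k ⧸ w'.asIdeal) := by linarith
  exact_mod_cast h5

end places

section grp

variable (n : ℕ) [NeZero n] (L : Type) [Field L] [NumberField L] [IsCyclotomicExtension {n} ℚ L]

lemma YY_mono {k K : IntermediateField ℚ L} (h : k ≤ K) : YY n L k ≤ YY n L K := by
  intro χ hχ
  rw [mem_YY] at hχ ⊢
  intro σ hσ
  exact hχ σ (IntermediateField.fixingSubgroup_antitone h hσ)

/-- the characters unramified at `l` -/
noncomputable abbrev Ur {n : ℕ} [NeZero n] (l : ℕ) : Subgroup (DirichletCharacter ℂ n) :=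
  subgroupOfCoprimeConductor l

lemma mem_Ur {n : ℕ} [NeZero n] {l : ℕ} (hl : l.Prime) {χ : DirichletCharacter ℂ n} :
    χ ∈ Ur l ↔ ¬ l ∣ χ.conductor := by
  rw [mem_subgroupOfCoprimeConductor]
  exact Nat.Prime.coprime_iff_not_dvd hl

open Classical in
lemma e_relIndex (F : IntermediateField ℚ L) (l : Nat.Primes) :
    (Ideal.span {((l : ℕ) : ℤ)}).ramificationIdxIn (𝓞 F) = (Ur (l : ℕ)).relIndex (YY n L F) := by
  have hgal : IsGalois ℚ F := Pool.Agent.Y702.L.gal_F n L F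
  have h1 := efg (K := F) l
  rw [sum_deg n L F l, ← card_YY' (n := n) (L := L)] at h1
  have h2 := ((Ur (l : ℕ)).subgroupOf (YY n L F)).card_mul_index
  have h3 : Nat.card ((Ur (l : ℕ)).subgroupOf (YY n L F)) =
      Nat.card {χ : YY n L F // ¬ (l : ℕ) ∣ (χ : DirichletCharacter ℂ n).conductor} := by
    refine Nat.card_congr (Equiv.subtypeEquivRight fun χ => ?_)
    rw [Subgroup.mem_subgroupOf, mem_Ur l.2]
  rw [h3, mul_comm] at h2
  have h4 : 0 < Nat.card {χ : YY n L F // ¬ (l : ℕ) ∣ (χ : DirichletCharacter ℂ n).conductor} := by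
    rw [← h3]
    exact Nat.card_pos
  exact Nat.eq_of_mul_eq_mul_right h4 (h1.trans h2.symm)

lemma sup_iff {G : Type*} [CommGroup G] [Finite G] {A B U : Subgroup G} (hAB : A ≤ B) :
    U.relIndex B = U.relIndex A ↔ ∀ b ∈ B, ∃ a ∈ A, b * a⁻¹ ∈ U := by
  set H := U ⊓ B with hH
  have e1 : U.relIndex B = H.relIndex B := (Subgroup.inf_relIndex_right U B).symm
  have e2 : U.relIndex A = H.relIndex A := by
    rw [← Subgroup.inf_relIndex_right U A, ← Subgroup.inf_relIndex_right H A, hH, inf_assoc,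
      inf_eq_right.2 hAB]
  have e3 : H.relIndex (A ⊔ H) = H.relIndex A := Subgroup.relIndex_sup_right _ _
  have e4 : H.relIndex (A ⊔ H) * (A ⊔ H).relIndex B = H.relIndex B :=
    Subgroup.relIndex_mul_relIndex _ _ _ le_sup_right (sup_le hAB inf_le_right)
  have hpos : 0 < H.relIndex A := Nat.pos_of_ne_zero Subgroup.index_ne_zero_of_finite
  rw [e1, e2, ← e4, e3]
  have h5 : H.relIndex A * (A ⊔ H).relIndex B = H.relIndex A ↔ (A ⊔ H).relIndex B = 1 := by
    constructor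
    · intro h
      exact Nat.eq_of_mul_eq_mul_left hpos (h.trans (mul_one _).symm)
    · intro h
      rw [h, mul_one]
  rw [h5, Subgroup.relIndex_eq_one]
  constructor
  · intro h b hb
    obtain ⟨a, ha, u, hu, hau⟩ := Subgroup.mem_sup.1 (h hb)
    refine ⟨a, ha, ?_⟩
    rw [← hau, mul_comm a u, mul_inv_cancel_right]
    exact hu.1
  · intro h b hb
    obtain ⟨a, ha, hu⟩ := h b hb
    rw [Subgroup.mem_sup]
    exact ⟨a, ha, b * a⁻¹, ⟨hu, B.mul_mem hb (B.inv_mem (hAB ha))⟩, by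
      rw [mul_comm b, mul_inv_cancel_left]⟩

variable {k K : IntermediateField ℚ L} (hkK : k ≤ K) [Algebra k K]

include hkK in
/-- ramification and characters -/
lemma ram_chr (l : Nat.Primes) (v : HeightOneSpectrum (𝓞 K)) (hv : below v = l) :
    ¬ Ram k v ↔ ∀ χ ∈ YY n L K, ∃ ψ ∈ YY n L k, χ * ψ⁻¹ ∈ Ur (l : ℕ) := by
  have hgal : IsGalois ℚ K := Pool.Agent.Y702.L.gal_F n L K
  have hgal' : IsGalois ℚ k := Pool.Agent.Y702.L.gal_F n L k
  have : IsScalarTower ℚ k K := IsScalarTower.of_algebraMap_eq fun x => by simp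
  have hgal'' : IsGalois k K := IsGalois.tower_top_of_isGalois ℚ k K
  rw [ram_iff, not_not, ← sup_iff (YY_mono n L hkK), ← e_relIndex, ← e_relIndex,
    ← ram_tower (k := k) l v hv]
  have hpos : 0 < (Ideal.span {((l : ℕ) : ℤ)}).ramificationIdxIn (𝓞 k) := by
    rw [e_relIndex n]
    exact Nat.pos_of_ne_zero Subgroup.index_ne_zero_of_finite
  constructor
  · intro h
    rw [h, mul_one]
  · intro h
    exact Nat.eq_of_mul_eq_mul_left hpos (h.trans (mul_one _).symm)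

omit [Algebra k K] in
lemma ypow {p i : ℕ} (hi : Module.finrank ℚ K = p ^ i * Module.finrank ℚ k)
    {χ : DirichletCharacter ℂ n} (hkK : k ≤ K) (hχ : χ ∈ YY n L K) : χ ^ (p ^ i) ∈ YY n L k := by
  have h1 := ((YY n L k).subgroupOf (YY n L K)).card_mul_index
  have h2 : Nat.card ((YY n L k).subgroupOf (YY n L K)) = Nat.card (YY n L k) :=
    Nat.card_congr (Subgroup.subgroupOfEquivOfLe (YY_mono n L hkK)).toEquiv
  rw [h2, card_YY', card_YY', hi, mul_comm] at h1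
  have h3 := Nat.eq_of_mul_eq_mul_right Module.finrank_pos h1
  have h4 := ((YY n L k).subgroupOf (YY n L K)).pow_index_mem ⟨χ, hχ⟩
  rw [h3, Subgroup.mem_subgroupOf] at h4
  exact h4

include hkK in
/-- **The analytic side.** -/
theorem nz_iff {W : WeierstrassCurve ℤ} (hsq : Squarefree n)
    (hnΔ : ∀ l : ℕ, l.Prime → l ∣ n → ¬ (l : ℤ) ∣ W.Δ)
    {p i : ℕ} (hp : p.Prime) (hp2 : Odd p)
    (hi : Module.finrank ℚ K = p ^ i * Module.finrank ℚ k)
    {𝔽 : Type} [Field 𝔽] [CharP 𝔽 p] (φ : ZB →+* 𝔽)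
    {A B : ℚ → ℤ} (hA : ∀ r, A (r + 1) = A r) (hB : ∀ r, B (r + 1) = B r)
    (hk : ∀ l : ℕ, l.Prime → l ∣ n → Hk A (al W l) l ∧ Hk B (al W l) l) :
    (∀ χ ∈ YY n L K, tw φ A B χ ≠ 0) ↔ (∀ ψ ∈ YY n L k, tw φ A B ψ ≠ 0) ∧
      ∀ v : HeightOneSpectrum (𝓞 K), Ram k v →
        ¬ p ∣ Pool.Agent.Y702.G.pts W (𝓞 k ⧸ v.asIdeal.under (𝓞 k)) + 1 := by
  have hgal' : IsGalois ℚ k := Pool.Agent.Y702.L.gal_F n L k
  have hle := YY_mono n L hkK
  have hkA : ∀ l : ℕ, l.Prime → l ∣ n → Hk A (al W l) l := fun l h1 h2 => (hk l h1 h2).1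
  have hkB : ∀ l : ℕ, l.Prime → l ∣ n → Hk B (al W l) l := fun l h1 h2 => (hk l h1 h2).2
  obtain ⟨e, J, hiJ, hJe, h1, h2, h3⟩ := exists_exp (G := DirichletCharacter ℂ n) hp i
  constructor
  · intro hK
    obtain ⟨g1, g2⟩ := tw_down φ hp hp2 hsq hA hB hkA hkB _ _ hle hK
    refine ⟨g1, fun v hv => ?_⟩
    set l := below v with hl
    have hex : ∃ η ∈ YY n L K, (∃ k, η ^ (p ^ k) = 1) ∧ (l : ℕ) ∣ η.conductor := by
      by_contra hcon
      push Not at hcon
      have h4 := (ram_chr n L hkK l v rfl).not.1 (not_not.2 hv)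
      apply h4
      intro χ hχ
      refine ⟨χ ^ e, ?_, ?_⟩
      · obtain ⟨c, hc⟩ := (pow_dvd_pow p hiJ).trans hJe
        rw [hc, pow_mul]
        exact (YY n L k).pow_mem (ypow n L hi hkK hχ) c
      · rw [mem_Ur l.2]
        exact hcon _ ((YY n L K).mul_mem hχ ((YY n L K).inv_mem ((YY n L K).pow_mem hχ e)))
          ⟨J, h1 χ⟩
    obtain ⟨η, hη, ⟨j, hj⟩, hlη⟩ := hex
    have hln : (l : ℕ) ∣ n := hlη.trans η.conductor_dvd_level
    have hl1 : ((l : ℕ) : 𝔽) = 1 := one_of_ram hsq hp l.2 hln η hj hlη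
    have h5 := (loc_count n L k W l (hnΔ l l.2 hln) φ p hl1).2
      (g2 l l.2 ⟨η, hη, ⟨j, hj⟩, hlη⟩)
    exact h5 (v.under (𝓞 k)) (below_under v)
  · rintro ⟨g1, g2⟩
    refine tw_up φ hp hp2 hsq hA hB hkA hkB _ _ hle (fun χ hχ => ypow n L hi hkK hχ) g1 ?_
    intro l hl hln hex hall
    obtain ⟨η, hη, ⟨j, hj⟩, hlη⟩ := hex
    have hl1 : (l : 𝔽) = 1 := one_of_ram hsq hp hl hln η hj hlη
    obtain ⟨v, hv⟩ := exists_below (K := K) ⟨l, hl⟩
    have hram : Ram k v := by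
      by_contra hcon
      have h4 := (ram_chr n L hkK ⟨l, hl⟩ v hv).1 hcon
      obtain ⟨ψ, hψ, hu⟩ := h4 η hη
      rw [mem_Ur hl] at hu
      have hηJ := h3 η j hj
      have hηe : η ^ e = 1 := by
        obtain ⟨c, hc⟩ := hJe
        rw [hc, pow_mul, hηJ, one_pow]
      -- the `p`-parts
      have h6 := hall (ψ * (ψ ^ e)⁻¹) ((YY n L k).mul_mem hψ
        ((YY n L k).inv_mem ((YY n L k).pow_mem hψ e))) ⟨J, h1 ψ⟩
      have h7 : ¬ l ∣ ((η * ψ⁻¹) * ((η * ψ⁻¹) ^ e)⁻¹).conductor :=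
        cond_mul hl hu (cond_inv (cond_pow hu e))
      have h8 := cond_mul hl h7 h6
      apply h8
      have e1 : (η * ψ⁻¹) * ((η * ψ⁻¹) ^ e)⁻¹ * (ψ * (ψ ^ e)⁻¹) = η := by
        rw [mul_pow, hηe, one_mul, inv_pow, inv_inv]
        calc η * ψ⁻¹ * ψ ^ e * (ψ * (ψ ^ e)⁻¹) = η * (ψ⁻¹ * ψ) * (ψ ^ e * (ψ ^ e)⁻¹) := by
              simp only [mul_assoc, mul_comm, mul_left_comm]
          _ = η := by rw [inv_mul_cancel, mul_inv_cancel, mul_one, mul_one]
      rw [e1]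
      exact hlη
    have h5 := g2 v hram
    refine (loc_count n L k W ⟨l, hl⟩ (hnΔ l hl hln) φ p hl1).1 ?_
    intro w hw
    have h6 : below w = below (v.under (𝓞 k)) := by
      rw [hw, below_under, hv]
    rw [pts_const W h6]
    exact h5

end grp

end Pool.Agent.P8H4.PL
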