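import Pool.Agent.TH115.TC.Compl
import Pool.Agent.Y852.GS.Tams
import Pool.Agent.Y852.GS.Mins

/-!
# Places of relative degree one: the completions are isomorphic
-/

set_option autoImplicit false

open NumberField IsDedekindDomain WithZero Filter Topology

namespace Pool.Agent.P8H4.PL

open Pool.Agent.TH115.GD
open Pool.Agent.Y852.GS (G0 lt_one_exp vv near small_zero index_eq integral_smul)

section place

variable {k K : Type} [Field k] [NumberField k] [Field K] [NumberField K] [Algebra k K]
  (v : HeightOneSpectrum (𝓞 K)) (p : HeightOneSpectrum (𝓞 k))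

variable (k) in
/-- the residue field of `v` is the one of the subfield `k` -/
def ResEq : Prop := ∀ a : 𝓞 K, ∃ b : 𝓞 k, a - algebraMap (𝓞 k) (𝓞 K) b ∈ v.asIdeal

/-- Every `v`-integral element is congruent to an element of `k`. -/
theorem exists_nat_int (hp : ResEq k v) (x : K) (hx : v.valuation K x ≤ 1) :
    ∃ n : k, v.valuation K (x - algebraMap k K n) < 1 := by
  obtain ⟨n, d, h⟩ := v.exists_primeCompl_mul_eq_of_integer x hx
  have hd : (d : 𝓞 K) ∉ v.asIdeal := d.2
  haveI := v.isMaximal
  -- inverse of `d`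
  obtain ⟨e, he⟩ : ∃ e : 𝓞 K, d * e - 1 ∈ v.asIdeal := by
    have hd' : Ideal.Quotient.mk v.asIdeal (d : 𝓞 K) ≠ 0 := by
      rwa [Ne, Ideal.Quotient.eq_zero_iff_mem]
    letI := Ideal.Quotient.field v.asIdeal
    obtain ⟨e, he⟩ := Ideal.Quotient.mk_surjective (Ideal.Quotient.mk v.asIdeal (d : 𝓞 K))⁻¹
    refine ⟨e, ?_⟩
    rw [← Ideal.Quotient.eq_zero_iff_mem, map_sub, map_mul, he, map_one, mul_inv_cancel₀ hd',
      sub_self]
  obtain ⟨m, hm⟩ := hp (n * e)
  refine ⟨algebraMap (𝓞 k) k m, ?_⟩
  have vd : v.valuation K (algebraMap (𝓞 K) K d) = 1 :=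
    le_antisymm (v.valuation_le_one _) (not_lt.1 fun h => by
      rw [HeightOneSpectrum.valuation_lt_one_iff_mem] at h
      exact hd h)
  set M : 𝓞 K := algebraMap (𝓞 k) (𝓞 K) m with hM
  have hMk : algebraMap k K (algebraMap (𝓞 k) k m) = algebraMap (𝓞 K) K M := rfl
  have key : n - M * d ∈ v.asIdeal := by
    have e1 : n - M * d = (n * e - M) * d - n * (d * e - 1) := by ring
    rw [e1]
    exact sub_mem (Ideal.mul_mem_right _ _ hm) (Ideal.mul_mem_left _ _ he)
  have e2 : (x - algebraMap k K (algebraMap (𝓞 k) k m)) * algebraMap (𝓞 K) K d =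
      algebraMap (𝓞 K) K (n - M * d) := by
    rw [sub_mul, h, map_sub, map_mul, hMk]
  have e3 := congrArg (v.valuation K) e2
  rw [map_mul, vd, mul_one] at e3
  rw [e3]
  exact (HeightOneSpectrum.valuation_lt_one_iff_mem (K := K) v _).2 key

variable {v p}

/-- `k` is dense in `K`. -/
theorem dense_int (hval : ∀ x : k, v.valuation K (algebraMap k K x) = p.valuation k x)
    (hp : ResEq k v) (x : K) (hx : v.valuation K x ≤ 1) (n : ℕ) :
    ∃ q : k, v.valuation K (x - algebraMap k K q) ≤ exp (-(n : ℤ)) := by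
  obtain ⟨ϖ, hϖ⟩ := p.valuation_exists_uniformizer k
  have hv : v.valuation K (algebraMap k K ϖ) = exp (-1 : ℤ) := by rw [hval, hϖ]
  have hϖ0 : algebraMap k K ϖ ≠ 0 := by
    intro h
    rw [h, map_zero] at hv
    exact exp_ne_zero hv.symm
  have hpow : ∀ n : ℕ, v.valuation K ((algebraMap k K ϖ) ^ n) = exp (-(n : ℤ)) := by
    intro n
    rw [map_pow, hv, ← exp_nsmul]
    congr 1
    simp
  induction n with
  | zero => exact ⟨0, by simpa using hx⟩
  | succ n ih =>
    obtain ⟨q, hq⟩ := ih
    have hy : v.valuation K ((x - algebraMap k K q) / (algebraMap k K ϖ) ^ n) ≤ 1 := by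
      rw [map_div₀, hpow]
      exact (div_le_one₀ (zero_lt_iff.2 exp_ne_zero)).2 hq
    obtain ⟨m, hm⟩ := exists_nat_int v hp _ hy
    refine ⟨q + m * ϖ ^ n, ?_⟩
    have e : x - algebraMap k K (q + m * ϖ ^ n) =
        ((x - algebraMap k K q) / (algebraMap k K ϖ) ^ n - algebraMap k K m) *
          (algebraMap k K ϖ) ^ n := by
      rw [sub_mul, div_mul_cancel₀ _ (pow_ne_zero n hϖ0), map_add, map_mul, map_pow]
      ring
    rw [e, map_mul, hpow]
    calc _ ≤ exp (-1 : ℤ) * exp (-(n : ℤ)) := by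
          gcongr
          exact lt_one_exp hm
      _ = exp (-((n + 1 : ℕ) : ℤ)) := by
          rw [← exp_add]; congr 1; push_cast; ring

theorem dense_rat (hval : ∀ x : k, v.valuation K (algebraMap k K x) = p.valuation k x)
    (hp : ResEq k v) (x : K) (n : ℕ) :
    ∃ q : k, v.valuation K (x - algebraMap k K q) ≤ exp (-(n : ℤ)) := by
  obtain ⟨ϖ, hϖ⟩ := p.valuation_exists_uniformizer k
  have hv : v.valuation K (algebraMap k K ϖ) = exp (-1 : ℤ) := by rw [hval, hϖ]
  have hϖ0 : algebraMap k K ϖ ≠ 0 := by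
    intro h
    rw [h, map_zero] at hv
    exact exp_ne_zero hv.symm
  have hpow : ∀ n : ℕ, v.valuation K ((algebraMap k K ϖ) ^ n) = exp (-(n : ℤ)) := by
    intro n
    rw [map_pow, hv, ← exp_nsmul]
    congr 1
    simp
  rcases eq_or_ne x 0 with rfl | hx
  · exact ⟨0, by simp⟩
  have hx0 : v.valuation K x ≠ 0 := (Valuation.ne_zero_iff _).2 hx
  obtain ⟨N, hN⟩ : ∃ N : ℕ, v.valuation K x ≤ exp (N : ℤ) := by
    refine ⟨(log (v.valuation K x)).toNat, ?_⟩
    conv_lhs => rw [← exp_log hx0]
    rw [exp_le_exp]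
    omega
  have hy : v.valuation K (x * (algebraMap k K ϖ) ^ N) ≤ 1 := by
    rw [map_mul, hpow]
    calc _ ≤ exp (N : ℤ) * exp (-(N : ℤ)) := by gcongr
      _ = 1 := by rw [← exp_add, add_neg_cancel, exp_zero]
  obtain ⟨q, hq⟩ := dense_int hval hp _ hy (n + N)
  refine ⟨q / ϖ ^ N, ?_⟩
  have e : x - algebraMap k K (q / ϖ ^ N) =
      (x * (algebraMap k K ϖ) ^ N - algebraMap k K q) / (algebraMap k K ϖ) ^ N := by
    rw [map_div₀, map_pow, sub_div, mul_div_cancel_right₀ _ (pow_ne_zero N hϖ0)]
  rw [e, map_div₀, hpow]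
  calc _ ≤ exp (-((n + N : ℕ) : ℤ)) / exp (-(N : ℤ)) := by
        gcongr
        exact zero_le
    _ = exp (-(n : ℤ)) := by
        rw [← exp_sub]; congr 1; push_cast; ring

/-! ### The isomorphism of the completions -/

theorem exists_iso_rel (hval : ∀ x : k, v.valuation K (algebraMap k K x) = p.valuation k x)
    (hp : ResEq k v) :
    ∃ e : p.adicCompletion k ≃+* v.adicCompletion K,
      (∀ x : k, e (algebraMap k _ x) = algebraMap K _ (algebraMap k K x)) ∧
      ∀ y, (Valued.v (e y) : G0) = Valued.v y := by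
  obtain ⟨j, hj1, hj2, hj3⟩ := exists_compl_map p v (algebraMap k K)
    (fun x hx => by rw [hval]; exact hx) (fun x hx => by rw [hval]; exact hx)
  have hjv : ∀ y, (Valued.v (j y) : G0) = Valued.v y := by
    intro y
    rcases eq_or_ne y 0 with rfl | hy
    · rw [map_zero, map_zero, map_zero]
    have hyv : (Valued.v y : G0) ≠ 0 := (Valuation.ne_zero_iff _).2 hy
    -- `y = x (1 + ε)`
    obtain ⟨x, hx⟩ := near p y ((-log (Valued.v y : G0)).toNat + 1)
    have hx' : (Valued.v (y - algebraMap k (p.adicCompletion k) x) : G0) < Valued.v y := by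
      refine lt_of_le_of_lt hx ?_
      conv_rhs => rw [← exp_log hyv]
      rw [exp_lt_exp]
      omega
    have h1 : (Valued.v (algebraMap k (p.adicCompletion k) x) : G0) = Valued.v y := by
      have e1 : algebraMap k (p.adicCompletion k) x =
        y - (y - algebraMap k (p.adicCompletion k) x) := by ring
      rw [e1, Valuation.map_sub_eq_of_lt_left _ hx']
    have hx0 : algebraMap k (p.adicCompletion k) x ≠ 0 := by
      intro h0
      rw [h0, map_zero] at h1
      exact hyv h1.symm
    set ε : p.adicCompletion k := (y - algebraMap k (p.adicCompletion k) x) /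
      algebraMap k (p.adicCompletion k) x with hε
    have hε1 : (Valued.v ε : G0) < 1 := by
      rw [hε, map_div₀, h1]
      exact (div_lt_one₀ (zero_lt_iff.2 hyv)).2 hx'
    have hy2 : y = algebraMap k (p.adicCompletion k) x * (1 + ε) := by
      rw [hε]; field_simp; ring
    have h3 := hj3 ε hε1
    have h4 : (Valued.v (1 + j ε) : G0) = 1 := by
      rw [Valuation.map_add_eq_of_lt_left _ (by rw [map_one]; exact h3), map_one]
    have h5 : (Valued.v (j y) : G0) = v.valuation K (algebraMap k K x) := by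
      rw [hy2, map_mul, map_add, map_one, map_mul, h4, mul_one, hj1, vv]
    rw [h5, hval, ← vv, h1]
  have hsurj : Function.Surjective j := by
    intro y
    have hq : ∀ n : ℕ, ∃ q : k, (Valued.v (y - j (algebraMap k _ q)) : G0) ≤ exp (-(n : ℤ)) := by
      intro n
      obtain ⟨x, hx⟩ := near v y n
      obtain ⟨q, hq⟩ := dense_rat hval hp x n
      refine ⟨q, ?_⟩
      have e : y - j (algebraMap k _ q) = (y - algebraMap K _ x) +
          algebraMap K (v.adicCompletion K) (x - algebraMap k K q) := by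
        rw [hj1, map_sub]; ring
      rw [e]
      refine (Valuation.map_add _ _ _).trans (max_le hx ?_)
      rw [vv]
      exact hq
    choose q hq using hq
    let z : ℕ → p.adicCompletion k := fun n => algebraMap k _ (q n)
    have hz : ∀ n, (Valued.v (z (n + 1) - z n) : G0) ≤ exp (-(n : ℤ)) := by
      intro n
      rw [← hjv]
      have e : j (z (n + 1) - z n) = (y - j (z n)) - (y - j (z (n + 1))) := by
        rw [map_sub]; ring
      rw [e]
      refine (Valuation.map_sub _ _ _).trans (max_le (hq n) ((hq (n + 1)).trans ?_))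
      rw [exp_le_exp]
      omega
    haveI := nonarch (L := p.adicCompletion k)
    have tend : ∀ (f : ℕ → p.adicCompletion k), (∀ n, (Valued.v (f n) : G0) ≤ exp (-(n : ℤ))) →
        Tendsto f atTop (𝓝 0) := by
      intro f hf
      rw [Filter.tendsto_def]
      intro U hU
      obtain ⟨γ, hγ⟩ := Valued.mem_nhds_zero.1 hU
      have hg : MonoidWithZeroHom.ValueGroup₀.embedding γ.1 ≠ 0 := by
        rw [Ne, map_eq_zero]
        exact γ.ne_zero
      obtain ⟨N, hN, -⟩ := exists_exp_neg_natCast_lt_and_lt hg hg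
      filter_upwards [eventually_ge_atTop N] with n hn
      refine hγ ?_
      show (Valued.v (R := p.adicCompletion k)).restrict (f n) < γ
      rw [Valuation.restrict_lt_iff_lt_embedding]
      refine lt_of_le_of_lt ((hf n).trans ?_) hN
      rw [exp_le_exp]
      omega
    have hc : CauchySeq z := by
      have := tend _ hz
      exact NonarchimedeanAddGroup.cauchySeq_of_tendsto_sub_nhds_zero this
    obtain ⟨l, hl⟩ := cauchySeq_tendsto_of_complete hc
    refine ⟨l, ?_⟩
    have key : ∀ n : ℕ, (Valued.v (y - j l) : G0) ≤ exp (-(n : ℤ)) := by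
      intro n
      have hU : {x : p.adicCompletion k | (Valued.v x : G0) ≤ exp (-(n : ℤ))} ∈
          nhds (0 : p.adicCompletion k) := by
        obtain ⟨π, hπ⟩ := p.valuation_exists_uniformizer k
        set c : p.adicCompletion k := algebraMap k (p.adicCompletion k) (π ^ n) with hc
        have hcv : (Valued.v c : G0) = exp (-(n : ℤ)) := by
          rw [hc, vv, map_pow, hπ, ← exp_nsmul]
          congr 1
          simp
        have hne : (Valued.v (R := p.adicCompletion k)).restrict c ≠ 0 := by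
          rw [Valuation.ne_zero_iff]
          intro h0
          rw [h0, map_zero] at hcv
          exact exp_ne_zero hcv.symm
        rw [Valued.mem_nhds_zero]
        refine ⟨Units.mk0 _ hne, fun z hz => ?_⟩
        show (Valued.v z : G0) ≤ exp (-(n : ℤ))
        rw [← hcv]
        exact le_of_lt ((Valuation.restrict_lt_iff _).1 hz)
      have ht : Filter.Tendsto (fun k => z k - l) atTop (nhds 0) := by
        have h5 := hl.sub_const l
        rwa [sub_self] at h5
      obtain ⟨k, hk, hkn⟩ := ((ht.eventually hU).and (eventually_ge_atTop n)).exists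
      have e : y - j l = (y - j (z k)) + j (z k - l) := by rw [map_sub]; ring
      rw [e]
      refine (Valuation.map_add _ _ _).trans (max_le ((hq k).trans ?_) ?_)
      · rw [exp_le_exp]; omega
      · rw [hjv]; exact hk
    have h0 := small_zero key
    rw [Valuation.zero_iff, sub_eq_zero] at h0
    exact h0.symm
  refine ⟨RingEquiv.ofBijective j ⟨j.injective, hsurj⟩, hj1, hjv⟩

end place


/-! ### Minimality -/

open WeierstrassCurve
open scoped Classical
open Pool.Agent.Y702.G (base MinimalAt E0)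

section mins2

variable {k K : Type} [Field k] [NumberField k] [Field K] [NumberField K] [Algebra k K]
  {v : HeightOneSpectrum (𝓞 K)} {p : HeightOneSpectrum (𝓞 k)}

/-- Approximation by rational numbers. -/
theorem approx_k (hval : ∀ x : k, v.valuation K (algebraMap k K x) = p.valuation k x)
    (hp : ResEq k v) (x : K) (c : K) (hc : c ≠ 0) :
    ∃ q : k, v.valuation K (x - algebraMap k K q) ≤ v.valuation K c := by
  have hc0 : v.valuation K c ≠ 0 := (Valuation.ne_zero_iff _).2 hc
  obtain ⟨q, hq⟩ := dense_rat hval hp x (-log (v.valuation K c)).toNat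
  refine ⟨q, hq.trans ?_⟩
  have h2 : exp (log (v.valuation K c)) = v.valuation K c := exp_log hc0
  generalize log (v.valuation K c) = m at *
  rw [← h2, exp_le_exp]
  omega

theorem s_mins' (W : WeierstrassCurve ℤ)
    (hval : ∀ x : k, v.valuation K (algebraMap k K x) = p.valuation k x)
    (hp : ResEq k v) (hmin : MinimalAt W p) : MinimalAt W v := by
  intro C h1 h2 h3 h4 h6
  have hu0 : (C.u : K) ≠ 0 := C.u.ne_zero
  obtain ⟨ϖ, hϖ⟩ := v.valuation_exists_uniformizer K
  have hϖ0 : ϖ ≠ 0 := by
    rintro rfl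
    rw [map_zero] at hϖ
    exact exp_ne_zero hϖ.symm
  -- `u'`
  obtain ⟨u', hu'⟩ := approx_k hval hp (C.u : K) (ϖ * C.u) (mul_ne_zero hϖ0 hu0)
  have huv : v.valuation K (C.u : K) ≠ 0 := (Valuation.ne_zero_iff _).2 hu0
  have hlt : v.valuation K ((C.u : K) - algebraMap k K u') < v.valuation K (C.u : K) := by
    refine lt_of_le_of_lt hu' ?_
    rw [map_mul, hϖ]
    have : exp (-1 : ℤ) < (1 : G0) := by rw [← exp_zero, exp_lt_exp]; norm_num
    calc exp (-1 : ℤ) * v.valuation K (C.u : K) < 1 * v.valuation K (C.u : K) := by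
          gcongr
          exact zero_lt_iff.2 huv
      _ = _ := one_mul _
  have hvu : v.valuation K (algebraMap k K u') = v.valuation K (C.u : K) := by
    have e1 : algebraMap k K u' = (C.u : K) - ((C.u : K) - algebraMap k K u') := by ring
    rw [e1, Valuation.map_sub_eq_of_lt_left _ hlt]
  have hu'0 : algebraMap k K u' ≠ 0 := by
    rw [← Valuation.ne_zero_iff (v.valuation K), hvu]
    exact huv
  have hu'00 : u' ≠ 0 := by rintro rfl; exact hu'0 (map_zero _)
  -- `s'`
  obtain ⟨s', hs'⟩ := approx_k hval hp C.s (C.u : K) hu0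
  -- `r'`
  obtain ⟨r', hr', hrs'⟩ : ∃ r' : k, v.valuation K (C.r - algebraMap k K r') ≤
      v.valuation K ((C.u : K) ^ 2) ∧
      v.valuation K ((C.r - algebraMap k K r') * C.s) ≤
      v.valuation K ((C.u : K) ^ 3) := by
    by_cases hs0 : C.s = 0
    · obtain ⟨r', hr'⟩ := approx_k hval hp C.r ((C.u : K) ^ 2) (pow_ne_zero _ hu0)
      exact ⟨r', hr', by rw [hs0, mul_zero, map_zero]; exact zero_le⟩
    · rcases le_total (v.valuation K ((C.u : K) ^ 2))
        (v.valuation K ((C.u : K) ^ 3 / C.s)) with h | h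
      · obtain ⟨r', hr'⟩ := approx_k hval hp C.r ((C.u : K) ^ 2) (pow_ne_zero _ hu0)
        refine ⟨r', hr', ?_⟩
        have h5 := hr'.trans h
        rw [map_div₀] at h5
        rw [map_mul]
        exact (le_div_iff₀ (zero_lt_iff.2 ((Valuation.ne_zero_iff _).2 hs0))).1 h5
      · obtain ⟨r', hr'⟩ := approx_k hval hp C.r ((C.u : K) ^ 3 / C.s)
          (div_ne_zero (pow_ne_zero _ hu0) hs0)
        refine ⟨r', hr'.trans h, ?_⟩
        rw [map_div₀] at hr'
        rw [map_mul]
        exact (le_div_iff₀ (zero_lt_iff.2 ((Valuation.ne_zero_iff _).2 hs0))).1 hr'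
  -- `t'`
  obtain ⟨t', ht'⟩ := approx_k hval hp C.t ((C.u : K) ^ 3) (pow_ne_zero _ hu0)
  let C' : VariableChange k := ⟨Units.mk0 u' hu'00, r', s', t'⟩
  have hbase : base W K = (base W k).map (algebraMap k K) := by
    show W.map _ = (W.map _).map _
    rw [WeierstrassCurve.map_map]
    congr 1
    exact RingHom.ext_int _ _
  have hmap : C'.map (algebraMap k K) • base W K = (C' • base W k).map (algebraMap k K) := by
    rw [hbase, map_variableChange]
  -- the difference of the two changes of variables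
  set E : VariableChange K := C'.map (algebraMap k K) * C⁻¹ with hE
  have hED : C'.map (algebraMap k K) • base W K = E • (C • base W K) := by
    rw [hE, mul_smul, inv_smul_smul]
  have hvc : ∀ (a : K) (n : ℕ), v.valuation K a ≤ v.valuation K ((C.u : K) ^ n) →
      v.valuation K (a / (C.u : K) ^ n) ≤ 1 := by
    intro a n h
    rw [map_div₀]
    exact (div_le_one₀ (zero_lt_iff.2 ((Valuation.ne_zero_iff _).2 (pow_ne_zero n hu0)))).2 h
  have Eu : ((E.u⁻¹ : Kˣ) : K) = (C.u : K) / algebraMap k K u' := by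
    have : E.u = (Units.mk0 _ hu'0) * C.u⁻¹ := by
      ext; rfl
    rw [this, mul_inv, inv_inv, Units.val_mul, mul_comm, Units.val_inv_eq_inv_val, Units.val_mk0,
      div_eq_mul_inv]
  have Er : E.r = -((C.r - algebraMap k K r') / (C.u : K) ^ 2) := by
    have : E.r = algebraMap k K r' * ((C.u⁻¹ : Kˣ) : K) ^ 2 + -C.r * ((C.u⁻¹ : Kˣ) : K) ^ 2 := rfl
    rw [this, Units.val_inv_eq_inv_val]
    field_simp
    ring
  have Es : E.s = -((C.s - algebraMap k K s') / (C.u : K) ^ 1) := by
    have : E.s = ((C.u⁻¹ : Kˣ) : K) * algebraMap k K s' + -C.s * ((C.u⁻¹ : Kˣ) : K) := rfl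
    rw [this, Units.val_inv_eq_inv_val]
    field_simp
    ring
  have Et : E.t = (C.r - algebraMap k K r') * C.s / (C.u : K) ^ 3 -
      (C.t - algebraMap k K t') / (C.u : K) ^ 3 := by
    have : E.t = algebraMap k K t' * ((C.u⁻¹ : Kˣ) : K) ^ 3 +
      algebraMap k K r' * (-C.s * ((C.u⁻¹ : Kˣ) : K)) * ((C.u⁻¹ : Kˣ) : K) ^ 2 +
      (C.r * C.s - C.t) * ((C.u⁻¹ : Kˣ) : K) ^ 3 := rfl
    rw [this, Units.val_inv_eq_inv_val]
    field_simp
    ring
  obtain ⟨k1, k2, k3, k4, k6⟩ := integral_smul (v.valuation K) E (C • base W K)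
    (by rw [Eu, map_div₀, hvu, div_self huv])
    (by rw [Er, Valuation.map_neg]; exact hvc _ 2 hr')
    (by rw [Es, Valuation.map_neg]; exact hvc _ 1 (by rw [pow_one]; exact hs'))
    (by
      rw [Et]
      exact (Valuation.map_sub _ _ _).trans (max_le (hvc _ 3 hrs') (hvc _ 3 ht'))) h1 h2 h3 h4 h6
  rw [← hED, hmap] at k1 k2 k3 k4 k6
  have m1 : v.valuation K (algebraMap k K (C' • base W k).a₁) ≤ 1 := k1
  have m2 : v.valuation K (algebraMap k K (C' • base W k).a₂) ≤ 1 := k2
  have m3 : v.valuation K (algebraMap k K (C' • base W k).a₃) ≤ 1 := k3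
  have m4 : v.valuation K (algebraMap k K (C' • base W k).a₄) ≤ 1 := k4
  have m6 : v.valuation K (algebraMap k K (C' • base W k).a₆) ≤ 1 := k6
  rw [hval] at m1 m2 m3 m4 m6
  have hΔ := hmin C' m1 m2 m3 m4 m6
  rw [← hval, ← hval, ← map_Δ, ← map_Δ, ← hbase, ← hmap, variableChange_Δ, map_mul,
    map_pow] at hΔ
  rw [variableChange_Δ, map_mul, map_pow]
  have e5 : v.valuation K ((C.u⁻¹ : Kˣ) : K) =
      v.valuation K (((C'.map (algebraMap k K)).u⁻¹ : Kˣ) : K) := by
    rw [Units.val_inv_eq_inv_val, Units.val_inv_eq_inv_val, map_inv₀, map_inv₀, ← hvu]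
    rfl
  rw [e5]
  exact hΔ

end mins2


section

variable {k K : Type} [Field k] [NumberField k] [Field K] [NumberField K] [Algebra k K]

/-- the Tamagawa index -/
theorem tams_rel (W : WeierstrassCurve ℤ) {v : HeightOneSpectrum (𝓞 K)}
    {p : HeightOneSpectrum (𝓞 k)}
    (hval : ∀ x : k, v.valuation K (algebraMap k K x) = p.valuation k x) (hp : ResEq k v) :
    (E0 W (v.adicCompletion K) Valued.v).index = (E0 W (p.adicCompletion k) Valued.v).index := by
  obtain ⟨e, -, he⟩ := exists_iso_rel hval hp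
  exact index_eq W _ _ e he

end

end Pool.Agent.P8H4.PL
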