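import Pool.Agent.Y702.G.Sel
import Pool.Agent.Y702.F.Tam
import Pool.Agent.Y852.GS.Tams
import Pool.Agent.Y852.GS.Mins
import Pool.Agent.Y779.G.Tam
import Pool.Agent.P8H4.PL.An9
import Pool.Agent.P8H4.PL.Rel

/-!
# Minimality and Tamagawa numbers over an extension in which the bad places split completely
-/

set_option autoImplicit false

open NumberField IsDedekindDomain WeierstrassCurve

namespace Pool.Agent.P8H4.PL

open scoped Classical
open Pool.Agent.Y702

/-- the Tamagawa number -/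
noncomputable def tn {K : Type} [Field K] [NumberField K] (W : WeierstrassCurve ℤ)
    (v : HeightOneSpectrum (𝓞 K)) : ℕ := (G.E0 W (v.adicCompletion K) Valued.v).index

section

variable {K : Type} [Field K] [NumberField K] {W : WeierstrassCurve ℤ}

lemma unit_of_good {v : HeightOneSpectrum (𝓞 K)} (hv : ((W.Δ : ℤ) : 𝓞 K) ∉ v.asIdeal) :
    v.valuation K (W.Δ : K) = 1 := by
  have e : algebraMap (𝓞 K) K ((W.Δ : ℤ) : 𝓞 K) = (W.Δ : K) := map_intCast _ _
  have h1 : v.valuation K (W.Δ : K) ≤ 1 := Fn.int_le_one v _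
  rcases h1.lt_or_eq with h2 | h2
  · exfalso
    apply hv
    have h3 := v.valuation_lt_one_iff_mem (K := K) ((W.Δ : ℤ) : 𝓞 K)
    have h4 : v.valuation K (algebraMap (𝓞 K) K ((W.Δ : ℤ) : 𝓞 K)) < 1 := by
      rw [e]; exact h2
    exact h3.1 h4
  · exact h2

lemma tn_good {v : HeightOneSpectrum (𝓞 K)} (hv : ((W.Δ : ℤ) : 𝓞 K) ∉ v.asIdeal) :
    tn W v = 1 := by
  have hint : ∀ n : ℤ, Valued.v ((n : ℤ) : v.adicCompletion K) ≤ 1 := fun n => by
    rw [Fn.valued_int]
    exact Fn.int_le_one v n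
  unfold tn
  rw [Pool.Agent.Y779.G.s_tamg W (v.adicCompletion K) Valued.v hint (by
    rw [Fn.valued_int]
    exact unit_of_good hv), AddSubgroup.index_top]

lemma min_good {v : HeightOneSpectrum (𝓞 K)} (hv : ((W.Δ : ℤ) : 𝓞 K) ∉ v.asIdeal) :
    G.MinimalAt W v := by
  intro C h1 h2 h3 h4 h6
  have e : (G.base W K).Δ = (W.Δ : K) := by
    rw [WeierstrassCurve.map_Δ]
    simp
  rw [e, unit_of_good hv]
  exact Fn.disc_le v _ h1 h2 h3 h4 h6

lemma tn_finite (hΔ : W.Δ ≠ 0) : {v : HeightOneSpectrum (𝓞 K) | tn W v ≠ 1}.Finite := by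
  refine (W165.CE.finite_bad (K := K) W.Δ hΔ).subset ?_
  intro v hv
  by_contra hcon
  apply hv
  apply tn_good
  intro h
  apply hcon
  have h6 : ((W.Δ.natAbs : ℕ) : 𝓞 K) ∈ v.asIdeal := by
    rcases Int.natAbs_eq W.Δ with h8 | h8
    · rw [h8] at h
      rw [Int.cast_natCast] at h
      exact h
    · rw [h8, Int.cast_neg, neg_mem_iff, Int.cast_natCast] at h
      exact h
  rw [Pool.Agent.H82R3.EK.natCast_mem_iff] at h6
  exact Int.natCast_dvd.2 h6

/-- a place of relative ramification index one -/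
theorem val_rel {k K : Type} [Field k] [NumberField k] [Field K] [NumberField K] [Algebra k K]
    (v : HeightOneSpectrum (𝓞 K)) (hv : ¬ Ram k v) (x : k) :
    v.valuation K (algebraMap k K x) = (v.under (𝓞 k)).valuation k x := by
  set p := v.under (𝓞 k) with hp
  have hlo : v.asIdeal.LiesOver p.asIdeal := ⟨rfl⟩
  have he1 : (v.asIdeal.under (𝓞 k)).ramificationIdx' v.asIdeal = 1 := by
    by_contra hcon
    rw [← Ne, Ideal.ramificationIdx'_ne_one_iff Ideal.map_comap_le] at hcon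
    exact hv hcon
  have he1 : p.asIdeal.ramificationIdx' v.asIdeal = 1 := he1
  rw [← HeightOneSpectrum.valuation_liesOver (A := 𝓞 k) K p v x, he1, pow_one]

/-- a place of relative degree one -/
theorem res_rel {k K : Type} [Field k] [NumberField k] [Field K] [NumberField K] [Algebra k K]
    (v : HeightOneSpectrum (𝓞 K))
    (hv : Ideal.absNorm v.asIdeal = Ideal.absNorm (v.asIdeal.under (𝓞 k))) : ResEq k v := by
  intro a
  have h0 : v.asIdeal.under (𝓞 k) ≠ ⊥ := Ideal.under_ne_bot (𝓞 k) v.ne_bot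
  have : Finite (𝓞 k ⧸ v.asIdeal.under (𝓞 k)) := Ring.HasFiniteQuotients.finiteQuotient h0
  have : Finite (𝓞 K ⧸ v.asIdeal) := Ideal.finiteQuotientOfFreeOfNeBot v.asIdeal v.ne_bot
  let ψ : (𝓞 k ⧸ v.asIdeal.under (𝓞 k)) →+* (𝓞 K ⧸ v.asIdeal) :=
    Ideal.quotientMap v.asIdeal (algebraMap (𝓞 k) (𝓞 K)) le_rfl
  have hinj : Function.Injective ψ := Ideal.quotientMap_injective
  have hcard : Nat.card (𝓞 k ⧸ v.asIdeal.under (𝓞 k)) = Nat.card (𝓞 K ⧸ v.asIdeal) := by
    rw [Ideal.absNorm_apply, Ideal.absNorm_apply, Submodule.cardQuot_apply,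
      Submodule.cardQuot_apply] at hv
    exact hv.symm
  have hsurj : Function.Surjective ψ :=
    ((Nat.bijective_iff_injective_and_card ψ).2 ⟨hinj, hcard⟩).2
  obtain ⟨y, hy⟩ := hsurj (Ideal.Quotient.mk _ a)
  obtain ⟨b, rfl⟩ := Ideal.Quotient.mk_surjective y
  refine ⟨b, ?_⟩
  rw [← Ideal.Quotient.eq_zero_iff_mem, map_sub, ← hy, Ideal.quotientMap_mk, sub_self]

variable {k : Type} [Field k] [NumberField k] [Algebra k K]

variable (k) in
/-- the bad places are of relative degree one and not ramified over `k` -/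
def BadSplit (W : WeierstrassCurve ℤ) (K : Type) [Field K] [NumberField K] [Algebra k K] : Prop :=
  ∀ v : HeightOneSpectrum (𝓞 K), ((W.Δ : ℤ) : 𝓞 K) ∈ v.asIdeal →
      (∀ x : k, v.valuation K (algebraMap k K x) = (v.under (𝓞 k)).valuation k x) ∧ ResEq k v

lemma tn_eq (hS : BadSplit k W K) (v : HeightOneSpectrum (𝓞 K)) :
    tn W v = tn W (v.under (𝓞 k)) := by
  by_cases hv : ((W.Δ : ℤ) : 𝓞 K) ∈ v.asIdeal
  · obtain ⟨h1, h2⟩ := hS v hv
    exact tams_rel W h1 h2
  · rw [tn_good hv, tn_good]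
    intro h
    apply hv
    have h2 : ((W.Δ : ℤ) : 𝓞 k) ∈ v.asIdeal.under (𝓞 k) := h
    rw [Ideal.mem_comap, map_intCast] at h2
    exact h2

lemma min_iff (hS : BadSplit k W K) (v : HeightOneSpectrum (𝓞 K)) :
    G.MinimalAt W v ↔ G.MinimalAt W (v.under (𝓞 k)) := by
  by_cases hv : ((W.Δ : ℤ) : 𝓞 K) ∈ v.asIdeal
  · obtain ⟨hval, h2⟩ := hS v hv
    constructor
    · intro h C h1 h2 h3 h4 h6
      have e2 : G.base W K = (G.base W k).map (algebraMap k K) := by
        unfold G.base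
        rw [WeierstrassCurve.map_map]
        congr 1
        exact Subsingleton.elim _ _
      have e : (C.map (algebraMap k K)) • G.base W K = (C • G.base W k).map (algebraMap k K) := by
        rw [e2, WeierstrassCurve.map_variableChange]
      have h := h (C.map (algebraMap k K))
      rw [e, e2] at h
      simp only [WeierstrassCurve.map_a₁, WeierstrassCurve.map_a₂, WeierstrassCurve.map_a₃,
        WeierstrassCurve.map_a₄, WeierstrassCurve.map_a₆,
        WeierstrassCurve.map_Δ (f := algebraMap k K), hval] at h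
      exact h h1 h2 h3 h4 h6
    · intro h
      exact s_mins' W hval h2 h
  · refine iff_of_true (min_good hv) (min_good ?_)
    intro h
    apply hv
    have h2 : ((W.Δ : ℤ) : 𝓞 k) ∈ v.asIdeal.under (𝓞 k) := h
    rw [Ideal.mem_comap, map_intCast] at h2
    exact h2

/-- minimality and the Tamagawa numbers -/
theorem loc_iff (hS : BadSplit k W K) (p : ℕ) :
    ((∀ v : HeightOneSpectrum (𝓞 K), G.MinimalAt W v) ∧
      ∀ v : HeightOneSpectrum (𝓞 K), ¬ p ∣ tn W v) ↔
    ((∀ v : HeightOneSpectrum (𝓞 k), G.MinimalAt W v) ∧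
      ∀ v : HeightOneSpectrum (𝓞 k), ¬ p ∣ tn W v) := by
  refine and_congr ⟨fun h v => ?_, fun h v => ?_⟩ ⟨fun h v => ?_, fun h v => ?_⟩
  · obtain ⟨w, rfl⟩ := exists_over (K := K) v
    exact (min_iff hS w).1 (h w)
  · exact (min_iff hS v).2 (h _)
  · obtain ⟨w, rfl⟩ := exists_over (K := K) v
    rw [← tn_eq hS]
    exact h w
  · rw [tn_eq hS]
    exact h _

omit [NumberField k] [Algebra k K] in
lemma prod_tn (hΔ : W.Δ ≠ 0) {p : ℕ} (hp : p.Prime) :
    ¬ p ∣ ∏ᶠ v : HeightOneSpectrum (𝓞 K), tn W v ↔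
      ∀ v : HeightOneSpectrum (𝓞 K), ¬ p ∣ tn W v := by
  rw [finprod_eq_prod_of_mulSupport_subset (s := (tn_finite hΔ).toFinset) (fun v => tn W v) (by
      intro w hw
      simpa using hw)]
  constructor
  · intro h v hv
    by_cases h1 : tn W v = 1
    · rw [h1] at hv
      exact hp.one_lt.ne' (Nat.dvd_one.1 hv)
    · exact h (hv.trans (Finset.dvd_prod_of_mem _ (by simpa using h1)))
  · intro h h1
    obtain ⟨v, -, hv⟩ := (Prime.dvd_finsetProd_iff hp.prime _).1 h1
    exact h v hv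

end

end Pool.Agent.P8H4.PL
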