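import Pool.Agent.P8H4.PL.Sha

/-!
# From the Tate-Shafarevich group to the Selmer group
-/

set_option autoImplicit false

open NumberField IsDedekindDomain WeierstrassCurve

namespace Pool.Agent.P8H4.PL

open Fr (Gq)
open Pool.Agent.TH841.SH.D (act Gal Coch IsCoc IsCob LocTriv cob)
open Pool.Agent.TH841.NF.D (Sha shaCoc IsShaCoc)

variable {W : WeierstrassCurve ℤ} {F : Type} [Field F] [NumberField F]
  {Ω : Type} [Field Ω] [CharZero Ω] [IsAlgClosed Ω] [Algebra.IsAlgebraic ℚ Ω]

omit [NumberField F] in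
/-- the isomorphism of the algebraic closures -/
lemma exists_iso [CharZero F] (i : F →+* Ω) : ∃ e : AlgebraicClosure F ≃+* Ω,
    ∀ x, e (algebraMap F (AlgebraicClosure F) x) = i x := by
  let i1 : Algebra F Ω := i.toAlgebra
  have : IsScalarTower ℚ F Ω := IsScalarTower.of_algebraMap_eq fun x => by simp
  have : Algebra.IsAlgebraic F Ω := Algebra.IsAlgebraic.tower_top (K := ℚ) F
  have : IsAlgClosure F Ω := ⟨inferInstance, inferInstance⟩
  let e : AlgebraicClosure F ≃ₐ[F] Ω := IsAlgClosure.equiv F _ _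
  exact ⟨e.toRingEquiv, fun x => e.commutes x⟩

/-- conjugation by the isomorphism -/
noncomputable def cjg (e : AlgebraicClosure F ≃+* Ω) (σ : Gal F) : RingAut Ω :=
  (e.symm.trans (σ : AlgebraicClosure F ≃+* AlgebraicClosure F)).trans e

omit [NumberField F] [CharZero Ω] [IsAlgClosed Ω] [Algebra.IsAlgebraic ℚ Ω] in
lemma cjg_apply (e : AlgebraicClosure F ≃+* Ω) (σ : Gal F) (x : AlgebraicClosure F) :
    cjg e σ (e x) = e (σ x) := by
  show e (σ (e.symm (e x))) = _
  rw [e.symm_apply_apply]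

theorem sel_of_sha {p : ℕ} (hp : p.Prime) (hp2 : 2 < p) (i : F →+* Ω)
    (hSha : ∀ s : Sha (base W F), p • s = 0 → s = 0) (hfin : Finite (Pt W F))
    (hcard : ¬ p ∣ Nat.card (Pt W F)) : SelTriv i W p := by
  classical
  obtain ⟨e, he⟩ := exists_iso i
  intro f hf hpf hloc
  have hmem : ∀ σ : Gal F, cjg e σ ∈ Gf i := by
    intro σ x
    rw [← he, cjg_apply, σ.commutes]
  let g : Coch (base W F) := fun σ => (tr W _).symm (mp (e.symm : Ω →+* AlgebraicClosure F)
    (f (cjg e σ)))
  have hg : ∀ σ, tr W _ (g σ) = mp (e.symm : Ω →+* AlgebraicClosure F) (f (cjg e σ)) := fun σ =>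
    AddEquiv.apply_symm_apply _ _
  have hcm : ∀ σ τ : Gal F, cjg e (σ * τ) = cjg e σ * cjg e τ := by
    intro σ τ
    ext x
    obtain ⟨y, rfl⟩ := e.surjective x
    show cjg e (σ * τ) (e y) = cjg e σ (cjg e τ (e y))
    rw [cjg_apply, cjg_apply, cjg_apply]
    rfl
  have hcomm : ∀ (σ : Gal F) (P : Pt W Ω), mp (e.symm : Ω →+* AlgebraicClosure F)
      (TO W (cjg e σ) P) = mp ((σ : AlgebraicClosure F →ₐ[F] AlgebraicClosure F) :
        AlgebraicClosure F →+* AlgebraicClosure F) (mp (e.symm : Ω →+* AlgebraicClosure F) P) := by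
    intro σ P
    unfold TO
    rw [mp_comp, mp_comp]
    refine mp_congr (fun x => ?_) _
    obtain ⟨y, rfl⟩ := e.surjective x
    show e.symm (cjg e σ (e y)) = σ (e.symm (e y))
    rw [cjg_apply, e.symm_apply_apply, e.symm_apply_apply]
  have hgmul : ∀ σ τ : Gal F, g (σ * τ) = g σ + act (base W F) σ.toAlgHom (g τ) := by
    intro σ τ
    apply (tr W _).injective
    rw [map_add, tr_act, hg, hg, hg, hcm, hf.mul _ (hmem σ) _ (hmem τ), map_add, hcomm]
  have hgc : IsCoc (base W F) g := by
    refine ⟨?_, hgmul⟩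
    rw [IsLocallyConstant.iff_eventually_eq]
    intro σ
    obtain ⟨S, hS⟩ := hf.cont
    let E : IntermediateField F (AlgebraicClosure F) :=
      IntermediateField.adjoin F ((S.image e.symm : Finset (AlgebraicClosure F)) : Set _)
    have hE : FiniteDimensional F E :=
      IntermediateField.finiteDimensional_adjoin fun x _ => Algebra.IsIntegral.isIntegral x
    have hU : (E.fixingSubgroup : Set (Gal F)) ∈ nhds (1 : Gal F) :=
      (E.fixingSubgroup_isOpen).mem_nhds (one_mem _)
    have h1 : Filter.Tendsto (fun τ : Gal F => σ⁻¹ * τ) (nhds σ) (nhds (1 : Gal F)) := by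
      have := (continuous_const_mul σ⁻¹).tendsto (X := Gal F) σ
      rwa [inv_mul_cancel] at this
    filter_upwards [h1 hU] with τ hτ
    have h2 : τ = σ * (σ⁻¹ * τ) := by rw [mul_inv_cancel_left]
    have h3 : g (σ⁻¹ * τ) = 0 := by
      apply (tr W _).injective
      rw [hg, map_zero]
      have h4 : f (cjg e (σ⁻¹ * τ)) = 0 := by
        apply hS _ (hmem _)
        intro x hx
        have h5 : (σ⁻¹ * τ) (e.symm x) = e.symm x := by
          have h6 : σ⁻¹ * τ ∈ E.fixingSubgroup := hτ
          rw [IntermediateField.mem_fixingSubgroup_iff] at h6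
          apply h6
          apply IntermediateField.subset_adjoin
          rw [Finset.mem_coe]
          exact Finset.mem_image_of_mem _ hx
        have h7 := cjg_apply e (σ⁻¹ * τ) (e.symm x)
        rw [e.apply_symm_apply, h5, e.apply_symm_apply] at h7
        exact h7
      rw [h4, map_zero]
    calc g τ = g (σ * (σ⁻¹ * τ)) := by rw [← h2]
      _ = g σ := by rw [hgmul, h3, map_zero, add_zero]
  have hpg : ∀ σ, p • g σ = 0 := by
    intro σ
    apply (tr W _).injective
    rw [map_nsmul, hg, ← map_nsmul, hpf _ (hmem σ), map_zero, map_zero]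
  have hgs : IsShaCoc (base W F) g := by
    refine ⟨hgc, loc_of_emb g ?_, loc_inf g hgc (hp.odd_of_ne_two hp2.ne') hpg⟩
    intro q _ ι
    obtain ⟨P, hP⟩ := hloc q (ι.comp (e.symm : Ω →+* AlgebraicClosure F))
    refine ⟨P, fun τ σ h => ?_⟩
    have h1 := hP τ (cjg e σ) (hmem σ) (by
      intro x
      obtain ⟨y, rfl⟩ := e.surjective x
      show τ (ι (e.symm (e y))) = ι (e.symm (cjg e σ (e y)))
      rw [cjg_apply, e.symm_apply_apply, e.symm_apply_apply, h])
    rw [hg, mp_comp]
    exact h1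
  have h0 : p • (QuotientAddGroup.mk (⟨g, hgs⟩ : shaCoc (base W F)) :
      (shaCoc (base W F)) ⧸ (cob (base W F)).addSubgroupOf (shaCoc (base W F))) = 0 := by
    rw [← QuotientAddGroup.mk_nsmul]
    have : p • (⟨g, hgs⟩ : shaCoc (base W F)) = 0 := Subtype.ext (funext fun σ => hpg σ)
    rw [this, QuotientAddGroup.mk_zero]
  have h1 : (QuotientAddGroup.mk (⟨g, hgs⟩ : shaCoc (base W F)) :
      (shaCoc (base W F)) ⧸ (cob (base W F)).addSubgroupOf (shaCoc (base W F))) = 0 := hSha _ h0
  rw [QuotientAddGroup.eq_zero_iff, AddSubgroup.mem_addSubgroupOf] at h1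
  obtain ⟨P, hP⟩ := h1
  have hP' : ∀ σ : Gal F, g σ = act (base W F) σ.toAlgHom P - P := hP
  set P' := tr W _ P with hP'def
  have hPσ : ∀ σ : Gal F, tr W _ (g σ) = mp ((σ : AlgebraicClosure F →ₐ[F] AlgebraicClosure F) :
      AlgebraicClosure F →+* AlgebraicClosure F) P' - P' := by
    intro σ
    rw [hP' σ, map_sub, tr_act]
  -- the multiple is rational
  obtain ⟨R, hR⟩ := fixed_pt (p • P') (fun σ => by
    rw [map_nsmul, ← sub_eq_zero, ← smul_sub, ← hPσ, ← map_nsmul, hpg, map_zero])
  obtain ⟨R', hR'⟩ : ∃ R' : Pt W F, p • R' = R := by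
    have hco : (Nat.card (Pt W F)).Coprime p := ((Nat.Prime.coprime_iff_not_dvd hp).2 hcard).symm
    exact (nsmulCoprime hco).surjective R
  set T := P' - mp (algebraMap F (AlgebraicClosure F)) R' with hTdef
  have hpT : p • T = 0 := by
    rw [hTdef, smul_sub, ← map_nsmul (mp (algebraMap F (AlgebraicClosure F))), hR', hR, sub_self]
  have hTσ : ∀ σ : Gal F, tr W _ (g σ) = mp ((σ : AlgebraicClosure F →ₐ[F] AlgebraicClosure F) :
      AlgebraicClosure F →+* AlgebraicClosure F) T - T := by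
    intro σ
    rw [hPσ, hTdef, map_sub, mp_comp]
    have : mp (((σ : AlgebraicClosure F →ₐ[F] AlgebraicClosure F) :
      AlgebraicClosure F →+* AlgebraicClosure F).comp (algebraMap F (AlgebraicClosure F))) R' =
      mp (algebraMap F (AlgebraicClosure F)) R' := mp_congr (fun x => σ.commutes x) _
    rw [this]
    abel
  refine ⟨mp (e : AlgebraicClosure F →+* Ω) T, by rw [← map_nsmul, hpT, map_zero], ?_⟩
  intro σ hσ
  -- `σ` comes from an element of the Galois group
  let σ' : Gal F := AlgEquiv.ofRingEquiv (f := (e.trans σ).trans e.symm) (fun x => by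
    show e.symm (σ (e (algebraMap F _ x))) = _
    rw [he, hσ, ← he, e.symm_apply_apply])
  have hσ' : cjg e σ' = σ := by
    ext x
    obtain ⟨y, rfl⟩ := e.surjective x
    rw [cjg_apply]
    show e (e.symm (σ (e y))) = _
    rw [e.apply_symm_apply]
  have h2 := hTσ σ'
  rw [hg, hσ'] at h2
  have h3 := congrArg (mp (W := W) (e : AlgebraicClosure F →+* Ω)) h2
  rw [mp_comp, map_sub] at h3
  have e1 : mp ((e : AlgebraicClosure F →+* Ω).comp (e.symm : Ω →+* AlgebraicClosure F)) (f σ) =
      f σ := by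
    have := mp_congr (W := W) (φ := (e : AlgebraicClosure F →+* Ω).comp
      (e.symm : Ω →+* AlgebraicClosure F)) (ψ := RingHom.id Ω) (fun x => e.apply_symm_apply x) (f σ)
    rw [this, mp_id]
  rw [e1] at h3
  rw [h3]
  congr 1
  unfold TO
  rw [mp_comp, mp_comp]
  refine mp_congr (fun x => ?_) _
  show e (σ' x) = σ (e x)
  show e (e.symm (σ (e x))) = _
  rw [e.apply_symm_apply]

/-- no points of order `p` over the base field -/
lemma fixed_tor {p : ℕ} (hp : p.Prime) (i : F →+* Ω) (_hfin : Finite (Pt W F))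
    (hcard : ¬ p ∣ Nat.card (Pt W F)) (T : Pt W Ω) (hT : p • T = 0)
    (hfix : ∀ σ ∈ Gf i, TO W σ T = T) : T = 0 := by
  obtain ⟨e, he⟩ := exists_iso i
  obtain ⟨R, hR⟩ := fixed_pt (mp (e.symm : Ω →+* AlgebraicClosure F) T) (fun σ => by
    have hmem : cjg e σ ∈ Gf i := by
      intro x
      rw [← he, cjg_apply, σ.commutes]
    conv_rhs => rw [← hfix _ hmem]
    unfold TO
    rw [mp_comp, mp_comp]
    refine mp_congr (fun x => ?_) _
    obtain ⟨y, rfl⟩ := e.surjective x
    show σ (e.symm (e y)) = e.symm (cjg e σ (e y))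
    rw [cjg_apply, e.symm_apply_apply, e.symm_apply_apply])
  have h1 : p • R = 0 := by
    apply mp_inj (W := W) (algebraMap F (AlgebraicClosure F))
    rw [map_nsmul, hR, ← map_nsmul, hT, map_zero, map_zero]
  have h2 : R = 0 := by
    by_contra hne
    have : Fact p.Prime := ⟨hp⟩
    have h3 := addOrderOf_eq_prime h1 hne
    exact hcard (h3 ▸ addOrderOf_dvd_natCard R)
  rw [h2, map_zero] at hR
  exact mp_inj (W := W) (e.symm : Ω →+* AlgebraicClosure F) (by rw [← hR, map_zero])

end Pool.Agent.P8H4.PL
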