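import Pool.Agent.P8H4.PL.Res

/-!
# The places which are not ramified
-/

set_option autoImplicit false

open NumberField IsDedekindDomain

namespace Pool.Agent.P8H4.PL

open Pool.Agent.TH841.NF (pid mem_pid pls lf mem_lf norm_int norm_le_one_of_val)
open Fr (Gq norm_eqv frob)

variable {q : ℕ} [Fact q.Prime]
variable {k K : Type} [Field k] [NumberField k] [Field K] [NumberField K] [Algebra k K]

variable (k) in
/-- the place of `K` is ramified over `k` -/
def Ram (v : HeightOneSpectrum (𝓞 K)) : Prop :=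
  Ideal.map (algebraMap (𝓞 k) (𝓞 K)) (v.asIdeal.under (𝓞 k)) ≤ v.asIdeal ^ 2

lemma inertia_one [IsGalois k K] (v : HeightOneSpectrum (𝓞 K)) (hv : ¬ Ram k v)
    (σ : Gal(K/k)) (hσ : ∀ y : 𝓞 K, σ • y - y ∈ v.asIdeal) : σ = 1 := by
  have hPp : v.asIdeal.IsPrime := v.isPrime
  set I : Ideal (𝓞 k) := v.asIdeal.under (𝓞 k) with hIdef
  have hIprime : I.IsPrime := inferInstance
  have hover : v.asIdeal.LiesOver I := inferInstance
  have hI0 : I ≠ ⊥ := Ideal.under_ne_bot (𝓞 k) v.ne_bot
  have hImax : I.IsMaximal := hIprime.isMaximal hI0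
  have hfin : Finite (𝓞 k ⧸ I) := Ring.HasFiniteQuotients.finiteQuotient hI0
  have hcard : Nat.card (v.asIdeal.inertia Gal(K/k)) = Ideal.ramificationIdxIn I (𝓞 K) :=
    Ideal.card_inertia_eq_ramificationIdxIn I v.asIdeal
  have h1 : Ideal.ramificationIdxIn I (𝓞 K) = v.asIdeal.ramificationIdx (𝓞 k) :=
    Ideal.ramificationIdxIn_eq_ramificationIdx I v.asIdeal Gal(K/k)
  have h2 : I.ramificationIdx' v.asIdeal = v.asIdeal.ramificationIdx (𝓞 k) :=
    Ideal.ramificationIdx'_eq_ramificationIdx I v.asIdeal hI0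
  have h3 : Nat.card (v.asIdeal.inertia Gal(K/k)) ≤ 1 := by
    by_contra hcon
    rw [not_le, hcard, h1, ← h2] at hcon
    apply hv
    refine (Ideal.le_pow_ramificationIdx' (p := I) (P := v.asIdeal)).trans ?_
    exact Ideal.pow_le_pow_right hcon
  have h4 : Subsingleton (v.asIdeal.inertia Gal(K/k)) := by
    rw [← Finite.card_le_one_iff_subsingleton]
    exact h3
  have h5 := Subsingleton.elim (⟨σ, hσ⟩ : v.asIdeal.inertia Gal(K/k)) 1
  exact congrArg Subtype.val h5

omit [NumberField k] [NumberField K] in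
/-- an element of the decomposition group of `k` induces an automorphism of `K` -/
lemma gal_of_fix [Normal k K] {L : Type} [Field L] (ρ : L ≃+* L) (j : K →+* L)
    (hρ : ∀ x : k, ρ (j (algebraMap k K x)) = j (algebraMap k K x)) :
    ∃ σ : Gal(K/k), ∀ x, ρ (j x) = j (σ x) := by
  let _ : Algebra k L := (j.comp (algebraMap k K)).toAlgebra
  let _ : Algebra K L := j.toAlgebra
  have : IsScalarTower k K L := IsScalarTower.of_algebraMap_eq fun x => rfl
  let ρ' : L ≃ₐ[k] L := AlgEquiv.ofRingEquiv (f := ρ) hρ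
  refine ⟨ρ'.restrictNormal K, fun x => ?_⟩
  exact (ρ'.restrictNormal_commutes K x).symm

/-- the place of `K` is not ramified over `k`: an element of the decomposition group of `k` which
acts trivially on the residues of a finite set is in the decomposition group of `K` -/
theorem unr_set [IsGalois k K] (j : K →+* PadicAlgCl q) (hv : ¬ Ram k (pls j)) :
    ∃ S : Finset (PadicAlgCl q), (∀ x ∈ S, ‖x‖ ≤ 1) ∧
      ∀ ρ ∈ Dj (j.comp (algebraMap k K)), (∀ x ∈ S, ‖ρ x - x‖ < 1) → ρ ∈ Dj j := by
  classical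
  let b := RingOfIntegers.basis K
  refine ⟨Finset.univ.image (fun i => j (algebraMap (𝓞 K) K (b i))), ?_, ?_⟩
  · intro x hx
    obtain ⟨i, -, rfl⟩ := Finset.mem_image.1 hx
    exact norm_int j _
  · intro ρ hρ h1
    obtain ⟨σ, hσ⟩ := gal_of_fix (ρ : PadicAlgCl q ≃+* PadicAlgCl q) j hρ
    have h2 : σ = 1 := by
      apply inertia_one (pls j) hv
      intro y
      have h3 : y ∈ Submodule.span ℤ (Set.range b) := by rw [b.span_eq]; trivial
      induction h3 using Submodule.span_induction with
      | mem z hz =>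
        obtain ⟨i, rfl⟩ := hz
        show ‖j (algebraMap (𝓞 K) K (σ • b i - b i))‖ < 1
        have h4 := h1 _ (Finset.mem_image_of_mem _ (Finset.mem_univ i))
        have h5 : ρ (j (algebraMap (𝓞 K) K (b i))) = j (σ (algebraMap (𝓞 K) K (b i))) := hσ _
        rw [h5, ← map_sub] at h4
        rw [map_sub]
        exact h4
      | zero => rw [smul_zero, sub_zero]; exact zero_mem _
      | add x y _ _ hx hy =>
        rw [smul_add, add_sub_add_comm]
        exact add_mem hx hy
      | smul a x _ hx =>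
        have e : σ • (a • x) - a • x = a • (σ • x - x) := by
          rw [smul_sub, smul_comm]
        rw [e, zsmul_eq_mul]
        exact Ideal.mul_mem_left _ _ hx
    rw [mem_Dj]
    intro x
    have h3 : ρ (j x) = j (σ x) := hσ x
    rw [h3, h2]
    rfl

end Pool.Agent.P8H4.PL
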