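import Pool.Agent.P8H4.PL.Sha2

/-!
# The Selmer group over the base field in terms of the Selmer group over a Galois extension
-/

set_option autoImplicit false

open NumberField IsDedekindDomain

namespace Pool.Agent.P8H4.PL

open Fr (Gq)

variable {W : WeierstrassCurve ℤ} {Ω : Type} [Field Ω]
variable {k K : Type} [Field k] [NumberField k] [Field K] [NumberField K] [Algebra k K]

omit [NumberField k] [NumberField K] in
lemma Gf_le (i : K →+* Ω) : Gf i ≤ Gf (i.comp (algebraMap k K)) := fun _ hσ _ => hσ _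

omit [NumberField k] [NumberField K] in
lemma Gf_normal [IsGalois k K] (i : K →+* Ω) {σ τ : RingAut Ω}
    (hσ : σ ∈ Gf (i.comp (algebraMap k K))) (hτ : τ ∈ Gf i) : σ⁻¹ * τ * σ ∈ Gf i := by
  intro x
  obtain ⟨ρ, hρ⟩ := gal_of_fix (k := k) (K := K) (σ : Ω ≃+* Ω) i (fun x => hσ x)
  have h1 : τ (i (ρ x)) = i (ρ x) := hτ _
  have h2 : σ (i x) = i (ρ x) := hρ x
  show σ⁻¹ (τ (σ (i x))) = i x
  rw [h2, h1, ← h2]
  exact σ.symm_apply_apply (i x)

omit [NumberField k] [NumberField K] in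
theorem sel_down [IsGalois k K] {p : ℕ} (i : K →+* Ω)
    (hE : ∀ T : Pt W Ω, p • T = 0 → (∀ σ ∈ Gf i, TO W σ T = T) → T = 0)
    (hS : SelTriv i W p) : SelTriv (i.comp (algebraMap k K)) W p := by
  intro f hf hpf hloc
  have hle := Gf_le (k := k) i
  obtain ⟨T, hT, h1⟩ := hS f ⟨by
    obtain ⟨S, hS⟩ := hf.cont
    exact ⟨S, fun σ hσ h => hS σ (hle hσ) h⟩, fun σ hσ τ hτ => hf.mul σ (hle hσ) τ (hle hτ)⟩
    (fun σ hσ => hpf σ (hle hσ)) (fun q _ ι => by
      obtain ⟨P, hP⟩ := hloc q ι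
      exact ⟨P, fun τ σ hσ h => hP τ σ (hle hσ) h⟩)
  refine ⟨T, hT, fun σ hσ => ?_⟩
  -- the difference vanishes
  have hg : f σ - (TO W σ T - T) = 0 := by
    apply hE
    · rw [smul_sub, smul_sub, hpf σ hσ, ← map_nsmul, hT, map_zero, sub_zero, sub_zero]
    · intro τ hτ
      have hτ0 := hle hτ
      have hn := Gf_normal (k := k) i hσ hτ
      have e1 : f (τ * σ) = f τ + TO W τ (f σ) := hf.mul τ hτ0 σ hσ
      have e2 : f (σ * (σ⁻¹ * τ * σ)) = f σ + TO W σ (f (σ⁻¹ * τ * σ)) :=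
        hf.mul σ hσ _ (hle hn)
      have e3 : σ * (σ⁻¹ * τ * σ) = τ * σ := by group
      rw [e3, e1, h1 τ hτ, h1 _ hn, map_sub, ← TO_mul, e3, TO_mul] at e2
      rw [map_sub, map_sub]
      have e4 : TO W τ (f σ) = f σ + (TO W τ (TO W σ T) - TO W σ T) - (TO W τ T - T) := by
        rw [← e2]; abel
      rw [e4]
      abel
  exact sub_eq_zero.1 hg

end Pool.Agent.P8H4.PL
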