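import Pool.Agent.P8H4.PL.Two

/-!
# The Euler product over a subfield of a cyclotomic field, for all residue degrees
-/

set_option autoImplicit false

open NumberField IsDedekindDomain H300.HW Filter
open UpperHalfPlane MatrixGroups CongruenceSubgroup
open Pool.Agent.H921R2.TatePole
open W165.CE (pw pw_eq pw_luc finite_bad intCast_mem_iff)
open Pool.Agent.H82R3.EK (luc luc_eq card_points natCast_mem_iff nm_cpow prime_cpow)
open Pool.Agent.Y702.L (pv local_quad)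
open Pool.Agent.Y702.G
open Pool.Agent.Y18.BSD (co)

namespace Pool.Agent.P8H4.PL

open Pool.Agent.Y238.G (card_quot charP_quot pts_cubic mem_iff multipliable_factor)

section
variable {K : Type} [Field K] [NumberField K]

lemma pw_zero (t : ℂ) : ∀ n : ℕ, n ≠ 0 → pw t 0 n = t ^ n
  | 0 => fun h => absurd rfl h
  | 1 => fun _ => by simp [pw]
  | n + 2 => fun _ => by
    rw [pw, pw_zero t (n + 1) (Nat.succ_ne_zero n), zero_mul, sub_zero]
    ring

/-- the coefficient at the finite places -/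
lemma av_eq' (W : WeierstrassCurve ℤ) (v : HeightOneSpectrum (𝓞 K)) (u : ℂ)
    (hu : ¬ ((below v : ℕ) : ℤ) ∣ W.Δ → u = ((below v : ℕ) : ℂ))
    (hu' : ((below v : ℕ) : ℤ) ∣ W.Δ → u = 0) :
    ((av W v : ℤ) : ℂ) =
      pw (((below v : ℕ) : ℂ) - (pts W (ZMod (below v : ℕ)) : ℂ)) u (deg v) := by
  have hmax : v.asIdeal.IsMaximal := v.isPrime.isMaximal v.ne_bot
  let _ : Field (𝓞 K ⧸ v.asIdeal) := Ideal.Quotient.field v.asIdeal
  have : Finite (𝓞 K ⧸ v.asIdeal) := Ideal.finiteQuotientOfFreeOfNeBot v.asIdeal v.ne_bot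
  let _ : Fintype (𝓞 K ⧸ v.asIdeal) := Fintype.ofFinite _
  have hch := charP_quot v
  have hfp : Fact (below v : ℕ).Prime := ⟨(below v).2⟩
  obtain ⟨h1, h2, h3⟩ := nm_eq v
  have hcard : Ideal.absNorm v.asIdeal = Fintype.card (𝓞 K ⧸ v.asIdeal) := by
    rw [Ideal.absNorm_apply, Submodule.cardQuot_apply, Nat.card_eq_fintype_card]
  let _ : Algebra (ZMod (below v : ℕ)) (𝓞 K ⧸ v.asIdeal) := ZMod.algebra _ _
  have hfin : Module.finrank (ZMod (below v : ℕ)) (𝓞 K ⧸ v.asIdeal) = deg v := by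
    apply Nat.pow_right_injective (below v).2.two_le
    show (below v : ℕ) ^ _ = (below v : ℕ) ^ _
    rw [FiniteField.pow_finrank_eq_natCard (below v : ℕ), card_quot]
  have e3 : (((below v : ℕ) : ℂ) - (pts W (ZMod (below v : ℕ)) : ℂ)) =
      ((((below v : ℕ) : ℤ) - (pts W (ZMod (below v : ℕ)) : ℤ) : ℤ) : ℂ) := by
    push_cast
    rfl
  by_cases hpD : ((below v : ℕ) : ℤ) ∣ W.Δ
  · -- bad reduction
    rw [hu' hpD, pw_zero _ _ h2.ne', e3]
    have e1 := pts_bad (q := (below v : ℕ)) (k := 𝓞 K ⧸ v.asIdeal) W hpD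
    rw [hfin, Nat.card_eq_fintype_card] at e1
    rw [← Int.cast_pow]
    congr 1
    unfold av
    rw [hcard]
    exact e1
  rw [hu hpD]
  have e4 : ((below v : ℕ) : ℂ) = (((below v : ℕ) : ℤ) : ℂ) := by
    push_cast
    rfl
  by_cases hp2 : (below v : ℕ) = 2
  · -- two
    rw [e3, e4, pw_luc]
    congr 1
    unfold av
    rw [hcard]
    have key : ∀ (q : ℕ) (_ : q = 2) (_ : Fact q.Prime) (_ : ¬ (q : ℤ) ∣ W.Δ)
        (_ : Algebra (ZMod q) (𝓞 K ⧸ v.asIdeal)),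
        (Fintype.card (𝓞 K ⧸ v.asIdeal) : ℤ) - pts W (𝓞 K ⧸ v.asIdeal) =
        luc ((q : ℤ) - pts W (ZMod q)) q (Module.finrank (ZMod q) (𝓞 K ⧸ v.asIdeal)) := by
      rintro q rfl _ hq _
      exact pts_two W hq _
    rw [← hfin]
    exact key _ hp2 hfp hpD _
  have h20 : (2 : 𝓞 K ⧸ v.asIdeal) ≠ 0 := by
    intro h
    have h' : ((2 : ℕ) : 𝓞 K ⧸ v.asIdeal) = 0 := by exact_mod_cast h
    rw [CharP.cast_eq_zero_iff (𝓞 K ⧸ v.asIdeal) (below v : ℕ)] at h'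
    exact hp2 ((Nat.prime_dvd_prime_iff_eq (below v).2 Nat.prime_two).1 h')
  have h20' : (2 : ZMod (below v : ℕ)) ≠ 0 := by
    intro h
    have h' : ((2 : ℕ) : ZMod (below v : ℕ)) = 0 := by exact_mod_cast h
    rw [ZMod.natCast_eq_zero_iff] at h'
    exact hp2 ((Nat.prime_dvd_prime_iff_eq (below v).2 Nat.prime_two).1 h')
  have e1 := Pool.Agent.Y18.JT.s_cubext (below v : ℕ) hp2 W.b₂ (8 * W.b₄) (16 * W.b₆) (by
    intro h
    have h5 : W.b₂ ^ 2 * (8 * W.b₄) ^ 2 - 4 * (8 * W.b₄) ^ 3 - 4 * W.b₂ ^ 3 * (16 * W.b₆) -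
        27 * (16 * W.b₆) ^ 2 + 18 * W.b₂ * (8 * W.b₄) * (16 * W.b₆) = 2 ^ 8 * W.Δ := by
      have h6 := W.b_relation
      simp only [WeierstrassCurve.Δ]
      linear_combination (64 * W.b₂ ^ 2) * h6
    rw [h5] at h
    have hp : Prime ((below v : ℕ) : ℤ) := Nat.prime_iff_prime_int.1 (below v).2
    rcases hp.dvd_or_dvd h with h8 | h8
    · have h9 : ((below v : ℕ) : ℤ) ∣ ((2 : ℕ) : ℤ) := by
        exact_mod_cast hp.dvd_of_dvd_pow h8
      exact hp2 ((Nat.prime_dvd_prime_iff_eq (below v).2 Nat.prime_two).1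
        (Int.natCast_dvd_natCast.1 h9))
    · exact hpD h8) (𝓞 K ⧸ v.asIdeal)
  rw [hfin, ← pts_cubic W (𝓞 K ⧸ v.asIdeal) h20,
    ← pts_cubic W (ZMod (below v : ℕ)) h20'] at e1
  rw [e3, e4, pw_luc]
  congr 1
  unfold av
  rw [hcard]
  exact e1

/-- the factor in terms of the prime below -/
lemma factor_eq' (W : WeierstrassCurve ℤ) (v : HeightOneSpectrum (𝓞 K)) (s u : ℂ)
    (hu : u = if ((below v : ℕ) : ℤ) ∣ W.Δ then (0 : ℂ) else (below v : ℕ)) :
    factor W s v = (1 - pw (((below v : ℕ) : ℂ) - (pts W (ZMod (below v : ℕ)) : ℂ)) u (deg v) *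
        (((below v : ℕ) : ℂ) ^ (-s)) ^ deg v +
      u ^ deg v * (((below v : ℕ) : ℂ) ^ (-s)) ^ (2 * deg v))⁻¹ := by
  have hdeg : deg v ≠ 0 := (nm_eq v).2.1.ne'
  unfold factor
  rw [av_eq' W v u (fun h => by rw [hu, if_neg h]) (fun h => by rw [hu, if_pos h]), nm_cpow]
  by_cases h : ((below v : ℕ) : ℤ) ∣ W.Δ
  · rw [if_pos h] at hu
    rw [if_pos ((mem_iff W v).2 h), hu, zero_pow hdeg, zero_mul]
  · rw [if_neg h] at hu
    have hpc : ((Ideal.absNorm v.asIdeal : ℕ) : ℂ) ^ (1 - 2 * s) =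
        (((below v : ℕ) : ℂ)) ^ deg v * (((below v : ℕ) : ℂ) ^ (-s)) ^ (2 * deg v) := by
      rw [nm_cpow, prime_cpow _ (below v).2.ne_zero, mul_pow, ← pow_mul]
    rw [if_neg (fun h' => h ((mem_iff W v).1 h')), hu, hpc]

end

open Classical in
/-- the Euler product over the subfield `F` of the cyclotomic field -/
theorem s_hasp' (W : WeierstrassCurve ℤ) (N : ℕ) [NeZero N]
    (f : CuspForm (Gamma0 N : Subgroup (GL (Fin 2) ℝ)) 2) (hf : IsForm W N f)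
    (n : ℕ) [NeZero n] (L : Type) [Field L] [NumberField L] [IsCyclotomicExtension {n} ℚ L]
    (F : IntermediateField ℚ L) (G : DirichletCharacter ℂ n → ℂ → ℂ) (s : ℂ) (hs : 3 / 2 < s.re)
    (hG : ∀ χ ∈ YY n L F, HasProd (fun p : Nat.Primes =>
      (1 - co f p * pv n χ p * ((p : ℕ) : ℂ) ^ (-s) +
        (if (p : ℕ) ∣ N then (0 : ℂ) else (p : ℕ)) * pv n χ p ^ 2 *
          ((p : ℕ) : ℂ) ^ (-2 * s))⁻¹) (G χ s)) :
    HasProd (factor (K := F) W s) (∏ᶠ χ : YY n L F, G χ s) := by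
  have hab : IsAbelianGalois ℚ L := IsCyclotomicExtension.isAbelianGalois {n} ℚ L
  rw [finprod_eq_prod_of_fintype]
  have h1 : HasProd (fun p : Nat.Primes => ∏ χ : YY n L F,
      (1 - co f p * pv n χ p * ((p : ℕ) : ℂ) ^ (-s) +
        (if (p : ℕ) ∣ N then (0 : ℂ) else (p : ℕ)) * pv n χ p ^ 2 *
          ((p : ℕ) : ℂ) ^ (-2 * s))⁻¹)
      (∏ χ : YY n L F, G χ s) := by
    apply hasProd_prod
    intro χ _
    exact hG χ.1 χ.2
  have h2 : ∀ p : Nat.Primes, ∏ χ : YY n L F,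
      (1 - co f p * pv n χ p * ((p : ℕ) : ℂ) ^ (-s) +
        (if (p : ℕ) ∣ N then (0 : ℂ) else (p : ℕ)) * pv n χ p ^ 2 *
          ((p : ℕ) : ℂ) ^ (-2 * s))⁻¹ =
      ∏ v : {v : HeightOneSpectrum (𝓞 F) // below v = p}, factor W s v.1 := by
    intro p
    have hlev : (if (p : ℕ) ∣ N then (0 : ℂ) else ((p : ℕ) : ℂ)) =
        if ((p : ℕ) : ℤ) ∣ W.Δ then (0 : ℂ) else ((p : ℕ) : ℂ) := by
      by_cases h : (p : ℕ) ∣ N
      · rw [if_pos h, if_pos ((hf.level p p.2).1 h)]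
      · rw [if_neg h, if_neg (fun h' => h ((hf.level p p.2).2 h'))]
    rw [hlev]
    set u : ℂ := if ((p : ℕ) : ℤ) ∣ W.Δ then (0 : ℂ) else ((p : ℕ) : ℂ) with hu
    have h3 : ∀ v : {v : HeightOneSpectrum (𝓞 F) // below v = p}, factor W s v.1 =
        (1 - pw (((p : ℕ) : ℂ) - (pts W (ZMod (p : ℕ)) : ℂ)) u (deg v.1) *
          (((p : ℕ) : ℂ) ^ (-s)) ^ deg v.1 +
          u ^ deg v.1 * (((p : ℕ) : ℂ) ^ (-s)) ^ (2 * deg v.1))⁻¹ := by
      rintro ⟨v, hv⟩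
      subst hv
      exact factor_eq' W v s u hu
    have h4 : ∏ v : {v : HeightOneSpectrum (𝓞 F) // below v = p}, factor W s v.1 =
        (∏ v : {v : HeightOneSpectrum (𝓞 F) // below v = p},
          (1 - pw (((p : ℕ) : ℂ) - (pts W (ZMod (p : ℕ)) : ℂ)) u (deg v.1) *
          (((p : ℕ) : ℂ) ^ (-s)) ^ deg v.1 +
          u ^ deg v.1 * (((p : ℕ) : ℂ) ^ (-s)) ^ (2 * deg v.1)))⁻¹ := by
      rw [Finset.prod_congr rfl (fun v _ => h3 v), Finset.prod_inv_distrib]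
    rw [h4,
      local_quad n L F p (((p : ℕ) : ℂ) - (pts W (ZMod (p : ℕ)) : ℂ)) u (((p : ℕ) : ℂ) ^ (-s)),
      ← Finset.prod_inv_distrib]
    refine Finset.prod_congr rfl fun χ _ => ?_
    rw [hf.coef p p.2]
    congr 1
    have e1 : ((p : ℕ) : ℂ) ^ (-2 * s) = (((p : ℕ) : ℂ) ^ (-s)) ^ 2 := by
      rw [← Complex.cpow_nat_mul]
      congr 1
      push_cast
      ring
    rw [e1]
    ring
  simp_rw [h2] at h1
  have h3 : Multipliable (factor (K := F) W s) := multipliable_factor W s hs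
  rw [← (Equiv.sigmaFiberEquiv (below (K := F))).hasProd_iff]
  refine HasProd.sigma_of_hasProd h1 (fun p => ?_) ?_
  · exact hasProd_fintype _
  · exact (Equiv.sigmaFiberEquiv (below (K := F))).multipliable_iff.2 h3

end Pool.Agent.P8H4.PL
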