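import Pool.Agent.P8H4.PL.An5
import Pool.Agent.P8H4.PL.Hasp

/-!
# The `L`-function over a subfield of a cyclotomic field and its central value
-/

set_option autoImplicit false

open Filter Topology MeasureTheory Set UpperHalfPlane MatrixGroups CongruenceSubgroup Finset
open NumberField IsDedekindDomain H300.HW NumberField.InfinitePlace

namespace Pool.Agent.P8H4.PL

open Pool.Agent.Y702.G (IsForm factor factor_conj twist)
open Pool.Agent.Y18.BSD (co bv PG)
open Pool.Agent.Y702.L (pv conj_diff card_even_odd prim_neg_one)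

section pl

variable {n : ℕ} [NeZero n] {L : Type} [Field L] [NumberField L] [IsCyclotomicExtension {n} ℚ L]
  {F : IntermediateField ℚ L}

open Classical in
/-- the product of the periods -/
lemma prod_kp {Op Om : ℝ} (hOp : 0 < Op) (hOm : 0 < Om) :
    ‖∏ χ : YY n L F, kp Op Om ((χ : DirichletCharacter ℂ n) (-1) = 1)‖ =
    Op ^ (nrRealPlaces F + nrComplexPlaces F) * Om ^ nrComplexPlaces F := by
  obtain ⟨h1, h2⟩ := card_even_odd (n := n) (L := L) (F := F)
  have e1 : ∀ χ : YY n L F, ‖kp Op Om ((χ : DirichletCharacter ℂ n) (-1) = 1)‖ =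
      (if (χ : DirichletCharacter ℂ n) (-1) = 1 then Op else Om) := by
    intro χ
    unfold kp
    split_ifs
    · rw [Complex.norm_real, Real.norm_eq_abs, abs_of_pos hOp]
    · rw [norm_mul, Complex.norm_I, mul_one, Complex.norm_real, Real.norm_eq_abs, abs_of_pos hOm]
  rw [norm_prod, Finset.prod_congr rfl (fun χ _ => e1 χ), Finset.prod_ite,
    Finset.prod_const, Finset.prod_const, h1, h2]

lemma card_YY' : Nat.card (YY n L F) = Module.finrank ℚ F := by
  have hgal : IsGalois ℚ L := IsCyclotomicExtension.isGalois {n} ℚ L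
  rw [card_YY, ← IntermediateField.finrank_eq_fixingSubgroup_index]

end pl

variable {W : WeierstrassCurve ℤ} {N : ℕ} [NeZero N]
  {f : CuspForm (Gamma0 N : Subgroup (GL (Fin 2) ℝ)) 2}

open Classical in
theorem l_val {Op Om : ℝ} (hOp : 0 < Op) (hOm : 0 < Om) {D : ℤ} {A B : ℚ → ℤ}
    (hf : IsForm W N f) (hS : IsSym f Op Om D A B) (n : ℕ) [NeZero n] (hsq : Squarefree n)
    (hco : Nat.Coprime n N)
    (L : Type) [Field L] [NumberField L] [IsCyclotomicExtension {n} ℚ L]
    (K : IntermediateField ℚ L) :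
    ∃ G : ℂ → ℂ, Differentiable ℂ G ∧
      (∀ s : ℂ, 3 / 2 < s.re → HasProd (factor (K := K) W s) (G s)) ∧
      (G 1).im = 0 ∧ ∃ M : ℤ, ∏ χ : YY n L K, SC' A B (χ : DirichletCharacter ℂ n) = (M : ZB) ∧
        |(D : ℝ)| ^ (Module.finrank ℚ K) * (‖G 1‖ * Real.sqrt |(discr K : ℝ)|) =
        |(M : ℝ)| * (Op ^ (nrRealPlaces K + nrComplexPlaces K) * Om ^ nrComplexPlaces K) := by
  have htw := fun χ : DirichletCharacter ℂ n => twist hf χ.conductor
    (Nat.Coprime.coprime_dvd_left χ.conductor_dvd_level hco) χ.primitiveCharacter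
    χ.primitiveCharacter_isPrimitive
  choose Gc hG1 hG2 hG3 using htw
  set G : ℂ → ℂ := fun s => ∏ χ : YY n L K, Gc χ s with hG
  have hGd : Differentiable ℂ G := by
    rw [hG]
    exact Differentiable.fun_finsetProd fun χ _ => hG1 χ
  have hGp : ∀ s : ℂ, 3 / 2 < s.re → HasProd (factor (K := K) W s) (G s) := by
    intro s hs
    have h1 := s_hasp' W N f hf n L K Gc s hs (fun χ _ => hG2 χ s hs)
    rw [finprod_eq_prod_of_fintype] at h1
    exact h1
  refine ⟨G, hGd, hGp, ?_, ?_⟩
  · -- reality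
    set H : ℂ → ℂ := fun s => (starRingEnd ℂ) (G ((starRingEnd ℂ) s)) with hH
    have hHd : Differentiable ℂ H := conj_diff hGd
    have h1 : ∀ s : ℂ, 3 / 2 < s.re → H s = G s := by
      intro s hs
      have h2 := hGp ((starRingEnd ℂ) s) (by simpa using hs)
      have h3 := (hGp s hs).map (starRingEnd ℂ) Complex.continuous_conj
      have h4 : ((starRingEnd ℂ) ∘ factor (K := K) W s) = factor (K := K) W ((starRingEnd ℂ) s) := by
        funext v
        exact (factor_conj s v).symm
      rw [h4] at h3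
      have h5 := h2.unique h3
      show (starRingEnd ℂ) (G ((starRingEnd ℂ) s)) = G s
      rw [h5, Complex.conj_conj]
    have h2 : H = G := by
      have hHa : AnalyticOnNhd ℂ H Set.univ := fun z _ => hHd.analyticAt z
      have hGa : AnalyticOnNhd ℂ G Set.univ := fun z _ => hGd.analyticAt z
      refine hHa.eq_of_eventuallyEq hGa (z₀ := 2) ?_
      have hopen : IsOpen {s : ℂ | 3 / 2 < s.re} := isOpen_lt continuous_const Complex.continuous_re
      filter_upwards [hopen.mem_nhds (show (2 : ℂ) ∈ {s : ℂ | 3 / 2 < s.re} by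
        simp only [Set.mem_ofPred_eq]; norm_num)] with s hs
      exact h1 s hs
    have h3 := congrFun h2 1
    simp only [hH, map_one] at h3
    exact Complex.conj_eq_iff_im.1 h3
  · -- the value
    obtain ⟨M, hM⟩ := prod_int A B (YY n L K)
    refine ⟨M, hM, ?_⟩
    have hfac : ∀ χ : YY n L K, (D : ℂ) *
        (gaussSum ((χ : DirichletCharacter ℂ n).primitiveCharacter)⁻¹
        (ZMod.stdAddChar (N := (χ : DirichletCharacter ℂ n).conductor)) * Gc χ 1) =
        kp Op Om ((χ : DirichletCharacter ℂ n) (-1) = 1) *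
          ((SC' A B (χ : DirichletCharacter ℂ n) : ZB) : ℂ) := by
      rintro ⟨χ, hχ⟩
      have hne : NeZero χ.conductor := ⟨χ.conductor_ne_zero⟩
      show (D : ℂ) * (gaussSum (χ.primitiveCharacter)⁻¹ (ZMod.stdAddChar (N := χ.conductor)) *
        Gc χ 1) = kp Op Om (χ (-1) = 1) * ((SC' A B χ : ZB) : ℂ)
      rw [hG3 χ, hS.sum, SC'_val]
      have hm : (χ.primitiveCharacter)⁻¹ (-1) = 1 ↔ χ (-1) = 1 := by
        have e1 : (χ.primitiveCharacter)⁻¹ (-1) = (χ (-1))⁻¹ := by
          rw [← prim_neg_one χ, MulChar.inv_apply_eq_inv']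
        rw [e1, inv_eq_one]
      have h2 : kp Op Om ((χ.primitiveCharacter)⁻¹ (-1) = 1) = kp Op Om (χ (-1) = 1) := by
        unfold kp
        simp only [hm]
      have h3 : (if (χ.primitiveCharacter)⁻¹ (-1) = 1 then A else B) =
          (if χ (-1) = 1 then A else B) := by
        simp only [hm]
      rw [h2, h3]
    have e1 : (D : ℂ) ^ (Module.finrank ℚ K) * ∏ χ : YY n L K,
        (gaussSum ((χ : DirichletCharacter ℂ n).primitiveCharacter)⁻¹
        (ZMod.stdAddChar (N := (χ : DirichletCharacter ℂ n).conductor)) * Gc χ 1) =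
        (∏ χ : YY n L K, kp Op Om ((χ : DirichletCharacter ℂ n) (-1) = 1)) * M := by
      have h1 : ((M : ZB) : ℂ) = ∏ χ : YY n L K, ((SC' A B (χ : DirichletCharacter ℂ n) : ZB) : ℂ) := by
        rw [← hM]
        exact map_prod (algebraMap ZB ℂ) _ _
      have h2 : ((M : ZB) : ℂ) = (M : ℂ) := map_intCast (algebraMap ZB ℂ) M
      rw [← h2, h1, ← Finset.prod_mul_distrib, ← Finset.prod_congr rfl (fun χ _ => hfac χ),
        Finset.prod_mul_distrib (f := fun _ : YY n L K => (D : ℂ)), Finset.prod_const,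
        Finset.card_univ, ← Nat.card_eq_fintype_card, card_YY']
    rw [Finset.prod_mul_distrib] at e1
    have e2 := congrArg norm e1
    rw [norm_mul, norm_mul, norm_mul, norm_pow, prod_kp hOp hOm, norm_prod, Complex.norm_intCast,
      Complex.norm_intCast] at e2
    have e3 : ∏ χ : YY n L K, ‖gaussSum ((χ : DirichletCharacter ℂ n).primitiveCharacter)⁻¹
        (ZMod.stdAddChar (N := (χ : DirichletCharacter ℂ n).conductor))‖ =
        Real.sqrt |(discr K : ℝ)| := by
      have h1 := Pool.Agent.Y18.JT.s_discr Pool.Agent.Y702.L.s_points n L K hsq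
      rw [finprod_eq_prod_of_fintype] at h1
      have h2 : |(discr K : ℝ)| = ∏ χ : YY n L K, ((χ : DirichletCharacter ℂ n).conductor : ℝ) := by
        rw [← Int.cast_abs, Int.abs_eq_natAbs, h1]
        push_cast
        rfl
      rw [h2]
      symm
      rw [Real.sqrt_eq_iff_mul_self_eq (Finset.prod_nonneg fun χ _ => Nat.cast_nonneg _)
        (Finset.prod_nonneg fun χ _ => norm_nonneg _), ← Finset.prod_mul_distrib]
      refine Finset.prod_congr rfl fun χ _ => ?_
      rw [← pow_two]
      symm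
      exact H385.GaussAux.norm_sq_gaussSum
        (Pool.Agent.W440.TW.inv_primitive _ (χ : DirichletCharacter ℂ n).primitiveCharacter_isPrimitive)
    rw [e3] at e2
    rw [mul_comm ‖G 1‖]
    have e4 : ‖G 1‖ = ‖∏ χ : YY n L K, Gc χ 1‖ := rfl
    rw [e4, e2]
    ring

end Pool.Agent.P8H4.PL
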