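import Pool.Agent.Y18.BSD.Fib

/-!
# Sums of integral symbols twisted by characters with values in a ring
-/

set_option autoImplicit false

open Finset

namespace Pool.Agent.P8H4.PL

open Pool.Agent.Y18.BSD (FF core)

variable {R : Type} [CommRing R]

/-- the twisted sum -/
noncomputable def TS (A : ℚ → ℤ) (M : ℕ) [NeZero M] (χ : DirichletCharacter R M) : R :=
  ∑ u : (ZMod M)ˣ, χ (u : ZMod M) * ((A (((u : ZMod M).val : ℚ) / M) : ℤ) : R)

/-- the Hecke relation -/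
def Hk (A : ℚ → ℤ) (a : ℤ) (l : ℕ) : Prop :=
  ∀ r : ℚ, a * A r = A (l * r) + ∑ u ∈ range l, A ((r + u) / l)

lemma ts_step (A : ℚ → ℤ) (hA : ∀ r, A (r + 1) = A r) (a : ℤ) (l M N : ℕ) [NeZero M] [NeZero N]
    (hl : l.Prime) (hco : Nat.Coprime l M) (hN : N = l * M) (hk : Hk A a l) (h : M ∣ N)
    (χ : DirichletCharacter R M) :
    TS A N (DirichletCharacter.changeLevel h χ) = ((a : R) - χ (l : ZMod M) - χ⁻¹ (l : ZMod M)) *
      TS A M χ := by
  classical
  have hM : 0 < M := NeZero.pos M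
  let c : (ZMod M)ˣ := ZMod.unitOfCoprime l hco
  have hc : (c : ZMod M) = (l : ℕ) := ZMod.coe_unitOfCoprime _ _
  set f : ℚ → ℂ := fun r => ((A r : ℤ) : ℂ) with hf
  have hcore : ∀ b : (ZMod M)ˣ, ∑ u ∈ (univ : Finset (ZMod N)ˣ).filter
      (fun u => ZMod.unitsMap h u = b), A (((u : ZMod N).val : ℚ) / N) =
      a * A (((b : ZMod M).val : ℚ) / M) - A ((((c * b : (ZMod M)ˣ) : ZMod M).val : ℚ) / M) -
        A ((((c⁻¹ * b : (ZMod M)ˣ) : ZMod M).val : ℚ) / M) := by
    intro b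
    have h1 := core f (fun r => by rw [hf]; simp only [hA]) (a : ℂ) l M N hl hM hco hN (fun r => by
      rw [hf]
      have h2 := congrArg (fun x : ℤ => (x : ℂ)) (hk r)
      push_cast at h2
      exact h2) h c b hc
    have h2 : (((∑ u ∈ (univ : Finset (ZMod N)ˣ).filter
      (fun u => ZMod.unitsMap h u = b), A (((u : ZMod N).val : ℚ) / N)) : ℤ) : ℂ) =
      ((a * A (((b : ZMod M).val : ℚ) / M) - A ((((c * b : (ZMod M)ˣ) : ZMod M).val : ℚ) / M) -
        A ((((c⁻¹ * b : (ZMod M)ˣ) : ZMod M).val : ℚ) / M) : ℤ) : ℂ) := by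
      push_cast
      exact h1
    exact_mod_cast h2
  -- the fibres
  have h1 : TS A N (DirichletCharacter.changeLevel h χ) =
      ∑ b : (ZMod M)ˣ, ∑ u ∈ (univ : Finset (ZMod N)ˣ).filter
      (fun u => ZMod.unitsMap h u = b), (DirichletCharacter.changeLevel h χ) (u : ZMod N) *
        ((A (((u : ZMod N).val : ℚ) / N) : ℤ) : R) := by
    unfold TS
    exact (Finset.sum_fiberwise _ _ _).symm
  have h2 : ∀ b : (ZMod M)ˣ, ∑ u ∈ (univ : Finset (ZMod N)ˣ).filter
      (fun u => ZMod.unitsMap h u = b), (DirichletCharacter.changeLevel h χ) (u : ZMod N) *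
        ((A (((u : ZMod N).val : ℚ) / N) : ℤ) : R) =
      χ (b : ZMod M) * ((a : R) * ((A (((b : ZMod M).val : ℚ) / M) : ℤ) : R) -
        ((A ((((c * b : (ZMod M)ˣ) : ZMod M).val : ℚ) / M) : ℤ) : R) -
        ((A ((((c⁻¹ * b : (ZMod M)ˣ) : ZMod M).val : ℚ) / M) : ℤ) : R)) := by
    intro b
    have h3 := congrArg (fun x : ℤ => (x : R)) (hcore b)
    simp only [Int.cast_sub, Int.cast_mul, Int.cast_sum] at h3
    rw [← h3, Finset.mul_sum]
    refine Finset.sum_congr rfl fun u hu => ?_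
    have hu' := (Finset.mem_filter.1 hu).2
    congr 1
    rw [DirichletCharacter.changeLevel_eq_cast_of_dvd, ← hu', ZMod.unitsMap_val]
  rw [h1, Finset.sum_congr rfl fun b _ => h2 b]
  have hinv : χ⁻¹ (l : ZMod M) = χ ((c⁻¹ : (ZMod M)ˣ) : ZMod M) := by
    rw [← hc, MulChar.inv_apply, Ring.inverse_unit]
  have h5 : ∑ b : (ZMod M)ˣ, χ (b : ZMod M) *
      ((A ((((c * b : (ZMod M)ˣ) : ZMod M).val : ℚ) / M) : ℤ) : R) =
      χ⁻¹ (l : ZMod M) * TS A M χ := by
    unfold TS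
    rw [hinv, ← Equiv.sum_comp (Equiv.mulLeft c⁻¹) (fun b => χ (b : ZMod M) *
      ((A ((((c * b : (ZMod M)ˣ) : ZMod M).val : ℚ) / M) : ℤ) : R)), Finset.mul_sum]
    refine Finset.sum_congr rfl fun b _ => ?_
    simp only [Equiv.coe_mulLeft]
    rw [mul_inv_cancel_left, Units.val_mul, map_mul]
    ring
  have h6 : ∑ b : (ZMod M)ˣ, χ (b : ZMod M) *
      ((A ((((c⁻¹ * b : (ZMod M)ˣ) : ZMod M).val : ℚ) / M) : ℤ) : R) =
      χ (l : ZMod M) * TS A M χ := by
    unfold TS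
    rw [← hc, ← Equiv.sum_comp (Equiv.mulLeft c) (fun b => χ (b : ZMod M) *
      ((A ((((c⁻¹ * b : (ZMod M)ˣ) : ZMod M).val : ℚ) / M) : ℤ) : R)), Finset.mul_sum]
    refine Finset.sum_congr rfl fun b _ => ?_
    simp only [Equiv.coe_mulLeft]
    rw [inv_mul_cancel_left, Units.val_mul, map_mul]
    ring
  have h7 : ∑ b : (ZMod M)ˣ, χ (b : ZMod M) * ((a : R) * ((A (((b : ZMod M).val : ℚ) / M) : ℤ) : R) -
        ((A ((((c * b : (ZMod M)ˣ) : ZMod M).val : ℚ) / M) : ℤ) : R) -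
        ((A ((((c⁻¹ * b : (ZMod M)ˣ) : ZMod M).val : ℚ) / M) : ℤ) : R)) =
      (a : R) * TS A M χ - (∑ b : (ZMod M)ˣ, χ (b : ZMod M) *
      ((A ((((c * b : (ZMod M)ˣ) : ZMod M).val : ℚ) / M) : ℤ) : R)) -
        ∑ b : (ZMod M)ˣ, χ (b : ZMod M) *
      ((A ((((c⁻¹ * b : (ZMod M)ˣ) : ZMod M).val : ℚ) / M) : ℤ) : R) := by
    unfold TS
    rw [Finset.mul_sum, ← Finset.sum_sub_distrib, ← Finset.sum_sub_distrib]
    refine Finset.sum_congr rfl fun b _ => by ring
  rw [h7, h5, h6]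
  ring

/-- the sum for the modulus `(∏ S) M'` in terms of the sum for the modulus `M'` -/
theorem ts_prod (A : ℚ → ℤ) (hA : ∀ r, A (r + 1) = A r) (a : ℕ → ℤ) (M' : ℕ) [NeZero M']
    (χ : DirichletCharacter R M') (S : Finset ℕ) : (∀ l ∈ S, l.Prime ∧ Nat.Coprime l M') →
    (∀ l ∈ S, Hk A (a l) l) → ∀ (M : ℕ) [NeZero M] (h : M' ∣ M), M = (∏ l ∈ S, l) * M' →
    TS A M (DirichletCharacter.changeLevel h χ) =
      (∏ l ∈ S, (((a l : ℤ) : R) - χ (l : ZMod M') - χ⁻¹ (l : ZMod M'))) * TS A M' χ := by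
  classical
  induction S using Finset.induction_on with
  | empty =>
    intro _ _ M _ h hM
    rw [Finset.prod_empty, one_mul] at hM
    subst hM
    rw [Finset.prod_empty, one_mul, DirichletCharacter.changeLevel_self]
  | insert q S hq ih =>
    intro hp hh M _ h hM
    rw [Finset.prod_insert hq] at hM
    have hM0 : (∏ l ∈ S, l) * M' ≠ 0 := by
      apply mul_ne_zero _ (NeZero.ne M')
      rw [Finset.prod_ne_zero_iff]
      intro l hl
      exact (hp l (Finset.mem_insert_of_mem hl)).1.ne_zero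
    have : NeZero ((∏ l ∈ S, l) * M') := ⟨hM0⟩
    have hd : M' ∣ (∏ l ∈ S, l) * M' := dvd_mul_left _ _
    have hd2 : (∏ l ∈ S, l) * M' ∣ M := ⟨q, by rw [hM]; ring⟩
    obtain ⟨hqp, hqM⟩ := hp q (Finset.mem_insert_self q S)
    have hqco : Nat.Coprime q ((∏ l ∈ S, l) * M') := by
      refine Nat.Coprime.mul_right ?_ hqM
      rw [Nat.coprime_prod_right_iff]
      intro l hl
      exact (Nat.coprime_primes hqp (hp l (Finset.mem_insert_of_mem hl)).1).2
        (fun e => hq (e ▸ hl))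
    have e1 : DirichletCharacter.changeLevel h χ =
        DirichletCharacter.changeLevel hd2 (DirichletCharacter.changeLevel hd χ) := by
      rw [← DirichletCharacter.changeLevel_trans]
    have hqu : IsUnit ((q : ZMod ((∏ l ∈ S, l) * M'))) := (ZMod.isUnit_iff_coprime _ _).2 hqco
    have hcast : (ZMod.cast (q : ZMod ((∏ l ∈ S, l) * M')) : ZMod M') = (q : ZMod M') :=
      ZMod.cast_natCast hd q
    have e2 : ∀ ψ : DirichletCharacter R M', (DirichletCharacter.changeLevel hd ψ)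
        (q : ZMod ((∏ l ∈ S, l) * M')) = ψ (q : ZMod M') := by
      intro ψ
      obtain ⟨u, hu⟩ := hqu
      rw [← hu, DirichletCharacter.changeLevel_eq_cast_of_dvd, hu, hcast]
    rw [e1, ts_step A hA (a q) q ((∏ l ∈ S, l) * M') M hqp hqco (by rw [hM]; ring)
      (hh q (Finset.mem_insert_self q S)) hd2, ih (fun l hl => hp l (Finset.mem_insert_of_mem hl))
      (fun l hl => hh l (Finset.mem_insert_of_mem hl)) ((∏ l ∈ S, l) * M') hd rfl,
      Finset.prod_insert hq, ← map_inv, e2, e2]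
    ring

/-- change of the ring -/
lemma ts_map {S : Type} [CommRing S] (φ : R →+* S) (A : ℚ → ℤ) (M : ℕ) [NeZero M]
    (χ : DirichletCharacter R M) : φ (TS A M χ) = TS A M (MulChar.ringHomComp χ φ) := by
  unfold TS
  rw [map_sum]
  refine Finset.sum_congr rfl fun u _ => ?_
  rw [map_mul, map_intCast, MulChar.ringHomComp_apply]

end Pool.Agent.P8H4.PL
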