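import Mathlib

/-!
# Group theory: fixed points, extension of cocycles, local cocycles
-/

set_option autoImplicit false

namespace Pool.Agent.P8H4.PL.Gr

section fix

variable {G Y : Type} [Group G] [AddCommGroup Y] (T : G → Y →+ Y) (T1 : ∀ a, T 1 a = a)
  (Tm : ∀ g h a, T (g * h) a = T g (T h a))

include T1 Tm in
/-- a `p`-group which acts on a nonzero group of exponent `p` has a nonzero fixed element -/
theorem exists_fix {p : ℕ} (hp : p.Prime) (N : Subgroup G) [hN : N.Normal] {n : ℕ}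
    (hidx : N.index = p ^ n) (hT : ∀ g ∈ N, ∀ y, T g y = y) (hY : ∀ y : Y, p • y = 0) {x : Y}
    (hx : x ≠ 0) : ∃ y : Y, y ≠ 0 ∧ ∀ g, T g y = y := by
  classical
  have : Fact p.Prime := ⟨hp⟩
  -- the orbit is finite
  have hidx0 : N.index ≠ 0 := by rw [hidx]; exact pow_ne_zero _ hp.ne_zero
  have : N.FiniteIndex := ⟨hidx0⟩
  have horb : (Set.range fun g => T g x).Finite := by
    have h1 : (Set.range fun g => T g x) ⊆ Set.range (fun z : G ⧸ N => T z.out x) := by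
      rintro _ ⟨g, rfl⟩
      refine ⟨(g : G ⧸ N), ?_⟩
      obtain ⟨h, hh⟩ := QuotientGroup.mk_out_eq_mul N g
      show T ((g : G ⧸ N).out) x = T g x
      rw [hh, Tm, hT h h.2]
    exact (Set.finite_range _).subset h1
  let X : AddSubgroup Y := AddSubgroup.closure (Set.range fun g => T g x)
  have hxX : x ∈ X := AddSubgroup.subset_closure ⟨1, T1 x⟩
  have hXfg : X.FG := ⟨horb.toFinset, by rw [Set.Finite.coe_toFinset]⟩
  have : Finite X := by
    have : AddGroup.FG X := (AddGroup.fg_iff_addSubgroup_fg X).2 hXfg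
    have : Module.Finite ℤ X := Module.Finite.iff_addGroup_fg.2 inferInstance
    apply AddCommGroup.finite_of_fg_isAddTorsion
    intro y
    rw [isOfFinAddOrder_iff_nsmul_eq_zero]
    exact ⟨p, hp.pos, Subtype.ext (hY y)⟩
  have hstab : ∀ g, ∀ y ∈ X, T g y ∈ X := by
    intro g y hy
    induction hy using AddSubgroup.closure_induction with
    | mem z hz =>
      obtain ⟨h, rfl⟩ := hz
      exact AddSubgroup.subset_closure ⟨g * h, Tm g h x⟩
    | zero => rw [map_zero]; exact zero_mem _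
    | add a b _ _ ha hb => rw [map_add]; exact add_mem ha hb
    | neg a _ ha => rw [map_neg]; exact neg_mem ha
  let φ : G →* Equiv.Perm X :=
    { toFun := fun g =>
        { toFun := fun y => ⟨T g y, hstab g y y.2⟩
          invFun := fun y => ⟨T g⁻¹ y, hstab _ y y.2⟩
          left_inv := fun y => Subtype.ext (by
            show T g⁻¹ (T g y) = y
            rw [← Tm, inv_mul_cancel, T1])
          right_inv := fun y => Subtype.ext (by
            show T g (T g⁻¹ y) = y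
            rw [← Tm, mul_inv_cancel, T1]) }
      map_one' := by
        ext y
        exact T1 y
      map_mul' := fun g h => by
        ext y
        exact Tm g h y }
  let ψ : G ⧸ N →* Equiv.Perm X := QuotientGroup.lift N φ (fun g hg => by
    ext y
    exact hT g hg y)
  let _ : MulAction (G ⧸ N) X := MulAction.compHom X ψ
  have hpg : IsPGroup p (G ⧸ N) := IsPGroup.of_card (n := n) (by
    rw [← hidx]; rfl)
  have hdvd : p ∣ Nat.card X := by
    have h1 : addOrderOf (⟨x, hxX⟩ : X) = p := by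
      apply addOrderOf_eq_prime
      · exact Subtype.ext (hY x)
      · intro h
        exact hx (congrArg Subtype.val h)
    rw [← h1]
    exact addOrderOf_dvd_natCard _
  have h0 : (0 : X) ∈ MulAction.fixedPoints (G ⧸ N) X := by
    intro g
    obtain ⟨g, rfl⟩ := QuotientGroup.mk_surjective g
    exact Subtype.ext (map_zero (T g))
  obtain ⟨b, hb, hb0⟩ := hpg.exists_fixed_point_of_prime_dvd_card_of_fixed_point X hdvd h0
  refine ⟨b, fun h => hb0 (Subtype.ext h.symm), fun g => ?_⟩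
  exact congrArg Subtype.val (hb (g : G ⧸ N))

include T1 Tm in
/-- relative form -/
theorem exists_fix_rel {p : ℕ} (hp : p.Prime) (N : Subgroup G) [hN : N.Normal] {n : ℕ}
    (hidx : N.index = p ^ n) (S B : AddSubgroup Y) (hS : ∀ g, ∀ y ∈ S, T g y ∈ S)
    (hB : ∀ g, ∀ y ∈ B, T g y ∈ B) (hT : ∀ g ∈ N, ∀ y ∈ S, T g y - y ∈ B)
    (hY : ∀ y ∈ S, p • y ∈ B) {x : Y} (hx : x ∈ S) (hxB : x ∉ B) :
    ∃ y ∈ S, y ∉ B ∧ ∀ g, T g y - y ∈ B := by
  let TS : G → S →+ S := fun g => ((T g).comp S.subtype).codRestrict S (fun y => hS g y y.2)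
  have hTS : ∀ g, (B.addSubgroupOf S) ≤ (B.addSubgroupOf S).comap (TS g) := by
    intro g y hy
    rw [AddSubgroup.mem_comap, AddSubgroup.mem_addSubgroupOf]
    rw [AddSubgroup.mem_addSubgroupOf] at hy
    exact hB g _ hy
  let TQ : G → (S ⧸ B.addSubgroupOf S) →+ (S ⧸ B.addSubgroupOf S) := fun g =>
    QuotientAddGroup.map _ _ (TS g) (hTS g)
  have hTQ : ∀ g (y : S), TQ g (y : S ⧸ B.addSubgroupOf S) =
      ((TS g y : S) : S ⧸ B.addSubgroupOf S) := fun g y => rfl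
  have hz : ∀ y : S, ((y : S) : S ⧸ B.addSubgroupOf S) = 0 ↔ (y : Y) ∈ B := by
    intro y
    rw [QuotientAddGroup.eq_zero_iff, AddSubgroup.mem_addSubgroupOf]
  obtain ⟨y, hy0, hy⟩ := exists_fix TQ (by
      intro a
      obtain ⟨a, rfl⟩ := QuotientAddGroup.mk_surjective a
      rw [hTQ]
      congr 1
      exact Subtype.ext (T1 a)) (by
      intro g h a
      obtain ⟨a, rfl⟩ := QuotientAddGroup.mk_surjective a
      rw [hTQ, hTQ, hTQ]
      congr 1
      exact Subtype.ext (Tm g h a)) hp N hidx (by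
      intro g hg a
      obtain ⟨a, rfl⟩ := QuotientAddGroup.mk_surjective a
      rw [hTQ, ← sub_eq_zero, ← QuotientAddGroup.mk_sub, hz]
      exact hT g hg a a.2) (by
      intro a
      obtain ⟨a, rfl⟩ := QuotientAddGroup.mk_surjective a
      rw [← QuotientAddGroup.mk_nsmul, hz]
      exact hY a a.2) (x := ((⟨x, hx⟩ : S) : S ⧸ B.addSubgroupOf S)) (fun h => hxB ((hz _).1 h))
  obtain ⟨y, rfl⟩ := QuotientAddGroup.mk_surjective y
  refine ⟨y, y.2, fun h => hy0 ((hz y).2 h), fun g => ?_⟩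
  have h1 := hy g
  rw [hTQ, ← sub_eq_zero, ← QuotientAddGroup.mk_sub, hz] at h1
  exact h1

end fix

section coc

variable {G A : Type} [Group G] [AddCommGroup A] (T : G → A →+ A) (T1 : ∀ a, T 1 a = a)
  (Tm : ∀ g h a, T (g * h) a = T g (T h a)) {p : ℕ}

include T1 Tm in
/-- no fixed points for a subgroup of index a power of `p` -/
theorem fixN (hp : p.Prime) (D N : Subgroup G) (hND : N ≤ D)
    (hnor : ∀ σ ∈ D, ∀ τ ∈ N, σ⁻¹ * τ * σ ∈ N) {n : ℕ} (hidx : N.relIndex D = p ^ n)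
    (hD : ∀ a, p • a = 0 → (∀ σ ∈ D, T σ a = a) → a = 0) (a : A) (ha : p • a = 0)
    (haN : ∀ σ ∈ N, T σ a = a) : a = 0 := by
  by_contra hne
  let Y : AddSubgroup A :=
    { carrier := {b | p • b = 0 ∧ ∀ σ ∈ N, T σ b = b}
      zero_mem' := ⟨smul_zero _, fun σ _ => map_zero _⟩
      add_mem' := fun {b c} hb hc => ⟨by rw [smul_add, hb.1, hc.1, add_zero], fun σ hσ => by
        rw [map_add, hb.2 σ hσ, hc.2 σ hσ]⟩
      neg_mem' := fun {b} hb => ⟨by rw [smul_neg, hb.1, neg_zero], fun σ hσ => by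
        rw [map_neg, hb.2 σ hσ]⟩ }
  have hY : ∀ σ ∈ D, ∀ b ∈ Y, T σ b ∈ Y := by
    intro σ hσ b hb
    refine ⟨by rw [← map_nsmul, hb.1, map_zero], fun τ hτ => ?_⟩
    have h1 := hb.2 _ (hnor σ hσ τ hτ)
    have h2 : T σ (T (σ⁻¹ * τ * σ) b) = T τ (T σ b) := by
      rw [← Tm, ← Tm]
      congr 2
      group
    rw [← h2, h1]
  have : (N.subgroupOf D).Normal := ⟨fun τ hτ σ => by
    rw [Subgroup.mem_subgroupOf] at hτ ⊢
    have := hnor (σ : G)⁻¹ (D.inv_mem σ.2) _ hτ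
    rw [inv_inv] at this
    exact this⟩
  let TY : D → Y →+ Y := fun g => ((T g).comp Y.subtype).codRestrict Y (fun y => hY g g.2 y y.2)
  obtain ⟨y, hy0, hy⟩ := exists_fix TY (fun b => Subtype.ext (T1 b))
    (fun g h b => Subtype.ext (Tm g h b)) hp (N.subgroupOf D) hidx
    (fun g hg b => Subtype.ext (b.2.2 g (Subgroup.mem_subgroupOf.1 hg)))
    (fun b => Subtype.ext b.2.1) (x := ⟨a, ha, haN⟩) (fun h => hne (congrArg Subtype.val h))
  apply hy0
  apply Subtype.ext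
  exact hD y y.2.1 fun σ hσ => congrArg Subtype.val (hy ⟨σ, hσ⟩)

include T1 Tm in
/-- extension of a cocycle with fixed class -/
theorem ext_coc (N : Subgroup G) [hN : N.Normal]
    (hA : ∀ a, p • a = 0 → (∀ σ ∈ N, T σ a = a) → a = 0) (f : G → A)
    (hf : ∀ σ ∈ N, ∀ τ ∈ N, f (σ * τ) = f σ + T σ (f τ)) (hpf : ∀ σ ∈ N, p • f σ = 0)
    (hfix : ∀ σ, ∃ t, p • t = 0 ∧ ∀ τ ∈ N, T σ (f (σ⁻¹ * τ * σ)) - f τ = T τ t - t) :
    ∃ g : G → A, (∀ σ τ, g (σ * τ) = g σ + T σ (g τ)) ∧ (∀ σ, p • g σ = 0) ∧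
      ∀ σ ∈ N, g σ = f σ := by
  choose t ht0 ht using hfix
  have huniq : ∀ a b, p • a = 0 → p • b = 0 → (∀ τ ∈ N, T τ a - a = T τ b - b) → a = b := by
    intro a b ha hb h
    rw [← sub_eq_zero]
    apply hA _ (by rw [smul_sub, ha, hb, sub_zero])
    intro τ hτ
    have h1 := h τ hτ
    rw [map_sub, sub_eq_sub_iff_add_eq_add, ← sub_eq_sub_iff_add_eq_add]
    have h2 : T τ a - T τ b - (a - b) = (T τ a - a) - (T τ b - b) := by abel
    rw [h1, sub_self, sub_eq_zero] at h2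
    rw [sub_eq_sub_iff_add_eq_add]
    have h3 : T τ a - T τ b = a - b := h2
    rw [sub_eq_sub_iff_add_eq_add] at h3
    exact h3
  have conj : ∀ σ, ∀ τ ∈ N, σ⁻¹ * τ * σ ∈ N := by
    intro σ τ hτ
    have := hN.conj_mem τ hτ σ⁻¹
    rw [inv_inv] at this
    exact this
  refine ⟨t, ?_, ht0, ?_⟩
  · intro σ ρ
    apply huniq _ _ (ht0 _) (by rw [smul_add, ht0, ← map_nsmul, ht0, map_zero, add_zero])
    intro τ hτ
    rw [← ht (σ * ρ) τ hτ]
    have e1 : (σ * ρ)⁻¹ * τ * (σ * ρ) = ρ⁻¹ * (σ⁻¹ * τ * σ) * ρ := by group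
    rw [e1, Tm]
    have h2 := ht ρ (σ⁻¹ * τ * σ) (conj σ τ hτ)
    have h3 : T ρ (f (ρ⁻¹ * (σ⁻¹ * τ * σ) * ρ)) = f (σ⁻¹ * τ * σ) +
        (T (σ⁻¹ * τ * σ) (t ρ) - t ρ) := by
      rw [← h2]; abel
    rw [h3, map_add, map_sub, map_add]
    have h4 := ht σ τ hτ
    have h5 : T σ (f (σ⁻¹ * τ * σ)) = f τ + (T τ (t σ) - t σ) := by rw [← h4]; abel
    have h6 : T σ (T (σ⁻¹ * τ * σ) (t ρ)) = T τ (T σ (t ρ)) := by
      rw [← Tm, ← Tm]
      congr 2
      group
    rw [h5, h6]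
    abel
  · intro σ hσ
    apply huniq _ _ (ht0 _) (hpf σ hσ)
    intro τ hτ
    rw [← ht σ τ hτ]
    have h1 : f (1 : G) = 0 := by
      have := hf 1 N.one_mem 1 N.one_mem
      rw [one_mul, T1] at this
      have h2 : f 1 + f 1 - f 1 = f 1 - f 1 := by rw [← this]
      rw [add_sub_cancel_right, sub_self] at h2
      exact h2
    have h2 := hf σ hσ σ⁻¹ (N.inv_mem hσ)
    rw [mul_inv_cancel, h1] at h2
    have h3 := hf (σ⁻¹ * τ) (N.mul_mem (N.inv_mem hσ) hτ) σ hσ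
    have h4 := hf σ⁻¹ (N.inv_mem hσ) τ hτ
    rw [h3, h4, map_add, map_add, ← Tm, ← Tm, mul_inv_cancel, T1, mul_inv_cancel_left]
    have h5 : T σ (f σ⁻¹) = -f σ := by
      rw [eq_neg_iff_add_eq_zero, add_comm]
      exact h2.symm
    rw [h5]
    abel

end coc

section loc

variable {G A B : Type} [Group G] [AddCommGroup A] [AddCommGroup B] (T : G → A →+ A)
  (T1 : ∀ a, T 1 a = a) (Tm : ∀ g h a, T (g * h) a = T g (T h a)) {p : ℕ} (red : A →+ B)
  (hinv : ∀ g a, red a = 0 → red (T g a) = 0)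
  (hinj : ∀ (n : ℕ) a, p ^ n • a = 0 → red a = 0 → a = 0)

include T1 Tm in
lemma coc_pow {D : Subgroup G} {c : G → A} (hc : ∀ σ ∈ D, ∀ τ ∈ D, c (σ * τ) = c σ + T σ (c τ))
    {φ : G} (hφ : φ ∈ D) {b : A} (hb : T φ b - b = c φ) (n : ℕ) :
    c (φ ^ n) = T (φ ^ n) b - b := by
  induction n with
  | zero =>
    have := hc 1 D.one_mem 1 D.one_mem
    rw [one_mul, T1] at this
    have h2 : c 1 + c 1 - c 1 = c 1 - c 1 := by rw [← this]
    rw [add_sub_cancel_right, sub_self] at h2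
    rw [pow_zero, h2, T1, sub_self]
  | succ n ih =>
    rw [pow_succ', hc φ hφ _ (D.pow_mem hφ n), ih, Tm, map_sub, ← hb]
    abel

include T1 Tm hinv hinj in
/-- the unramified case -/
theorem locA (hp : p.Prime) (D N : Subgroup G) (hND : N ≤ D) {c : G → A}
    (hc : ∀ σ ∈ D, ∀ τ ∈ D, c (σ * τ) = c σ + T σ (c τ)) (hpc : ∀ σ ∈ D, p • c σ = 0)
    {P : A} (hP : ∀ σ ∈ N, c σ = T σ P - P)
    (hF : ∀ X : Finset A, ∃ φ ∈ D, ∀ τ ∈ D, ∃ n : ℕ,
      (∀ x ∈ X, red (T τ x) = red (T (φ ^ n) x)) ∧ (φ ^ n)⁻¹ * τ ∈ N)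
    (hfin : {a | (∀ τ ∈ D, T τ a = a) ∧ ∃ n : ℕ, p ^ n • a = 0}.Finite)
    (tfin : {a : A | p • a = 0}.Finite) (hdiv : ∀ a : A, ∃ b, p • b = a) :
    ∃ P' : A, ∀ σ ∈ D, c σ = T σ P' - P' := by
  classical
  let H : AddSubgroup A :=
    { carrier := {a | (∀ τ ∈ D, T τ a = a) ∧ ∃ n : ℕ, p ^ n • a = 0}
      zero_mem' := ⟨fun τ _ => map_zero _, 0, smul_zero _⟩
      add_mem' := by
        rintro a b ⟨ha, n, hn⟩ ⟨hb, m, hm⟩
        refine ⟨fun τ hτ => by rw [map_add, ha τ hτ, hb τ hτ], n + m, ?_⟩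
        rw [smul_add, pow_add, mul_comm, mul_smul, hn, smul_zero, mul_comm, mul_smul, hm,
          smul_zero, add_zero]
      neg_mem' := by
        rintro a ⟨ha, n, hn⟩
        exact ⟨fun τ hτ => by rw [map_neg, ha τ hτ], n, by rw [smul_neg, hn, neg_zero]⟩ }
  have hHfin : Finite H := hfin.to_subtype
  let R : AddSubgroup A := H.comap (nsmulAddMonoidHom p)
  have memR : ∀ b, b ∈ R ↔ p • b ∈ H := fun b => Iff.rfl
  have hRfin : Finite R := by
    have h1 : (R : Set A) ⊆ ⋃ h ∈ (H : Set A), {b | p • b = h} := by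
      intro b hb
      rw [Set.mem_iUnion₂]
      exact ⟨p • b, hb, rfl⟩
    have h2 : ∀ h : A, {b : A | p • b = h}.Finite := by
      intro h
      obtain ⟨b0, hb0⟩ := hdiv h
      refine (tfin.image fun t => b0 + t).subset fun b hb => ?_
      refine ⟨b - b0, ?_, by abel⟩
      show p • (b - b0) = 0
      rw [smul_sub, hb0]
      have hb' : p • b = h := hb
      rw [hb', sub_self]
    exact ((Set.Finite.biUnion hfin fun h _ => h2 h).subset h1).to_subtype
  let Tp : AddSubgroup A := (nsmulAddMonoidHom (α := A) p).ker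
  have memTp : ∀ b, b ∈ Tp ↔ p • b = 0 := fun b => Iff.rfl
  have hTpfin : Finite Tp := tfin.to_subtype
  obtain ⟨φ, hφ, hφ2⟩ := hF ((Set.toFinite (R : Set A)).toFinset ∪ {P})
  have hφR : ∀ b ∈ R, ∀ τ ∈ D, ∃ n : ℕ, red (T τ b) = red (T (φ ^ n) b) ∧ red (T τ P) = red (T (φ ^ n) P)
      ∧ (φ ^ n)⁻¹ * τ ∈ N := by
    intro b hb τ hτ
    obtain ⟨n, h1, h2⟩ := hφ2 τ hτ
    refine ⟨n, h1 b ?_, h1 P ?_, h2⟩
    · rw [Finset.mem_union, Set.Finite.mem_toFinset]
      exact Or.inl hb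
    · rw [Finset.mem_union, Finset.mem_singleton]
      exact Or.inr rfl
  -- differences
  have hdiff : ∀ b ∈ R, ∀ τ ∈ D, p • (T τ b - b) = 0 := by
    intro b hb τ hτ
    rw [smul_sub, ← map_nsmul]
    have := ((memR b).1 hb).1 τ hτ
    rw [this, sub_self]
  have hpow : ∀ b, T φ b = b → ∀ n : ℕ, T (φ ^ n) b = b := by
    intro b hb n
    induction n with
    | zero => rw [pow_zero, T1]
    | succ n ih => rw [pow_succ, Tm, hb, ih]
  have claim1 : ∀ b ∈ R, T φ b = b → b ∈ H := by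
    intro b hb hfix
    refine ⟨fun τ hτ => ?_, ?_⟩
    · obtain ⟨n, h1, -, -⟩ := hφR b hb τ hτ
      rw [hpow b hfix n] at h1
      rw [← sub_eq_zero]
      apply hinj 1 _ (by rw [pow_one]; exact hdiff b hb τ hτ)
      rw [map_sub, h1, sub_self]
    · obtain ⟨n, hn⟩ := ((memR b).1 hb).2
      exact ⟨n + 1, by rw [pow_succ, mul_smul]; exact hn⟩
  let m : R →+ H := ((nsmulAddMonoidHom p).comp R.subtype).codRestrict H (fun b => b.2)
  let δ : R →+ Tp := ((T φ - AddMonoidHom.id A).comp R.subtype).codRestrict Tp (fun b => by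
    rw [memTp]
    exact hdiff b b.2 φ hφ)
  have hm : Function.Surjective m := by
    intro h
    obtain ⟨b, hb⟩ := hdiv h
    refine ⟨⟨b, ?_⟩, Subtype.ext hb⟩
    rw [memR, hb]
    exact h.2
  have c1 : Nat.card m.ker * Nat.card H = Nat.card R := by
    rw [← AddSubgroup.card_mul_index m.ker, AddSubgroup.index_ker]
    congr 1
    exact (Nat.card_congr (Equiv.ofBijective (Subtype.val : m.range → H)
      ⟨Subtype.val_injective, fun h => by
        obtain ⟨b, hb⟩ := hm h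
        exact ⟨⟨h, b, hb⟩, rfl⟩⟩)).symm
  have c2 : Nat.card δ.ker * Nat.card δ.range = Nat.card R := by
    rw [← AddSubgroup.card_mul_index δ.ker, AddSubgroup.index_ker]
  have c3 : Nat.card m.ker = Nat.card Tp := by
    refine Nat.card_congr ⟨fun b => ⟨b.1, ?_⟩, fun t => ⟨⟨t, ?_⟩, ?_⟩, fun b => rfl, fun t => rfl⟩
    · have := b.2
      rw [AddMonoidHom.mem_ker] at this
      exact congrArg Subtype.val this
    · rw [memR, (memTp _).1 t.2]
      exact H.zero_mem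
    · rw [AddMonoidHom.mem_ker]
      exact Subtype.ext t.2
  have c4 : Nat.card δ.ker = Nat.card H := by
    refine Nat.card_congr ⟨fun b => ⟨b.1, ?_⟩, fun h => ⟨⟨h, ?_⟩, ?_⟩, fun b => rfl, fun t => rfl⟩
    · have := b.2
      rw [AddMonoidHom.mem_ker] at this
      have h2 : T φ (b.1 : A) - (b.1 : A) = 0 := congrArg Subtype.val this
      exact claim1 _ b.1.2 (sub_eq_zero.1 h2)
    · rw [memR]
      exact H.nsmul_mem h.2 p
    · rw [AddMonoidHom.mem_ker]
      apply Subtype.ext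
      show T φ (h : A) - (h : A) = 0
      rw [h.2.1 φ hφ, sub_self]
  have c5 : Nat.card δ.range = Nat.card Tp := by
    have h1 : 0 < Nat.card H := Nat.card_pos
    apply Nat.eq_of_mul_eq_mul_left h1
    rw [← c4, c2, ← c1, c3, c4, mul_comm]
  have hsurj : δ.range = ⊤ := AddSubgroup.eq_top_of_card_eq _ c5
  obtain ⟨⟨b, hbR⟩, hb⟩ : (⟨c φ, (memTp _).2 (hpc φ hφ)⟩ : Tp) ∈ δ.range := by
    rw [hsurj]; trivial
  have hb' : T φ b - b = c φ := congrArg Subtype.val hb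
  refine ⟨b, fun τ hτ => ?_⟩
  obtain ⟨n, h1, h2, h3⟩ := hφR b hbR τ hτ
  set ρ := (φ ^ n)⁻¹ * τ with hρ
  have hτρ : τ = φ ^ n * ρ := by rw [hρ, mul_inv_cancel_left]
  have hshift : ∀ x, red (T τ x) = red (T (φ ^ n) x) → red (T ρ x) = red x := by
    intro x hx
    rw [← sub_eq_zero, ← map_sub] at hx ⊢
    have := hinv (φ ^ n)⁻¹ _ hx
    rw [map_sub, ← Tm, ← Tm, inv_mul_cancel, T1] at this
    exact this
  have hρD : ρ ∈ D := hND h3
  have e1 : c ρ = 0 := by
    apply hinj 1 _ (by rw [pow_one]; exact hpc ρ hρD)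
    rw [hP ρ h3, map_sub, hshift P h2, sub_self]
  have e2 : T ρ b - b = 0 := by
    apply hinj 1 _ (by rw [pow_one]; exact hdiff b hbR ρ hρD)
    rw [map_sub, hshift b h1, sub_self]
  rw [sub_eq_zero] at e2
  conv_lhs => rw [hτρ]
  rw [hc _ (D.pow_mem hφ n) _ hρD, e1, map_zero, add_zero, coc_pow T T1 Tm hc hφ hb' n]
  conv_rhs => rw [hτρ, Tm, e2]

include T1 Tm hinj in
/-- the ramified case without torsion -/
theorem locB (D N : Subgroup G) (hND : N ≤ D)
    (hnor : ∀ σ ∈ D, ∀ τ ∈ N, σ⁻¹ * τ * σ ∈ N) {c : G → A}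
    (hc : ∀ σ ∈ D, ∀ τ ∈ D, c (σ * τ) = c σ + T σ (c τ)) (hpc : ∀ σ ∈ D, p • c σ = 0)
    {P : A} (hP : ∀ σ ∈ N, c σ = T σ P - P)
    (hF : ∀ X : Finset A, ∃ φ ∈ N, ∀ τ ∈ N, ∃ n : ℕ, ∀ x ∈ X, red (T τ x) = red (T (φ ^ n) x))
    (hA : ∀ a, p • a = 0 → (∀ σ ∈ N, T σ a = a) → a = 0) (tfin : {a : A | p • a = 0}.Finite) :
    ∃ P' : A, ∀ σ ∈ D, c σ = T σ P' - P' := by
  classical
  let Tp : AddSubgroup A := (nsmulAddMonoidHom (α := A) p).ker
  have memTp : ∀ b, b ∈ Tp ↔ p • b = 0 := fun b => Iff.rfl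
  have hTpfin : Finite Tp := tfin.to_subtype
  obtain ⟨φ, hφ, hφ2⟩ := hF (tfin.toFinset ∪ tfin.toFinset.image (fun t => P - t))
  have hpow : ∀ b, T φ b = b → ∀ n : ℕ, T (φ ^ n) b = b := by
    intro b hb n
    induction n with
    | zero => rw [pow_zero, T1]
    | succ n ih => rw [pow_succ, Tm, hb, ih]
  let δ : Tp →+ Tp := ((T φ - AddMonoidHom.id A).comp Tp.subtype).codRestrict Tp (fun b => by
    rw [memTp]
    show p • (T φ b - b) = 0
    rw [smul_sub, ← map_nsmul, (memTp _).1 b.2, map_zero, sub_zero])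
  have hδ : Function.Injective δ := by
    rw [injective_iff_map_eq_zero]
    intro t ht
    have h1 : T φ (t : A) - t = 0 := congrArg Subtype.val ht
    rw [sub_eq_zero] at h1
    apply Subtype.ext
    apply hA _ ((memTp _).1 t.2)
    intro τ hτ
    obtain ⟨n, hn⟩ := hφ2 τ hτ
    have h2 := hn t (by
      rw [Finset.mem_union, Set.Finite.mem_toFinset]
      exact Or.inl t.2)
    rw [hpow _ h1 n] at h2
    rw [← sub_eq_zero]
    apply hinj 1 _ (by rw [pow_one, smul_sub, ← map_nsmul, (memTp _).1 t.2, map_zero, sub_zero])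
    rw [map_sub, h2, sub_self]
  have hδs : Function.Surjective δ := Finite.surjective_of_injective hδ
  obtain ⟨⟨t, ht⟩, ht2⟩ := hδs ⟨c φ, (memTp _).2 (hpc φ (hND hφ))⟩
  have ht3 : T φ t - t = c φ := congrArg Subtype.val ht2
  have ht0 : p • t = 0 := ht
  have hfixφ : T φ (P - t) = P - t := by
    rw [hP φ hφ] at ht3
    rw [map_sub]
    have : T φ P - T φ t - (P - t) = (T φ P - P) - (T φ t - t) := by abel
    rw [← sub_eq_zero, this, ht3, sub_self]
  have hN : ∀ τ ∈ N, c τ = T τ t - t := by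
    intro τ hτ
    obtain ⟨n, hn⟩ := hφ2 τ hτ
    have h2 := hn (P - t) (by
      rw [Finset.mem_union]
      right
      apply Finset.mem_image_of_mem
      rw [Set.Finite.mem_toFinset]
      exact ht0)
    rw [hpow _ hfixφ n] at h2
    have h3 : c τ - (T τ t - t) = T τ (P - t) - (P - t) := by
      rw [hP τ hτ, map_sub]; abel
    rw [← sub_eq_zero]
    apply hinj 1
    · rw [pow_one, smul_sub, hpc τ (hND hτ), smul_sub, ← map_nsmul, ht0, map_zero, sub_zero, sub_zero]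
    · rw [h3, map_sub, h2, sub_self]
  refine ⟨t, fun σ hσ => ?_⟩
  rw [← sub_eq_zero]
  apply hA
  · rw [smul_sub, hpc σ hσ, smul_sub, ← map_nsmul, ht0, map_zero, sub_zero, sub_zero]
  · intro τ hτ
    have h1 := hc τ (hND hτ) σ hσ
    have h2 := hc σ hσ (σ⁻¹ * τ * σ) (hND (hnor σ hσ τ hτ))
    have e : σ * (σ⁻¹ * τ * σ) = τ * σ := by group
    rw [e, h1, hN τ hτ, hN _ (hnor σ hσ τ hτ), map_sub, ← Tm, e, Tm] at h2
    rw [map_sub, map_sub]
    have h3 : T τ (c σ) = c σ + (T τ (T σ t) - T σ t) - (T τ t - t) := by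
      rw [← h2]; abel
    rw [h3]
    abel

end loc

end Pool.Agent.P8H4.PL.Gr
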