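import Pool.Agent.P8H4.PL.Unr
import Pool.Agent.P8H4.PL.Grp

/-!
# Local cocycles
-/

set_option autoImplicit false

open NumberField IsDedekindDomain

namespace Pool.Agent.P8H4.PL

open Pool.Agent.TH841.NF (pid mem_pid pls lf mem_lf norm_int norm_le_one_of_val)
open Fr (Gq norm_eqv frob)

section idx

variable {k K : Type} [Field k] [Field K] [Algebra k K]

/-- the index of the groups -/
lemma relindex [FiniteDimensional k K] [IsGalois k K] {p n : ℕ} (hp : p.Prime)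
    (hn : Module.finrank k K = p ^ n) {Γ L : Type} [Group Γ] [Field L] (r : Γ →* RingAut L)
    (j : K →+* L) (D N : Subgroup Γ)
    (hD : ∀ g, g ∈ D ↔ ∀ x : k, r g (j (algebraMap k K x)) = j (algebraMap k K x))
    (hN : ∀ g, g ∈ N ↔ ∀ x : K, r g (j x) = j x) :
    N ≤ D ∧ (∀ σ ∈ D, ∀ τ ∈ N, σ⁻¹ * τ * σ ∈ N) ∧ ∃ m, N.relIndex D = p ^ m := by
  have hND : N ≤ D := by
    intro g hg
    rw [hD]
    intro x
    exact (hN g).1 hg _
  have hs : ∀ g : D, ∃ σ : Gal(K/k), ∀ x, r g (j x) = j (σ x) := fun g =>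
    gal_of_fix (r g) j ((hD g).1 g.2)
  choose s hs using hs
  let ψ : D →* Gal(K/k) := MonoidHom.mk' s (by
    intro g h
    ext x
    apply j.injective
    rw [← hs]
    show r ((g : Γ) * (h : Γ)) (j x) = j (s g (s h x))
    rw [map_mul]
    show r g (r h (j x)) = _
    rw [hs, hs])
  have hker : N.subgroupOf D = ψ.ker := by
    ext g
    rw [Subgroup.mem_subgroupOf, MonoidHom.mem_ker, hN]
    constructor
    · intro h
      ext x
      apply j.injective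
      show j (s g x) = j x
      rw [← hs, h]
    · intro h x
      rw [hs]
      have h1 : s g = 1 := h
      rw [h1]
      rfl
  refine ⟨hND, ?_, ?_⟩
  · intro σ hσ τ hτ
    have h1 : (⟨τ, hND hτ⟩ : D) ∈ ψ.ker := by
      rw [← hker, Subgroup.mem_subgroupOf]
      exact hτ
    have h2 := (inferInstance : ψ.ker.Normal).conj_mem _ h1 (⟨σ, hσ⟩⁻¹)
    rw [← hker, Subgroup.mem_subgroupOf, inv_inv] at h2
    exact h2
  · have h1 : N.relIndex D = Nat.card ψ.range := by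
      show (N.subgroupOf D).index = _
      rw [hker, Subgroup.index_ker]
    have h2 : Nat.card ψ.range ∣ p ^ n := by
      rw [← hn, ← IsGalois.card_aut_eq_finrank k K]
      exact Subgroup.card_subgroup_dvd_card _
    obtain ⟨m, -, hm⟩ := (Nat.dvd_prime_pow hp).1 h2
    exact ⟨m, by rw [h1, hm]⟩

end idx

variable {W : WeierstrassCurve ℤ} {q : ℕ} [Fact q.Prime]
variable {k K : Type} [Field k] [NumberField k] [Field K] [NumberField K] [Algebra k K]

/-- the Galois group as a group of automorphisms of the ring -/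
noncomputable def toR : Gq q →* RingAut (PadicAlgCl q) where
  toFun τ := (τ : PadicAlgCl q ≃+* PadicAlgCl q)
  map_one' := rfl
  map_mul' _ _ := rfl

variable (k) in
/-- a local cocycle over `k` which is trivial over `K` is trivial -/
theorem loc_triv [IsGalois k K] {p n : ℕ} (hp : p.Prime) (hp2 : 2 < p)
    (hn : Module.finrank k K = p ^ n) (hΔ0 : W.Δ ≠ 0) (j : K →+* PadicAlgCl q)
    (hsplit : (q : ℤ) ∣ 6 * p * W.Δ → ∀ σ ∈ Dj (j.comp (algebraMap k K)), σ ∈ Dj j)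
    (hram : Ram k (pls j) → ¬ p ∣ pts W (𝓞 k ⧸ (pls j).asIdeal.under (𝓞 k)) + 1)
    {c : Gq q → Pt W (PadicAlgCl q)}
    (hc : ∀ σ ∈ Dj (j.comp (algebraMap k K)), ∀ τ ∈ Dj (j.comp (algebraMap k K)),
      c (σ * τ) = c σ + Tq W σ (c τ))
    (hpc : ∀ σ ∈ Dj (j.comp (algebraMap k K)), p • c σ = 0)
    {P : Pt W (PadicAlgCl q)} (hP : ∀ σ ∈ Dj j, c σ = Tq W σ P - P) :
    ∃ P' : Pt W (PadicAlgCl q), ∀ σ ∈ Dj (j.comp (algebraMap k K)), c σ = Tq W σ P' - P' := by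
  obtain ⟨hND, hnor, m, hm⟩ := relindex (k := k) hp hn (toR (q := q)) j
    (Dj (j.comp (algebraMap k K))) (Dj j) (fun g => Iff.rfl) (fun g => Iff.rfl)
  by_cases hq : (q : ℤ) ∣ 6 * p * W.Δ
  · exact ⟨P, fun σ hσ => hP σ (hsplit hq σ hσ)⟩
  have h6 : ¬ q ∣ 6 := by
    intro h
    apply hq
    have h1 : (q : ℤ) ∣ 6 := by exact_mod_cast h
    rw [mul_assoc]
    exact Dvd.dvd.mul_right h1 _
  have hΔ : ¬ (q : ℤ) ∣ W.Δ := fun h => hq (Dvd.dvd.mul_left h _)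
  have hpq : ¬ q ∣ p := by
    intro h
    apply hq
    have h1 : (q : ℤ) ∣ (p : ℤ) := by exact_mod_cast h
    exact Dvd.dvd.mul_right (Dvd.dvd.mul_left h1 _) _
  obtain ⟨R⟩ := exists_rd W h6 hΔ
  have hinv := R.hinv
  have hinj := R.hinj h6 hΔ hp hp2 hpq
  have tfin : {a : Pt W (PadicAlgCl q) | p • a = 0}.Finite := tor_fin hΔ0 hp.one_le
  have hdiv : ∀ a : Pt W (PadicAlgCl q), ∃ b, p • b = a := exists_div hΔ0 hp.one_le
  have hpls : (pls (j.comp (algebraMap k K))).asIdeal = (pls j).asIdeal.under (𝓞 k) := by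
    ext x
    rfl
  by_cases hR : Ram k (pls j)
  · refine Gr.locB (Tq W) Tq_one Tq_mul R.red hinj _ _ hND hnor hc hpc hP ?_ ?_ tfin
    · intro X
      obtain ⟨φ, hφ, h1⟩ := R.frobP (Dj j) X ∅ (by simp)
      refine ⟨φ, hφ, fun τ hτ => ?_⟩
      obtain ⟨n, hn, -⟩ := h1 τ hτ
      exact ⟨n, hn⟩
    · apply Gr.fixN (Tq W) Tq_one Tq_mul hp _ _ hND hnor hm
      intro a ha hfix
      refine tor_res (j.comp (algebraMap k K)) R hΔ hp ?_ h6 hp2 hpq a ha hfix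
      rw [hpls]
      exact hram hR
  · obtain ⟨S, hS1, hS2⟩ := unr_set (k := k) j hR
    refine Gr.locA (Tq W) Tq_one Tq_mul R.red hinv hinj hp _ _ hND hc hpc hP ?_
      (fin_tor _ R h6 hΔ hp hp2 hpq) tfin hdiv
    intro X
    obtain ⟨φ, hφ, h1⟩ := R.frobP (Dj (j.comp (algebraMap k K))) X S hS1
    refine ⟨φ, hφ, fun τ hτ => ?_⟩
    obtain ⟨n, hn, h2⟩ := h1 τ hτ
    refine ⟨n, hn, hS2 _ (Subgroup.mul_mem _ (Subgroup.inv_mem _ (Subgroup.pow_mem _ hφ n)) hτ) ?_⟩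
    intro x hx
    have h3 : ((φ ^ n)⁻¹ * τ) x - x = (φ ^ n)⁻¹ (τ x - (φ ^ n) x) := by
      rw [map_sub]
      show (φ ^ n)⁻¹ (τ x) - x = (φ ^ n)⁻¹ (τ x) - (φ ^ n)⁻¹ ((φ ^ n) x)
      have : (φ ^ n)⁻¹ ((φ ^ n) x) = x := (φ ^ n).symm_apply_apply x
      rw [this]
    rw [h3, norm_eqv]
    exact h2 x hx

end Pool.Agent.P8H4.PL
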