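import Pool.Agent.P8H4.PL.Plc
import Pool.Agent.TH841.NF.ShaN

/-!
# The comparison of the local conditions
-/

set_option autoImplicit false

open NumberField IsDedekindDomain WeierstrassCurve

namespace Pool.Agent.P8H4.PL

open Fr (Gq)
open Pool.Agent.TH841.NF (pls jc jc_coe fix_lf lf)
open Pool.Agent.TH841.SH.D (act Gal Coch IsCoc IsCob LocTriv)

variable (W : WeierstrassCurve ℤ)

section tr

variable {k : Type} [Field k]

lemma bc_eq (L : Type) [Field L] [Algebra k L] : (base W k).baseChange L = base W L := by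
  show (W.map _).map _ = W.map _
  rw [WeierstrassCurve.map_map]
  congr 1
  exact Subsingleton.elim _ _

/-- transport of points -/
def cst {L : Type} [Field L] {V V' : WeierstrassCurve L} (h : V = V') :
    V.toAffine.Point → V'.toAffine.Point
  | Affine.Point.zero => Affine.Point.zero
  | Affine.Point.some x y hn => Affine.Point.some x y (h ▸ hn)

lemma cst_add {L : Type} [Field L] [DecidableEq L] {V V' : WeierstrassCurve L} (h : V = V')
    (P Q : V.toAffine.Point) : cst h (P + Q) = cst h P + cst h Q := by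
  subst h
  have : ∀ P : V.toAffine.Point, cst rfl P = P := by
    intro P
    rcases P with _ | ⟨x, y, hn⟩ <;> rfl
  rw [this, this, this]

/-- the comparison of the points -/
noncomputable def tr (L : Type) [Field L] [Algebra k L] :
    Pool.Agent.TH841.SH.D.Pt (base W k) L ≃+ Pt W L where
  toFun := cst (bc_eq W L)
  invFun := cst (bc_eq W L).symm
  left_inv := by
    intro P
    rcases P with _ | ⟨x, y, hn⟩ <;> rfl
  right_inv := by
    intro P
    rcases P with _ | ⟨x, y, hn⟩ <;> rfl
  map_add' := @cst_add L _ (Classical.decEq L) _ _ (bc_eq W L)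

variable {W}

lemma tr_act {F L : Type} [Field F] [Field L] [Algebra k F] [Algebra k L] (φ : F →ₐ[k] L)
    (P : Pool.Agent.TH841.SH.D.Pt (base W k) F) :
    tr W L (act (base W k) φ P) = mp (φ : F →+* L) (tr W F P) := by
  rcases P with _ | ⟨x, y, hn⟩ <;> rfl

end tr

variable {W}

section loc

variable {K : Type} [Field K] [NumberField K]

/-- the automorphism over `K` -/
noncomputable def toGal {Ω : Type} [Field Ω] [Algebra K Ω] (σ : Gf (algebraMap K Ω)) : Ω ≃ₐ[K] Ω :=
  AlgEquiv.ofRingEquiv (f := (σ : RingAut Ω)) σ.2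

/-- local triviality in the sense of the library implies local triviality for the embeddings -/
theorem emb_of_loc (f : Coch (base W K))
    (hf : ∀ v : HeightOneSpectrum (𝓞 K), LocTriv (base W K) (v.adicCompletion K) f)
    (q : ℕ) [Fact q.Prime] (ι : AlgebraicClosure K →+* PadicAlgCl q) :
    ∃ P : Pt W (PadicAlgCl q), ∀ (τ : Gq q) (σ : Gal K), (∀ x, τ (ι x) = ι (σ x)) →
      mp ι (tr W (AlgebraicClosure K) (f σ)) = Tq W τ P - P := by
  set j : K →+* PadicAlgCl q := ι.comp (algebraMap K (AlgebraicClosure K)) with hj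
  let v := pls j
  let C := AlgebraicClosure (v.adicCompletion K)
  let i1 : Algebra (v.adicCompletion K) (PadicAlgCl q) := (jc j).toAlgebra
  let κ : C →ₐ[v.adicCompletion K] PadicAlgCl q := IsAlgClosed.lift
  have hκ : ∀ x : v.adicCompletion K, κ (algebraMap _ C x) = jc j x := fun x => κ.commutes x
  let ι₀ : AlgebraicClosure K →ₐ[K] C := IsAlgClosed.lift
  -- the two embeddings of the algebraic closure
  let i2 : Algebra (AlgebraicClosure K) (PadicAlgCl q) := ((κ : C →+* PadicAlgCl q).comp
    (ι₀ : AlgebraicClosure K →+* C)).toAlgebra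
  let i3 : Algebra K (PadicAlgCl q) := j.toAlgebra
  have hcj : ∀ x : K, κ (ι₀ (algebraMap K (AlgebraicClosure K) x)) = j x := by
    intro x
    rw [ι₀.commutes]
    have h1 : algebraMap K C x = algebraMap (v.adicCompletion K) C
      (algebraMap K (v.adicCompletion K) x) := IsScalarTower.algebraMap_apply K _ C x
    rw [h1, hκ]
    exact jc_coe j x
  have : IsScalarTower K (AlgebraicClosure K) (PadicAlgCl q) :=
    IsScalarTower.of_algebraMap_eq fun x => (hcj x).symm
  let ιA : AlgebraicClosure K →ₐ[K] PadicAlgCl q := { ι with commutes' := fun x => rfl }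
  let s : AlgebraicClosure K →ₐ[K] AlgebraicClosure K := ιA.restrictNormal (AlgebraicClosure K)
  have hs : ∀ x, κ (ι₀ (s x)) = ι x := fun x =>
    ιA.restrictNormal_commutes (AlgebraicClosure K) x
  let ι' : AlgebraicClosure K →ₐ[K] C := ι₀.comp s
  have hι' : ∀ x, κ (ι' x) = ι x := hs
  obtain ⟨P, hP⟩ := hf v ι'
  refine ⟨mp (κ : C →+* PadicAlgCl q) (tr W C P), fun τ σ h => ?_⟩
  have hτj : ∀ x : K, τ (j x) = j x := by
    intro x
    show τ (ι (algebraMap K _ x)) = ι (algebraMap K _ x)
    rw [h, σ.commutes]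
  have hτ : ∀ y : v.adicCompletion K, τ (jc j y) = jc j y := fun y =>
    fix_lf j τ hτj (Subtype.property _)
  -- the induced automorphism of `C`
  let i4 : Algebra C (PadicAlgCl q) := (κ : C →+* PadicAlgCl q).toAlgebra
  have : IsScalarTower (v.adicCompletion K) C (PadicAlgCl q) :=
    IsScalarTower.of_algebraMap_eq fun x => (hκ x).symm
  let τA : PadicAlgCl q ≃ₐ[v.adicCompletion K] PadicAlgCl q :=
    AlgEquiv.ofRingEquiv (f := (τ : PadicAlgCl q ≃+* PadicAlgCl q)) hτ
  let τ' : C ≃ₐ[v.adicCompletion K] C := τA.restrictNormal C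
  have hτ' : ∀ x, κ (τ' x) = τ (κ x) := fun x => τA.restrictNormal_commutes C x
  have hc : ∀ x, τ' (ι' x) = ι' (σ x) := by
    intro x
    apply (κ : C →+* PadicAlgCl q).injective
    show κ (τ' (ι' x)) = κ (ι' (σ x))
    rw [hτ', hι', hι', h]
  have h1 := congrArg (fun z => mp (κ : C →+* PadicAlgCl q) (tr W C z)) (hP τ' σ hc)
  simp only [map_sub] at h1
  have e1 : mp (κ : C →+* PadicAlgCl q) (tr W C (act (base W K) ι' (f σ))) =
      mp ι (tr W (AlgebraicClosure K) (f σ)) := by
    rw [tr_act, mp_comp]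
    exact mp_congr (fun x => hι' x) _
  have e2 : mp (κ : C →+* PadicAlgCl q) (tr W C (act (base W K)
      (τ'.toAlgHom.restrictScalars K) P)) = Tq W τ (mp (κ : C →+* PadicAlgCl q) (tr W C P)) := by
    rw [tr_act, mp_comp]
    unfold Tq
    rw [mp_comp]
    exact mp_congr (fun x => hτ' x) _
  rw [e1, e2] at h1
  exact h1

/-- conversely, at the finite places -/
theorem loc_of_emb (f : Coch (base W K))
    (hf : ∀ (q : ℕ) [Fact q.Prime] (ι : AlgebraicClosure K →+* PadicAlgCl q),
      ∃ P : Pt W (PadicAlgCl q), ∀ (τ : Gq q) (σ : Gal K), (∀ x, τ (ι x) = ι (σ x)) →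
      mp ι (tr W (AlgebraicClosure K) (f σ)) = Tq W τ P - P)
    (v : HeightOneSpectrum (𝓞 K)) : LocTriv (base W K) (v.adicCompletion K) f := by
  intro ι'
  obtain ⟨q, hq, Φ, hΦ⟩ := plcK K v
  let C := AlgebraicClosure (v.adicCompletion K)
  obtain ⟨P, hP⟩ := hf q ((Φ : C →+* PadicAlgCl q).comp (ι' : AlgebraicClosure K →+* C))
  refine ⟨(tr W C).symm (mp (Φ.symm : PadicAlgCl q →+* C) P), fun τ σ h => ?_⟩
  obtain ⟨τ', hτ'⟩ := hΦ τ
  have h1 := hP τ' σ (by
    intro x
    show τ' (Φ (ι' x)) = Φ (ι' (σ x))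
    rw [← hτ', h])
  apply (tr W C).injective
  rw [map_sub, AddEquiv.apply_symm_apply, tr_act, tr_act, AddEquiv.apply_symm_apply]
  have h2 := congrArg (mp (W := W) (Φ.symm : PadicAlgCl q →+* C)) h1
  rw [map_sub, mp_comp] at h2
  have e1 : mp (W := W) ((Φ.symm : PadicAlgCl q →+* C).comp ((Φ : C →+* PadicAlgCl q).comp
      (ι' : AlgebraicClosure K →+* C))) (tr W (AlgebraicClosure K) (f σ)) =
      mp (ι' : AlgebraicClosure K →+* C) (tr W (AlgebraicClosure K) (f σ)) :=
    mp_congr (fun x => Φ.symm_apply_apply _) _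
  have e2 : mp (Φ.symm : PadicAlgCl q →+* C) (Tq W τ' P) =
      mp ((τ.toAlgHom.restrictScalars K : C →ₐ[K] C) : C →+* C)
        (mp (Φ.symm : PadicAlgCl q →+* C) P) := by
    unfold Tq
    rw [mp_comp, mp_comp]
    refine mp_congr (fun x => ?_) _
    show Φ.symm (τ' x) = τ (Φ.symm x)
    apply Φ.injective
    rw [RingEquiv.apply_symm_apply, hτ', RingEquiv.apply_symm_apply]
  rw [e1, e2] at h2
  exact h2

/-- at the infinite places, for cocycles of odd order -/
theorem loc_inf (f : Coch (base W K)) (hf : IsCoc (base W K) f) {p : ℕ} (hp : Odd p)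
    (hpf : ∀ σ, p • f σ = 0) (v : InfinitePlace K) : LocTriv (base W K) v.Completion f := by
  intro ι'
  let C := AlgebraicClosure v.Completion
  have hv : Nonempty (v.Completion ≃+* ℝ) ∨ Nonempty (v.Completion ≃+* ℂ) := by
    rcases v.isReal_or_isComplex with h | h
    · exact Or.inl ⟨InfinitePlace.Completion.ringEquivRealOfIsReal h⟩
    · exact Or.inr ⟨InfinitePlace.Completion.ringEquivComplexOfIsComplex h⟩
  obtain ⟨τ₀, h1, h2⟩ := real_aut (C := C) hv
  obtain ⟨m, hm⟩ := hp
  -- a compatible automorphism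
  by_cases hex : ∃ σ₀ : Gal K, ∀ x, τ₀ (ι' x) = ι' (σ₀ x)
  · obtain ⟨σ₀, hσ₀⟩ := hex
    set c := act (base W K) ι' (f σ₀) with hc
    have hpc : p • c = 0 := by rw [hc, ← map_nsmul, hpf, map_zero]
    have hσ1 : σ₀ * σ₀ = 1 := by
      ext x
      apply ι'.injective
      show ι' (σ₀ (σ₀ x)) = ι' x
      rw [← hσ₀, ← hσ₀]
      exact DFunLike.congr_fun h1 _
    have hf1 : f 1 = 0 := by
      have := hf.2 1 1
      rw [mul_one] at this
      have e : act (base W K) ((1 : Gal K).toAlgHom) (f 1) = f 1 := by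
        rcases f 1 with _ | ⟨x, y, h⟩ <;> rfl
      rw [e] at this
      have h3 : f 1 + f 1 - f 1 = f 1 - f 1 := by rw [← this]
      rwa [add_sub_cancel_right, sub_self] at h3
    have hcomm : ∀ (τ : Gal v.Completion) (σ : Gal K), (∀ x, τ (ι' x) = ι' (σ x)) → ∀ P,
        act (base W K) (τ.toAlgHom.restrictScalars K) (act (base W K) ι' P) =
        act (base W K) ι' (act (base W K) σ.toAlgHom P) := by
      intro τ σ h P
      apply (tr W C).injective
      rw [tr_act, tr_act, tr_act, tr_act, mp_comp, mp_comp]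
      exact mp_congr (fun x => h x) _
    have hneg : act (base W K) (τ₀.toAlgHom.restrictScalars K) c = -c := by
      rw [hc, hcomm τ₀ σ₀ hσ₀]
      have h3 := hf.2 σ₀ σ₀
      rw [hσ1, hf1] at h3
      rw [eq_neg_iff_add_eq_zero, ← map_add, add_comm, ← h3, map_zero]
    refine ⟨m • c, fun τ σ h => ?_⟩
    rcases h2 τ with rfl | rfl
    · have e : σ = 1 := by
        ext x
        exact ι'.injective (h x).symm
      have e2 : act (base W K) (((1 : Gal v.Completion).toAlgHom).restrictScalars K) (m • c) =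
          m • c := by
        rcases (m • c) with _ | ⟨x, y, h⟩ <;> rfl
      rw [e, hf1, map_zero, e2, sub_self]
    · have e : σ = σ₀ := by
        ext x
        exact ι'.injective ((h x).symm.trans (hσ₀ x))
      rw [e, map_nsmul, hneg]
      show c = _
      have e3 : (2 * m + 1) • c = 0 := by rw [← hm]; exact hpc
      rw [add_smul, one_smul, mul_smul, two_smul] at e3
      have e4 : c = -(m • c + m • c) := by
        rw [eq_neg_iff_add_eq_zero, add_comm]
        exact e3
      rw [smul_neg]
      conv_lhs => rw [e4]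
      abel
  · refine ⟨0, fun τ σ h => ?_⟩
    rcases h2 τ with rfl | rfl
    · have e : σ = 1 := by
        ext x
        exact ι'.injective (h x).symm
      have hf1 : f 1 = 0 := by
        have := hf.2 1 1
        rw [mul_one] at this
        have e : act (base W K) ((1 : Gal K).toAlgHom) (f 1) = f 1 := by
          rcases f 1 with _ | ⟨x, y, h⟩ <;> rfl
        rw [e] at this
        have h3 : f 1 + f 1 - f 1 = f 1 - f 1 := by rw [← this]
        rwa [add_sub_cancel_right, sub_self] at h3
      rw [e, hf1, map_zero, map_zero, sub_self]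
    · exact absurd ⟨σ, h⟩ hex

end loc

end Pool.Agent.P8H4.PL
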