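import Pool.Agent.P8H4.PL.Red2
import Pool.Agent.TH841.NF.Plc

/-!
# Points fixed by a decomposition group
-/

set_option autoImplicit false

open WeierstrassCurve NumberField IsDedekindDomain

namespace Pool.Agent.P8H4.PL

open Pool.Agent.TH841.NF (pid mem_pid pls lf mem_lf norm_int norm_le_one_of_val)
open Pool.Agent.N890.US.UNR (norm_int_eq_one norm_int_le)
open Fr (Gq norm_eqv frob)

variable {W : WeierstrassCurve ℤ} {q : ℕ} [Fact q.Prime]
variable {F : Type} [Field F] [NumberField F] (j : F →+* PadicAlgCl q)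

omit [NumberField F] in
/-- the decomposition group -/
def Dj : Subgroup (Gq q) where
  carrier := {τ | ∀ x, τ (j x) = j x}
  one_mem' := fun _ => rfl
  mul_mem' := fun {σ τ} hσ hτ x => by
    show σ (τ (j x)) = j x
    rw [hτ, hσ]
  inv_mem' := fun {τ} hτ x => by
    have h := hτ x
    show τ.symm (j x) = j x
    rw [AlgEquiv.symm_apply_eq]
    exact h.symm

omit [NumberField F] in
lemma mem_Dj (τ : Gq q) : τ ∈ Dj j ↔ ∀ x, τ (j x) = j x := Iff.rfl

lemma fixed_mem {x : PadicAlgCl q} (hx : ∀ τ ∈ Dj j, τ x = x) : x ∈ lf j := by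
  have h1 : x ∈ IntermediateField.fixedField (lf j).fixingSubgroup := by
    rw [IntermediateField.mem_fixedField_iff]
    intro τ hτ
    apply hx
    rw [mem_Dj]
    intro y
    rw [IntermediateField.mem_fixingSubgroup_iff] at hτ
    exact hτ _ (mem_lf j y)
  rwa [InfiniteGalois.fixedField_fixingSubgroup] at h1

lemma approx {x : PadicAlgCl q} (hx : x ∈ lf j) {ε : ℝ} (hε : 0 < ε) : ∃ y : F, ‖x - j y‖ < ε := by
  let C : Subfield (PadicAlgCl q) := j.fieldRange.topologicalClosure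
  have hC : ∀ z : ℚ_[q], algebraMap ℚ_[q] (PadicAlgCl q) z ∈ C := by
    intro z
    show algebraMap ℚ_[q] (PadicAlgCl q) z ∈ closure (j.fieldRange : Set (PadicAlgCl q))
    rw [Metric.mem_closure_iff]
    intro δ hδ
    obtain ⟨r, hr⟩ := Padic.rat_dense q z hδ
    refine ⟨j r, ⟨r, rfl⟩, ?_⟩
    rw [dist_eq_norm, map_ratCast]
    have e : algebraMap ℚ_[q] (PadicAlgCl q) z - (r : PadicAlgCl q) =
        algebraMap ℚ_[q] (PadicAlgCl q) (z - r) := by
      rw [map_sub, map_ratCast]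
    rw [e, Fr.norm_pad]
    exact hr
  let C' : IntermediateField ℚ_[q] (PadicAlgCl q) := C.toIntermediateField hC
  have h1 : lf j ≤ C' := by
    unfold Pool.Agent.TH841.NF.lf
    rw [IntermediateField.adjoin_le_iff]
    rintro _ ⟨i, rfl⟩
    exact subset_closure ⟨_, rfl⟩
  have h2 : x ∈ closure (j.fieldRange : Set (PadicAlgCl q)) := h1 hx
  rw [Metric.mem_closure_iff] at h2
  obtain ⟨_, ⟨y, rfl⟩, hy⟩ := h2 ε hε
  exact ⟨y, by rwa [dist_eq_norm] at hy⟩

lemma val_le_one_of_norm {x : F} (hx : ‖j x‖ ≤ 1) : (pls j).valuation F x ≤ 1 := by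
  by_contra h
  rw [not_le] at h
  have hx0 : x ≠ 0 := by
    rintro rfl
    rw [map_zero] at h
    exact not_lt_of_ge zero_le h
  have h1 : (pls j).valuation F x⁻¹ < 1 := by
    rw [map_inv₀]
    exact inv_lt_one_of_one_lt₀ h
  obtain ⟨n, d, hnd⟩ := (pls j).exists_primeCompl_mul_eq_of_integer x⁻¹ h1.le
  have hd : ‖j (algebraMap (𝓞 F) F d)‖ = 1 := by
    refine le_antisymm (norm_int j _) ?_
    have : (d : 𝓞 F) ∉ pid j := d.2
    rw [mem_pid, not_lt] at this
    exact this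
  have hdv : (pls j).valuation F (algebraMap (𝓞 F) F d) = 1 := by
    have : (d : 𝓞 F) ∉ (pls j).asIdeal := d.2
    exact (pls j).valuation_eq_one_iff_notMem.2 this
  have h2 := congrArg (fun z => (pls j).valuation F z) hnd
  simp only [map_mul] at h2
  rw [hdv, mul_one] at h2
  rw [h2] at h1
  have h3 : n ∈ pid j := ((pls j).valuation_lt_one_iff_mem _).1 h1
  rw [mem_pid] at h3
  have h4 := congrArg (fun z => ‖j z‖) hnd
  simp only [map_mul, norm_mul, map_inv₀, norm_inv] at h4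
  rw [hd, mul_one] at h4
  rw [← h4] at h3
  have h5 : 0 < ‖j x‖ := norm_pos_iff.2 ((map_ne_zero j).2 hx0)
  have h6 := (inv_lt_one₀ h5).1 h3
  linarith

/-- every integral element of the local field is congruent to an integer of `F` -/
lemma approx_int {x : PadicAlgCl q} (hx : x ∈ lf j) (h1 : ‖x‖ ≤ 1) :
    ∃ a : 𝓞 F, ‖x - j (algebraMap (𝓞 F) F a)‖ < 1 := by
  obtain ⟨y, hy⟩ := approx j hx one_pos
  have hy1 : ‖j y‖ ≤ 1 := by
    have e : j y = -(x - j y) + x := by ring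
    rw [e]
    refine (IsUltrametricDist.norm_add_le_max _ _).trans (max_le ?_ h1)
    rw [norm_neg]; exact hy.le
  obtain ⟨n, d, hnd⟩ := (pls j).exists_primeCompl_mul_eq_of_integer y (val_le_one_of_norm j hy1)
  have hmax : (pls j).asIdeal.IsMaximal := (pls j).isMaximal
  obtain ⟨d', hd'⟩ : ∃ d' : 𝓞 F, (d : 𝓞 F) * d' - 1 ∈ (pls j).asIdeal := by
    have hd : (d : 𝓞 F) ∉ (pls j).asIdeal := d.2
    obtain ⟨y', hy', m, hm, e⟩ : ∃ y' : 𝓞 F, ∃ _ : y' ∈ (⊤ : Ideal (𝓞 F)), ∃ m ∈ (pls j).asIdeal,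
        (d : 𝓞 F) * y' + m = 1 := by
      have h3 := hmax.eq_of_le (J := (pls j).asIdeal ⊔ Ideal.span {(d : 𝓞 F)})
      have h4 : (pls j).asIdeal ⊔ Ideal.span {(d : 𝓞 F)} = ⊤ := by
        by_contra hne
        have h5 := h3 hne le_sup_left
        exact hd (h5.symm.le (Ideal.mem_sup_right (Ideal.mem_span_singleton_self _)))
      have h5 : (1 : 𝓞 F) ∈ (pls j).asIdeal ⊔ Ideal.span {(d : 𝓞 F)} := by rw [h4]; trivial
      obtain ⟨m, hm, z, hz, e⟩ := Submodule.mem_sup.1 h5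
      obtain ⟨y', rfl⟩ := Ideal.mem_span_singleton.1 hz
      exact ⟨y', trivial, m, hm, by rw [add_comm]; exact e⟩
    refine ⟨y', ?_⟩
    have e2 : (d : 𝓞 F) * y' - 1 = -m := by rw [← e]; ring
    rw [e2]
    exact neg_mem hm
  refine ⟨n * d', ?_⟩
  have e1 : x - j (algebraMap (𝓞 F) F (n * d')) = (x - j y) +
      -(j y * j (algebraMap (𝓞 F) F ((d : 𝓞 F) * d' - 1))) := by
    rw [map_mul, ← hnd, ← map_mul, map_sub, map_mul, map_one]
    simp only [map_mul, map_sub, map_one]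
    ring
  rw [e1]
  refine (IsUltrametricDist.norm_add_le_max _ _).trans_lt (max_lt hy ?_)
  rw [norm_neg, norm_mul]
  have h3 : ‖j (algebraMap (𝓞 F) F ((d : 𝓞 F) * d' - 1))‖ < 1 := (mem_pid j _).1 hd'
  exact mul_lt_one_of_nonneg_of_lt_one_right hy1 (norm_nonneg _) h3

/-- the class modulo the place determines the residue -/
lemma cls_iff (a b : 𝓞 F) : (Ideal.Quotient.mk (pls j).asIdeal a = Ideal.Quotient.mk _ b) ↔
    ‖j (algebraMap (𝓞 F) F a) - j (algebraMap (𝓞 F) F b)‖ < 1 := by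
  rw [Ideal.Quotient.eq]
  have : a - b ∈ (pls j).asIdeal ↔ ‖j (algebraMap (𝓞 F) F (a - b))‖ < 1 := mem_pid j _
  rw [this, map_sub, map_sub]

lemma fixed_coord {x y : PadicAlgCl q} {h : (base W (PadicAlgCl q)).toAffine.Nonsingular x y}
    (hP : ∀ τ ∈ Dj j, Tq W τ (pt h) = pt h) : x ∈ lf j ∧ y ∈ lf j := by
  refine ⟨fixed_mem j fun τ hτ => ?_, fixed_mem j fun τ hτ => ?_⟩
  · exact (pt_inj (hP τ hτ)).1
  · exact (pt_inj (hP τ hτ)).2

variable {p : ℕ}

/-- finitely many fixed points of `p`-power order -/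
theorem fin_tor (R : Rd W q) (h6 : ¬ q ∣ 6) (hΔ : ¬ (q : ℤ) ∣ W.Δ) (hp : p.Prime) (hp2 : 2 < p)
    (hpq : ¬ q ∣ p) :
    {P : Pt W (PadicAlgCl q) | (∀ τ ∈ Dj j, Tq W τ P = P) ∧ ∃ n : ℕ, p ^ n • P = 0}.Finite := by
  classical
  have hfinq : Finite (𝓞 F ⧸ (pls j).asIdeal) := Ideal.finiteQuotientOfFreeOfNeBot _ (pls j).ne_bot
  have key : ∀ P : Pt W (PadicAlgCl q), ∃ c : Option ((𝓞 F ⧸ (pls j).asIdeal) × (𝓞 F ⧸ (pls j).asIdeal)),
      ((∀ τ ∈ Dj j, Tq W τ P = P) ∧ ∃ n : ℕ, p ^ n • P = 0) →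
      (c = none ∧ P = 0) ∨ ∃ (a b : 𝓞 F) (x y : PadicAlgCl q)
        (h : (base W (PadicAlgCl q)).toAffine.Nonsingular x y), P = pt h ∧ ‖x‖ ≤ 1 ∧
        c = some (Ideal.Quotient.mk _ a, Ideal.Quotient.mk _ b) ∧
        ‖x - j (algebraMap (𝓞 F) F a)‖ < 1 ∧ ‖y - j (algebraMap (𝓞 F) F b)‖ < 1 := by
    intro P
    by_cases hP : (∀ τ ∈ Dj j, Tq W τ P = P) ∧ ∃ n : ℕ, p ^ n • P = 0
    · rcases pt_cases P with rfl | ⟨x, y, h, rfl⟩
      · exact ⟨none, fun _ => Or.inl ⟨rfl, rfl⟩⟩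
      · obtain ⟨h1, n, hn⟩ := hP
        have hx : ‖x‖ ≤ 1 := by
          by_contra hx
          rw [not_le] at hx
          exact pt_ne h (R.hinj h6 hΔ hp hp2 hpq n _ hn (R.red_far x y h hx))
        have hy : ‖y‖ ≤ 1 := (R.red_near x y h hx).1
        obtain ⟨hxm, hym⟩ := fixed_coord j h1
        obtain ⟨a, ha⟩ := approx_int j hxm hx
        obtain ⟨b, hb⟩ := approx_int j hym hy
        exact ⟨some (Ideal.Quotient.mk _ a, Ideal.Quotient.mk _ b), fun _ =>
          Or.inr ⟨a, b, x, y, h, rfl, hx, rfl, ha, hb⟩⟩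
    · exact ⟨none, fun h => absurd h hP⟩
  choose c hc using key
  refine Set.Finite.of_finite_image (f := c) (Set.toFinite _) ?_
  intro P hP P' hP' hcc
  obtain ⟨hPf, n, hn⟩ := hP
  obtain ⟨hPf', n', hn'⟩ := hP'
  rcases hc P ⟨hPf, n, hn⟩ with ⟨h1, h2⟩ | ⟨a, b, x, y, h, e, hx, h1, h2, h3⟩ <;>
    rcases hc P' ⟨hPf', n', hn'⟩ with ⟨k1, k2⟩ | ⟨a', b', x', y', h', e', hx', k1, k2, k3⟩
  · rw [h2, k2]
  · rw [h1, k1] at hcc
    exact absurd hcc (by simp)
  · rw [h1, k1] at hcc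
    exact absurd hcc (by simp)
  · rw [h1, k1, Option.some.injEq, Prod.mk.injEq, cls_iff, cls_iff] at hcc
    have tri : ∀ u v s t : PadicAlgCl q, ‖u - s‖ < 1 → ‖v - t‖ < 1 → ‖s - t‖ < 1 → ‖u - v‖ < 1 := by
      intro u v s t h4 h5 h6
      have e : u - v = (u - s) + ((s - t) + -(v - t)) := by ring
      rw [e]
      refine (IsUltrametricDist.norm_add_le_max _ _).trans_lt (max_lt h4 ?_)
      refine (IsUltrametricDist.norm_add_le_max _ _).trans_lt (max_lt h6 ?_)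
      rwa [norm_neg]
    have e3 : R.red P = R.red P' := by
      rw [e, e']
      exact R.red_congr h h' hx hx' (tri _ _ _ _ h2 k2 hcc.1) (tri _ _ _ _ h3 k3 hcc.2)
    rw [← sub_eq_zero]
    apply R.hinj h6 hΔ hp hp2 hpq (n + n')
    · rw [smul_sub]
      have e4 : p ^ (n + n') • P = 0 := by rw [pow_add, mul_comm, mul_smul, hn, smul_zero]
      have e5 : p ^ (n + n') • P' = 0 := by rw [pow_add, mul_smul, hn', smul_zero]
      rw [e4, e5, sub_zero]
    · rw [map_sub, e3, sub_self]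

/-- the number of the affine points over the ring `R`. -/
noncomputable def pts (W : WeierstrassCurve ℤ) (R : Type) [CommRing R] : ℕ :=
  Nat.card {P : R × R // (base W R).toAffine.Equation P.1 P.2}

lemma card_Pt {k : Type} [Field k] [Finite k] (hΔ : (W.Δ : k) ≠ 0) :
    Nat.card (Pt W k) = pts W k + 1 := by
  classical
  have hb : (base W k).Δ ≠ 0 := by
    rw [WeierstrassCurve.map_Δ]
    exact hΔ
  let e : Pt W k ≃ Option {P : k × k // (base W k).toAffine.Equation P.1 P.2} :=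
    { toFun := fun P => match P with
        | Affine.Point.zero => none
        | Affine.Point.some x y h => some ⟨(x, y), h.1⟩
      invFun := fun c => match c with
        | none => (0 : Pt W k)
        | some ⟨P, hP⟩ => pt (((base W k).toAffine.equation_iff_nonsingular_of_Δ_ne_zero hb).1 hP)
      left_inv := by
        intro P
        rcases P with _ | ⟨x, y, h⟩
        · rfl
        · rfl
      right_inv := by
        intro c
        rcases c with _ | ⟨P, hP⟩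
        · rfl
        · rfl }
  rw [Nat.card_congr e, Finite.card_option]
  rfl

/-- no fixed points of order `p` if `p` does not divide the number of points over the residue
field -/
theorem tor_res (R : Rd W q) (hΔ : ¬ (q : ℤ) ∣ W.Δ) (hp : p.Prime)
    (hcard : ¬ p ∣ pts W (𝓞 F ⧸ (pls j).asIdeal) + 1)
    (h6 : ¬ q ∣ 6) (hp2 : 2 < p) (hpq : ¬ q ∣ p)
    (P : Pt W (PadicAlgCl q)) (hP : p • P = 0) (hfix : ∀ τ ∈ Dj j, Tq W τ P = P) : P = 0 := by
  classical
  rcases pt_cases P with rfl | ⟨x, y, h, rfl⟩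
  · rfl
  exfalso
  have hmax : (pls j).asIdeal.IsMaximal := (pls j).isMaximal
  let _ : Field (𝓞 F ⧸ (pls j).asIdeal) := Ideal.Quotient.field _
  have hfinq : Finite (𝓞 F ⧸ (pls j).asIdeal) := Ideal.finiteQuotientOfFreeOfNeBot _ (pls j).ne_bot
  have hx : ‖x‖ ≤ 1 := Rd.tor_int h6 hΔ hp hp2 hpq h hP
  obtain ⟨hy, h', e'⟩ := R.red_near x y h hx
  obtain ⟨hxm, hym⟩ := fixed_coord j hfix
  obtain ⟨a, ha⟩ := approx_int j hxm hx
  obtain ⟨b, hb⟩ := approx_int j hym hy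
  -- the homomorphism of the residue fields
  let g : 𝓞 F →+* R.k := R.v.ρ.comp ((j.comp (algebraMap (𝓞 F) F)).codRestrict R.v.A
    (fun z => (R.memA _).2 (norm_int j z)))
  have hg : ∀ z : 𝓞 F, g z = R.v.r (j (algebraMap (𝓞 F) F z)) := by
    intro z
    rw [R.v.r_of ((R.memA _).2 (norm_int j z))]
    rfl
  let ε : (𝓞 F ⧸ (pls j).asIdeal) →+* R.k := Ideal.Quotient.lift _ g (by
    intro z hz
    rw [hg]
    exact (R.r0 _ (norm_int j z)).2 ((mem_pid j z).1 hz))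
  have hε : ∀ z : 𝓞 F, ε (Ideal.Quotient.mk _ z) = R.v.r (j (algebraMap (𝓞 F) F z)) := by
    intro z
    rw [← hg]
    rfl
  have ex : R.v.r x = ε (Ideal.Quotient.mk _ a) := by
    rw [hε]
    exact R.r_congr hx (norm_int j a) ha
  have ey : R.v.r y = ε (Ideal.Quotient.mk _ b) := by
    rw [hε]
    exact R.r_congr hy (norm_int j b) hb
  have hns : (base W (𝓞 F ⧸ (pls j).asIdeal)).toAffine.Nonsingular (Ideal.Quotient.mk _ a)
      (Ideal.Quotient.mk _ b) := by
    have h3 : (base W R.k).toAffine.Nonsingular (ε (Ideal.Quotient.mk _ a))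
        (ε (Ideal.Quotient.mk _ b)) := by rw [← ex, ← ey]; exact h'
    exact (W.toAffine.baseChange_nonsingular (f := ε.toIntAlgHom) ε.injective _ _).mp h3
  have hmp : mp ε (pt hns) = R.red (pt h) := by
    rw [e', mp_pt]
    exact pt_congr _ _ ex.symm ey.symm
  have hp0 : p • pt hns = 0 := by
    apply mp_inj (W := W) ε
    rw [map_nsmul, hmp, ← map_nsmul, hP, map_zero, map_zero]
  have hord : addOrderOf (pt hns) = p := by
    have : Fact p.Prime := ⟨hp⟩
    exact addOrderOf_eq_prime hp0 (pt_ne hns)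
  have hΔk : ((W.Δ : ℤ) : 𝓞 F ⧸ (pls j).asIdeal) ≠ 0 := by
    intro h0
    have h1 : (((W.Δ : ℤ)) : 𝓞 F) ∈ (pls j).asIdeal := by
      rw [← Ideal.Quotient.eq_zero_iff_mem, map_intCast]
      exact h0
    have h2 : ‖j (algebraMap (𝓞 F) F ((W.Δ : ℤ) : 𝓞 F))‖ < 1 := (mem_pid j _).1 h1
    rw [map_intCast, map_intCast, norm_int_eq_one hΔ] at h2
    exact lt_irrefl _ h2
  apply hcard
  have h1 := card_Pt (W := W) (k := 𝓞 F ⧸ (pls j).asIdeal) hΔk
  have h2 : p ∣ Nat.card (Pt W (𝓞 F ⧸ (pls j).asIdeal)) := by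
    rw [← hord]
    exact addOrderOf_dvd_natCard _
  rw [h1] at h2
  exact h2

end Pool.Agent.P8H4.PL
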