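import Pool.Agent.P8H4.PL.Loc

/-!
# Selmer groups in terms of embeddings and the extension of the base field
-/

set_option autoImplicit false

open NumberField IsDedekindDomain

namespace Pool.Agent.P8H4.PL

open Pool.Agent.TH841.NF (pid mem_pid pls lf mem_lf norm_int norm_le_one_of_val)
open Fr (Gq norm_eqv frob)

variable {W : WeierstrassCurve ℤ} {Ω : Type} [Field Ω]

/-- the automorphisms of `Ω` which fix the image of `F` -/
def Gf {F : Type} [Field F] (i : F →+* Ω) : Subgroup (RingAut Ω) where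
  carrier := {σ | ∀ x, σ (i x) = i x}
  one_mem' := fun _ => rfl
  mul_mem' := fun {σ τ} hσ hτ x => by
    show σ (τ (i x)) = i x
    rw [hτ, hσ]
  inv_mem' := fun {τ} hτ x => by
    have h := hτ x
    show τ.symm (i x) = i x
    rw [RingEquiv.symm_apply_eq]
    exact h.symm

/-- the action on the points -/
noncomputable def TO (W : WeierstrassCurve ℤ) (σ : RingAut Ω) : Pt W Ω →+ Pt W Ω :=
  mp (σ : Ω →+* Ω)

lemma TO_one (P : Pt W Ω) : TO W 1 P = P := by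
  rcases P with _ | ⟨x, y, h⟩
  · rfl
  · rfl

lemma TO_mul (σ τ : RingAut Ω) (P : Pt W Ω) : TO W (σ * τ) P = TO W σ (TO W τ P) := by
  rcases P with _ | ⟨x, y, h⟩
  · rfl
  · rfl

section

variable {F : Type} [Field F] (i : F →+* Ω)

/-- continuous cocycles -/
structure Coc (W : WeierstrassCurve ℤ) (f : RingAut Ω → Pt W Ω) : Prop where
  cont : ∃ S : Finset Ω, ∀ σ ∈ Gf i, (∀ x ∈ S, σ x = x) → f σ = 0
  mul : ∀ σ ∈ Gf i, ∀ τ ∈ Gf i, f (σ * τ) = f σ + TO W σ (f τ)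

/-- locally trivial at the finite places, in terms of embeddings -/
def EmbLoc (W : WeierstrassCurve ℤ) (f : RingAut Ω → Pt W Ω) : Prop :=
  ∀ (q : ℕ) [Fact q.Prime] (ι : Ω →+* PadicAlgCl q), ∃ P : Pt W (PadicAlgCl q),
    ∀ (τ : Gq q), ∀ σ ∈ Gf i, (∀ x, τ (ι x) = ι (σ x)) → mp ι (f σ) = Tq W τ P - P

/-- the `p`-Selmer group is trivial -/
def SelTriv (W : WeierstrassCurve ℤ) (p : ℕ) : Prop :=
  ∀ f : RingAut Ω → Pt W Ω, Coc i W f → (∀ σ ∈ Gf i, p • f σ = 0) → EmbLoc i W f →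
    ∃ T : Pt W Ω, p • T = 0 ∧ ∀ σ ∈ Gf i, f σ = TO W σ T - T

end

section res

variable [CharZero Ω] [IsAlgClosed Ω] [Algebra.IsAlgebraic ℚ Ω] {q : ℕ} [Fact q.Prime]

/-- restriction of automorphisms of the algebraic closure of `ℚ_q` -/
theorem exists_res (ι : Ω →+* PadicAlgCl q) : ∃ res : Gq q →* RingAut Ω,
    ∀ (τ : Gq q) (x : Ω), τ (ι x) = ι (res τ x) := by
  have hnorm : Normal ℚ Ω := by
    have : IsAlgClosure ℚ Ω := ⟨inferInstance, inferInstance⟩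
    exact IsAlgClosure.normal ℚ Ω
  have key : ∀ τ : Gq q, ∃ σ : Gal(Ω/ℚ), ∀ x, τ (ι x) = ι (σ x) := by
    intro τ
    exact gal_of_fix (k := ℚ) (K := Ω) (τ : PadicAlgCl q ≃+* PadicAlgCl q) ι (fun x => by
      simp)
  choose s hs using key
  refine ⟨MonoidHom.mk' (fun τ => ((s τ : Ω ≃ₐ[ℚ] Ω) : Ω ≃+* Ω)) ?_, hs⟩
  intro σ τ
  ext x
  apply ι.injective
  show ι (s (σ * τ) x) = ι (s σ (s τ x))
  rw [← hs, ← hs, ← hs]
  rfl

end res

variable {k K : Type} [Field k] [NumberField k] [Field K] [NumberField K] [Algebra k K]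

lemma TO_inj (σ : RingAut Ω) : Function.Injective (TO W σ) := mp_inj _

/-- the action on the functions -/
noncomputable def AF (W : WeierstrassCurve ℤ) (g : RingAut Ω) :
    (RingAut Ω → Pt W Ω) →+ (RingAut Ω → Pt W Ω) where
  toFun f := fun τ => TO W g (f (g⁻¹ * τ * g))
  map_zero' := by funext τ; exact map_zero _
  map_add' f f' := by funext τ; exact map_add _ _ _

lemma AF_apply (g τ : RingAut Ω) (f : RingAut Ω → Pt W Ω) :
    AF W g f τ = TO W g (f (g⁻¹ * τ * g)) := rfl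

lemma AF_one (f : RingAut Ω → Pt W Ω) : AF W 1 f = f := by
  funext τ
  rw [AF_apply, TO_one, inv_one, one_mul, mul_one]

lemma AF_mul (g h : RingAut Ω) (f : RingAut Ω → Pt W Ω) : AF W (g * h) f = AF W g (AF W h f) := by
  funext τ
  have e : (g * h)⁻¹ * τ * (g * h) = h⁻¹ * (g⁻¹ * τ * g) * h := by group
  rw [AF_apply, AF_apply, AF_apply, TO_mul, e]

section SB

variable {F : Type} [Field F] (i : F →+* Ω)

/-- the group of the Selmer cocycles -/
def SC (W : WeierstrassCurve ℤ) (p : ℕ) : AddSubgroup (RingAut Ω → Pt W Ω) where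
  carrier := {f | Coc i W f ∧ (∀ σ ∈ Gf i, p • f σ = 0) ∧ EmbLoc i W f}
  zero_mem' := by
    refine ⟨⟨⟨∅, fun _ _ _ => rfl⟩, fun σ _ τ _ => ?_⟩, fun σ _ => smul_zero _, ?_⟩
    · show (0 : Pt W Ω) = 0 + TO W σ 0
      rw [map_zero, add_zero]
    · intro q _ ι
      refine ⟨0, fun τ σ _ _ => ?_⟩
      show mp ι (0 : Pt W Ω) = _
      rw [map_zero, map_zero, sub_zero]
  add_mem' := by
    classical
    rintro f f' ⟨⟨⟨S, hS⟩, h1⟩, h2, h3⟩ ⟨⟨⟨S', hS'⟩, h1'⟩, h2', h3'⟩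
    refine ⟨⟨⟨S ∪ S', fun σ hσ hx => ?_⟩, fun σ hσ τ hτ => ?_⟩, fun σ hσ => ?_, ?_⟩
    · show f σ + f' σ = 0
      rw [hS σ hσ fun x hx' => hx x (Finset.mem_union_left _ hx'),
        hS' σ hσ fun x hx' => hx x (Finset.mem_union_right _ hx'), add_zero]
    · show f (σ * τ) + f' (σ * τ) = f σ + f' σ + TO W σ (f τ + f' τ)
      rw [h1 σ hσ τ hτ, h1' σ hσ τ hτ, map_add]
      abel
    · show p • (f σ + f' σ) = 0
      rw [smul_add, h2 σ hσ, h2' σ hσ, add_zero]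
    · intro q _ ι
      obtain ⟨P, hP⟩ := h3 q ι
      obtain ⟨P', hP'⟩ := h3' q ι
      refine ⟨P + P', fun τ σ hσ h => ?_⟩
      show mp ι (f σ + f' σ) = _
      rw [map_add, hP τ σ hσ h, hP' τ σ hσ h, map_add]
      abel
  neg_mem' := by
    rintro f ⟨⟨⟨S, hS⟩, h1⟩, h2, h3⟩
    refine ⟨⟨⟨S, fun σ hσ hx => ?_⟩, fun σ hσ τ hτ => ?_⟩, fun σ hσ => ?_, ?_⟩
    · show -f σ = 0
      rw [hS σ hσ hx, neg_zero]
    · show -f (σ * τ) = -f σ + TO W σ (-f τ)
      rw [h1 σ hσ τ hτ, map_neg]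
      abel
    · show p • (-f σ) = 0
      rw [smul_neg, h2 σ hσ, neg_zero]
    · intro q _ ι
      obtain ⟨P, hP⟩ := h3 q ι
      refine ⟨-P, fun τ σ hσ h => ?_⟩
      show mp ι (-f σ) = _
      rw [map_neg, hP τ σ hσ h, map_neg]
      abel

/-- the group of the coboundaries -/
def BC (W : WeierstrassCurve ℤ) (p : ℕ) : AddSubgroup (RingAut Ω → Pt W Ω) where
  carrier := {f | ∃ T : Pt W Ω, p • T = 0 ∧ ∀ σ ∈ Gf i, f σ = TO W σ T - T}
  zero_mem' := ⟨0, smul_zero _, fun σ _ => by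
    show (0 : Pt W Ω) = _
    rw [map_zero, sub_zero]⟩
  add_mem' := by
    rintro f f' ⟨T, hT, h⟩ ⟨T', hT', h'⟩
    refine ⟨T + T', by rw [smul_add, hT, hT', add_zero], fun σ hσ => ?_⟩
    show f σ + f' σ = _
    rw [h σ hσ, h' σ hσ, map_add]
    abel
  neg_mem' := by
    rintro f ⟨T, hT, h⟩
    refine ⟨-T, by rw [smul_neg, hT, neg_zero], fun σ hσ => ?_⟩
    show -f σ = _
    rw [h σ hσ, map_neg]
    abel

lemma coc_one {f : RingAut Ω → Pt W Ω} (hf : Coc i W f) : f 1 = 0 := by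
  have := hf.mul 1 (Gf i).one_mem 1 (Gf i).one_mem
  rw [one_mul, TO_one] at this
  have h2 : f 1 + f 1 - f 1 = f 1 - f 1 := by rw [← this]
  rwa [add_sub_cancel_right, sub_self] at h2

end SB

/-- **The Selmer group over a `p`-extension.** -/
theorem lift_sel [CharZero Ω] [IsAlgClosed Ω] [Algebra.IsAlgebraic ℚ Ω] [IsGalois k K] {p n : ℕ}
    (hp : p.Prime) (hp2 : 2 < p) (hn : Module.finrank k K = p ^ n) (hΔ0 : W.Δ ≠ 0)
    (i : K →+* Ω)
    (hE : ∀ T : Pt W Ω, p • T = 0 → (∀ σ ∈ Gf (i.comp (algebraMap k K)), TO W σ T = T) → T = 0)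
    (hsplit : ∀ (q : ℕ) [Fact q.Prime], (q : ℤ) ∣ 6 * p * W.Δ → ∀ (j : K →+* PadicAlgCl q),
      ∀ σ ∈ Dj (j.comp (algebraMap k K)), σ ∈ Dj j)
    (hram : ∀ v : HeightOneSpectrum (𝓞 K), Ram k v →
      ¬ p ∣ pts W (𝓞 k ⧸ v.asIdeal.under (𝓞 k)) + 1)
    (hS : SelTriv (i.comp (algebraMap k K)) W p) : SelTriv i W p := by
  classical
  set i0 := i.comp (algebraMap k K) with hi0
  obtain ⟨hND, hnor, m, hm⟩ := relindex (k := k) hp hn (MonoidHom.id (RingAut Ω)) i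
    (Gf i0) (Gf i) (fun g => Iff.rfl) (fun g => Iff.rfl)
  have hA : ∀ a : Pt W Ω, p • a = 0 → (∀ σ ∈ Gf i, TO W σ a = a) → a = 0 :=
    Gr.fixN (TO W) TO_one TO_mul hp _ _ hND hnor hm hE
  by_contra hcon
  unfold SelTriv at hcon
  push Not at hcon
  obtain ⟨f, hf1, hf2, hf3, hf4⟩ := hcon
  have hfS : f ∈ SC i W p := ⟨hf1, hf2, hf3⟩
  have hfB : f ∉ BC i W p := by
    rintro ⟨T, hT, h⟩
    obtain ⟨σ, hσ, h2⟩ := hf4 T hT
    exact h2 (h σ hσ)
  have hNn : ((Gf i).subgroupOf (Gf i0)).Normal := ⟨fun τ hτ σ => by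
    rw [Subgroup.mem_subgroupOf] at hτ ⊢
    have := hnor (σ : RingAut Ω)⁻¹ (Subgroup.inv_mem _ σ.2) _ hτ
    rw [inv_inv] at this
    exact this⟩
  obtain ⟨y, hyS, hyB, hy⟩ := Gr.exists_fix_rel (G := Gf i0) (fun g => AF W (g : RingAut Ω))
    (fun a => AF_one a) (fun g h a => AF_mul _ _ a) hp ((Gf i).subgroupOf (Gf i0)) hm
    (SC i W p) (BC i W p) (by
      rintro g f ⟨⟨⟨S, hS⟩, h1⟩, h2, h3⟩
      refine ⟨⟨⟨S.image g, fun σ hσ hx => ?_⟩, fun σ hσ τ hτ => ?_⟩, fun σ hσ => ?_, ?_⟩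
      · rw [AF_apply, hS _ (hnor _ g.2 σ hσ), map_zero]
        intro x hx'
        show (g : RingAut Ω)⁻¹ (σ ((g : RingAut Ω) x)) = x
        rw [hx _ (Finset.mem_image_of_mem _ hx')]
        exact (g : RingAut Ω).symm_apply_apply x
      · rw [AF_apply, AF_apply, AF_apply, ← TO_mul]
        have e : (g : RingAut Ω)⁻¹ * (σ * τ) * g = ((g : RingAut Ω)⁻¹ * σ * g) *
          ((g : RingAut Ω)⁻¹ * τ * g) := by group
        rw [e, h1 _ (hnor _ g.2 σ hσ) _ (hnor _ g.2 τ hτ), map_add, ← TO_mul]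
        congr 3
        group
      · rw [AF_apply, ← map_nsmul, h2 _ (hnor _ g.2 σ hσ), map_zero]
      · intro q _ ι
        obtain ⟨P, hP⟩ := h3 q (ι.comp ((g : RingAut Ω) : Ω →+* Ω))
        refine ⟨P, fun τ σ hσ h => ?_⟩
        have h4 := hP τ _ (hnor _ g.2 σ hσ) (by
          intro x
          show τ (ι ((g : RingAut Ω) x)) = ι ((g : RingAut Ω) ((g : RingAut Ω)⁻¹ (σ ((g : RingAut Ω) x))))
          rw [h]
          congr 1
          exact ((g : RingAut Ω).apply_symm_apply _).symm)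
        rw [← h4, AF_apply]
        exact mp_comp _ _ _) (by
      rintro g f ⟨T, hT, h⟩
      refine ⟨TO W g T, by rw [← map_nsmul, hT, map_zero], fun σ hσ => ?_⟩
      rw [AF_apply, h _ (hnor _ g.2 σ hσ), map_sub, ← TO_mul, ← TO_mul]
      congr 3
      group) (by
      rintro g hg f ⟨h1, h2, -⟩
      have hg' : (g : RingAut Ω) ∈ Gf i := Subgroup.mem_subgroupOf.1 hg
      refine ⟨f g, h2 _ hg', fun τ hτ => ?_⟩
      show AF W (g : RingAut Ω) f τ - f τ = _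
      have hgi := (Gf i).inv_mem hg'
      have e1 := h1.mul _ hg' _ hgi
      rw [mul_inv_cancel, coc_one i h1] at e1
      rw [AF_apply, h1.mul _ ((Gf i).mul_mem hgi hτ) _ hg', h1.mul _ hgi _ hτ, map_add, map_add,
        ← TO_mul, ← TO_mul, mul_inv_cancel, TO_one, mul_inv_cancel_left]
      have h5 : TO W (g : RingAut Ω) (f (g : RingAut Ω)⁻¹) = -f g := by
        rw [eq_neg_iff_add_eq_zero, add_comm]
        exact e1.symm
      rw [h5]
      abel) (by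
      rintro f ⟨-, h2, -⟩
      refine ⟨0, smul_zero _, fun σ hσ => ?_⟩
      show p • f σ = _
      rw [h2 σ hσ, map_zero, sub_zero]) hfS hfB
  obtain ⟨hy1, hy2, hy3⟩ := hyS
  -- the extension of the cocycle
  obtain ⟨g, hg1, hg2, hg3⟩ := Gr.ext_coc (G := Gf i0) (p := p) (fun g => TO W (g : RingAut Ω))
    (fun a => TO_one a) (fun g h a => TO_mul _ _ a) ((Gf i).subgroupOf (Gf i0)) (by
      intro a ha h
      refine hA a ha fun σ hσ => ?_
      exact h ⟨σ, hND hσ⟩ (Subgroup.mem_subgroupOf.2 hσ)) (fun g => y g) (by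
      intro σ hσ τ hτ
      exact hy1.mul _ (Subgroup.mem_subgroupOf.1 hσ) _ (Subgroup.mem_subgroupOf.1 hτ)) (by
      intro σ hσ
      exact hy2 _ (Subgroup.mem_subgroupOf.1 hσ)) (by
      intro σ
      obtain ⟨T, hT, h⟩ := hy σ
      exact ⟨T, hT, fun τ hτ => h τ (Subgroup.mem_subgroupOf.1 hτ)⟩)
  let g' : RingAut Ω → Pt W Ω := fun σ => if h : σ ∈ Gf i0 then g ⟨σ, h⟩ else 0
  have hg' : ∀ σ (h : σ ∈ Gf i0), g' σ = g ⟨σ, h⟩ := fun σ h => dif_pos h
  have hgN : ∀ σ ∈ Gf i, g' σ = y σ := by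
    intro σ hσ
    rw [hg' σ (hND hσ)]
    exact hg3 _ (Subgroup.mem_subgroupOf.2 hσ)
  have hmul : ∀ σ ∈ Gf i0, ∀ τ ∈ Gf i0, g' (σ * τ) = g' σ + TO W σ (g' τ) := by
    intro σ hσ τ hτ
    rw [hg' σ hσ, hg' τ hτ, hg' _ (Subgroup.mul_mem _ hσ hτ)]
    exact hg1 ⟨σ, hσ⟩ ⟨τ, hτ⟩
  have hpg : ∀ σ ∈ Gf i0, p • g' σ = 0 := by
    intro σ hσ
    rw [hg' σ hσ]
    exact hg2 _
  obtain ⟨T, hT, hTg⟩ := hS g' ⟨by
    obtain ⟨S, hS⟩ := hy1.cont
    let b := Module.finBasis ℚ K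
    refine ⟨S ∪ Finset.univ.image (fun l => i (b l)), fun σ hσ hx => ?_⟩
    have hσi : σ ∈ Gf i := by
      intro x
      rw [← b.sum_repr x, map_sum, map_sum]
      refine Finset.sum_congr rfl fun l _ => ?_
      rw [Algebra.smul_def, map_mul, map_mul]
      have h1 : σ (i (b l)) = i (b l) :=
        hx _ (Finset.mem_union_right _ (Finset.mem_image_of_mem _ (Finset.mem_univ l)))
      rw [h1]
      congr 1
      simp
    rw [hgN σ hσi]
    exact hS σ hσi fun x hx' => hx x (Finset.mem_union_left _ hx'), hmul⟩ hpg (by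
    intro q _ ι
    obtain ⟨res, hres⟩ := exists_res ι
    obtain ⟨P, hP⟩ := hy3 q ι
    have hD : ∀ τ : Gq q, τ ∈ Dj ((ι.comp i).comp (algebraMap k K)) ↔ res τ ∈ Gf i0 := by
      intro τ
      rw [mem_Dj]
      refine forall_congr' fun x => ?_
      show τ (ι (i0 x)) = ι (i0 x) ↔ _
      rw [hres]
      exact ι.injective.eq_iff
    have hN : ∀ τ : Gq q, τ ∈ Dj (ι.comp i) ↔ res τ ∈ Gf i := by
      intro τ
      rw [mem_Dj]
      refine forall_congr' fun x => ?_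
      show τ (ι (i x)) = ι (i x) ↔ _
      rw [hres]
      exact ι.injective.eq_iff
    have hcomm : ∀ (τ : Gq q) (Q : Pt W Ω), Tq W τ (mp ι Q) = mp ι (TO W (res τ) Q) := by
      intro τ Q
      have e1 : Tq W τ (mp ι Q) = mp ((τ : PadicAlgCl q →+* PadicAlgCl q).comp ι) Q := mp_comp _ _ _
      have e2 : mp ι (TO W (res τ) Q) = mp (ι.comp (res τ : Ω →+* Ω)) Q := mp_comp _ _ _
      rw [e1, e2]
      exact mp_congr (fun x => hres τ x) Q
    obtain ⟨P', hP'⟩ := loc_triv k (W := W) hp hp2 hn hΔ0 (ι.comp i)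
      (fun hq => hsplit q hq _) (hram _) (c := fun τ => mp ι (g' (res τ))) (by
        intro σ hσ τ hτ
        show mp ι (g' (res (σ * τ))) = mp ι (g' (res σ)) + Tq W σ (mp ι (g' (res τ)))
        rw [map_mul, hmul _ ((hD σ).1 hσ) _ ((hD τ).1 hτ), map_add, hcomm]) (by
        intro σ hσ
        show p • mp ι (g' (res σ)) = 0
        rw [← map_nsmul, hpg _ ((hD σ).1 hσ), map_zero]) (P := P) (by
        intro σ hσ
        show mp ι (g' (res σ)) = _
        rw [hgN _ ((hN σ).1 hσ)]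
        exact hP σ _ ((hN σ).1 hσ) (hres σ))
    refine ⟨P', fun τ σ hσ h => ?_⟩
    have e : σ = res τ := by
      ext x
      apply ι.injective
      rw [← h, hres]
    rw [e] at hσ ⊢
    exact hP' τ ((hD τ).2 hσ))
  exact hyB ⟨T, hT, fun σ hσ => by rw [← hgN σ hσ]; exact hTg σ (hND hσ)⟩

end Pool.Agent.P8H4.PL
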