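import Pool.Agent.P8H4.PL.Dic
import Pool.Agent.Y355.G.Desc

/-!
# The Selmer group and the Tate-Shafarevich group
-/

set_option autoImplicit false

open NumberField IsDedekindDomain WeierstrassCurve

namespace Pool.Agent.P8H4.PL

open Fr (Gq)
open Pool.Agent.TH841.SH.D (act Gal Coch IsCoc IsCob LocTriv cob)
open Pool.Agent.TH841.NF.D (Sha shaCoc IsShaCoc)

variable {W : WeierstrassCurve ℤ}

section aux

variable {Ω : Type} [Field Ω] {F : Type} [Field F] (i : F →+* Ω)

/-- the coboundary of a point -/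
noncomputable def bd (Q : Pt W Ω) : RingAut Ω → Pt W Ω := fun σ => TO W σ Q - Q

lemma coc_bd (Q : Pt W Ω) : Coc i W (bd Q) := by
  classical
  refine ⟨?_, fun σ _ τ _ => ?_⟩
  · rcases pt_cases Q with rfl | ⟨x, y, h, rfl⟩
    · refine ⟨∅, fun σ _ _ => ?_⟩
      show TO W σ 0 - 0 = 0
      rw [map_zero, sub_zero]
    · refine ⟨{x, y}, fun σ _ hσ => ?_⟩
      show TO W σ (pt h) - pt h = 0
      rw [sub_eq_zero]
      exact pt_congr _ _ (hσ x (by simp)) (hσ y (by simp))
  · show TO W (σ * τ) Q - Q = TO W σ Q - Q + TO W σ (TO W τ Q - Q)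
    rw [TO_mul, map_sub]
    abel

lemma emb_bd (Q : Pt W Ω) : EmbLoc i W (bd Q) := by
  intro q _ ι
  refine ⟨mp ι Q, fun τ σ _ h => ?_⟩
  show mp ι (TO W σ Q - Q) = _
  rw [map_sub]
  congr 1
  unfold TO Tq
  rw [mp_comp, mp_comp]
  exact mp_congr (fun x => (h x).symm) _

lemma coc_sub {f g : RingAut Ω → Pt W Ω} (hf : Coc i W f) (hg : Coc i W g) : Coc i W (f - g) := by
  classical
  obtain ⟨S, hS⟩ := hf.cont
  obtain ⟨S', hS'⟩ := hg.cont
  refine ⟨⟨S ∪ S', fun σ hσ hx => ?_⟩, fun σ hσ τ hτ => ?_⟩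
  · show f σ - g σ = 0
    rw [hS σ hσ fun x hx' => hx x (Finset.mem_union_left _ hx'),
      hS' σ hσ fun x hx' => hx x (Finset.mem_union_right _ hx'), sub_zero]
  · show f (σ * τ) - g (σ * τ) = f σ - g σ + TO W σ (f τ - g τ)
    rw [hf.mul σ hσ τ hτ, hg.mul σ hσ τ hτ, map_sub]
    abel

lemma emb_sub {f g : RingAut Ω → Pt W Ω} (hf : EmbLoc i W f) (hg : EmbLoc i W g) :
    EmbLoc i W (f - g) := by
  intro q _ ι
  obtain ⟨P, hP⟩ := hf q ι
  obtain ⟨P', hP'⟩ := hg q ι
  refine ⟨P - P', fun τ σ hσ h => ?_⟩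
  show mp ι (f σ - g σ) = _
  rw [map_sub, hP τ σ hσ h, hP' τ σ hσ h, map_sub]
  abel

end aux

section B1

variable {K : Type} [Field K] [NumberField K]

/-- a point fixed by the Galois group is rational -/
lemma fixed_pt (Q : Pt W (AlgebraicClosure K))
    (hQ : ∀ σ : Gal K, mp ((σ : AlgebraicClosure K →ₐ[K] AlgebraicClosure K) :
      AlgebraicClosure K →+* AlgebraicClosure K) Q = Q) :
    ∃ Q0 : Pt W K, mp (algebraMap K (AlgebraicClosure K)) Q0 = Q := by
  rcases pt_cases Q with rfl | ⟨x, y, h, rfl⟩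
  · exact ⟨0, map_zero _⟩
  · have hx : x ∈ Set.range (algebraMap K (AlgebraicClosure K)) := by
      rw [InfiniteGalois.mem_range_algebraMap_iff_fixed]
      intro τ
      exact (pt_inj (hQ τ)).1
    have hy : y ∈ Set.range (algebraMap K (AlgebraicClosure K)) := by
      rw [InfiniteGalois.mem_range_algebraMap_iff_fixed]
      intro τ
      exact (pt_inj (hQ τ)).2
    obtain ⟨x0, rfl⟩ := hx
    obtain ⟨y0, rfl⟩ := hy
    exact ⟨pt ((W.toAffine.baseChange_nonsingular (f := (algebraMap K (AlgebraicClosure K)).toIntAlgHom)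
      (algebraMap K (AlgebraicClosure K)).injective x0 y0).mp h), rfl⟩

open Classical in
/-- the function on the automorphisms of the ring -/
noncomputable def Fc (f : Coch (base W K)) (σ : RingAut (AlgebraicClosure K)) :
    Pt W (AlgebraicClosure K) :=
  if h : σ ∈ Gf (algebraMap K (AlgebraicClosure K)) then tr W _ (f (toGal ⟨σ, h⟩)) else 0

omit [NumberField K] in
lemma Fc_of (f : Coch (base W K)) {σ : RingAut (AlgebraicClosure K)}
    (h : σ ∈ Gf (algebraMap K (AlgebraicClosure K))) :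
    Fc f σ = tr W _ (f (toGal ⟨σ, h⟩)) := dif_pos h

omit [NumberField K] in
lemma gal_mem (σ : Gal K) :
    ((σ : AlgebraicClosure K ≃+* AlgebraicClosure K) : RingAut (AlgebraicClosure K)) ∈
      Gf (algebraMap K (AlgebraicClosure K)) := fun x => σ.commutes x

lemma Fc_gal (f : Coch (base W K)) (σ : Gal K) :
    Fc f (σ : AlgebraicClosure K ≃+* AlgebraicClosure K) = tr W _ (f σ) := by
  rw [Fc_of f (gal_mem σ)]
  rfl

lemma coc_Fc {f : Coch (base W K)} (hf : IsCoc (base W K) f) :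
    Coc (algebraMap K (AlgebraicClosure K)) W (Fc f) := by
  classical
  refine ⟨?_, fun σ hσ τ hτ => ?_⟩
  · have hf1 : f 1 = 0 := by
      have := hf.2 1 1
      rw [mul_one] at this
      have e : act (base W K) ((1 : Gal K).toAlgHom) (f 1) = f 1 := by
        rcases f 1 with _ | ⟨x, y, h⟩ <;> rfl
      rw [e] at this
      have h3 : f 1 + f 1 - f 1 = f 1 - f 1 := by rw [← this]
      rwa [add_sub_cancel_right, sub_self] at h3
    have h1 : {σ : Gal K | f σ = 0} ∈ nhds (1 : Gal K) := by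
      have h2 : ∀ᶠ σ in nhds (1 : Gal K), f σ = f 1 := hf.1.eventually_eq 1
      rw [hf1] at h2
      exact h2
    rw [krullTopology_mem_nhds_one_iff] at h1
    obtain ⟨E, hE, hE2⟩ := h1
    let b := Module.finBasis K E
    refine ⟨Finset.univ.image (fun l => ((b l : E) : AlgebraicClosure K)), fun σ hσ hx => ?_⟩
    rw [Fc_of f hσ]
    have h3 : toGal ⟨σ, hσ⟩ ∈ E.fixingSubgroup := by
      rw [IntermediateField.mem_fixingSubgroup_iff]
      intro x hxE
      have h4 : x = ((∑ l, b.repr ⟨x, hxE⟩ l • b l : E) : AlgebraicClosure K) := by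
        rw [b.sum_repr]
      rw [h4, AddSubmonoidClass.coe_finsetSum, map_sum]
      refine Finset.sum_congr rfl fun l _ => ?_
      rw [IntermediateField.coe_smul, Algebra.smul_def, map_mul, AlgEquiv.commutes]
      congr 1
      exact hx _ (Finset.mem_image_of_mem _ (Finset.mem_univ l))
    have h4 : f (toGal ⟨σ, hσ⟩) = 0 := hE2 h3
    rw [h4, map_zero]
  · rw [Fc_of f hσ, Fc_of f hτ, Fc_of f (Subgroup.mul_mem _ hσ hτ)]
    have h1 := hf.2 (toGal ⟨σ, hσ⟩) (toGal ⟨τ, hτ⟩)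
    have h2 : toGal ⟨σ * τ, Subgroup.mul_mem _ hσ hτ⟩ = toGal ⟨σ, hσ⟩ * toGal ⟨τ, hτ⟩ := rfl
    rw [h2, h1, map_add, tr_act]
    rfl

lemma emb_Fc {f : Coch (base W K)}
    (hf : ∀ v : HeightOneSpectrum (𝓞 K), LocTriv (base W K) (v.adicCompletion K) f) :
    EmbLoc (algebraMap K (AlgebraicClosure K)) W (Fc f) := by
  intro q _ ι
  obtain ⟨P, hP⟩ := emb_of_loc f hf q ι
  refine ⟨P, fun τ σ hσ h => ?_⟩
  rw [Fc_of f hσ]
  exact hP τ (toGal ⟨σ, hσ⟩) h

theorem sha_of_sel (hΔ : W.Δ ≠ 0) {p : ℕ} (hp : p.Prime)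
    (hS : SelTriv (algebraMap K (AlgebraicClosure K)) W p) (s : Sha (base W K)) (hs : p • s = 0) :
    s = 0 := by
  obtain ⟨f, rfl⟩ := QuotientAddGroup.mk_surjective
    (s := (cob (base W K)).addSubgroupOf (shaCoc (base W K))) s
  have h2 : (QuotientAddGroup.mk (p • f) : (shaCoc (base W K)) ⧸
    (cob (base W K)).addSubgroupOf (shaCoc (base W K))) = 0 := hs
  rw [QuotientAddGroup.eq_zero_iff, AddSubgroup.mem_addSubgroupOf] at h2
  obtain ⟨P, hP⟩ := h2
  have hP' : ∀ σ, p • f.1 σ = act (base W K) σ.toAlgHom P - P := fun σ => hP σ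
  obtain ⟨Q, hQ⟩ := exists_div hΔ hp.one_le (tr W (AlgebraicClosure K) P)
  obtain ⟨T, hT, h3⟩ := hS (Fc f.1 - bd Q) (coc_sub _ (coc_Fc f.2.1) (coc_bd _ Q)) (by
    intro σ hσ
    show p • (Fc f.1 σ - (TO W σ Q - Q)) = 0
    rw [Fc_of f.1 hσ, smul_sub, ← map_nsmul, hP', map_sub, tr_act, smul_sub, ← map_nsmul, hQ,
      sub_eq_zero]
    rfl) (emb_sub _ (emb_Fc f.2.2.1) (emb_bd _ Q))
  have h4 : f ∈ (cob (base W K)).addSubgroupOf (shaCoc (base W K)) := by
    rw [AddSubgroup.mem_addSubgroupOf]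
    refine ⟨(tr W _).symm (Q + T), fun σ => ?_⟩
    apply (tr W _).injective
    rw [map_sub, tr_act, AddEquiv.apply_symm_apply]
    have h5 : Fc f.1 (σ : AlgebraicClosure K ≃+* AlgebraicClosure K) -
      (TO W (σ : AlgebraicClosure K ≃+* AlgebraicClosure K) Q - Q) =
      TO W (σ : AlgebraicClosure K ≃+* AlgebraicClosure K) T - T := h3 _ (gal_mem σ)
    rw [Fc_gal] at h5
    have h6 : tr W _ (f.1 σ) = TO W (σ : AlgebraicClosure K ≃+* AlgebraicClosure K) (Q + T) -
        (Q + T) := by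
      rw [map_add]
      rw [sub_eq_iff_eq_add] at h5
      rw [h5]
      abel
    exact h6
  exact (QuotientAddGroup.eq_zero_iff f).2 h4

/-- the rational points are divisible by `p` -/
theorem div_of_sel (hΔ : W.Δ ≠ 0) {p : ℕ} (hp : p.Prime)
    (hS : SelTriv (algebraMap K (AlgebraicClosure K)) W p) (P : Pt W K) :
    ∃ Q : Pt W K, p • Q = P := by
  obtain ⟨Q, hQ⟩ := exists_div hΔ hp.one_le (mp (algebraMap K (AlgebraicClosure K)) P)
  have hfix : ∀ σ ∈ Gf (algebraMap K (AlgebraicClosure K)), p • (TO W σ Q - Q) = 0 := by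
    intro σ hσ
    rw [smul_sub, ← map_nsmul, hQ, sub_eq_zero]
    unfold TO
    rw [mp_comp]
    exact mp_congr (fun x => hσ x) _
  obtain ⟨T, hT, h3⟩ := hS (bd Q) (coc_bd _ Q) hfix (emb_bd _ Q)
  obtain ⟨Q0, hQ0⟩ := fixed_pt (Q - T) (fun σ => by
    have h4 := h3 _ (gal_mem σ)
    have h5 : TO W (σ : AlgebraicClosure K ≃+* AlgebraicClosure K) Q - Q =
      TO W (σ : AlgebraicClosure K ≃+* AlgebraicClosure K) T - T := h4
    show TO W (σ : AlgebraicClosure K ≃+* AlgebraicClosure K) (Q - T) = Q - T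
    rw [map_sub, ← sub_eq_zero]
    have e : ∀ a b c d : Pt W (AlgebraicClosure K), a - b - (c - d) = (a - c) - (b - d) := by
      intro a b c d; abel
    rw [e, h5, sub_self])
  refine ⟨Q0, mp_inj (algebraMap K (AlgebraicClosure K)) ?_⟩
  rw [map_nsmul, hQ0, smul_sub, hT, sub_zero, hQ]

end B1

/-- a finitely generated group in which multiplication by `p` is surjective is finite of order
prime to `p` -/
lemma finite_of_div {A : Type} [AddCommGroup A] [hA : AddGroup.FG A] {p : ℕ} (hp : p.Prime)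
    (h : ∀ a : A, ∃ b, p • b = a) : Finite A ∧ ¬ p ∣ Nat.card A := by
  have : Module.Finite ℤ A := Module.Finite.iff_addGroup_fg.2 hA
  obtain ⟨r, hr1, hr2⟩ := Submodule.exists_sub_one_mem_and_smul_eq_zero_of_fg_of_le_smul
    (Ideal.span {(p : ℤ)}) (⊤ : Submodule ℤ A) Module.Finite.fg_top (by
      intro a _
      obtain ⟨b, rfl⟩ := h a
      rw [← natCast_zsmul]
      exact Submodule.smul_mem_smul (Ideal.mem_span_singleton_self _) trivial)
  have hr : ¬ (p : ℤ) ∣ r := by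
    intro hd
    rw [Ideal.mem_span_singleton] at hr1
    have : (p : ℤ) ∣ 1 := by
      have := dvd_sub hd hr1
      simpa using this
    exact hp.one_lt.ne' (by exact_mod_cast Int.eq_one_of_dvd_one (by positivity) this)
  have hr0 : r ≠ 0 := fun h => hr (h ▸ dvd_zero _)
  have hfin : Finite A := by
    apply AddCommGroup.finite_of_fg_isAddTorsion
    intro a
    rw [isOfFinAddOrder_iff_nsmul_eq_zero]
    refine ⟨r.natAbs, Int.natAbs_pos.2 hr0, ?_⟩
    have h1 := hr2 a trivial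
    rcases Int.natAbs_eq r with h2 | h2
    · rw [h2, natCast_zsmul] at h1
      exact h1
    · rw [h2, neg_smul, neg_eq_zero, natCast_zsmul] at h1
      exact h1
  refine ⟨hfin, fun hd => ?_⟩
  have : Fact p.Prime := ⟨hp⟩
  obtain ⟨a, ha⟩ := exists_prime_addOrderOf_dvd_card' p hd
  have h1 := hr2 a trivial
  have h2 : addOrderOf a ∣ r.natAbs := by
    apply addOrderOf_dvd_of_nsmul_eq_zero
    rcases Int.natAbs_eq r with h2 | h2
    · rw [h2, natCast_zsmul] at h1
      exact h1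
    · rw [h2, neg_smul, neg_eq_zero, natCast_zsmul] at h1
      exact h1
  rw [ha] at h2
  exact hr (Int.natCast_dvd.2 h2)

open scoped Classical in
theorem points_of_sel {K : Type} [Field K] [NumberField K] (hΔ : W.Δ ≠ 0) {p : ℕ} (hp : p.Prime)
    (hS : SelTriv (algebraMap K (AlgebraicClosure K)) W p) :
    Finite (Pt W K) ∧ ¬ p ∣ Nat.card (Pt W K) := by
  let e : Pt W K →+ Pool.Agent.TH115.GD.Pt (Pool.Agent.Y702.G.sh W) K :=
    { toFun := Pool.Agent.Y355.G.tr (Pool.Agent.Y355.G.isSh' W K)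
      map_zero' := rfl
      map_add' := fun P Q => @Pool.Agent.Y355.G.tr_add K _ _ _ (Pool.Agent.Y355.G.isSh' W K)
        (Classical.decEq K) P Q }
  have he : Function.Injective e := fun P Q h => Pool.Agent.Y355.G.tr_inj (Pool.Agent.Y355.G.isSh' W K) h
  have hFG : AddGroup.FG (Pt W K) := Pool.Agent.H64R2.DDMWK.fg_of_inj e he
    (Pool.Agent.Y355.G.mw W hΔ K)
  exact finite_of_div hp (div_of_sel hΔ hp hS)

end Pool.Agent.P8H4.PL
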