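import Mathlib

/-!
# A product of Galois-conjugate character sums is an integer
-/

set_option autoImplicit false

namespace Pool.Agent.P8H4.PL

open Polynomial

/-- an integral polynomial with the same value at all the primitive roots of unity of order `E` -/
theorem same_value {E : ℕ} (hpos : 0 < E) {ζ : ℂ} (hζ : IsPrimitiveRoot ζ E) (P : ℤ[X])
    (h : ∀ a : ℕ, Nat.Coprime a E → aeval (ζ ^ a) P = aeval ζ P) :
    ∃ N : ℤ, aeval ζ P = (N : ℂ) := by
  have : NeZero E := ⟨hpos.ne'⟩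
  set Φ := cyclotomic E ℤ with hΦ
  have hmon : Φ.Monic := cyclotomic.monic _ _
  by_cases hE1 : E = 1
  · subst hE1
    have h2 : ζ = 1 := by simpa using hζ
    refine ⟨P.eval 1, ?_⟩
    rw [h2, aeval_def, eval₂_at_one]
    simp
  set Q := P %ₘ Φ with hQ
  set S := P /ₘ Φ with hS
  have hdiv : Q + Φ * S = P := modByMonic_add_div P Φ
  have hroot : ∀ μ ∈ primitiveRoots E ℂ, aeval μ Φ = 0 := by
    intro μ hμ
    rw [hΦ, aeval_def, eval₂_eq_eval_map, map_cyclotomic]
    exact (isRoot_cyclotomic_iff (n := E)).2 ((mem_primitiveRoots hpos).1 hμ)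
  have hval : ∀ μ ∈ primitiveRoots E ℂ, aeval μ Q = aeval ζ P := by
    intro μ hμ
    have h1 : aeval μ P = aeval ζ P := by
      obtain ⟨i, hi, hco, rfl⟩ := (hζ.isPrimitiveRoot_iff).1 ((mem_primitiveRoots hpos).1 hμ)
      exact h i hco
    rw [← h1, ← hdiv, map_add, map_mul, hroot μ hμ, zero_mul, add_zero]
  have hdeg : natDegree (Q.map (algebraMap ℤ ℂ) - C (aeval ζ P)) < (primitiveRoots E ℂ).card := by
    rw [hζ.card_primitiveRoots]
    have h1 : natDegree Q < Nat.totient E := by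
      rw [← natDegree_cyclotomic E ℤ]
      refine natDegree_modByMonic_lt P hmon ?_
      intro h1
      have := natDegree_cyclotomic E ℤ
      rw [← hΦ, h1, natDegree_one] at this
      exact (Nat.totient_pos.2 hpos).ne this
    rw [natDegree_sub_C]
    exact lt_of_le_of_lt (natDegree_map_le) h1
  have hzero : Q.map (algebraMap ℤ ℂ) - C (aeval ζ P) = 0 := by
    refine eq_zero_of_natDegree_lt_card_of_eval_eq_zero' _ (primitiveRoots E ℂ) ?_ hdeg
    intro μ hμ
    rw [eval_sub, eval_C, eval_map_algebraMap, hval μ hμ, sub_self]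
  have hQ0 : aeval ζ P = ((Q.coeff 0 : ℤ) : ℂ) := by
    have h1 := congrArg (fun R : ℂ[X] => R.coeff 0) hzero
    simp only [coeff_sub, coeff_map, coeff_C_zero, coeff_zero] at h1
    rw [sub_eq_zero] at h1
    rw [← h1]
    simp
  exact ⟨Q.coeff 0, hQ0⟩

theorem int_aux (m : ℕ) [NeZero m] (Y : Subgroup (DirichletCharacter ℂ m))
    (c : DirichletCharacter ℂ m → (ZMod m)ˣ → ℤ)
    (hc : ∀ χ ∈ Y, ∀ a : ℕ, Nat.Coprime a (Nat.card Y) → ∀ u, c (χ ^ a) u = c χ u) :
    ∃ N : ℤ, ∏ᶠ χ : Y, ∑ u : (ZMod m)ˣ,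
      (χ : DirichletCharacter ℂ m) (u : ZMod m) * (c χ u : ℂ) = N := by
  classical
  have : Finite (DirichletCharacter ℂ m) := inferInstance
  have : Finite Y := inferInstance
  have : Fintype Y := Fintype.ofFinite Y
  set E := Nat.card Y with hE
  have hpos : 0 < E := Nat.card_pos
  obtain ⟨ζ, hζ⟩ : ∃ ζ : ℂ, IsPrimitiveRoot ζ E := ⟨_, Complex.isPrimitiveRoot_exp _ hpos.ne'⟩
  have hex : ∀ (χ : Y) (u : (ZMod m)ˣ), ∃ e : ℕ, ζ ^ e = (χ : DirichletCharacter ℂ m) (u : ZMod m) := by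
    intro χ u
    have h1 : (χ : Y) ^ E = 1 := pow_card_eq_one'
    have h2 : ((χ : DirichletCharacter ℂ m) ^ E) = 1 := by
      have := congrArg (fun x : Y => (x : DirichletCharacter ℂ m)) h1
      simpa using this
    have h3 : ((χ : DirichletCharacter ℂ m) (u : ZMod m)) ^ E = 1 := by
      rw [← MulChar.pow_apply_coe, h2, MulChar.one_apply_coe]
    have : NeZero E := ⟨hpos.ne'⟩
    obtain ⟨i, _, hi⟩ := hζ.eq_pow_of_pow_eq_one h3
    exact ⟨i, hi⟩
  choose e he using hex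
  set P : ℤ[X] := ∏ χ : Y, ∑ u : (ZMod m)ˣ, C (c χ u) * X ^ (e χ u) with hP
  set F : Y → ℂ := fun χ => ∑ u : (ZMod m)ˣ,
      (χ : DirichletCharacter ℂ m) (u : ZMod m) * (c χ u : ℂ) with hF
  have hev : ∀ a : ℕ, Nat.Coprime a E → aeval (ζ ^ a) P = ∏ χ : Y, F χ := by
    intro a ha
    have hco : (Nat.card Y).Coprime a := ha.symm
    rw [← Fintype.prod_equiv (powCoprime hco) (fun χ => F (χ ^ a)) F (fun χ => rfl), hP,
      map_prod]
    refine Finset.prod_congr rfl fun χ _ => ?_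
    rw [map_sum, hF]
    refine Finset.sum_congr rfl fun u _ => ?_
    rw [map_mul, map_pow, aeval_X, aeval_C]
    have h1 : c ((χ ^ a : Y) : DirichletCharacter ℂ m) u = c χ u := by
      rw [SubgroupClass.coe_pow]
      exact hc χ χ.2 a ha u
    rw [h1, SubgroupClass.coe_pow, MulChar.pow_apply_coe, ← he χ u, ← pow_mul, ← pow_mul, mul_comm a]
    simp only [algebraMap_int_eq, eq_intCast]
    ring
  have hev1 := hev 1 (Nat.coprime_one_left E)
  rw [pow_one] at hev1
  obtain ⟨N, hN1⟩ := same_value hpos hζ P (fun a ha => by rw [hev a ha, hev1])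
  exact ⟨N, by rw [finprod_eq_prod_of_fintype, ← hN1, hev1]⟩

end Pool.Agent.P8H4.PL
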