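import Pool.Agent.P8H4.PL.An1

/-!
# Dirichlet characters and their sums modulo a prime above `p`
-/

set_option autoImplicit false

open Finset DirichletCharacter

namespace Pool.Agent.P8H4.PL

/-- the ring of the algebraic integers in `ℂ` -/
abbrev ZB : Type := integralClosure ℤ ℂ

lemma exists_red (p : ℕ) (hp : p.Prime) : ∃ (F : Type) (_ : Field F) (_ : CharP F p),
    Nonempty (ZB →+* F) := by
  have hne : Ideal.span {(p : ZB)} ≠ ⊤ := by
    intro h
    rw [Ideal.span_singleton_eq_top] at h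
    obtain ⟨x, hx⟩ := h.exists_right_inv
    have h1 : (p : ℂ) * (x : ℂ) = 1 := by
      have := congrArg (fun z : ZB => (z : ℂ)) hx
      simpa using this
    have h2 : (x : ℂ) = algebraMap ℚ ℂ (1 / p) := by
      have : (p : ℂ) ≠ 0 := by exact_mod_cast hp.ne_zero
      rw [map_div₀, map_one, map_natCast]
      field_simp
      linear_combination h1
    have h3 : IsIntegral ℤ (1 / (p : ℚ)) := by
      rw [← isIntegral_algebraMap_iff (algebraMap ℚ ℂ).injective, ← h2]
      exact x.2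
    obtain ⟨y, hy⟩ := IsIntegrallyClosed.isIntegral_iff.1 h3
    have h4 : (p : ℚ) ≠ 0 := by exact_mod_cast hp.ne_zero
    have h5 : (y : ℚ) * p = 1 := by
      have : (y : ℚ) = 1 / p := by simpa using hy
      rw [this]; field_simp
    have h6 : y * p = 1 := by exact_mod_cast h5
    have h7 : (p : ℤ) ∣ 1 := ⟨y, by rw [← h6]; ring⟩
    have h8 := Int.le_of_dvd one_pos h7
    have := hp.two_le
    omega
  obtain ⟨P, hP, hle⟩ := Ideal.exists_le_maximal _ hne
  have h0 : ((p : ℕ) : ZB ⧸ P) = 0 := by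
    have := Ideal.Quotient.eq_zero_iff_mem.2 (hle (Ideal.mem_span_singleton_self (p : ZB)))
    simpa using this
  let hfield : Field (ZB ⧸ P) := Ideal.Quotient.field P
  have hr : ringChar (ZB ⧸ P) = p := CharP.ringChar_of_prime_eq_zero hp h0
  refine ⟨ZB ⧸ P, hfield, ?_, ⟨Ideal.Quotient.mk P⟩⟩
  rw [← hr]
  infer_instance

section lift

variable {n : ℕ} [NeZero n]

lemma val_int (χ : DirichletCharacter ℂ n) (x : ZMod n) : IsIntegral ℤ (χ x) := by
  by_cases hx : IsUnit x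
  · obtain ⟨u, rfl⟩ := hx
    refine IsIntegral.of_pow (n := Fintype.card (ZMod n)ˣ) Fintype.card_pos ?_
    rw [← map_pow, ← Units.val_pow_eq_pow_val, pow_card_eq_one, Units.val_one, map_one]
    exact isIntegral_one
  · rw [χ.map_nonunit hx]
    exact isIntegral_zero

/-- the character with values in the algebraic integers -/
noncomputable def lft : DirichletCharacter ℂ n →* DirichletCharacter ZB n where
  toFun χ :=
    { toFun := fun x => ⟨χ x, val_int χ x⟩
      map_one' := Subtype.ext (map_one χ)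
      map_mul' := fun x y => Subtype.ext (map_mul χ x y)
      map_nonunit' := fun x hx => Subtype.ext (χ.map_nonunit hx) }
  map_one' := by
    ext u
    show (1 : DirichletCharacter ℂ n) (u : ZMod n) = ((1 : DirichletCharacter ZB n) u : ZB)
    rw [MulChar.one_apply_coe, MulChar.one_apply_coe]
    rfl
  map_mul' χ ψ := by
    ext u
    rfl

lemma lft_apply (χ : DirichletCharacter ℂ n) (x : ZMod n) : ((lft χ x : ZB) : ℂ) = χ x := rfl

variable {F : Type} [Field F] (φ : ZB →+* F)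

/-- the reduction -/
noncomputable def rd : DirichletCharacter ℂ n →* DirichletCharacter F n where
  toFun χ := MulChar.ringHomComp (lft χ) φ
  map_one' := by
    ext u
    rw [map_one, MulChar.ringHomComp_apply, MulChar.one_apply_coe, MulChar.one_apply_coe, map_one]
  map_mul' χ ψ := by
    ext u
    rw [map_mul, MulChar.ringHomComp_apply, MulChar.mul_apply, MulChar.mul_apply, map_mul,
      MulChar.ringHomComp_apply, MulChar.ringHomComp_apply]

lemma rd_apply (χ : DirichletCharacter ℂ n) (x : ZMod n) : rd φ χ x = φ (lft χ x) := rfl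

lemma rd_change {m : ℕ} [NeZero m] (h : n ∣ m) (χ : DirichletCharacter ℂ n) :
    rd φ (changeLevel h χ) = changeLevel h (rd φ χ) := by
  ext u
  rw [changeLevel_eq_cast_of_dvd, rd_apply, rd_apply]
  congr 1
  apply Subtype.ext
  rw [lft_apply, lft_apply, changeLevel_eq_cast_of_dvd]

lemma rd_eq_one {p : ℕ} (hp : p.Prime) [CharP F p] {j : ℕ} (χ : DirichletCharacter ℂ n)
    (h : χ ^ (p ^ j) = 1) : rd φ χ = 1 := by
  have : Fact p.Prime := ⟨hp⟩
  ext u
  rw [MulChar.one_apply_coe]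
  have h1 : (rd φ χ (u : ZMod n)) ^ (p ^ j) = 1 := by
    rw [← MulChar.pow_apply_coe, ← map_pow, h, map_one, MulChar.one_apply_coe]
  have h2 : (rd φ χ (u : ZMod n) - 1) ^ (p ^ j) = 0 := by
    rw [sub_pow_char_pow, h1, one_pow, sub_self]
  exact sub_eq_zero.1 (pow_eq_zero_iff (pow_ne_zero _ hp.ne_zero) |>.1 h2)

lemma rd_eq {p : ℕ} (hp : p.Prime) [CharP F p] {j : ℕ} (χ ψ : DirichletCharacter ℂ n)
    (h : (χ * ψ⁻¹) ^ (p ^ j) = 1) : rd φ χ = rd φ ψ := by
  have h1 := rd_eq_one φ hp _ h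
  rw [map_mul, map_inv, mul_inv_eq_one] at h1
  exact h1

/-- the value of the primitive character at `l` modulo `p` -/
noncomputable def rv (χ : DirichletCharacter ℂ n) (l : ℕ) : F :=
  haveI : NeZero χ.conductor := ⟨χ.conductor_ne_zero⟩
  rd φ χ.primitiveCharacter (l : ZMod χ.conductor)

open Classical in
/-- the twisted sum modulo `p` -/
noncomputable def tw (A B : ℚ → ℤ) (χ : DirichletCharacter ℂ n) : F :=
  haveI : NeZero χ.conductor := ⟨χ.conductor_ne_zero⟩
  TS (if χ (-1) = 1 then A else B) χ.conductor (rd φ (χ.primitiveCharacter)⁻¹)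

omit [NeZero n] in
lemma neg_one_eq {p : ℕ} (hp : Odd p) {j : ℕ} (χ ψ : DirichletCharacter ℂ n)
    (h : (χ * ψ⁻¹) ^ (p ^ j) = 1) : χ (-1) = ψ (-1) := by
  have h0 : ((-1 : ZMod n)) = ((-1 : (ZMod n)ˣ) : ZMod n) := by
    rw [Units.val_neg, Units.val_one]
  have h1 : (χ (-1) * ψ⁻¹ (-1)) ^ (p ^ j) = 1 := by
    rw [← MulChar.mul_apply, h0, ← MulChar.pow_apply_coe, h, MulChar.one_apply_coe]
  have h2 : ψ⁻¹ (-1) = ψ (-1) := by
    rw [MulChar.inv_apply_eq_inv']
    rcases ψ.even_or_odd with h3 | h3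
    · have h4 : ψ (-1) = 1 := h3
      rw [h4, inv_one]
    · have h4 : ψ (-1) = -1 := h3
      rw [h4]; norm_num
  have hodd : Odd (p ^ j) := hp.pow
  rw [h2] at h1
  rcases χ.even_or_odd with h3 | h3 <;> rcases ψ.even_or_odd with h4 | h4
  · have h5 : χ (-1) = 1 := h3
    have h6 : ψ (-1) = 1 := h4
    rw [h5, h6]
  · have h5 : χ (-1) = 1 := h3
    have h6 : ψ (-1) = -1 := h4
    rw [h5, h6, one_mul, hodd.neg_one_pow] at h1
    norm_num at h1
  · have h5 : χ (-1) = -1 := h3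
    have h6 : ψ (-1) = 1 := h4
    rw [h5, h6, mul_one, hodd.neg_one_pow] at h1
    norm_num at h1
  · have h5 : χ (-1) = -1 := h3
    have h6 : ψ (-1) = -1 := h4
    rw [h5, h6]

lemma prod_sq {q q' : ℕ} (hq : Squarefree q) (h : q' ∣ q) :
    q = (∏ l ∈ q.primeFactors.filter (fun l => ¬ l ∣ q'), l) * q' := by
  have hq0 : q ≠ 0 := hq.ne_zero
  have hq'0 : q' ≠ 0 := fun h0 => hq0 (by rw [h0] at h; exact zero_dvd_iff.1 h)
  have h1 : q'.primeFactors = q.primeFactors.filter (fun l => l ∣ q') := by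
    ext l
    rw [Finset.mem_filter, Nat.mem_primeFactors, Nat.mem_primeFactors]
    constructor
    · rintro ⟨h2, h3, -⟩
      exact ⟨⟨h2, h3.trans h, hq0⟩, h3⟩
    · rintro ⟨⟨h2, -, -⟩, h3⟩
      exact ⟨h2, h3, hq'0⟩
  have h2 : ∏ l ∈ q.primeFactors.filter (fun l => l ∣ q'), l = q' := by
    rw [← h1]
    exact Nat.prod_primeFactors_of_squarefree (hq.squarefree_of_dvd h)
  have h3 : ∏ l ∈ q.primeFactors, l = q := Nat.prod_primeFactors_of_squarefree hq
  conv_lhs => rw [← h3, ← Finset.prod_filter_mul_prod_filter_not q.primeFactors (fun l => l ∣ q'), h2]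
  rw [mul_comm]

/-- the relation between the sums of two characters whose quotient has `p`-power order -/
theorem tw_rel (hsq : Squarefree n) {p : ℕ} (hp : p.Prime) (hp2 : Odd p) [CharP F p] {j : ℕ}
    {A B : ℚ → ℤ} {a : ℕ → ℤ} (hA : ∀ r, A (r + 1) = A r) (hB : ∀ r, B (r + 1) = B r)
    (hkA : ∀ l : ℕ, l.Prime → l ∣ n → Hk A (a l) l) (hkB : ∀ l : ℕ, l.Prime → l ∣ n → Hk B (a l) l)
    (χ ψ : DirichletCharacter ℂ n) (h : (χ * ψ⁻¹) ^ (p ^ j) = 1)
    (hd : ψ.conductor ∣ χ.conductor) :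
    tw φ A B χ = (∏ l ∈ χ.conductor.primeFactors.filter (fun l => ¬ l ∣ ψ.conductor),
      (((a l : ℤ) : F) - rv φ ψ l - (rv φ ψ l)⁻¹)) * tw φ A B ψ := by
  classical
  have i1 : NeZero χ.conductor := ⟨χ.conductor_ne_zero⟩
  have i2 : NeZero ψ.conductor := ⟨ψ.conductor_ne_zero⟩
  have hpar := neg_one_eq hp2 χ ψ h
  set C : ℚ → ℤ := if ψ (-1) = 1 then A else B with hC
  have hCp : ∀ r, C (r + 1) = C r := by
    rw [hC]; split_ifs; exacts [hA, hB]
  have hkC : ∀ l : ℕ, l.Prime → l ∣ n → Hk C (a l) l := by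
    rw [hC]; split_ifs; exacts [hkA, hkB]
  have e1 : tw φ A B χ = TS C χ.conductor (rd φ (χ.primitiveCharacter)⁻¹) := by
    unfold tw
    rw [hpar]
  have e2 : tw φ A B ψ = TS C ψ.conductor (rd φ (ψ.primitiveCharacter)⁻¹) := rfl
  have hcl : (χ.primitiveCharacter * (changeLevel hd ψ.primitiveCharacter)⁻¹) ^ (p ^ j) = 1 := by
    apply changeLevel_injective χ.conductor_dvd_level
    rw [map_pow, map_mul, map_inv, ← changeLevel_trans, changeLevel_primitiveCharacter,
      changeLevel_primitiveCharacter, h, map_one]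
  have hrd : rd φ χ.primitiveCharacter = changeLevel hd (rd φ ψ.primitiveCharacter) := by
    rw [← rd_change]
    exact rd_eq φ hp _ _ hcl
  have hrd' : rd φ (χ.primitiveCharacter)⁻¹ = changeLevel hd (rd φ (ψ.primitiveCharacter)⁻¹) := by
    rw [map_inv, map_inv, map_inv, hrd]
  have hqsq : Squarefree χ.conductor := hsq.squarefree_of_dvd χ.conductor_dvd_level
  rw [e1, e2, hrd', ts_prod C hCp a ψ.conductor (rd φ (ψ.primitiveCharacter)⁻¹)
    (χ.conductor.primeFactors.filter (fun l => ¬ l ∣ ψ.conductor)) ?_ ?_ χ.conductor hd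
    (prod_sq hqsq hd)]
  · congr 1
    refine Finset.prod_congr rfl fun l hl => ?_
    unfold rv
    rw [map_inv, inv_inv, MulChar.inv_apply_eq_inv']
    ring
  · intro l hl
    rw [Finset.mem_filter, Nat.mem_primeFactors] at hl
    exact ⟨hl.1.1, (Nat.Prime.coprime_iff_not_dvd hl.1.1).2 hl.2⟩
  · intro l hl
    rw [Finset.mem_filter, Nat.mem_primeFactors] at hl
    exact hkC l hl.1.1 (hl.1.2.1.trans χ.conductor_dvd_level)

theorem tw_iff (hsq : Squarefree n) {p : ℕ} (hp : p.Prime) (hp2 : Odd p) [CharP F p] {j : ℕ}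
    {A B : ℚ → ℤ} {a : ℕ → ℤ} (hA : ∀ r, A (r + 1) = A r) (hB : ∀ r, B (r + 1) = B r)
    (hkA : ∀ l : ℕ, l.Prime → l ∣ n → Hk A (a l) l) (hkB : ∀ l : ℕ, l.Prime → l ∣ n → Hk B (a l) l)
    (χ ψ : DirichletCharacter ℂ n) (h : (χ * ψ⁻¹) ^ (p ^ j) = 1)
    (hd : ψ.conductor ∣ χ.conductor) :
    tw φ A B χ ≠ 0 ↔ tw φ A B ψ ≠ 0 ∧ ∀ l : ℕ, l.Prime → l ∣ χ.conductor → ¬ l ∣ ψ.conductor →
      ((a l : ℤ) : F) - rv φ ψ l - (rv φ ψ l)⁻¹ ≠ 0 := by
  rw [tw_rel φ hsq hp hp2 hA hB hkA hkB χ ψ h hd, mul_ne_zero_iff, Finset.prod_ne_zero_iff, and_comm]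
  refine and_congr_right fun _ => ?_
  constructor
  · intro h1 l hl h2 h3
    exact h1 l (Finset.mem_filter.2 ⟨Nat.mem_primeFactors.2 ⟨hl, h2, χ.conductor_ne_zero⟩, h3⟩)
  · intro h1 l hl
    rw [Finset.mem_filter, Nat.mem_primeFactors] at hl
    exact h1 l hl.1.1 hl.1.2.1 hl.2

/-- the value at `l` of characters whose quotient has `p`-power order -/
lemma rv_eq {p : ℕ} (hp : p.Prime) [CharP F p] {j : ℕ} (χ ψ : DirichletCharacter ℂ n)
    (h : (χ * ψ⁻¹) ^ (p ^ j) = 1) (hd : ψ.conductor ∣ χ.conductor) {l : ℕ} (hl : l.Prime)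
    (hlχ : ¬ l ∣ χ.conductor) : rv φ χ l = rv φ ψ l := by
  have i1 : NeZero χ.conductor := ⟨χ.conductor_ne_zero⟩
  have i2 : NeZero ψ.conductor := ⟨ψ.conductor_ne_zero⟩
  have hcl : (χ.primitiveCharacter * (changeLevel hd ψ.primitiveCharacter)⁻¹) ^ (p ^ j) = 1 := by
    apply changeLevel_injective χ.conductor_dvd_level
    rw [map_pow, map_mul, map_inv, ← changeLevel_trans, changeLevel_primitiveCharacter,
      changeLevel_primitiveCharacter, h, map_one]
  have hrd : rd φ χ.primitiveCharacter = changeLevel hd (rd φ ψ.primitiveCharacter) := by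
    rw [← rd_change]
    exact rd_eq φ hp _ _ hcl
  have hu : IsUnit ((l : ZMod χ.conductor)) :=
    (ZMod.isUnit_iff_coprime _ _).2 ((Nat.Prime.coprime_iff_not_dvd hl).2 hlχ)
  have hcast : (ZMod.cast (l : ZMod χ.conductor) : ZMod ψ.conductor) = (l : ZMod ψ.conductor) :=
    ZMod.cast_natCast hd l
  unfold rv
  rw [hrd]
  obtain ⟨u, hu⟩ := hu
  rw [← hu, changeLevel_eq_cast_of_dvd, hu, hcast]

end lift

end Pool.Agent.P8H4.PL
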