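import Pool.Agent.P8H4.PL.An3

/-!
# Groups of characters and `p`-extensions
-/

set_option autoImplicit false

open Finset DirichletCharacter

namespace Pool.Agent.P8H4.PL

/-- the projection to the part of order prime to `p` as a power -/
lemma exists_exp {G : Type*} [CommGroup G] [Finite G] {p : ℕ} (hp : p.Prime) (i : ℕ) :
    ∃ e J : ℕ, i ≤ J ∧ p ^ J ∣ e ∧ (∀ χ : G, (χ * (χ ^ e)⁻¹) ^ (p ^ J) = 1) ∧
      (∀ χ : G, (χ ^ e) ^ e = χ ^ e) ∧ ∀ (η : G) (k : ℕ), η ^ (p ^ k) = 1 → η ^ (p ^ J) = 1 := by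
  set T := Nat.card G with hT
  have hT0 : T ≠ 0 := Nat.card_pos.ne'
  obtain ⟨s, t, ht, hst⟩ := Nat.exists_eq_pow_mul_and_not_dvd hT0 p hp.ne_one
  have ht0 : t ≠ 0 := by
    rintro rfl
    exact ht (dvd_zero p)
  have hco : Nat.Coprime (p ^ (s + i)) t :=
    Nat.Coprime.pow_left _ ((Nat.Prime.coprime_iff_not_dvd hp).2 ht)
  obtain ⟨e0, he1, he2⟩ := Nat.chineseRemainder hco 0 1
  -- make it positive
  set e := e0 + p ^ (s + i) * t with he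
  have hepos : 0 < e := by
    have : 0 < p ^ (s + i) * t := Nat.mul_pos (pow_pos hp.pos _) (Nat.pos_of_ne_zero ht0)
    omega
  have hd1 : p ^ (s + i) ∣ e := by
    have h1 : p ^ (s + i) ∣ e0 := (Nat.modEq_zero_iff_dvd).1 he1
    exact dvd_add h1 (dvd_mul_right _ _)
  have hd2 : t ∣ e - 1 := by
    have h1 : 1 ≡ e [MOD t] := by
      rw [he]
      have h2 : e0 + p ^ (s + i) * t ≡ 1 + 0 [MOD t] :=
        Nat.ModEq.add he2 ((Nat.modEq_zero_iff_dvd).2 (dvd_mul_left _ _))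
      exact h2.symm
    exact (Nat.modEq_iff_dvd' hepos).1 h1
  have hc : ∀ χ : G, χ ^ T = 1 := fun χ => pow_card_eq_one'
  have hpow : ∀ (χ : G) (k : ℕ), T ∣ k → χ ^ k = 1 := by
    rintro χ k ⟨c, rfl⟩
    rw [pow_mul, hc, one_pow]
  have hinv : ∀ χ : G, χ * (χ ^ e)⁻¹ = (χ ^ (e - 1))⁻¹ := by
    intro χ
    have h1 : χ ^ e = χ ^ (e - 1) * χ := by
      rw [← pow_succ]
      congr 1
      omega
    rw [h1, mul_inv, mul_comm, mul_assoc, inv_mul_cancel, mul_one]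
  have hTd : T ∣ (e - 1) * p ^ (s + i) := by
    rw [hst, pow_add, mul_comm (p ^ s) t]
    exact mul_dvd_mul hd2 (dvd_mul_right _ _)
  have hTd2 : T ∣ e * (e - 1) := by
    rw [hst]
    exact mul_dvd_mul ((pow_dvd_pow p (Nat.le_add_right s i)).trans hd1) hd2
  refine ⟨e, s + i, Nat.le_add_left _ _, hd1, fun χ => ?_, fun χ => ?_, fun η k hk => ?_⟩
  · rw [hinv, inv_pow, ← pow_mul, hpow χ _ hTd, inv_one]
  · have h1 : e * e = e * (e - 1) + e := by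
      rw [← Nat.mul_succ]
      congr 1
      omega
    rw [← pow_mul, h1, pow_add, hpow χ _ hTd2, one_mul]
  · obtain ⟨m, hm1, hm2⟩ := (Nat.dvd_prime_pow hp).1 (orderOf_dvd_of_pow_eq_one hk)
    have h2 : orderOf η ∣ T := orderOf_dvd_natCard η
    rw [hm2, hst] at h2
    have h3 : p ^ m ∣ p ^ s := Nat.Coprime.dvd_of_dvd_mul_right
      (Nat.Coprime.pow_left _ ((Nat.Prime.coprime_iff_not_dvd hp).2 ht)) h2
    have h4 : orderOf η ∣ p ^ (s + i) := by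
      rw [hm2]
      exact h3.trans (pow_dvd_pow p (Nat.le_add_right s i))
    exact orderOf_dvd_iff_pow_eq_one.1 h4

section

variable {n : ℕ} [NeZero n]

lemma cond_mul {l : ℕ} (hl : l.Prime) {χ ψ : DirichletCharacter ℂ n} (h1 : ¬ l ∣ χ.conductor)
    (h2 : ¬ l ∣ ψ.conductor) : ¬ l ∣ (χ * ψ).conductor := by
  have h3 : χ ∈ subgroupOfCoprimeConductor (R := ℂ) (n := n) l := by
    rw [mem_subgroupOfCoprimeConductor]
    exact (Nat.Prime.coprime_iff_not_dvd hl).2 h1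
  have h4 : ψ ∈ subgroupOfCoprimeConductor (R := ℂ) (n := n) l := by
    rw [mem_subgroupOfCoprimeConductor]
    exact (Nat.Prime.coprime_iff_not_dvd hl).2 h2
  have h5 := mul_mem h3 h4
  rw [mem_subgroupOfCoprimeConductor] at h5
  exact (Nat.Prime.coprime_iff_not_dvd hl).1 h5

lemma cond_inv {l : ℕ} {χ : DirichletCharacter ℂ n} (h1 : ¬ l ∣ χ.conductor) :
    ¬ l ∣ (χ⁻¹).conductor := by
  rwa [conductor_inv]

lemma cond_pow {l : ℕ} {χ : DirichletCharacter ℂ n} (h1 : ¬ l ∣ χ.conductor) (k : ℕ) :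
    ¬ l ∣ (χ ^ k).conductor := fun h => h1 (h.trans (χ.conductor_pow_dvd k))

variable {F : Type} [Field F] (φ : ZB →+* F) {p : ℕ} (hp : p.Prime) (hp2 : Odd p) [CharP F p]
  (hsq : Squarefree n) {A B : ℚ → ℤ} {a : ℕ → ℤ} (hA : ∀ r, A (r + 1) = A r)
  (hB : ∀ r, B (r + 1) = B r) (hkA : ∀ l : ℕ, l.Prime → l ∣ n → Hk A (a l) l)
  (hkB : ∀ l : ℕ, l.Prime → l ∣ n → Hk B (a l) l)
include hp hp2 hsq hA hB hkA hkB

theorem tw_up (Xk XK : Subgroup (DirichletCharacter ℂ n)) (hle : Xk ≤ XK) {i : ℕ}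
    (hi : ∀ χ ∈ XK, χ ^ (p ^ i) ∈ Xk) (hk : ∀ ψ ∈ Xk, tw φ A B ψ ≠ 0)
    (hl : ∀ l : ℕ, l.Prime → l ∣ n → (∃ η ∈ XK, (∃ k, η ^ (p ^ k) = 1) ∧ l ∣ η.conductor) →
      (∀ η ∈ Xk, (∃ k, η ^ (p ^ k) = 1) → ¬ l ∣ η.conductor) → ∀ ψ ∈ Xk, ¬ l ∣ ψ.conductor →
      ((a l : ℤ) : F) - rv φ ψ l - (rv φ ψ l)⁻¹ ≠ 0) :
    ∀ χ ∈ XK, tw φ A B χ ≠ 0 := by
  classical
  obtain ⟨e, J, hiJ, hJe, h1, h2, h3⟩ := exists_exp (G := DirichletCharacter ℂ n) hp i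
  intro χ hχ
  set ψ := χ ^ e with hψ
  have hψk : ψ ∈ Xk := by
    obtain ⟨c, hc⟩ := (pow_dvd_pow p hiJ).trans hJe
    rw [hψ, hc, pow_mul]
    exact Xk.pow_mem (hi χ hχ) c
  have hd : ψ.conductor ∣ χ.conductor := χ.conductor_pow_dvd e
  rw [tw_iff φ hsq hp hp2 hA hB hkA hkB χ ψ (h1 χ) hd]
  refine ⟨hk ψ hψk, fun l hlp hlχ hlψ => ?_⟩
  by_cases hcase : ∀ η ∈ Xk, (∃ k, η ^ (p ^ k) = 1) → ¬ l ∣ η.conductor
  · refine hl l hlp (hlχ.trans χ.conductor_dvd_level) ⟨χ * ψ⁻¹, XK.mul_mem hχ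
      (XK.inv_mem (hle hψk)), ⟨J, h1 χ⟩, ?_⟩ hcase ψ hψk hlψ
    by_contra hcon
    have h4 := cond_mul hlp hcon hlψ
    rw [inv_mul_cancel_right] at h4
    exact h4 hlχ
  · push Not at hcase
    obtain ⟨η, hη, ⟨k, hk'⟩, hlη⟩ := hcase
    have hηJ := h3 η k hk'
    have hηe : η ^ e = 1 := by
      obtain ⟨c, hc⟩ := hJe
      rw [hc, pow_mul, hηJ, one_pow]
    have hχ1 : ψ * η ∈ Xk := Xk.mul_mem hψk hη
    have he1 : (ψ * η) ^ e = ψ := by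
      rw [mul_pow, hηe, mul_one, hψ, h2]
    have hd1 : ψ.conductor ∣ (ψ * η).conductor := by
      have := (ψ * η).conductor_pow_dvd e
      rwa [he1] at this
    have h4 := (tw_iff φ hsq hp hp2 hA hB hkA hkB (ψ * η) ψ (j := J) (by
      rw [mul_inv_cancel_comm]; exact hηJ) hd1).1 (hk _ hχ1)
    refine h4.2 l hlp ?_ hlψ
    by_contra hcon
    have h5 := cond_mul hlp (cond_inv hlψ) hcon
    rw [inv_mul_cancel_left] at h5
    exact h5 hlη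

theorem tw_down (Xk XK : Subgroup (DirichletCharacter ℂ n)) (hle : Xk ≤ XK)
    (hK : ∀ χ ∈ XK, tw φ A B χ ≠ 0) :
    (∀ ψ ∈ Xk, tw φ A B ψ ≠ 0) ∧
    ∀ l : ℕ, l.Prime → (∃ η ∈ XK, (∃ k, η ^ (p ^ k) = 1) ∧ l ∣ η.conductor) →
      ∀ ψ ∈ Xk, ¬ l ∣ ψ.conductor → ((a l : ℤ) : F) - rv φ ψ l - (rv φ ψ l)⁻¹ ≠ 0 := by
  classical
  refine ⟨fun ψ hψ => hK ψ (hle hψ), ?_⟩
  rintro l hl ⟨η, hη, ⟨k, hk⟩, hlη⟩ ψ hψ hlψ
  obtain ⟨e, J, -, hJe, h1, h2, h3⟩ := exists_exp (G := DirichletCharacter ℂ n) hp 0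
  have hηJ := h3 η k hk
  have hηe : η ^ e = 1 := by
    obtain ⟨c, hc⟩ := hJe
    rw [hc, pow_mul, hηJ, one_pow]
  set ψ' := ψ ^ e with hψ'
  have hlψ' : ¬ l ∣ ψ'.conductor := cond_pow hlψ e
  have hrv : rv φ ψ l = rv φ ψ' l :=
    rv_eq φ hp ψ ψ' (h1 ψ) (ψ.conductor_pow_dvd e) hl hlψ
  rw [hrv]
  have he1 : (ψ' * η) ^ e = ψ' := by
    rw [mul_pow, hηe, mul_one, hψ', h2]
  have hd1 : ψ'.conductor ∣ (ψ' * η).conductor := by
    have := (ψ' * η).conductor_pow_dvd e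
    rwa [he1] at this
  have hmem : ψ' * η ∈ XK := XK.mul_mem (hle (Xk.pow_mem hψ e)) hη
  have h4 := (tw_iff φ hsq hp hp2 hA hB hkA hkB (ψ' * η) ψ' (j := J) (by
      rw [mul_inv_cancel_comm]; exact hηJ) hd1).1 (hK _ hmem)
  refine h4.2 l hl ?_ hlψ'
  by_contra hcon
  have h5 := cond_mul hl (cond_inv hlψ') hcon
  rw [inv_mul_cancel_left] at h5
  exact h5 hlη

end

end Pool.Agent.P8H4.PL
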