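import Pool.Agent.P8H4.PL.An2
import Pool.Agent.P8H4.PL.An4
import Pool.Agent.Y702.G.Val
import Pool.Agent.Y702.G.Main

/-!
# The integral modular symbols of an elliptic curve and the products of the twisted sums
-/

set_option autoImplicit false

open Finset DirichletCharacter UpperHalfPlane MatrixGroups CongruenceSubgroup

namespace Pool.Agent.P8H4.PL

open Pool.Agent.Y702.G (IsForm bv_conj bv_val)
open Pool.Agent.Y18.BSD (co bv PG bv_period bv_hecke bv_mem)
open Pool.Agent.Y702.L (sect map_sect prim_unit prim_neg_one nz_cond)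

section sym

variable {W : WeierstrassCurve ℤ} {N : ℕ} [NeZero N]
  {f : CuspForm (Gamma0 N : Subgroup (GL (Fin 2) ℝ)) 2}

/-- `a_l` -/
noncomputable def al (W : WeierstrassCurve ℤ) (l : ℕ) : ℤ := (l : ℤ) - Pool.Agent.Y702.G.pts W (ZMod l)

/-- the integral symbols -/
structure IsSym (f : CuspForm (Gamma0 N : Subgroup (GL (Fin 2) ℝ)) 2) (Op Om : ℝ) (D : ℤ)
    (A B : ℚ → ℤ) : Prop where
  val : ∀ r : ℚ, (D : ℂ) * bv f r = A r * Op + B r * Om * Complex.I
  perA : ∀ r, A (r + 1) = A r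
  perB : ∀ r, B (r + 1) = B r
  negA : ∀ r, A (-r) = A r
  negB : ∀ r, B (-r) = -B r

lemma coord {Op Om : ℝ} (hOp : 0 < Op) (hOm : 0 < Om) {a b a' b' : ℤ}
    (h : (a * Op + b * Om * Complex.I : ℂ) = a' * Op + b' * Om * Complex.I) : a = a' ∧ b = b' := by
  have h1 := congrArg Complex.re h
  have h2 := congrArg Complex.im h
  simp at h1 h2
  constructor
  · rcases h1 with h1 | h1
    · exact_mod_cast h1
    · exact absurd h1 hOp.ne'
  · rcases h2 with h2 | h2
    · exact_mod_cast h2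
    · exact absurd h2 hOm.ne'

theorem exists_sym (hf : IsForm W N f) {Op Om : ℝ} (hOp : 0 < Op) (hOm : 0 < Om) {c : ℤ}
    (hman : ∀ x ∈ PG f, ∃ a b : ℤ, (c : ℂ) * x = a * Op + b * Om * Complex.I)
    {l : ℕ} (hl : l.Prime) (hlN : ¬ l ∣ N) :
    ∃ A B : ℚ → ℤ, IsSym f Op Om (c * (l + 1 - al W l)) A B := by
  obtain ⟨w, -, hfr⟩ := hf.fr
  have hcol : co f l = ((al W l : ℤ) : ℂ) := by
    rw [hf.coef l hl, al]
    push_cast
    rfl
  have hex : ∀ r : ℚ, ∃ a b : ℤ,
      ((c * (l + 1 - al W l) : ℤ) : ℂ) * bv f r = a * Op + b * Om * Complex.I := by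
    intro r
    have h1 := bv_mem hf.hrel hfr hl hlN _ hcol r
    obtain ⟨a, b, h3⟩ := hman _ h1
    refine ⟨a, b, ?_⟩
    rw [← h3, Int.cast_mul, mul_assoc]
  choose A B hJ using hex
  have hneg : ∀ r, A (-r) = A r ∧ B (-r) = -B r := by
    intro r
    have e1 := bv_conj hf r
    have e3 : ((c * (l + 1 - al W l) : ℤ) : ℂ) * bv f (-r) =
        ((c * (l + 1 - al W l) : ℤ) : ℂ) * (starRingEnd ℂ) (bv f r) := by rw [e1]
    rw [hJ] at e3
    have e4 : ((c * (l + 1 - al W l) : ℤ) : ℂ) * (starRingEnd ℂ) (bv f r) =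
        A r * Op + ((-B r : ℤ) : ℂ) * Om * Complex.I := by
      have e5 := congrArg (starRingEnd ℂ) (hJ r)
      simp only [map_add, map_mul, Complex.conj_ofReal, Complex.conj_I, map_intCast] at e5
      rw [e5]
      push_cast
      ring
    rw [e4] at e3
    exact coord hOp hOm e3
  have hper : ∀ r, A (r + 1) = A r ∧ B (r + 1) = B r := by
    intro r
    have e1 := hJ (r + 1)
    rw [bv_period, hJ r] at e1
    obtain ⟨h1, h2⟩ := coord hOp hOm e1
    exact ⟨h1.symm, h2.symm⟩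
  exact ⟨A, B, hJ, fun r => (hper r).1, fun r => (hper r).2, fun r => (hneg r).1,
    fun r => (hneg r).2⟩

theorem IsSym.hecke (hf : IsForm W N f) {Op Om : ℝ} (hOp : 0 < Op) (hOm : 0 < Om) {D : ℤ}
    {A B : ℚ → ℤ} (h : IsSym f Op Om D A B) {l : ℕ} (hl : l.Prime) (hlN : ¬ l ∣ N) :
    Hk A (al W l) l ∧ Hk B (al W l) l := by
  obtain ⟨w, -, hfr⟩ := hf.fr
  have hcol : co f l = ((al W l : ℤ) : ℂ) := by
    rw [hf.coef l hl, al]
    push_cast
    rfl
  have key : ∀ r, al W l * A r = A (l * r) + ∑ u ∈ range l, A ((r + u) / l) ∧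
      al W l * B r = B (l * r) + ∑ u ∈ range l, B ((r + u) / l) := by
    intro r
    have h1 := congrArg (fun z : ℂ => (D : ℂ) * z) (bv_hecke hf.hrel hfr hl hlN r)
    have h2 : ((al W l * A r : ℤ) : ℂ) * Op + ((al W l * B r : ℤ) : ℂ) * Om * Complex.I =
        ((A (l * r) + ∑ u ∈ range l, A ((r + u) / l) : ℤ) : ℂ) * Op +
        ((B (l * r) + ∑ u ∈ range l, B ((r + u) / l) : ℤ) : ℂ) * Om * Complex.I := by
      have e1 : (D : ℂ) * (co f l * bv f r) = ((al W l * A r : ℤ) : ℂ) * Op +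
          ((al W l * B r : ℤ) : ℂ) * Om * Complex.I := by
        rw [hcol]
        push_cast
        linear_combination ((al W l : ℤ) : ℂ) * h.val r
      rw [← e1]
      rw [show (D : ℂ) * (co f l * bv f r) = (D : ℂ) * (bv f (l * r) +
        ∑ u ∈ range l, bv f ((r + u) / l)) from h1, mul_add, Finset.mul_sum]
      rw [Finset.sum_congr rfl fun (u : ℕ) _ => h.val ((r + u) / l), h.val, Finset.sum_add_distrib,
        ← Finset.sum_mul, ← Finset.sum_mul, ← Finset.sum_mul]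
      push_cast
      ring
    exact coord hOp hOm h2
  exact ⟨fun r => (key r).1, fun r => (key r).2⟩

/-- half of the period of a character -/
noncomputable def kp (Op Om : ℝ) (ev : Prop) [Decidable ev] : ℂ :=
  if ev then (Op : ℂ) else Om * Complex.I

omit [NeZero N] in
open Classical in
theorem IsSym.sum {Op Om : ℝ} {D : ℤ}
    {A B : ℚ → ℤ} (h : IsSym f Op Om D A B) (q : ℕ) [NeZero q] (ψ : DirichletCharacter ℂ q) :
    (D : ℂ) * ∑ u : (ZMod q)ˣ, ψ (u : ZMod q) * bv f (((u : ZMod q).val : ℚ) / q) =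
      kp Op Om (ψ (-1) = 1) * TS (if ψ (-1) = 1 then A else B) q ψ := by
  have e1 : (D : ℂ) * ∑ u : (ZMod q)ˣ, ψ (u : ZMod q) * bv f (((u : ZMod q).val : ℚ) / q) =
      Op * TS A q ψ + Om * Complex.I * TS B q ψ := by
    unfold TS
    rw [Finset.mul_sum, Finset.mul_sum, Finset.mul_sum, ← Finset.sum_add_distrib]
    refine Finset.sum_congr rfl fun u _ => ?_
    linear_combination (ψ (u : ZMod q)) * h.val (((u : ZMod q).val : ℚ) / q)
  -- the values at the negatives
  have hval : ∀ (C : ℚ → ℤ), (∀ r, C (r + 1) = C r) → ∀ u : (ZMod q)ˣ,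
      C ((((-u : (ZMod q)ˣ) : ZMod q).val : ℚ) / q) = C (-(((u : ZMod q).val : ℚ) / q)) := by
    intro C hC u
    have h0 : (q : ℚ) ≠ 0 := Nat.cast_ne_zero.2 (NeZero.ne q)
    by_cases hu : (u : ZMod q) = 0
    · rw [Units.val_neg, hu, neg_zero, ZMod.val_zero]
      simp
    · have h2 : ((-u : (ZMod q)ˣ) : ZMod q).val = q - (u : ZMod q).val := by
        rw [Units.val_neg, ZMod.neg_val, if_neg hu]
      have h3 : (u : ZMod q).val ≤ q := (ZMod.val_lt _).le
      rw [h2, Nat.cast_sub h3, ← hC (-(((u : ZMod q).val : ℚ) / q))]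
      congr 1
      field_simp
      ring
  have hm : ∀ u : (ZMod q)ˣ, ψ ((-u : (ZMod q)ˣ) : ZMod q) = ψ (-1) * ψ (u : ZMod q) := by
    intro u
    rw [Units.val_neg, ← map_mul, neg_one_mul]
  have hA : TS A q ψ = ψ (-1) * TS A q ψ := by
    conv_lhs => rw [TS, ← Equiv.sum_comp (Equiv.neg (ZMod q)ˣ)]
    unfold TS
    rw [Finset.mul_sum]
    refine Finset.sum_congr rfl fun u _ => ?_
    rw [Equiv.neg_apply, hval A h.perA, h.negA, hm]
    ring
  have hB : TS B q ψ = -ψ (-1) * TS B q ψ := by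
    conv_lhs => rw [TS, ← Equiv.sum_comp (Equiv.neg (ZMod q)ˣ)]
    unfold TS
    rw [Finset.mul_sum]
    refine Finset.sum_congr rfl fun u _ => ?_
    rw [Equiv.neg_apply, hval B h.perB, h.negB, hm]
    push_cast
    ring
  rw [e1]
  unfold kp
  rcases ψ.even_or_odd with hev | hod
  · have hev' : ψ (-1) = 1 := hev
    rw [hev'] at hB
    have hB0 : TS B q ψ = 0 := by linear_combination (1 / 2 : ℂ) * hB
    rw [if_pos hev', if_pos hev', hB0, mul_zero, add_zero]
  · have hod' : ψ (-1) = -1 := hod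
    have hne : ¬ ψ (-1) = 1 := by
      rw [hod']; norm_num
    rw [hod'] at hA
    have hA0 : TS A q ψ = 0 := by linear_combination (1 / 2 : ℂ) * hA
    rw [if_neg hne, if_neg hne, hA0, mul_zero, zero_add]

end sym

section prod

variable {n : ℕ} [NeZero n]

open Classical in
/-- the sum of a character -/
noncomputable def SC' (A B : ℚ → ℤ) (χ : DirichletCharacter ℂ n) : ZB :=
  haveI : NeZero χ.conductor := ⟨χ.conductor_ne_zero⟩
  TS (if χ (-1) = 1 then A else B) χ.conductor (lft (χ.primitiveCharacter)⁻¹)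

lemma SC'_red {F : Type} [Field F] (φ : ZB →+* F) (A B : ℚ → ℤ) (χ : DirichletCharacter ℂ n) :
    φ (SC' A B χ) = tw φ A B χ := by
  unfold SC' tw
  rw [ts_map]
  rfl

open Classical in
lemma SC'_val (A B : ℚ → ℤ) (χ : DirichletCharacter ℂ n) :
    ((SC' A B χ : ZB) : ℂ) = TS (if χ (-1) = 1 then A else B) χ.conductor
      (χ.primitiveCharacter)⁻¹ := by
  have h := ts_map (algebraMap ZB ℂ) (if χ (-1) = 1 then A else B) χ.conductor
    (lft (χ.primitiveCharacter)⁻¹)
  refine Eq.trans h ?_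
  rfl

open Classical in
/-- weights supported on a section -/
noncomputable def wt' {q : ℕ} [NeZero q] (h : q ∣ n) (w : (ZMod q)ˣ → ℤ) (u : (ZMod n)ˣ) : ℤ :=
  if sect h (ZMod.unitsMap h u) = u then w (ZMod.unitsMap h u) else 0

lemma sum_wt' {R : Type*} [CommRing R] {q : ℕ} [NeZero q] (h : q ∣ n) (w : (ZMod q)ˣ → ℤ)
    (f : (ZMod n)ˣ → R) :
    ∑ u, f u * ((wt' h w u : ℤ) : R) = ∑ t : (ZMod q)ˣ, f (sect h t) * ((w t : ℤ) : R) := by
  classical
  have e1 : ∀ u, f u * ((wt' h w u : ℤ) : R) =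
      if sect h (ZMod.unitsMap h u) = u then
        f u * ((w (ZMod.unitsMap h u) : ℤ) : R) else 0 := by
    intro u
    unfold wt'
    split_ifs <;> simp
  simp_rw [e1]
  rw [← Finset.sum_filter]
  refine Finset.sum_bij' (fun u _ => ZMod.unitsMap h u) (fun t _ => sect h t) ?_ ?_ ?_ ?_ ?_
  · intro u _
    exact Finset.mem_univ _
  · intro t _
    rw [Finset.mem_filter, map_sect]
    exact ⟨Finset.mem_univ _, rfl⟩
  · intro u hu
    exact (Finset.mem_filter.1 hu).2
  · intro t _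
    exact map_sect h t
  · intro u hu
    rw [(Finset.mem_filter.1 hu).2]

open Classical in
/-- the product of the sums over a group of characters is an integer -/
theorem prod_int (A B : ℚ → ℤ) (Y : Subgroup (DirichletCharacter ℂ n)) :
    ∃ M : ℤ, ∏ χ : Y, SC' A B (χ : DirichletCharacter ℂ n) = (M : ZB) := by
  have nz : ∀ q : ℕ, q ∣ n → NeZero q := fun q h => ⟨fun h0 => NeZero.ne n (by
    rw [h0] at h; exact zero_dvd_iff.1 h)⟩
  -- the weights
  let Wt : (q : ℕ) → q ∣ n → Prop → (ZMod n)ˣ → ℤ := fun q h ev =>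
    haveI := nz q h
    wt' h (fun t => (if ev then A else B) (((t : ZMod q).val : ℚ) / q))
  have hW : ∀ (q1 q2 : ℕ) (h1 : q1 ∣ n) (h2 : q2 ∣ n) (e1 e2 : Prop), q1 = q2 → (e1 ↔ e2) →
      ∀ u, Wt q1 h1 e1 u = Wt q2 h2 e2 u := by
    rintro q1 _ h1 h2 e1 e2 rfl he u
    have he' := propext he
    subst he'
    rfl
  let cw : DirichletCharacter ℂ n → (ZMod n)ˣ → ℤ := fun χ =>
    Wt χ.conductor χ.conductor_dvd_level (χ (-1) = 1)
  have hmone : ((-1 : ZMod n)) = ((-1 : (ZMod n)ˣ) : ZMod n) := by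
    rw [Units.val_neg, Units.val_one]
  have hpow : ∀ χ ∈ Y, ∀ a : ℕ, Nat.Coprime a (Nat.card Y) → ∀ u, cw (χ ^ a) u = cw χ u := by
    intro χ hχ a ha u
    have hE : χ ^ (Nat.card Y) = 1 := by
      have h1 : (⟨χ, hχ⟩ : Y) ^ Nat.card Y = 1 := pow_card_eq_one'
      exact congrArg Subtype.val h1
    -- an inverse exponent
    obtain ⟨b, hb⟩ : ∃ b : ℕ, χ ^ (a * b) = χ := by
      rcases Nat.lt_or_ge 1 (Nat.card Y) with h2 | h2
      · obtain ⟨b, hb⟩ := Nat.exists_mul_mod_eq_one_of_coprime ha h2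
        refine ⟨b, ?_⟩
        rw [← Nat.div_add_mod (a * b) (Nat.card Y), hb.2, pow_add, pow_mul, hE, one_pow, one_mul,
          pow_one]
      · have h3 : Nat.card Y = 1 := le_antisymm h2 Nat.card_pos
        rw [h3, pow_one] at hE
        exact ⟨1, by rw [hE, one_pow]⟩
    apply hW
    · apply Nat.dvd_antisymm (χ.conductor_pow_dvd a)
      have h3 := (χ ^ a).conductor_pow_dvd b
      rwa [← pow_mul, hb] at h3
    · have h4 : ∀ (ψ : DirichletCharacter ℂ n) (k : ℕ), (ψ ^ k) (-1) = (ψ (-1)) ^ k := by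
        intro ψ k
        rw [hmone, MulChar.pow_apply_coe]
      rw [h4]
      constructor
      · intro h5
        rw [← hb, h4, pow_mul, h5, one_pow]
      · intro h5
        rw [h5, one_pow]
  obtain ⟨M, hprod⟩ := int_aux n Y cw hpow
  refine ⟨M, ?_⟩
  have hfac : ∀ χ : Y, ((SC' A B (χ : DirichletCharacter ℂ n) : ZB) : ℂ) =
        ∑ u : (ZMod n)ˣ, ((χ⁻¹ : Y) : DirichletCharacter ℂ n) (u : ZMod n) *
          ((cw (χ⁻¹ : Y) u : ℤ) : ℂ) := by
    rintro ⟨χ, hχ⟩
    rw [SC'_val]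
    show _ = ∑ u : (ZMod n)ˣ, χ⁻¹ (u : ZMod n) * ((cw χ⁻¹ u : ℤ) : ℂ)
    have h3 : ∀ u, cw χ⁻¹ u = cw χ u := by
      intro u
      apply hW
      · exact χ.conductor_inv
      · rw [MulChar.inv_apply_eq_inv', inv_eq_one]
    simp_rw [h3]
    have h4 := sum_wt' (R := ℂ) χ.conductor_dvd_level (fun t => (if χ (-1) = 1 then A else B)
      (((t : ZMod χ.conductor).val : ℚ) / χ.conductor)) (fun u => χ⁻¹ (u : ZMod n))
    refine Eq.trans ?_ h4.symm
    unfold TS
    refine Finset.sum_congr rfl fun t _ => ?_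
    have h5 : χ⁻¹ ((sect χ.conductor_dvd_level t : (ZMod n)ˣ) : ZMod n) =
        (χ.primitiveCharacter)⁻¹ (t : ZMod _) := by
      rw [MulChar.inv_apply_eq_inv', MulChar.inv_apply_eq_inv', prim_unit, map_sect]
    rw [h5]
  apply Subtype.ext
  have e1 : (((∏ χ : Y, SC' A B (χ : DirichletCharacter ℂ n)) : ZB) : ℂ) =
      ∏ χ : Y, ((SC' A B (χ : DirichletCharacter ℂ n) : ZB) : ℂ) := map_prod (algebraMap ZB ℂ) _ _
  rw [e1, Finset.prod_congr rfl (fun χ _ => hfac χ)]
  have e2 : (((M : ZB)) : ℂ) = (M : ℂ) := map_intCast (algebraMap ZB ℂ) M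
  rw [e2, ← hprod, finprod_eq_prod_of_fintype]
  exact Fintype.prod_equiv (Equiv.inv Y) _ _ fun χ => rfl

open Classical in
/-- the product is a unit if and only if all the reductions are nonzero -/
theorem prod_unit {F : Type} [Field F] {p : ℕ} [CharP F p] (φ : ZB →+* F) (A B : ℚ → ℤ)
    (Y : Subgroup (DirichletCharacter ℂ n)) (M : ℤ)
    (hM : ∏ χ : Y, SC' A B (χ : DirichletCharacter ℂ n) = (M : ZB)) :
    ¬ (p : ℤ) ∣ M ↔ ∀ χ ∈ Y, tw φ A B χ ≠ 0 := by
  have h1 : (M : F) = ∏ χ : Y, tw φ A B (χ : DirichletCharacter ℂ n) := by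
    have h2 := congrArg φ hM
    rw [map_prod, map_intCast] at h2
    rw [← h2]
    exact Finset.prod_congr rfl fun χ _ => SC'_red φ A B _
  rw [← CharP.intCast_eq_zero_iff F p, h1, Finset.prod_eq_zero_iff]
  push Not
  constructor
  · intro h χ hχ
    exact h ⟨χ, hχ⟩ (Finset.mem_univ _)
  · intro h χ _
    exact h χ χ.2

end prod

end Pool.Agent.P8H4.PL
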