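import Pool.Agent.P8H4.PL.An6
import Pool.Agent.P8H4.PL.Unr

/-!
# Ramification in abelian fields and the number of the points at the places above `l`
-/

set_option autoImplicit false

open NumberField IsDedekindDomain H300.HW
open Pool.Agent.H921R2.TatePole
open W165.CE (pw pw_eq)

namespace Pool.Agent.P8H4.PL

open Pool.Agent.Y702.L (pv local_all local_quad mem_v_of_below)
open Pool.Agent.H82R3.EK (natCast_mem_iff liesOver_of_mem below_eq_of_mem)

section efg

variable {K : Type} [Field K] [NumberField K]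

lemma deg_eq (v : HeightOneSpectrum (𝓞 K)) : v.asIdeal.inertiaDeg ℤ = deg v := by
  have : Fact (below v : ℕ).Prime := ⟨(below v).2⟩
  have := liesOver_of_mem K (below v).2 v (nm_eq v).2.2
  have := v.isPrime
  have h3 := Ideal.pow_inertiaDeg (below v : ℕ) v.asIdeal
  have h4 := (nm_eq v).1
  have h5 : (below v : ℕ) ^ (v.asIdeal.inertiaDeg ℤ) = (below v : ℕ) ^ deg v := by
    rw [h3, ← h4]; rfl
  exact Nat.pow_right_injective (below v).2.two_le h5

/-- the places above `l` -/
noncomputable def plEquiv (l : Nat.Primes) : {v : HeightOneSpectrum (𝓞 K) // below v = l} ≃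
    Ideal.primesOver (Ideal.span {((l : ℕ) : ℤ)}) (𝓞 K) where
  toFun v := ⟨v.1.asIdeal, v.1.isPrime, liesOver_of_mem K l.2 v.1 (mem_v_of_below v.2)⟩
  invFun P := ⟨⟨P.1, P.2.1, by
    intro h
    have h1 := P.2.2
    have h2 : ((l : ℕ) : ℤ) ∈ Ideal.span {((l : ℕ) : ℤ)} := Ideal.mem_span_singleton_self _
    rw [h1.over, h, Ideal.mem_comap, map_natCast, Ideal.mem_bot] at h2
    exact l.2.ne_zero (by exact_mod_cast h2)⟩, by
      apply below_eq_of_mem K
      show ((l : ℕ) : 𝓞 K) ∈ P.1
      have h1 := P.2.2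
      have h2 : ((l : ℕ) : ℤ) ∈ Ideal.span {((l : ℕ) : ℤ)} := Ideal.mem_span_singleton_self _
      rw [h1.over, Ideal.mem_comap, map_natCast] at h2
      exact h2⟩
  left_inv v := rfl
  right_inv P := rfl

open Classical in
/-- `e (∑ f) = n` -/
lemma efg [IsGalois ℚ K] (l : Nat.Primes) :
    (Ideal.span {((l : ℕ) : ℤ)}).ramificationIdxIn (𝓞 K) *
      ∑ v : {v : HeightOneSpectrum (𝓞 K) // below v = l}, deg v.1 = Module.finrank ℚ K := by
  have hl : Fact (l : ℕ).Prime := ⟨l.2⟩
  have hprime : (Ideal.span {((l : ℕ) : ℤ)}).IsPrime := by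
    rw [Ideal.span_singleton_prime (by exact_mod_cast l.2.ne_zero)]
    exact Nat.prime_iff_prime_int.1 l.2
  have h1 := Ideal.ncard_primesOver_mul_ramificationIdxIn_mul_inertiaDegIn
    (Ideal.span {((l : ℕ) : ℤ)}) (𝓞 K) Gal(K/ℚ)
  rw [IsGalois.card_aut_eq_finrank] at h1
  have h2 : ∀ v : {v : HeightOneSpectrum (𝓞 K) // below v = l}, deg v.1 =
      (Ideal.span {((l : ℕ) : ℤ)}).inertiaDegIn (𝓞 K) := by
    intro v
    have := liesOver_of_mem K l.2 v.1 (mem_v_of_below v.2)
    have := v.1.isPrime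
    rw [← deg_eq, Ideal.inertiaDegIn_eq_inertiaDeg (Ideal.span {((l : ℕ) : ℤ)}) v.1.asIdeal Gal(K/ℚ)]
  rw [Finset.sum_congr rfl fun v _ => h2 v, Finset.sum_const, Finset.card_univ, smul_eq_mul,
    ← Nat.card_eq_fintype_card, Nat.card_congr (plEquiv l), Nat.card_coe_set_eq, ← h1]
  ring

end efg

section tower

variable {k K : Type} [Field k] [NumberField k] [Field K] [NumberField K] [Algebra k K]

lemma ram_iff (v : HeightOneSpectrum (𝓞 K)) : Ram k v ↔ v.asIdeal.ramificationIdx (𝓞 k) ≠ 1 := by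
  have hPp : v.asIdeal.IsPrime := v.isPrime
  have hI0 : v.asIdeal.under (𝓞 k) ≠ ⊥ := Ideal.under_ne_bot (𝓞 k) v.ne_bot
  have h2 : (v.asIdeal.under (𝓞 k)).ramificationIdx' v.asIdeal = v.asIdeal.ramificationIdx (𝓞 k) :=
    Ideal.ramificationIdx'_eq_ramificationIdx _ v.asIdeal hI0
  rw [← h2, Ideal.ramificationIdx'_ne_one_iff Ideal.map_comap_le]
  rfl

/-- the ramification indices in a tower -/
lemma ram_tower [IsGalois ℚ k] [IsGalois ℚ K] [IsGalois k K] (l : Nat.Primes)
    (v : HeightOneSpectrum (𝓞 K)) (hv : below v = l) :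
    (Ideal.span {((l : ℕ) : ℤ)}).ramificationIdxIn (𝓞 k) * v.asIdeal.ramificationIdx (𝓞 k) =
      (Ideal.span {((l : ℕ) : ℤ)}).ramificationIdxIn (𝓞 K) := by
  have hl : Fact (l : ℕ).Prime := ⟨l.2⟩
  have hprime : (Ideal.span {((l : ℕ) : ℤ)}).IsPrime := by
    rw [Ideal.span_singleton_prime (by exact_mod_cast l.2.ne_zero)]
    exact Nat.prime_iff_prime_int.1 l.2
  have hPp : v.asIdeal.IsPrime := v.isPrime
  have hlo := liesOver_of_mem K l.2 v (mem_v_of_below hv)
  have hlo2 : (v.asIdeal.under (𝓞 k)).LiesOver (Ideal.span {((l : ℕ) : ℤ)}) := by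
    refine ⟨?_⟩
    rw [Ideal.under_under]
    exact hlo.over
  rw [Ideal.ramificationIdxIn_eq_ramificationIdx (Ideal.span {((l : ℕ) : ℤ)})
      (v.asIdeal.under (𝓞 k)) Gal(k/ℚ),
    Ideal.ramificationIdxIn_eq_ramificationIdx (Ideal.span {((l : ℕ) : ℤ)}) v.asIdeal Gal(K/ℚ),
    ← Ideal.ramificationIdx_tower (v.asIdeal.under (𝓞 k)) v.asIdeal]

end tower

section count

variable (n : ℕ) [NeZero n] (L : Type) [Field L] [NumberField L] [IsCyclotomicExtension {n} ℚ L]
  (F : IntermediateField ℚ L)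

open Classical in
/-- the sum of the degrees of the places above `l` -/
lemma sum_deg (l : Nat.Primes) :
    ∑ v : {v : HeightOneSpectrum (𝓞 F) // below v = l}, deg v.1 =
      Nat.card {χ : YY n L F // ¬ (l : ℕ) ∣ (χ : DirichletCharacter ℂ n).conductor} := by
  have h : (∏ v : {v : HeightOneSpectrum (𝓞 F) // below v = l}, (1 - Polynomial.X ^ deg v.1) :
      Polynomial ℂ) = ∏ χ : YY n L F, (1 - Polynomial.C (pv n χ.1 l) * Polynomial.X) := by
    apply Polynomial.eq_of_infinite_eval_eq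
    refine Set.Infinite.mono (s := Set.univ) ?_ Set.infinite_univ
    intro Z _
    show Polynomial.eval Z _ = Polynomial.eval Z _
    rw [Polynomial.eval_prod, Polynomial.eval_prod]
    simp only [Polynomial.eval_sub, Polynomial.eval_one, Polynomial.eval_mul, Polynomial.eval_C,
      Polynomial.eval_X, Polynomial.eval_pow]
    exact local_all n L F l Z
  have e1 : ∀ d : ℕ, (1 - Polynomial.X ^ d : Polynomial ℂ).natDegree = d := by
    intro d
    rw [← neg_sub, Polynomial.natDegree_neg]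
    exact Polynomial.natDegree_X_pow_sub_C (r := (1 : ℂ))
  have e1' : ∀ d : ℕ, 0 < d → (1 - Polynomial.X ^ d : Polynomial ℂ) ≠ 0 := by
    intro d hd h0
    have := e1 d
    rw [h0, Polynomial.natDegree_zero] at this
    omega
  have e2 : ∀ c : ℂ, (1 - Polynomial.C c * Polynomial.X : Polynomial ℂ).natDegree =
      if c = 0 then 0 else 1 := by
    intro c
    split_ifs with hc
    · rw [hc, map_zero, zero_mul, sub_zero, Polynomial.natDegree_one]
    · rw [← neg_sub, Polynomial.natDegree_neg]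
      have : (Polynomial.C c * Polynomial.X - 1 : Polynomial ℂ) =
          Polynomial.C c * Polynomial.X + Polynomial.C (-1) := by
        rw [map_neg, map_one]; ring
      rw [this]
      exact Polynomial.natDegree_linear hc
  have e2' : ∀ c : ℂ, (1 - Polynomial.C c * Polynomial.X : Polynomial ℂ) ≠ 0 := by
    intro c h0
    have := congrArg (Polynomial.eval 0) h0
    simp at this
  have h2 := congrArg Polynomial.natDegree h
  rw [Polynomial.natDegree_prod _ _ (fun v _ => e1' _ (nm_eq v.1).2.1),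
    Polynomial.natDegree_prod _ _ (fun χ _ => e2' _)] at h2
  simp only [e1, e2] at h2
  rw [h2, Nat.card_eq_fintype_card, Fintype.card_subtype, Finset.card_filter]
  refine Finset.sum_congr rfl fun χ _ => ?_
  have i1 : NeZero (χ : DirichletCharacter ℂ n).conductor :=
    ⟨(χ : DirichletCharacter ℂ n).conductor_ne_zero⟩
  have h3 : pv n χ.1 l = 0 ↔ (l : ℕ) ∣ (χ : DirichletCharacter ℂ n).conductor := by
    unfold pv
    constructor
    · intro h4
      by_contra hcon
      have h5 : IsUnit (((l : ℕ) : ZMod (χ : DirichletCharacter ℂ n).conductor)) :=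
        (ZMod.isUnit_iff_coprime _ _).2 ((Nat.Prime.coprime_iff_not_dvd l.2).2 hcon)
      exact (h5.map (χ : DirichletCharacter ℂ n).primitiveCharacter).ne_zero h4
    · intro h4
      apply MulChar.map_nonunit
      rw [ZMod.isUnit_iff_coprime, Nat.Prime.coprime_iff_not_dvd l.2]
      exact not_not.2 h4
  by_cases h4 : (l : ℕ) ∣ (χ : DirichletCharacter ℂ n).conductor
  · rw [if_pos (h3.2 h4), if_neg (not_not.2 h4)]
  · rw [if_neg (fun h5 => h4 (h3.1 h5)), if_pos h4]

end count

end Pool.Agent.P8H4.PL
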