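import Pool.Agent.P8H4.PL.An7

/-!
# The nonvanishing of the twisted sums over a `p`-extension of abelian fields
-/

set_option autoImplicit false

open NumberField IsDedekindDomain H300.HW DirichletCharacter
open Pool.Agent.H921R2.TatePole
open W165.CE (pw pw_eq intCast_mem_iff)

namespace Pool.Agent.P8H4.PL

open Pool.Agent.Y702.L (pv local_all local_quad mem_v_of_below)
open Pool.Agent.H82R3.EK (natCast_mem_iff liesOver_of_mem below_eq_of_mem)

section count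

variable (n : ℕ) [NeZero n] (L : Type) [Field L] [NumberField L] [IsCyclotomicExtension {n} ℚ L]
  (F : IntermediateField ℚ L)

/-- the value at `l` as an algebraic integer -/
noncomputable def rz {n : ℕ} [NeZero n] (χ : DirichletCharacter ℂ n) (l : ℕ) : ZB :=
  haveI : NeZero χ.conductor := ⟨χ.conductor_ne_zero⟩
  lft χ.primitiveCharacter (l : ZMod χ.conductor)

lemma rz_val {n : ℕ} [NeZero n] (χ : DirichletCharacter ℂ n) (l : ℕ) : ((rz χ l : ZB) : ℂ) =
    pv n χ l := rfl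

lemma rz_red {n : ℕ} [NeZero n] {F : Type} [Field F] (φ : ZB →+* F) (χ : DirichletCharacter ℂ n)
    (l : ℕ) : φ (rz χ l) = rv φ χ l := rfl

lemma rv_ne {n : ℕ} [NeZero n] {F : Type} [Field F] (φ : ZB →+* F) (χ : DirichletCharacter ℂ n)
    {l : ℕ} (hl : l.Prime) : rv φ χ l ≠ 0 ↔ ¬ l ∣ χ.conductor := by
  have i1 : NeZero χ.conductor := ⟨χ.conductor_ne_zero⟩
  unfold rv
  constructor
  · intro h h4
    apply h
    apply MulChar.map_nonunit
    rw [ZMod.isUnit_iff_coprime, Nat.Prime.coprime_iff_not_dvd hl]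
    exact not_not.2 h4
  · intro h
    have h5 : IsUnit ((l : ZMod χ.conductor)) :=
      (ZMod.isUnit_iff_coprime _ _).2 ((Nat.Prime.coprime_iff_not_dvd hl).2 h)
    exact (h5.map (rd φ χ.primitiveCharacter)).ne_zero

open Classical in
/-- the product of the numbers of the points at the places above `l` -/
lemma prod_pts (W : WeierstrassCurve ℤ) (l : Nat.Primes) (hlΔ : ¬ ((l : ℕ) : ℤ) ∣ W.Δ) :
    ∏ v : {v : HeightOneSpectrum (𝓞 F) // below v = l},
      ((Pool.Agent.Y702.G.pts W (𝓞 F ⧸ v.1.asIdeal) + 1 : ℕ) : ZB) =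
    ∏ χ : YY n L F, (1 - rz χ.1 l * (al W l : ZB) + rz χ.1 l ^ 2 * ((l : ℕ) : ZB)) := by
  have h1 := local_quad n L F l ((al W l : ℤ) : ℂ) ((l : ℕ) : ℂ) 1
  have h2 : ∀ v : {v : HeightOneSpectrum (𝓞 F) // below v = l},
      (1 - pw ((al W l : ℤ) : ℂ) ((l : ℕ) : ℂ) (deg v.1) * 1 ^ deg v.1 +
        ((l : ℕ) : ℂ) ^ deg v.1 * 1 ^ (2 * deg v.1)) =
      ((Pool.Agent.Y702.G.pts W (𝓞 F ⧸ v.1.asIdeal) + 1 : ℕ) : ℂ) := by
    rintro ⟨v, hv⟩
    subst hv
    have h3 := av_eq' W v ((below v : ℕ) : ℂ) (fun _ => rfl) (fun h => absurd h hlΔ)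
    have h4 : ((al W (below v : ℕ) : ℤ) : ℂ) =
        ((below v : ℕ) : ℂ) - (Pool.Agent.Y702.G.pts W (ZMod (below v : ℕ)) : ℂ) := by
      unfold al
      push_cast
      rfl
    rw [h4, ← h3, one_pow, one_pow, mul_one, mul_one]
    have h5 : ((below v : ℕ) : ℂ) ^ deg v = ((Ideal.absNorm v.asIdeal : ℕ) : ℂ) := by
      have := (nm_eq v).1
      rw [show Ideal.absNorm v.asIdeal = nm v from rfl, this]
      push_cast
      rfl
    rw [h5]
    unfold Pool.Agent.Y702.G.av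
    push_cast
    ring
  rw [Finset.prod_congr rfl fun v _ => h2 v] at h1
  apply Subtype.ext
  have e1 : (((∏ v : {v : HeightOneSpectrum (𝓞 F) // below v = l},
      ((Pool.Agent.Y702.G.pts W (𝓞 F ⧸ v.1.asIdeal) + 1 : ℕ) : ZB)) : ZB) : ℂ) =
      ∏ v : {v : HeightOneSpectrum (𝓞 F) // below v = l},
      ((Pool.Agent.Y702.G.pts W (𝓞 F ⧸ v.1.asIdeal) + 1 : ℕ) : ℂ) := by
    refine (map_prod (algebraMap ZB ℂ) _ _).trans ?_
    refine Finset.prod_congr rfl fun v _ => ?_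
    exact map_natCast (algebraMap ZB ℂ) _
  have e2 : (((∏ χ : YY n L F, (1 - rz χ.1 l * (al W l : ZB) + rz χ.1 l ^ 2 * ((l : ℕ) : ZB)) : ZB)) : ℂ) =
      ∏ χ : YY n L F, (1 - pv n χ.1 l * ((al W l : ℤ) : ℂ) * 1 +
        pv n χ.1 l ^ 2 * (((l : ℕ) : ℂ) * 1 ^ 2)) := by
    refine (map_prod (algebraMap ZB ℂ) _ _).trans ?_
    refine Finset.prod_congr rfl fun χ _ => ?_
    rw [map_add, map_sub, map_mul, map_mul, map_one, map_pow, map_intCast, map_natCast]
    have : (algebraMap ZB ℂ) (rz χ.1 l) = pv n χ.1 l := rfl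
    rw [this]
    ring
  rw [e1, e2, h1]

open Classical in
lemma loc_count (W : WeierstrassCurve ℤ) (l : Nat.Primes) (hlΔ : ¬ ((l : ℕ) : ℤ) ∣ W.Δ)
    {𝔽 : Type} [Field 𝔽] (φ : ZB →+* 𝔽) (p : ℕ) [CharP 𝔽 p] (hl1 : ((l : ℕ) : 𝔽) = 1) :
    (∀ v : HeightOneSpectrum (𝓞 F), below v = l →
      ¬ p ∣ Pool.Agent.Y702.G.pts W (𝓞 F ⧸ v.asIdeal) + 1) ↔
    ∀ χ ∈ YY n L F, ¬ (l : ℕ) ∣ χ.conductor →
      ((al W l : ℤ) : 𝔽) - rv φ χ l - (rv φ χ l)⁻¹ ≠ 0 := by
  have h1 := congrArg φ (prod_pts n L F W l hlΔ)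
  rw [map_prod, map_prod] at h1
  have h2 : (∀ v : HeightOneSpectrum (𝓞 F), below v = l →
      ¬ p ∣ Pool.Agent.Y702.G.pts W (𝓞 F ⧸ v.asIdeal) + 1) ↔
      ∏ v : {v : HeightOneSpectrum (𝓞 F) // below v = l},
      φ ((Pool.Agent.Y702.G.pts W (𝓞 F ⧸ v.1.asIdeal) + 1 : ℕ) : ZB) ≠ 0 := by
    rw [Finset.prod_ne_zero_iff]
    constructor
    · intro h v _
      rw [map_natCast, Ne, CharP.cast_eq_zero_iff 𝔽 p]
      exact h v.1 v.2
    · intro h v hv
      have := h ⟨v, hv⟩ (Finset.mem_univ _)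
      rwa [map_natCast, Ne, CharP.cast_eq_zero_iff 𝔽 p] at this
  rw [h2, h1, Finset.prod_ne_zero_iff]
  have h3 : ∀ χ : DirichletCharacter ℂ n,
      φ (1 - rz χ l * (al W l : ZB) + rz χ l ^ 2 * ((l : ℕ) : ZB)) ≠ 0 ↔
      (¬ (l : ℕ) ∣ χ.conductor → ((al W l : ℤ) : 𝔽) - rv φ χ l - (rv φ χ l)⁻¹ ≠ 0) := by
    intro χ
    rw [map_add, map_sub, map_mul, map_mul, map_one, map_pow, map_intCast, map_natCast, rz_red, hl1,
      mul_one]
    by_cases h4 : (l : ℕ) ∣ χ.conductor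
    · have h5 : rv φ χ l = 0 := by
        by_contra h6
        exact (rv_ne φ χ l.2).1 h6 h4
      rw [h5]
      simp [h4]
    · have h5 : rv φ χ l ≠ 0 := (rv_ne φ χ l.2).2 h4
      have h6 : 1 - rv φ χ l * ((al W l : ℤ) : 𝔽) + rv φ χ l ^ 2 =
          -rv φ χ l * (((al W l : ℤ) : 𝔽) - rv φ χ l - (rv φ χ l)⁻¹) := by
        field_simp
        ring
      rw [h6]
      constructor
      · intro h7 _
        exact right_ne_zero_of_mul h7
      · intro h7
        exact mul_ne_zero (neg_ne_zero.2 h5) (h7 h4)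
  constructor
  · intro h χ hχ
    exact (h3 χ).1 (h ⟨χ, hχ⟩ (Finset.mem_univ _))
  · intro h χ _
    exact (h3 χ.1).2 (h χ.1 χ.2)

end count

section l1

variable {n : ℕ} [NeZero n]

/-- a character of `p`-power order which is ramified at `l` exists only for `l ≡ 1` modulo `p` -/
lemma one_of_ram (hsq : Squarefree n) {p : ℕ} (hp : p.Prime) {l : ℕ} (hl : l.Prime) (hln : l ∣ n)
    (η : DirichletCharacter ℂ n) {j : ℕ} (hη : η ^ (p ^ j) = 1) (hlη : l ∣ η.conductor)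
    {𝔽 : Type} [Field 𝔽] [CharP 𝔽 p] : (l : 𝔽) = 1 := by
  obtain ⟨n', hn'⟩ := hln
  have hn'0 : n' ≠ 0 := by
    rintro rfl
    exact NeZero.ne n (by rw [hn', mul_zero])
  have : NeZero n' := ⟨hn'0⟩
  have hco : Nat.Coprime l n' := by
    rw [hn'] at hsq
    exact Nat.coprime_of_squarefree_mul hsq
  have hd : n' ∣ n := ⟨l, by rw [hn', mul_comm]⟩
  have hker : ∀ x : (ZMod n)ˣ, ZMod.unitsMap hd x = 1 → x ^ (l - 1) = 1 := by
    intro x hx
    have hle : Nat.card (ZMod.unitsMap hd).ker = l - 1 := by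
      have h1 := (ZMod.unitsMap hd).ker.card_mul_index
      rw [Subgroup.index_ker, MonoidHom.range_eq_top.2 (ZMod.unitsMap_surjective hd),
        Subgroup.card_top, Nat.card_eq_fintype_card (α := (ZMod n')ˣ),
        Nat.card_eq_fintype_card (α := (ZMod n)ˣ), ZMod.card_units_eq_totient,
        ZMod.card_units_eq_totient] at h1
      have h2 : Nat.totient n = (l - 1) * Nat.totient n' := by
        conv_lhs => rw [hn', Nat.totient_mul hco, Nat.totient_prime hl]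
      rw [h2] at h1
      exact Nat.eq_of_mul_eq_mul_right (Nat.totient_pos.2 (Nat.pos_of_ne_zero hn'0)) h1
    have h3 : (⟨x, hx⟩ : (ZMod.unitsMap hd).ker) ^ (l - 1) = 1 := by
      rw [← hle]
      exact pow_card_eq_one'
    exact congrArg Subtype.val h3
  by_contra hcon
  have hpl : ¬ p ∣ l - 1 := by
    intro h
    apply hcon
    have h1 : ((l - 1 : ℕ) : 𝔽) = 0 := (CharP.cast_eq_zero_iff 𝔽 p _).2 h
    rw [Nat.cast_sub hl.one_le, Nat.cast_one, sub_eq_zero] at h1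
    exact h1
  have hfac : FactorsThrough η n' := by
    rw [factorsThrough_iff_ker_unitsMap hd]
    intro x hx
    rw [MonoidHom.mem_ker] at hx ⊢
    have h1 := hker x hx
    set z := η.toUnitHom x with hz
    have h2 : z ^ (l - 1) = 1 := by rw [hz, ← map_pow, h1, map_one]
    have h3 : z ^ (p ^ j) = 1 := by
      apply Units.ext
      rw [Units.val_pow_eq_pow_val, hz, MulChar.coe_toUnitHom, ← MulChar.pow_apply_coe, hη,
        MulChar.one_apply_coe, Units.val_one]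
    have h4 : Nat.Coprime (l - 1) (p ^ j) :=
      (Nat.Coprime.pow_left j ((Nat.Prime.coprime_iff_not_dvd hp).2 hpl)).symm
    have h5 := orderOf_dvd_of_pow_eq_one h2
    have h6 := orderOf_dvd_of_pow_eq_one h3
    have h7 := Nat.dvd_gcd h5 h6
    rw [h4] at h7
    exact orderOf_eq_one_iff.1 (Nat.dvd_one.1 h7)
  have h8 : η.conductor ∣ n' := conductor_dvd_of_mem_conductorSet η hfac
  have h9 : l ∣ n' := hlη.trans h8
  have h10 : l ∣ 1 := by
    rw [← hco]
    exact Nat.dvd_gcd dvd_rfl h9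
  exact hl.one_lt.ne' (Nat.dvd_one.1 h10)

end l1

end Pool.Agent.P8H4.PL
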