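import Mathlib
import Pool.Agent.Y700.VC
import Pool.Agent.TH954.STor
import Pool.Agent.TH841.NF.ShaN

/-!
# Points of an integral Weierstrass equation over fields: basic facts
-/

set_option autoImplicit false

open WeierstrassCurve

namespace Pool.Agent.P8H4.PL

open Pool.Agent.Y700 (VR nonsing)
open Pool.Agent.H901R3.MS (CV Disc Eqn)

/-- The curve given by the equation of `W` over the ring `R`. -/
abbrev base (W : WeierstrassCurve ℤ) (R : Type) [CommRing R] : WeierstrassCurve R :=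
  W.map (Int.castRingHom R)

/-- the points of `W` over the field `L` -/
def Pt (W : WeierstrassCurve ℤ) (L : Type) [Field L] : Type := (base W L).toAffine.Point

/-- the group law on the points -/
noncomputable instance Pt.group (W : WeierstrassCurve ℤ) (L : Type) [Field L] :
    AddCommGroup (Pt W L) :=
  @Affine.Point.instAddCommGroup L _ (base W L).toAffine (Classical.decEq L)

variable {W : WeierstrassCurve ℤ}

section pt

variable {F : Type} [Field F]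

/-- the point with the coordinates `x`, `y` -/
def pt {x y : F} (h : (base W F).toAffine.Nonsingular x y) : Pt W F := Affine.Point.some x y h

lemma pt_ne {x y : F} (h : (base W F).toAffine.Nonsingular x y) : pt h ≠ (0 : Pt W F) :=
  Affine.Point.some_ne_zero h

lemma pt_cases (P : Pt W F) : P = 0 ∨ ∃ (x y : F) (h : (base W F).toAffine.Nonsingular x y),
    P = pt h := by
  rcases P with _ | ⟨x, y, h⟩
  · exact Or.inl rfl
  · exact Or.inr ⟨x, y, h, rfl⟩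

lemma pt_inj {x y x' y' : F} {h : (base W F).toAffine.Nonsingular x y}
    {h' : (base W F).toAffine.Nonsingular x' y'} (e : pt h = pt h') : x = x' ∧ y = y' :=
  Affine.Point.some.inj (W' := (base W F).toAffine) e

lemma pt_congr {x y x' y' : F} (h : (base W F).toAffine.Nonsingular x y)
    (h' : (base W F).toAffine.Nonsingular x' y') (hx : x = x') (hy : y = y') : pt h = pt h' := by
  subst hx hy
  rfl

end pt

section mp

variable {F L M : Type} [Field F] [Field L] [Field M]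

/-- the map on points given by a homomorphism of fields -/
noncomputable def mp (φ : F →+* L) : Pt W F →+ Pt W L :=
  @Affine.Point.map ℤ ℤ F L _ _ _ _ W (Classical.decEq F) (Classical.decEq L) _ _ _ _ _ _ _
    φ.toIntAlgHom

lemma ns_map (φ : F →+* L) {x y : F} (h : (base W F).toAffine.Nonsingular x y) :
    (base W L).toAffine.Nonsingular (φ x) (φ y) :=
  (W.toAffine.baseChange_nonsingular (f := φ.toIntAlgHom) φ.injective x y).mpr h

lemma mp_pt (φ : F →+* L) {x y : F} (h : (base W F).toAffine.Nonsingular x y) :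
    mp φ (pt h) = pt (ns_map φ h) := rfl

lemma mp_comp (φ : F →+* L) (ψ : L →+* M) (P : Pt W F) :
    mp (W := W) ψ (mp φ P) = mp (ψ.comp φ) P := by
  rcases P with _ | ⟨x, y, h⟩
  · rfl
  · rfl

lemma mp_id (P : Pt W F) : mp (W := W) (RingHom.id F) P = P := by
  rcases P with _ | ⟨x, y, h⟩
  · rfl
  · rfl

lemma mp_inj (φ : F →+* L) : Function.Injective (mp (W := W) φ) := by
  exact @Affine.Point.map_injective ℤ ℤ F L _ _ _ _ W (Classical.decEq F) (Classical.decEq L) _ _ _ _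
    _ _ _ φ.toIntAlgHom

lemma mp_congr {φ ψ : F →+* L} (h : ∀ x, φ x = ψ x) (P : Pt W F) : mp (W := W) φ P = mp ψ P := by
  rw [RingHom.ext h]

end mp

section short

/-- the coefficients of the short model -/
def sa (W : WeierstrassCurve ℤ) (F : Type) [Field F] : F := ((-27 * W.c₄ : ℤ) : F)
/-- the coefficients of the short model -/
def sb (W : WeierstrassCurve ℤ) (F : Type) [Field F] : F := ((-54 * W.c₆ : ℤ) : F)

variable {F : Type} [Field F]

lemma two_ne (h6 : (6 : F) ≠ 0) : (2 : F) ≠ 0 := by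
  intro h; apply h6
  have : (6 : F) = 2 * 3 := by norm_num
  rw [this, h, zero_mul]

lemma three_ne (h6 : (6 : F) ≠ 0) : (3 : F) ≠ 0 := by
  intro h; apply h6
  have : (6 : F) = 2 * 3 := by norm_num
  rw [this, h, mul_zero]

lemma vr (W : WeierstrassCurve ℤ) (h6 : (6 : F) ≠ 0) :
    VR (base W F) (CV (sa W F) (sb W F)) (1 / 6) (-(W.b₂ : F) / 12) (-(W.a₁ : F) / 2)
      ((W.a₁ : F) * W.b₂ / 24 - (W.a₃ : F) / 2) := by
  have h2 : (2 : F) ≠ 0 := two_ne h6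
  have h3 : (3 : F) ≠ 0 := three_ne h6
  have h12 : (12 : F) ≠ 0 := by
    have : (12 : F) = 2 * 2 * 3 := by norm_num
    rw [this]
    exact mul_ne_zero (mul_ne_zero h2 h2) h3
  have h24 : (24 : F) ≠ 0 := by
    have : (24 : F) = 2 * 2 * 2 * 3 := by norm_num
    rw [this]
    exact mul_ne_zero (mul_ne_zero (mul_ne_zero h2 h2) h2) h3
  have hb2 : (W.b₂ : F) = (W.a₁ : F) ^ 2 + 4 * W.a₂ := by
    rw [WeierstrassCurve.b₂]; push_cast; ring
  have e1 : (12 : F) = 2 ^ 2 * 3 := by norm_num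
  have e2 : (24 : F) = 2 ^ 3 * 3 := by norm_num
  have e3 : (6 : F) = 2 * 3 := by norm_num
  have c4 : ((-27 * W.c₄ : ℤ) : F) = -27 * (((W.a₁ : F) ^ 2 + 4 * W.a₂) ^ 2 -
      24 * (2 * W.a₄ + W.a₁ * W.a₃)) := by
    rw [WeierstrassCurve.c₄, WeierstrassCurve.b₂, WeierstrassCurve.b₄]; push_cast; ring
  have c6 : ((-54 * W.c₆ : ℤ) : F) = -54 * (-((W.a₁ : F) ^ 2 + 4 * W.a₂) ^ 3 +
      36 * ((W.a₁ : F) ^ 2 + 4 * W.a₂) * (2 * W.a₄ + W.a₁ * W.a₃) -
      216 * ((W.a₃ : F) ^ 2 + 4 * W.a₆)) := by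
    rw [WeierstrassCurve.c₆, WeierstrassCurve.b₂, WeierstrassCurve.b₄, WeierstrassCurve.b₆]
    push_cast; ring
  refine ⟨?_, ?_, ?_, ?_, ?_, ?_⟩
  · exact one_div_ne_zero h6
  · show (1 / 6) * (0 : F) = (W.a₁ : F) + 2 * (-(W.a₁ : F) / 2)
    field_simp
    ring
  · show (1 / 6) ^ 2 * (0 : F) = (W.a₂ : F) - (-(W.a₁ : F) / 2) * W.a₁ +
      3 * (-(W.b₂ : F) / 12) - (-(W.a₁ : F) / 2) ^ 2
    rw [hb2, e1]
    field_simp
    ring
  · show (1 / 6) ^ 3 * (0 : F) = (W.a₃ : F) + (-(W.b₂ : F) / 12) * W.a₁ +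
      2 * ((W.a₁ : F) * W.b₂ / 24 - (W.a₃ : F) / 2)
    rw [hb2, e1, e2]
    field_simp
    ring
  · show (1 / 6) ^ 4 * ((-27 * W.c₄ : ℤ) : F) = (W.a₄ : F) - (-(W.a₁ : F) / 2) * W.a₃ +
      2 * (-(W.b₂ : F) / 12) * W.a₂ - (((W.a₁ : F) * W.b₂ / 24 - (W.a₃ : F) / 2) +
        (-(W.b₂ : F) / 12) * (-(W.a₁ : F) / 2)) * W.a₁ + 3 * (-(W.b₂ : F) / 12) ^ 2 -
      2 * (-(W.a₁ : F) / 2) * ((W.a₁ : F) * W.b₂ / 24 - (W.a₃ : F) / 2)
    rw [hb2, c4, e1, e2, e3]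
    field_simp
    ring
  · show (1 / 6) ^ 6 * ((-54 * W.c₆ : ℤ) : F) = (W.a₆ : F) + (-(W.b₂ : F) / 12) * W.a₄ +
      (-(W.b₂ : F) / 12) ^ 2 * W.a₂ + (-(W.b₂ : F) / 12) ^ 3 -
      ((W.a₁ : F) * W.b₂ / 24 - (W.a₃ : F) / 2) * W.a₃ -
      ((W.a₁ : F) * W.b₂ / 24 - (W.a₃ : F) / 2) ^ 2 -
      (-(W.b₂ : F) / 12) * ((W.a₁ : F) * W.b₂ / 24 - (W.a₃ : F) / 2) * W.a₁
    rw [hb2, c6, e1, e2, e3]
    field_simp
    ring

lemma disc_eq (W : WeierstrassCurve ℤ) (F : Type) [Field F] :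
    (2 : F) * (4 * sa W F ^ 3 + 27 * sb W F ^ 2) = ((-(2 ^ 9 * 3 ^ 12) * W.Δ : ℤ) : F) := by
  unfold sa sb
  have h := congrArg (fun n : ℤ => (n : F)) W.c_relation
  push_cast at h ⊢
  linear_combination 157464 * h

lemma six_pow_ne (h6 : (6 : F) ≠ 0) : ((2 ^ 9 * 3 ^ 12 : ℤ) : F) ≠ 0 := by
  rw [Int.cast_mul, Int.cast_pow, Int.cast_pow, Int.cast_ofNat, Int.cast_ofNat]
  exact mul_ne_zero (pow_ne_zero _ (two_ne h6)) (pow_ne_zero _ (three_ne h6))

lemma disc (h6 : (6 : F) ≠ 0) (hΔ : (W.Δ : F) ≠ 0) : Disc (sa W F) (sb W F) := by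
  unfold Disc
  rw [disc_eq, Int.cast_mul, Int.cast_neg]
  exact mul_ne_zero (neg_ne_zero.2 (six_pow_ne h6)) hΔ

lemma short_delta (h6 : (6 : F) ≠ 0) (hΔ : (W.Δ : F) ≠ 0) : (CV (sa W F) (sb W F)).Δ ≠ 0 := by
  have e : (CV (sa W F) (sb W F)).Δ = -8 * (2 * (4 * sa W F ^ 3 + 27 * sb W F ^ 2)) := by
    simp only [WeierstrassCurve.Δ, WeierstrassCurve.b₂, WeierstrassCurve.b₄, WeierstrassCurve.b₆,
      WeierstrassCurve.b₈, CV]
    ring
  rw [e]
  refine mul_ne_zero ?_ (disc h6 hΔ)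
  have : (-8 : F) = -(2 ^ 3) := by norm_num
  rw [this]
  exact neg_ne_zero.2 (pow_ne_zero _ (two_ne h6))

open scoped Classical in
/-- the isomorphism with the short model -/
noncomputable def eqv (h6 : (6 : F) ≠ 0) (hΔ : (W.Δ : F) ≠ 0) :
    (CV (sa W F) (sb W F)).toAffine.Point ≃+ Pt W F :=
  (vr W h6).equiv (short_delta h6 hΔ)

lemma eqv_some (h6 : (6 : F) ≠ 0) (hΔ : (W.Δ : F) ≠ 0) {x y : F}
    (h : (CV (sa W F) (sb W F)).toAffine.Nonsingular x y) :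
    eqv h6 hΔ (Affine.Point.some x y h) = pt
      (x := (1 / 6) ^ 2 * x + -(W.b₂ : F) / 12)
      (y := (1 / 6) ^ 3 * y + (1 / 6) ^ 2 * (-(W.a₁ : F) / 2) * x +
        ((W.a₁ : F) * W.b₂ / 24 - (W.a₃ : F) / 2))
      (nonsing ((vr W h6).delta_ne (short_delta h6 hΔ)) ((vr W h6).eqn.2 h.1)) := rfl

open scoped Classical in
/-- the form of the point in the short model -/
lemma eqv_symm_pt (h6 : (6 : F) ≠ 0) (hΔ : (W.Δ : F) ≠ 0) {X Y : F}
    (H : (base W F).toAffine.Nonsingular X Y) :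
    ∃ x y, ∃ h : (CV (sa W F) (sb W F)).toAffine.Nonsingular x y,
      (eqv h6 hΔ).symm (pt H) = Affine.Point.some x y h ∧
      X = (1 / 6) ^ 2 * x + -(W.b₂ : F) / 12 ∧
      Y = (1 / 6) ^ 3 * y + (1 / 6) ^ 2 * (-(W.a₁ : F) / 2) * x +
        ((W.a₁ : F) * W.b₂ / 24 - (W.a₃ : F) / 2) := by
  rcases e : (eqv h6 hΔ).symm (pt H) with _ | ⟨x, y, h⟩
  · exfalso
    have h3 := ((eqv h6 hΔ).apply_symm_apply (pt H)).symm.trans (congrArg (eqv h6 hΔ) e)
    exact absurd h3 (Affine.Point.some_ne_zero H)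
  · refine ⟨x, y, h, rfl, ?_⟩
    have h3 := ((eqv h6 hΔ).apply_symm_apply (pt H)).symm.trans (congrArg (eqv h6 hΔ) e)
    have h4 := h3.trans (eqv_some (W := W) h6 hΔ h)
    exact pt_inj h4

end short

section tor

open Pool.Agent.TH954 Pool.Agent.TH942

variable {F L : Type} [Field F] [Field L] [IsAlgClosed F] [CharZero F] [IsAlgClosed L] [CharZero L]

open scoped Classical in
/-- division of points -/
theorem exists_div (hΔ : W.Δ ≠ 0) {n : ℕ} (hn : 1 ≤ n) (P : Pt W L) : ∃ Q : Pt W L, n • Q = P := by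
  have h6 : (6 : L) ≠ 0 := by norm_num
  have hΔ' : (W.Δ : L) ≠ 0 := Int.cast_ne_zero.2 hΔ
  obtain ⟨Q, hQ⟩ := exists_nsmul_eq (disc h6 hΔ') hn ((eqv h6 hΔ').symm P)
  refine ⟨eqv h6 hΔ' Q, ?_⟩
  have h1 := congrArg (eqv h6 hΔ') hQ
  rw [AddEquiv.apply_symm_apply] at h1
  rw [← map_nsmul]
  exact h1

lemma coef (L : Type) [Field L] [CharZero L] (n : ℤ) : algebraMap ℚ L ((n : ℤ) : ℚ) = (n : L) :=
  map_intCast _ _

lemma disc_q (hΔ : W.Δ ≠ 0) :
    4 * ((-27 * W.c₄ : ℤ) : ℚ) ^ 3 + 27 * ((-54 * W.c₆ : ℤ) : ℚ) ^ 2 ≠ 0 := by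
  have h := disc (W := W) (F := ℚ) (by norm_num) (Int.cast_ne_zero.2 hΔ)
  intro h0
  apply h
  unfold sa sb
  rw [h0, mul_zero]

lemma sw_eq (W : WeierstrassCurve ℤ) (L : Type) [Field L] [CharZero L] :
    (sw ((-27 * W.c₄ : ℤ) : ℚ) ((-54 * W.c₆ : ℤ) : ℚ)).baseChange L = CV (sa W L) (sb W L) := by
  rw [base_eq, coef, coef]
  rfl

open scoped Classical in
/-- the torsion points are finite in number -/
theorem tor_fin (hΔ : W.Δ ≠ 0) {n : ℕ} (hn : 1 ≤ n) : {P : Pt W L | n • P = 0}.Finite := by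
  have h6 : (6 : L) ≠ 0 := by norm_num
  have hΔ' : (W.Δ : L) ≠ 0 := Int.cast_ne_zero.2 hΔ
  have key : ∀ V : WeierstrassCurve L,
      V = (sw ((-27 * W.c₄ : ℤ) : ℚ) ((-54 * W.c₆ : ℤ) : ℚ)).baseChange L →
      {P : V.toAffine.Point | n • P = 0}.Finite := by
    rintro _ rfl
    exact (card_base_lt (disc_q hΔ) L hn).1
  have h1 := (key _ (sw_eq W L).symm).image (eqv h6 hΔ')
  refine h1.subset fun P hP => ⟨(eqv h6 hΔ').symm P, ?_, AddEquiv.apply_symm_apply _ _⟩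
  have hP' : n • P = 0 := hP
  show n • (eqv h6 hΔ').symm P = 0
  rw [← map_nsmul, hP', map_zero]

open scoped Classical in
/-- torsion points of prime order come from an algebraically closed subfield -/
theorem tor_mem (hΔ : W.Δ ≠ 0) (φ : F →+* L) {p : ℕ} (hp : p.Prime) (T : Pt W L)
    (hT : p • T = 0) : ∃ T₀ : Pt W F, mp φ T₀ = T := by
  have h6 : (6 : L) ≠ 0 := by norm_num
  have hΔ' : (W.Δ : L) ≠ 0 := Int.cast_ne_zero.2 hΔ
  have key : ∀ V : WeierstrassCurve L,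
      V = (sw ((-27 * W.c₄ : ℤ) : ℚ) ((-54 * W.c₆ : ℤ) : ℚ)).baseChange L →
      ∀ P : V.toAffine.Point, p • P = 0 → P = Affine.Point.zero ∨
        ∃ (x y : F) (h : V.toAffine.Nonsingular (φ x) (φ y)), P = Affine.Point.some _ _ h := by
    rintro _ rfl P hP
    obtain ⟨T₀, hT₀⟩ := prime_torsion_mem (disc_q hΔ) (φ.toRatAlgHom : F →ₐ[ℚ] L) hp P hP
    rcases T₀ with _ | ⟨x, y, h⟩
    · left
      rw [← hT₀]
      rfl
    · right
      obtain ⟨h', e⟩ := pm_some (E := sw ((-27 * W.c₄ : ℤ) : ℚ) ((-54 * W.c₆ : ℤ) : ℚ))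
        (φ.toRatAlgHom : F →ₐ[ℚ] L) h
      exact ⟨x, y, h', hT₀.symm.trans e⟩
  have h1 : p • (eqv h6 hΔ').symm T = 0 := by
    rw [← map_nsmul, hT, map_zero]
  have hfin : ∀ (X Y : L) (H : (base W L).toAffine.Nonsingular X Y),
      (∃ X₀ : F, φ X₀ = X) → (∃ Y₀ : F, φ Y₀ = Y) →
      ∃ T₀ : Pt W F, mp φ T₀ = pt H := by
    rintro _ _ H ⟨X₀, rfl⟩ ⟨Y₀, rfl⟩
    exact ⟨pt ((W.toAffine.baseChange_nonsingular (f := φ.toIntAlgHom)
      φ.injective X₀ Y₀).mp H), rfl⟩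
  rcases key _ (sw_eq W L).symm _ h1 with h2 | ⟨x, y, h, h2⟩
  · refine ⟨0, ?_⟩
    have h3 := congrArg (eqv h6 hΔ') h2
    rw [AddEquiv.apply_symm_apply] at h3
    rw [h3]
    rfl
  · have h3 := congrArg (eqv h6 hΔ') h2
    rw [AddEquiv.apply_symm_apply, eqv_some] at h3
    rw [h3]
    apply hfin
    · refine ⟨(1 / 6) ^ 2 * x + -(W.b₂ : F) / 12, ?_⟩
      simp only [map_add, map_mul, map_pow, map_div₀, map_neg, map_intCast, map_ofNat, map_one]
    · refine ⟨(1 / 6) ^ 3 * y + (1 / 6) ^ 2 * (-(W.a₁ : F) / 2) * x +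
        ((W.a₁ : F) * W.b₂ / 24 - (W.a₃ : F) / 2), ?_⟩
      simp only [map_add, map_sub, map_mul, map_pow, map_div₀, map_neg, map_intCast, map_ofNat,
        map_one]

end tor

end Pool.Agent.P8H4.PL
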