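import Pool.Agent.Y238.G.Hasp

/-!
# The number of the points of a singular cubic over a finite field
-/

set_option autoImplicit false

namespace Pool.Agent.P8H4.PL

section sing

variable {k : Type} [Field k]

/-- a singular point -/
structure SingPt (W : WeierstrassCurve k) (x y : k) : Prop where
  eqn : y ^ 2 + W.a₁ * x * y + W.a₃ * y = x ^ 3 + W.a₂ * x ^ 2 + W.a₄ * x + W.a₆
  dx : W.a₁ * y = 3 * x ^ 2 + 2 * W.a₂ * x + W.a₄
  dy : 2 * y + W.a₁ * x + W.a₃ = 0

lemma exists_root_pow [Finite k] (p : ℕ) [Fact p.Prime] [CharP k p] (c : k) : ∃ x : k, x ^ p = c := by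
  have h : Function.Injective (fun x : k => x ^ p) := frobenius_inj k p
  exact (Finite.injective_iff_surjective.1 h) c

lemma disc_ex (W : WeierstrassCurve k) : W.Δ = -(W.a₁ ^ 2 + 4 * W.a₂) ^ 2 *
    (W.a₁ ^ 2 * W.a₆ + 4 * W.a₂ * W.a₆ - W.a₁ * W.a₃ * W.a₄ + W.a₂ * W.a₃ ^ 2 - W.a₄ ^ 2) -
    8 * (2 * W.a₄ + W.a₁ * W.a₃) ^ 3 - 27 * (W.a₃ ^ 2 + 4 * W.a₆) ^ 2 +
    9 * (W.a₁ ^ 2 + 4 * W.a₂) * (2 * W.a₄ + W.a₁ * W.a₃) * (W.a₃ ^ 2 + 4 * W.a₆) := by
  simp only [WeierstrassCurve.Δ, WeierstrassCurve.b₂, WeierstrassCurve.b₄, WeierstrassCurve.b₆,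
    WeierstrassCurve.b₈]

lemma sing_two [Finite k] (W : WeierstrassCurve k) (h2 : (2 : k) = 0) (hΔ : W.Δ = 0) :
    ∃ x y, SingPt W x y := by
  have hch : CharP k 2 := CharTwo.of_one_ne_zero_of_two_eq_zero one_ne_zero h2
  rw [disc_ex] at hΔ
  by_cases h1 : W.a₁ = 0
  · rw [h1] at hΔ
    have h3 : W.a₃ = 0 := by
      have h4 : W.a₃ ^ 4 = 0 := by
        linear_combination hΔ + (-36*W.a₂*W.a₃^2*W.a₄ + -144*W.a₂*W.a₄*W.a₆ + -8*W.a₂^2*W.a₄^2 + 8*W.a₂^3*W.a₃^2 + 32*W.a₂^3*W.a₆ + 108*W.a₃^2*W.a₆ + 14*W.a₃^4 + 32*W.a₄^3 + 216*W.a₆^2) * h2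
      exact pow_eq_zero_iff (by norm_num) |>.1 h4
    obtain ⟨x, hx⟩ := exists_root_pow 2 W.a₄
    obtain ⟨y, hy⟩ := exists_root_pow 2 (x ^ 3 + W.a₂ * x ^ 2 + W.a₄ * x + W.a₆)
    refine ⟨x, y, ?_, ?_, ?_⟩
    · rw [h1, h3]
      linear_combination hy
    · rw [h1]
      linear_combination hx + (-2 * x ^ 2 - W.a₂ * x) * h2
    · rw [h1, h3]
      linear_combination y * h2
  · set x := W.a₃ / W.a₁ with hx
    set y := (x ^ 2 + W.a₄) / W.a₁ with hy
    have e3 : W.a₃ = W.a₁ * x := by rw [hx]; field_simp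
    have e4 : W.a₄ = W.a₁ * y - x ^ 2 := by rw [hy]; field_simp; ring
    clear_value x y
    rw [e3, e4] at hΔ
    refine ⟨x, y, ?_, ?_, ?_⟩
    · rw [e3, e4]
      apply sub_eq_zero.1
      apply (mul_eq_zero.1 ?_).resolve_left (pow_ne_zero 6 h1)
      linear_combination hΔ + (-144*W.a₁*W.a₂*W.a₆*y + 16*W.a₁*W.a₂^2*x^2*y + 96*W.a₁*x^4*y + -72*W.a₁^2*W.a₂*W.a₆*x + 32*W.a₁^2*W.a₂*x^4 + 24*W.a₁^2*W.a₂^2*W.a₆ + 8*W.a₁^2*W.a₂^2*x^3 + -8*W.a₁^2*W.a₂^2*y^2 + 8*W.a₁^2*W.a₂^3*x^2 + 144*W.a₁^2*W.a₆*x^2 + -96*W.a₁^2*x^2*y^2 + 48*W.a₁^2*x^5 + -28*W.a₁^3*W.a₂*x^2*y + -8*W.a₁^3*W.a₂^2*x*y + -36*W.a₁^3*W.a₆*y + -96*W.a₁^3*x^3*y + 32*W.a₁^3*y^3 + 6*W.a₁^4*W.a₂*W.a₆ + -14*W.a₁^4*W.a₂*x^3 + -4*W.a₁^4*W.a₂*y^2 + 4*W.a₁^4*W.a₂^2*x^2 + -18*W.a₁^4*W.a₆*x + 48*W.a₁^4*x*y^2 + -2*W.a₁^4*x^4 + -4*W.a₁^5*W.a₂*x*y + 16*W.a₁^5*x^2*y + 144*W.a₂*W.a₆*x^2 + -8*W.a₂^2*x^4 + 32*W.a₂^3*W.a₆ + 216*W.a₆^2 + -32*x^6) * h2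
    · rw [e4]
      linear_combination (-x ^ 2 - W.a₂ * x) * h2
    · rw [e3]
      linear_combination (y + W.a₁ * x) * h2

lemma sing_three [Finite k] (W : WeierstrassCurve k) (h3 : (3 : k) = 0) (hΔ : W.Δ = 0) :
    ∃ x y, SingPt W x y := by
  have hch : CharP k 3 := by
    have h4 : ringChar k ∣ 3 := ringChar.dvd (by exact_mod_cast h3)
    have h5 : ringChar k = 3 := by
      rcases (Nat.dvd_prime Nat.prime_three).1 h4 with h | h
      · exact absurd h (CharP.ringChar_ne_one)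
      · exact h
    rw [← h5]
    infer_instance
  have : Fact (Nat.Prime 3) := ⟨Nat.prime_three⟩
  rw [disc_ex] at hΔ
  by_cases h1 : W.a₁ ^ 2 + W.a₂ = 0
  · have e2 : W.a₂ = -W.a₁ ^ 2 := by linear_combination h1
    rw [e2] at hΔ
    have h4 : W.a₄ - W.a₁ * W.a₃ = 0 := by
      have h5 : (W.a₄ - W.a₁ * W.a₃) ^ 3 = 0 := by
        linear_combination -hΔ + (-33*W.a₁*W.a₃*W.a₄^2 + -33*W.a₁^2*W.a₃^2*W.a₄ + -72*W.a₁^2*W.a₄*W.a₆ + -36*W.a₁^3*W.a₃*W.a₆ + -12*W.a₁^3*W.a₃^3 + 3*W.a₁^4*W.a₄^2 + 3*W.a₁^5*W.a₃*W.a₄ + 3*W.a₁^6*W.a₃^2 + 9*W.a₁^6*W.a₆ + -72*W.a₃^2*W.a₆ + -9*W.a₃^4 + -21*W.a₄^3 + -144*W.a₆^2) * h3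
      exact pow_eq_zero_iff (by norm_num) |>.1 h5
    have e4 : W.a₄ = W.a₁ * W.a₃ := by linear_combination h4
    obtain ⟨x, hx⟩ := exists_root_pow 3 (-W.a₃ ^ 2 - W.a₆)
    refine ⟨x, W.a₁ * x + W.a₃, ?_, ?_, ?_⟩
    · rw [e2, e4]
      linear_combination -hx + (W.a₁ ^ 2 * x ^ 2 + W.a₁ * W.a₃ * x + W.a₃ ^ 2) * h3
    · rw [e2, e4]
      linear_combination (-x ^ 2 + W.a₁ ^ 2 * x) * h3
    · linear_combination (W.a₁ * x + W.a₃) * h3
  · set x := (W.a₄ - W.a₁ * W.a₃) / (W.a₁ ^ 2 + W.a₂) with hx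
    have e4 : W.a₄ = (W.a₁ ^ 2 + W.a₂) * x + W.a₁ * W.a₃ := by rw [hx]; field_simp; ring
    clear_value x
    rw [e4] at hΔ
    refine ⟨x, W.a₁ * x + W.a₃, ?_, ?_, ?_⟩
    · rw [e4]
      apply sub_eq_zero.1
      apply (mul_eq_zero.1 ?_).resolve_left (pow_ne_zero 3 h1)
      linear_combination hΔ + (-144*W.a₁*W.a₂*W.a₃*W.a₆ + -36*W.a₁*W.a₂*W.a₃^3 + 96*W.a₁*W.a₂^2*W.a₃*x^2 + -15*W.a₁*W.a₂^3*W.a₃*x + 114*W.a₁^2*W.a₂*W.a₃^2*x + -120*W.a₁^2*W.a₂*W.a₆*x + -6*W.a₁^2*W.a₂^2*W.a₃^2 + 15*W.a₁^2*W.a₂^2*W.a₆ + 63*W.a₁^2*W.a₂^2*x^3 + -15*W.a₁^2*W.a₂^3*x^2 + 192*W.a₁^3*W.a₂*W.a₃*x^2 + -21*W.a₁^3*W.a₂^2*W.a₃*x + -36*W.a₁^3*W.a₃*W.a₆ + 63*W.a₁^3*W.a₃^3 + -3*W.a₁^4*W.a₂*W.a₃^2 + 3*W.a₁^4*W.a₂*W.a₆ + 63*W.a₁^4*W.a₂*x^3 + -12*W.a₁^4*W.a₂^2*x^2 + 138*W.a₁^4*W.a₃^2*x + -24*W.a₁^4*W.a₆*x + -6*W.a₁^5*W.a₂*W.a₃*x + 96*W.a₁^5*W.a₃*x^2 + -3*W.a₁^6*W.a₂*x^2 + 21*W.a₁^6*x^3 + -24*W.a₂^2*W.a₃^2*x + -96*W.a₂^2*W.a₆*x + 6*W.a₂^3*W.a₃^2 + 21*W.a₂^3*W.a₆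 + 21*W.a₂^3*x^3 + -6*W.a₂^4*x^2 + 72*W.a₃^2*W.a₆ + 9*W.a₃^4 + 144*W.a₆^2) * h3
    · rw [e4]
      linear_combination (-x ^ 2 - W.a₂ * x) * h3
    · linear_combination (W.a₁ * x + W.a₃) * h3

lemma sing_gen (W : WeierstrassCurve k) (h2 : (2 : k) ≠ 0) (h3 : (3 : k) ≠ 0) (hΔ : W.Δ = 0) :
    ∃ x y, SingPt W x y := by
  have h4 : (4 : k) ≠ 0 := by
    rw [show (4 : k) = 2 * 2 by norm_num]
    exact mul_ne_zero h2 h2
  -- a double root of the cubic
  obtain ⟨x, hx1, hx2⟩ : ∃ x : k, 4 * x ^ 3 + W.b₂ * x ^ 2 + 2 * W.b₄ * x + W.b₆ = 0 ∧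
      12 * x ^ 2 + 2 * W.b₂ * x + 2 * W.b₄ = 0 := by
    have hD : -W.b₂ ^ 2 * (W.b₂ * W.b₆ - W.b₄ ^ 2) - 32 * W.b₄ ^ 3 - 108 * W.b₆ ^ 2 +
        36 * W.b₂ * W.b₄ * W.b₆ = 0 := by
      have h6 := W.b_relation
      simp only [WeierstrassCurve.Δ] at hΔ
      linear_combination 4 * hΔ + W.b₂ ^ 2 * h6
    by_cases hc : W.b₂ ^ 2 - 24 * W.b₄ = 0
    · have h12 : (12 : k) ≠ 0 := by
        rw [show (12 : k) = 4 * 3 by norm_num]
        exact mul_ne_zero h4 h3
      set x := -W.b₂ / 12 with hx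
      have e2 : W.b₂ = -12 * x := by rw [hx]; field_simp
      clear_value x
      have e4 : W.b₄ = 6 * x ^ 2 := by
        apply mul_left_cancel₀ (mul_ne_zero (mul_ne_zero h2 h12) one_ne_zero)
        rw [e2] at hc
        linear_combination -hc
      have e6 : W.b₆ = -4 * x ^ 3 := by
        rw [e2, e4] at hD
        have h7 : (108 : k) * (W.b₆ + 4 * x ^ 3) ^ 2 = 0 := by
          linear_combination -hD
        have h108 : (108 : k) ≠ 0 := by
          rw [show (108 : k) = 4 * 3 * 3 * 3 by norm_num]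
          exact mul_ne_zero (mul_ne_zero (mul_ne_zero h4 h3) h3) h3
        have h8 := pow_eq_zero_iff (by norm_num : 2 ≠ 0) |>.1 ((mul_eq_zero.1 h7).resolve_left h108)
        linear_combination h8
      refine ⟨x, ?_, ?_⟩
      · rw [e2, e4, e6]; ring
      · rw [e2, e4]; ring
    · set x := (18 * W.b₆ - W.b₂ * W.b₄) / (W.b₂ ^ 2 - 24 * W.b₄) with hx
      have e : (W.b₂ ^ 2 - 24 * W.b₄) * x = 18 * W.b₆ - W.b₂ * W.b₄ := by
        rw [hx, mul_div_cancel₀ _ hc]
      clear_value x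
      set c := W.b₂ ^ 2 - 24 * W.b₄ with hcd
      set n := 18 * W.b₆ - W.b₂ * W.b₄ with hn
      refine ⟨x, ?_, ?_⟩
      · apply (mul_eq_zero.1 ?_).resolve_left (pow_ne_zero 3 hc)
        have : c ^ 3 * (4 * x ^ 3 + W.b₂ * x ^ 2 + 2 * W.b₄ * x + W.b₆) =
          4 * (c * x) ^ 3 + W.b₂ * c * (c * x) ^ 2 + 2 * W.b₄ * c ^ 2 * (c * x) + W.b₆ * c ^ 3 := by ring
        rw [this, e, hn, hcd]
        linear_combination (36 * W.b₂ * W.b₄ - W.b₂ ^ 3 - 216 * W.b₆) * hD
      · apply (mul_eq_zero.1 ?_).resolve_left (pow_ne_zero 2 hc)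
        have : c ^ 2 * (12 * x ^ 2 + 2 * W.b₂ * x + 2 * W.b₄) =
          12 * (c * x) ^ 2 + 2 * W.b₂ * c * (c * x) + 2 * W.b₄ * c ^ 2 := by ring
        rw [this, e, hn, hcd]
        linear_combination -36 * hD
  set y := -(W.a₁ * x + W.a₃) / 2 with hy
  have ey : 2 * y + W.a₁ * x + W.a₃ = 0 := by rw [hy]; field_simp; ring
  clear_value y
  refine ⟨x, y, ?_, ?_, ey⟩
  · apply mul_left_cancel₀ h4
    simp only [WeierstrassCurve.b₂, WeierstrassCurve.b₄, WeierstrassCurve.b₆] at hx1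
    linear_combination -hx1 + (2 * y + W.a₁ * x + W.a₃) * ey
  · apply mul_left_cancel₀ h4
    simp only [WeierstrassCurve.b₂, WeierstrassCurve.b₄] at hx2
    linear_combination -hx2 + 2 * W.a₁ * ey

theorem exists_sing [Finite k] (W : WeierstrassCurve k) (hΔ : W.Δ = 0) : ∃ x y, SingPt W x y := by
  by_cases h2 : (2 : k) = 0
  · exact sing_two W h2 hΔ
  by_cases h3 : (3 : k) = 0
  · exact sing_three W h3 hΔ
  exact sing_gen W h2 h3 hΔ

end sing

section par

variable {k : Type} [Field k]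

/-- the tangent form at the singular point -/
def tf (W : WeierstrassCurve k) (x₀ t : k) : k := t ^ 2 + W.a₁ * t - (3 * x₀ + W.a₂)

lemma par_card [Finite k] (W : WeierstrassCurve k) {x₀ y₀ : k} (h : SingPt W x₀ y₀) :
    (Nat.card k : ℤ) - Nat.card {P : k × k // P.2 ^ 2 + W.a₁ * P.1 * P.2 + W.a₃ * P.2 =
      P.1 ^ 3 + W.a₂ * P.1 ^ 2 + W.a₄ * P.1 + W.a₆} =
      Nat.card {t : k // tf W x₀ t = 0} - 1 := by
  classical
  obtain ⟨h1, h2, h3⟩ := h
  set S : Set (k × k) := {P | P.2 ^ 2 + W.a₁ * P.1 * P.2 + W.a₃ * P.2 =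
      P.1 ^ 3 + W.a₂ * P.1 ^ 2 + W.a₄ * P.1 + W.a₆} with hS
  set N : Set k := {t | tf W x₀ t = 0} with hN
  let φ : k → k × k := fun t => (x₀ + tf W x₀ t, y₀ + t * tf W x₀ t)
  have key : ∀ u w : k, (y₀ + w) ^ 2 + W.a₁ * (x₀ + u) * (y₀ + w) + W.a₃ * (y₀ + w) -
      ((x₀ + u) ^ 3 + W.a₂ * (x₀ + u) ^ 2 + W.a₄ * (x₀ + u) + W.a₆) =
      w ^ 2 + W.a₁ * u * w - (3 * x₀ + W.a₂) * u ^ 2 - u ^ 3 := by
    intro u w
    linear_combination h1 + u * h2 + w * h3
  have hinj : Set.InjOn φ Nᶜ := by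
    intro s hs t ht hst
    have e1 : tf W x₀ s = tf W x₀ t := by
      have := congrArg Prod.fst hst
      exact add_left_cancel this
    have e2 : s * tf W x₀ s = t * tf W x₀ t := by
      have := congrArg Prod.snd hst
      exact add_left_cancel this
    rw [← e1] at e2
    exact mul_right_cancel₀ hs e2
  have hSe : S = insert (x₀, y₀) (φ '' Nᶜ) := by
    ext ⟨x, y⟩
    simp only [Set.mem_insert_iff, Set.mem_image, hS, Set.mem_ofPred_eq, Prod.mk.injEq]
    constructor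
    · intro hP
      have hk := key (x - x₀) (y - y₀)
      rw [add_sub_cancel, add_sub_cancel, sub_eq_zero.2 hP] at hk
      by_cases hx : x = x₀
      · left
        refine ⟨hx, ?_⟩
        rw [hx, sub_self] at hk
        have h4 : (y - y₀) ^ 2 = 0 := by linear_combination -hk
        exact sub_eq_zero.1 (pow_eq_zero_iff (by norm_num) |>.1 h4)
      · right
        have hu : x - x₀ ≠ 0 := sub_ne_zero.2 hx
        have e : tf W x₀ ((y - y₀) / (x - x₀)) = x - x₀ := by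
          unfold tf
          field_simp
          linear_combination -hk
        refine ⟨(y - y₀) / (x - x₀), ?_, ?_⟩
        · show ¬ tf W x₀ _ = 0
          rw [e]; exact hu
        · show (x₀ + _, y₀ + _) = (x, y)
          rw [e, div_mul_cancel₀ _ hu, add_sub_cancel, add_sub_cancel]
    · rintro (⟨rfl, rfl⟩ | ⟨t, ht, he⟩)
      · exact h1
      · have e1 : x = x₀ + tf W x₀ t := (congrArg Prod.fst he).symm
        have e2 : y = y₀ + t * tf W x₀ t := (congrArg Prod.snd he).symm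
        have hk := key (tf W x₀ t) (t * tf W x₀ t)
        rw [← e1, ← e2] at hk
        apply sub_eq_zero.1
        rw [hk]
        unfold tf
        ring
  have hnot : (x₀, y₀) ∉ φ '' Nᶜ := by
    rintro ⟨t, ht, he⟩
    have e1 : x₀ + tf W x₀ t = x₀ := congrArg Prod.fst he
    exact ht (show tf W x₀ t = 0 by simpa using e1)
  have c1 : Nat.card {P : k × k // P.2 ^ 2 + W.a₁ * P.1 * P.2 + W.a₃ * P.2 =
      P.1 ^ 3 + W.a₂ * P.1 ^ 2 + W.a₄ * P.1 + W.a₆} = Nᶜ.ncard + 1 := by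
    have e1 : Nat.card {P : k × k // P.2 ^ 2 + W.a₁ * P.1 * P.2 + W.a₃ * P.2 =
      P.1 ^ 3 + W.a₂ * P.1 ^ 2 + W.a₄ * P.1 + W.a₆} = S.ncard := Nat.card_coe_set_eq S
    rw [e1, hSe, Set.ncard_insert_of_notMem hnot (Set.toFinite _), hinj.ncard_image]
  have c2 : Nat.card {t : k // tf W x₀ t = 0} = N.ncard := Nat.card_coe_set_eq N
  have c3 := Set.ncard_add_ncard_compl N (Set.toFinite _) (Set.toFinite _)
  rw [c1, c2, ← c3]
  push_cast
  ring

end par

section quad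

open Polynomial

variable {q : ℕ} [Fact q.Prime] {k : Type} [Field k] [Finite k] [Algebra (ZMod q) k]

/-- the number of the roots of a quadratic polynomial in an extension of the prime field -/
lemma quad_card (b c : ZMod q) :
    (Nat.card {t : k // t ^ 2 + algebraMap _ k b * t + algebraMap _ k c = 0} : ℤ) - 1 =
      ((Nat.card {t : ZMod q // t ^ 2 + b * t + c = 0} : ℤ) - 1) ^ Module.finrank (ZMod q) k := by
  classical
  have hfd : FiniteDimensional (ZMod q) k := Module.Finite.of_finite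
  have hf0 : Module.finrank (ZMod q) k ≠ 0 := Module.finrank_pos.ne'
  set ι := algebraMap (ZMod q) k with hι
  by_cases hroot : ∃ s : ZMod q, s ^ 2 + b * s + c = 0
  · obtain ⟨s, hs⟩ := hroot
    have e1 : {t : ZMod q | t ^ 2 + b * t + c = 0} = {s, -b - s} := by
      ext t
      simp only [Set.mem_ofPred_eq, Set.mem_insert_iff, Set.mem_singleton_iff]
      have e : t ^ 2 + b * t + c = (t - s) * (t - (-b - s)) := by linear_combination hs
      rw [e, mul_eq_zero, sub_eq_zero, sub_eq_zero]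
    have e2 : {t : k | t ^ 2 + ι b * t + ι c = 0} = {ι s, ι (-b - s)} := by
      ext t
      simp only [Set.mem_ofPred_eq, Set.mem_insert_iff, Set.mem_singleton_iff]
      have hs' := congrArg ι hs
      rw [map_add, map_add, map_pow, map_mul, map_zero] at hs'
      have e : t ^ 2 + ι b * t + ι c = (t - ι s) * (t - ι (-b - s)) := by
        rw [map_sub, map_neg]
        linear_combination hs'
      rw [e, mul_eq_zero, sub_eq_zero, sub_eq_zero]
    have c1 : Nat.card {t : ZMod q // t ^ 2 + b * t + c = 0} = ({s, -b - s} : Set (ZMod q)).ncard := by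
      rw [← e1]; exact Nat.card_coe_set_eq _
    have c2 : Nat.card {t : k // t ^ 2 + ι b * t + ι c = 0} = ({ι s, ι (-b - s)} : Set k).ncard := by
      rw [← e2]; exact Nat.card_coe_set_eq _
    rw [c1, c2]
    by_cases h : s = -b - s
    · rw [← h, Set.pair_eq_singleton, Set.pair_eq_singleton, Set.ncard_singleton,
        Set.ncard_singleton]
      simp [hf0]
    · rw [Set.ncard_pair h, Set.ncard_pair (fun h' => h (ι.injective h'))]
      norm_num
  · push Not at hroot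
    have c1 : Nat.card {t : ZMod q // t ^ 2 + b * t + c = 0} = 0 := by
      have : IsEmpty {t : ZMod q // t ^ 2 + b * t + c = 0} := ⟨fun t => hroot t.1 t.2⟩
      exact Nat.card_of_isEmpty
    rw [c1]
    set P : (ZMod q)[X] := X ^ 2 + C b * X + C c with hP
    have hdeg : P.natDegree = 2 := by rw [hP]; compute_degree!
    have hmon : P.Monic := by rw [hP]; monicity!
    have hir : Irreducible P := by
      refine (irreducible_iff_roots_eq_zero_of_degree_le_three (by rw [hdeg])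
        (by rw [hdeg]; norm_num)).2 ?_
      rw [Multiset.eq_zero_iff_forall_notMem]
      intro e he
      rw [mem_roots hmon.ne_zero, IsRoot.def] at he
      apply hroot e
      rw [← he, hP]
      simp
    have heval : ∀ t : k, aeval t P = t ^ 2 + ι b * t + ι c := by
      intro t
      rw [hP]
      simp only [map_add, map_mul, map_pow, aeval_X, aeval_C]
      rfl
    -- the number of the roots is zero or two
    have h2 : ∀ t : k, t ^ 2 + ι b * t + ι c = 0 → t ≠ -ι b - t := by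
      intro t ht h
      have h4 : 2 * t = -ι b := by linear_combination h
      by_cases h5 : (2 : ZMod q) = 0
      · have h6 : (2 : k) = 0 := by
          have := congrArg ι h5
          rwa [map_ofNat, map_zero] at this
        rw [h6, zero_mul] at h4
        have hb : b = 0 := by
          apply ι.injective
          rw [map_zero]
          linear_combination h4
        have hch : CharP (ZMod q) 2 := CharTwo.of_one_ne_zero_of_two_eq_zero one_ne_zero h5
        obtain ⟨s, hs⟩ := exists_root_pow 2 (-c)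
        apply hroot s
        rw [hb, hs]
        ring
      · apply hroot (-b / 2)
        have h7 : t = ι (-b / 2) := by
          rw [map_div₀, map_neg, map_ofNat, ← h4]
          have h6 : (2 : k) ≠ 0 := by
            intro h8
            apply h5
            apply ι.injective
            rw [map_ofNat, map_zero, h8]
          field_simp
        rw [h7] at ht
        apply ι.injective
        rw [map_add, map_add, map_pow, map_mul, map_zero]
        exact ht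
    have hex : (∃ t : k, t ^ 2 + ι b * t + ι c = 0) ↔ Even (Module.finrank (ZMod q) k) := by
      constructor
      · rintro ⟨t, ht⟩
        have h5 : minpoly (ZMod q) t = P :=
          (minpoly.eq_of_irreducible_of_monic hir (by rw [heval]; exact ht) hmon).symm
        have h6 := minpoly.degree_dvd (K := ZMod q) (Algebra.IsIntegral.isIntegral t)
        rw [h5, hdeg] at h6
        exact even_iff_two_dvd.2 h6
      · intro he
        have h4 : P ∣ X ^ (Nat.card (ZMod q)) ^ (Module.finrank (ZMod q) k) - X :=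
          (hir.natDegree_dvd_iff_dvd_X_pow_card_pow_sub_X).1 (by
            rw [hdeg]; exact even_iff_two_dvd.1 he)
        let _ : Fintype k := Fintype.ofFinite k
        have hcard : (Nat.card (ZMod q)) ^ (Module.finrank (ZMod q) k) = Fintype.card k := by
          rw [← Nat.card_eq_fintype_card, Module.natCard_eq_pow_finrank (K := ZMod q) (V := k)]
        rw [hcard] at h4
        have h5 : (P.map ι) ∣ (X ^ Fintype.card k - X : k[X]) := by
          have := Polynomial.map_dvd ι h4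
          simpa using this
        have h6 : (X ^ Fintype.card k - X : k[X]).Splits := by
          rw [splits_iff_card_roots, FiniteField.roots_X_pow_card_sub_X,
            FiniteField.X_pow_card_sub_X_natDegree_eq _ Fintype.one_lt_card]
          rfl
        have h7 : (P.map ι).Splits :=
          h6.of_dvd (FiniteField.X_pow_card_sub_X_ne_zero _ Fintype.one_lt_card) h5
        obtain ⟨t, ht⟩ := h7.exists_eval_eq_zero (by
          rw [degree_map, degree_eq_natDegree hmon.ne_zero, hdeg]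
          norm_num)
        refine ⟨t, ?_⟩
        rw [← heval, aeval_def, ← eval_map]
        exact ht
    by_cases he : Even (Module.finrank (ZMod q) k)
    · obtain ⟨t, ht⟩ := hex.2 he
      have e2 : {s : k | s ^ 2 + ι b * s + ι c = 0} = {t, -ι b - t} := by
        ext s
        simp only [Set.mem_ofPred_eq, Set.mem_insert_iff, Set.mem_singleton_iff]
        have e : s ^ 2 + ι b * s + ι c = (s - t) * (s - (-ι b - t)) := by linear_combination ht
        rw [e, mul_eq_zero, sub_eq_zero, sub_eq_zero]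
      have c2 : Nat.card {t : k // t ^ 2 + ι b * t + ι c = 0} = ({t, -ι b - t} : Set k).ncard := by
        rw [← e2]; exact Nat.card_coe_set_eq _
      rw [c2, Set.ncard_pair (h2 t ht)]
      push_cast
      rw [he.neg_one_pow]
    · have : IsEmpty {t : k // t ^ 2 + ι b * t + ι c = 0} := ⟨fun t => he (hex.1 ⟨t.1, t.2⟩)⟩
      rw [Nat.card_of_isEmpty]
      push_cast
      rw [(Nat.not_even_iff_odd.1 he).neg_one_pow]

/-- the number of the points over an extension of the prime field at a bad prime -/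
theorem pts_bad (W : WeierstrassCurve ℤ) (hΔ : (q : ℤ) ∣ W.Δ) :
    (Nat.card k : ℤ) - Pool.Agent.Y702.G.pts W k =
      ((q : ℤ) - Pool.Agent.Y702.G.pts W (ZMod q)) ^ Module.finrank (ZMod q) k := by
  set V : WeierstrassCurve (ZMod q) := W.map (Int.castRingHom (ZMod q)) with hV
  have hVΔ : V.Δ = 0 := by
    rw [hV, WeierstrassCurve.map_Δ]
    exact (ZMod.intCast_zmod_eq_zero_iff_dvd _ _).2 hΔ
  obtain ⟨x, y, h⟩ := exists_sing V hVΔ
  have hk : ∀ (l : Type) [Field l] [Finite l] [Algebra (ZMod q) l],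
      (Nat.card l : ℤ) - Pool.Agent.Y702.G.pts W l =
      Nat.card {t : l // t ^ 2 + algebraMap (ZMod q) l V.a₁ * t +
        algebraMap (ZMod q) l (-(3 * x + V.a₂)) = 0} - 1 := by
    intro l _ _ _
    set U : WeierstrassCurve l := V.map (algebraMap (ZMod q) l) with hU
    have hs : SingPt U (algebraMap (ZMod q) l x) (algebraMap (ZMod q) l y) := by
      refine ⟨?_, ?_, ?_⟩
      · have := congrArg (algebraMap (ZMod q) l) h.eqn
        simpa only [hU, map_add, map_mul, map_pow, WeierstrassCurve.map_a₁,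
          WeierstrassCurve.map_a₂, WeierstrassCurve.map_a₃, WeierstrassCurve.map_a₄,
          WeierstrassCurve.map_a₆] using this
      · have := congrArg (algebraMap (ZMod q) l) h.dx
        simpa only [hU, map_add, map_mul, map_pow, map_ofNat, WeierstrassCurve.map_a₁,
          WeierstrassCurve.map_a₂, WeierstrassCurve.map_a₃, WeierstrassCurve.map_a₄,
          WeierstrassCurve.map_a₆] using this
      · have := congrArg (algebraMap (ZMod q) l) h.dy
        simpa only [hU, map_add, map_mul, map_pow, map_ofNat, map_zero, WeierstrassCurve.map_a₁,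
          WeierstrassCurve.map_a₂, WeierstrassCurve.map_a₃, WeierstrassCurve.map_a₄,
          WeierstrassCurve.map_a₆] using this
    have h1 := par_card U hs
    have e1 : Pool.Agent.Y702.G.pts W l = Nat.card {P : l × l // P.2 ^ 2 + U.a₁ * P.1 * P.2 +
        U.a₃ * P.2 = P.1 ^ 3 + U.a₂ * P.1 ^ 2 + U.a₄ * P.1 + U.a₆} := by
      rw [Pool.Agent.Y238.G.pts_ring]
      simp only [hU, hV, WeierstrassCurve.map_a₁, WeierstrassCurve.map_a₂,
        WeierstrassCurve.map_a₃, WeierstrassCurve.map_a₄, WeierstrassCurve.map_a₆, eq_intCast,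
        map_intCast]
    rw [e1, h1]
    have e2 : ∀ t : l, tf U (algebraMap (ZMod q) l x) t = t ^ 2 + algebraMap (ZMod q) l V.a₁ * t +
        algebraMap (ZMod q) l (-(3 * x + V.a₂)) := by
      intro t
      unfold tf
      rw [map_neg, map_add, map_mul, map_ofNat, hU, WeierstrassCurve.map_a₁,
        WeierstrassCurve.map_a₂]
      ring
    simp_rw [e2]
  have h0 := hk (ZMod q)
  rw [Nat.card_zmod] at h0
  rw [h0, hk k, quad_card]
  rfl

end quad

end Pool.Agent.P8H4.PL
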