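import Mathlib

/-!
# The elements of a subgroup of the Galois group of `ℚ_q` act on residues as powers of one element
-/

set_option autoImplicit false

namespace Pool.Agent.P8H4.PL.Fr

open Polynomial

variable (q : ℕ) [Fact q.Prime]

/-- the absolute Galois group of `ℚ_q` -/
abbrev Gq : Type := PadicAlgCl q ≃ₐ[ℚ_[q]] PadicAlgCl q

variable {q}

lemma norm_eqv (τ : Gq q) (x : PadicAlgCl q) : ‖τ x‖ = ‖x‖ := by
  rw [← PadicAlgCl.spectralNorm_eq, ← PadicAlgCl.spectralNorm_eq]
  exact (spectralNorm_eq_of_equiv τ x).symm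

variable (q)

/-- the valuation ring -/
noncomputable def V : ValuationSubring (PadicAlgCl q) :=
  (NormedField.valuation (K := PadicAlgCl q)).valuationSubring

/-- the residue field -/
abbrev κ : Type := IsLocalRing.ResidueField (V q)

variable {q}

lemma mem_V (x : PadicAlgCl q) : x ∈ V q ↔ ‖x‖ ≤ 1 := by
  rw [V, Valuation.mem_valuationSubring_iff, NormedField.valuation_apply]
  exact_mod_cast Iff.rfl

lemma res_zero (x : V q) : IsLocalRing.residue (V q) x = 0 ↔ ‖(x : PadicAlgCl q)‖ < 1 := by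
  rw [IsLocalRing.residue_eq_zero_iff, IsLocalRing.mem_maximalIdeal, mem_nonunits_iff, not_iff_comm,
    not_lt]
  constructor
  · intro h1
    have hx0 : (x : PadicAlgCl q) ≠ 0 := by
      intro h0
      rw [h0, norm_zero] at h1
      linarith
    have h2 : (x : PadicAlgCl q)⁻¹ ∈ V q := by
      rw [mem_V, norm_inv]
      exact inv_le_one_of_one_le₀ h1
    exact IsUnit.of_mul_eq_one ⟨(x : PadicAlgCl q)⁻¹, h2⟩ (Subtype.ext (mul_inv_cancel₀ hx0))
  · intro hu
    obtain ⟨y, hy⟩ := hu.exists_right_inv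
    have h1 : ‖(x : PadicAlgCl q)‖ * ‖(y : PadicAlgCl q)‖ = 1 := by
      rw [← norm_mul]
      have := congrArg (fun z : V q => (z : PadicAlgCl q)) hy
      simp only [MulMemClass.coe_mul, OneMemClass.coe_one] at this
      rw [this, norm_one]
    have h2 : ‖(y : PadicAlgCl q)‖ ≤ 1 := (mem_V _).1 y.2
    nlinarith [norm_nonneg (x : PadicAlgCl q)]

lemma norm_pad (z : ℚ_[q]) : ‖algebraMap ℚ_[q] (PadicAlgCl q) z‖ = ‖z‖ :=
  PadicAlgCl.norm_extends q z

/-- the homomorphism from the `q`-adic integers -/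
noncomputable def iz : ℤ_[q] →+* V q :=
  ((algebraMap ℚ_[q] (PadicAlgCl q)).comp (PadicInt.Coe.ringHom (p := q))).codRestrict (V q)
    (fun z => by
      rw [mem_V]
      exact (norm_pad _).trans_le z.2)

/-- the homomorphism from the `q`-adic integers to the residue field -/
noncomputable def ik : ℤ_[q] →+* κ q := (IsLocalRing.residue (V q)).comp iz

instance : CharP (κ q) q := by
  have h : ((q : ℕ) : κ q) = 0 := by
    have h1 : ((q : ℕ) : κ q) = IsLocalRing.residue (V q) ((q : ℕ) : V q) := (map_natCast _ _).symm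
    rw [h1, res_zero]
    have h2 : (((q : ℕ) : V q) : PadicAlgCl q) = algebraMap ℚ_[q] (PadicAlgCl q) ((q : ℕ) : ℚ_[q]) := by
      rw [map_natCast]; rfl
    rw [h2, norm_pad]
    exact Padic.norm_p_lt_one
  exact (CharP.charP_iff_prime_eq_zero (Fact.out : q.Prime)).2 h

noncomputable instance : Algebra (ZMod q) (κ q) := ZMod.algebra _ q

lemma ik_eq (z : ℤ_[q]) : ik z = algebraMap (ZMod q) (κ q) (PadicInt.toZMod z) := by
  have h1 : ik (z - ((PadicInt.toZMod z).val : ℤ_[q])) = 0 := by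
    have h2 : z - ((PadicInt.toZMod z).val : ℤ_[q]) ∈ RingHom.ker (PadicInt.toZMod (p := q)) := by
      rw [RingHom.mem_ker, map_sub, map_natCast, ZMod.natCast_zmod_val, sub_self]
    rw [PadicInt.ker_toZMod, PadicInt.maximalIdeal_eq_span_p, Ideal.mem_span_singleton] at h2
    obtain ⟨w, hw⟩ := h2
    rw [hw, map_mul, map_natCast, CharP.cast_eq_zero, zero_mul]
  rw [map_sub, sub_eq_zero, map_natCast] at h1
  rw [h1]
  conv_rhs => rw [← ZMod.natCast_zmod_val (PadicInt.toZMod z)]
  rw [map_natCast]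

lemma alg (x : V q) : IsIntegral (ZMod q) (IsLocalRing.residue (V q) x) := by
  set P := minpoly ℚ_[q] (x : PadicAlgCl q) with hP
  have hint : IsIntegral ℚ_[q] (x : PadicAlgCl q) := Algebra.IsIntegral.isIntegral _
  have hmon : P.Monic := minpoly.monic hint
  have h1 : spectralValue P ≤ 1 := (mem_V (x : PadicAlgCl q)).1 x.2
  rw [spectralValue_le_one_iff hmon] at h1
  have hz : ∀ i, ∃ z : ℤ_[q], PadicInt.Coe.ringHom (p := q) z = P.coeff i := fun i =>
    ⟨⟨P.coeff i, h1 i⟩, rfl⟩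
  choose z hz using hz
  let P₀ : ℤ_[q][X] := ∑ i ∈ Finset.range (P.natDegree + 1), Polynomial.monomial i (z i)
  have hmap : P₀.map (PadicInt.Coe.ringHom (p := q)) = P := by
    conv_rhs => rw [P.as_sum_range' (P.natDegree + 1) (Nat.lt_succ_self _)]
    rw [Polynomial.map_sum]
    refine Finset.sum_congr rfl fun i _ => ?_
    rw [Polynomial.map_monomial, hz]
  have hinj : Function.Injective (PadicInt.Coe.ringHom (p := q)) := Subtype.val_injective
  have hm0 : P₀.Monic := by
    apply Polynomial.monic_of_injective hinj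
    rw [hmap]
    exact hmon
  have hev : P₀.eval₂ iz x = 0 := by
    apply Subtype.val_injective
    have h2 : ((P₀.eval₂ iz x : V q) : PadicAlgCl q) =
        P₀.eval₂ ((V q).subtype.comp iz) (x : PadicAlgCl q) :=
      Polynomial.hom_eval₂ _ _ (V q).subtype _
    rw [h2]
    have h3 : (V q).subtype.comp iz = (algebraMap ℚ_[q] (PadicAlgCl q)).comp
      (PadicInt.Coe.ringHom (p := q)) := rfl
    rw [h3, ← Polynomial.eval₂_map, hmap]
    exact minpoly.aeval _ _
  refine ⟨P₀.map PadicInt.toZMod, hm0.map _, ?_⟩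
  rw [Polynomial.eval₂_map]
  have h4 : (algebraMap (ZMod q) (κ q)).comp (PadicInt.toZMod (p := q)) = ik :=
    RingHom.ext fun z => (ik_eq z).symm
  rw [h4]
  have h5 := Polynomial.hom_eval₂ P₀ iz (IsLocalRing.residue (V q)) x
  rw [hev, map_zero] at h5
  exact h5.symm

/-- the action on the valuation ring -/
noncomputable def rv : Gq q →* RingAut (V q) where
  toFun τ :=
    { toFun := fun x => ⟨τ x, by rw [mem_V, norm_eqv, ← mem_V]; exact x.2⟩
      invFun := fun x => ⟨τ⁻¹ x, by rw [mem_V, norm_eqv, ← mem_V]; exact x.2⟩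
      left_inv := fun x => Subtype.ext (τ.symm_apply_apply _)
      right_inv := fun x => Subtype.ext (τ.apply_symm_apply _)
      map_mul' := fun x y => Subtype.ext (map_mul τ _ _)
      map_add' := fun x y => Subtype.ext (map_add τ _ _) }
  map_one' := rfl
  map_mul' _ _ := rfl

/-- automorphisms are linear over the prime field -/
noncomputable def zl : RingAut (κ q) →* (κ q ≃ₐ[ZMod q] κ q) where
  toFun e := AlgEquiv.ofRingEquiv (f := e) (fun z => by
    have : ((e : κ q →+* κ q).comp (algebraMap (ZMod q) (κ q))) = algebraMap (ZMod q) (κ q) :=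
      Subsingleton.elim _ _
    exact DFunLike.congr_fun this z)
  map_one' := rfl
  map_mul' _ _ := rfl

/-- the action on the residue field -/
noncomputable def rk : Gq q →* (κ q ≃ₐ[ZMod q] κ q) :=
  zl.comp ((IsLocalRing.ResidueField.mapAut (R := V q)).comp rv)

lemma rk_apply (τ : Gq q) (x : V q) :
    rk τ (IsLocalRing.residue (V q) x) = IsLocalRing.residue (V q) (rv τ x) := rfl

theorem frob (D : Subgroup (Gq q)) (S : Finset (PadicAlgCl q)) (hS : ∀ x ∈ S, ‖x‖ ≤ 1) :
    ∃ φ ∈ D, ∀ τ ∈ D, ∃ n : ℕ, ∀ x ∈ S, ‖τ x - (φ ^ n) x‖ < 1 := by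
  classical
  let S' : Set (κ q) := (fun x : V q => IsLocalRing.residue (V q) x) '' {x : V q | (x : PadicAlgCl q) ∈ S}
  have hS'f : S'.Finite := by
    refine Set.Finite.image _ ?_
    exact Set.Finite.preimage (Subtype.val_injective.injOn) S.finite_toSet
  have : Finite S' := hS'f.to_subtype
  have hfd : FiniteDimensional (ZMod q) (IntermediateField.adjoin (ZMod q) S') := by
    apply IntermediateField.finiteDimensional_adjoin
    rintro _ ⟨x, -, rfl⟩
    exact alg x
  set E := IntermediateField.adjoin (ZMod q) S' with hE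
  have hfin : Finite E := Module.finite_of_finite (ZMod q)
  have hnorm : Normal (ZMod q) E := inferInstance
  have hcyc : IsCyclic (E ≃ₐ[ZMod q] E) := inferInstance
  have hfinG : Finite (E ≃ₐ[ZMod q] E) := inferInstance
  let Ψ : Gq q →* (E ≃ₐ[ZMod q] E) := (AlgEquiv.restrictNormalHom E).comp rk
  have hcyc' : IsCyclic (D.map Ψ) := inferInstance
  obtain ⟨⟨g, hg⟩, hgen⟩ := IsCyclic.exists_generator (α := D.map Ψ)
  obtain ⟨φ, hφ, rfl⟩ := hg
  refine ⟨φ, hφ, fun τ hτ => ?_⟩
  have h1 : (⟨Ψ τ, ⟨τ, hτ, rfl⟩⟩ : D.map Ψ) ∈ Subgroup.zpowers (⟨Ψ φ, ⟨φ, hφ, rfl⟩⟩ : D.map Ψ) :=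
    hgen _
  rw [← mem_powers_iff_mem_zpowers] at h1
  obtain ⟨n, hn⟩ := h1
  have hn' : Ψ (φ ^ n) = Ψ τ := by
    have := congrArg Subtype.val hn
    rw [map_pow]
    exact this
  refine ⟨n, fun x hx => ?_⟩
  have hxV : x ∈ V q := (mem_V x).2 (hS x hx)
  set y : E := ⟨IsLocalRing.residue (V q) ⟨x, hxV⟩, IntermediateField.subset_adjoin _ _
    ⟨⟨x, hxV⟩, hx, rfl⟩⟩ with hy
  have h2 : ∀ σ : Gq q, ((Ψ σ y : E) : κ q) = IsLocalRing.residue (V q) (rv σ ⟨x, hxV⟩) := by
    intro σ
    have h3 := AlgEquiv.restrictNormal_commutes (rk σ) E y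
    exact h3.trans (rk_apply σ ⟨x, hxV⟩)
  have h4 : IsLocalRing.residue (V q) (rv τ ⟨x, hxV⟩) =
      IsLocalRing.residue (V q) (rv (φ ^ n) ⟨x, hxV⟩) := by
    rw [← h2, ← h2, hn']
  rw [← sub_eq_zero, ← map_sub, res_zero] at h4
  exact h4

end Pool.Agent.P8H4.PL.Fr
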