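import Pool.Agent.H341R2.FieldSum
import Pool.Agent.H82R3.EK.FF

/-!
# Sums of a multiplicative function over the monic polynomials over a finite field
-/

set_option autoImplicit false

namespace Pool.Agent.P8H4.PL

open Polynomial Finset IntermediateField
open Pool.Agent.H341R2.Sharp (Mon mem_Mon Irr mem_Irr count_dvd Mon_zero finrank_div)

section Count

variable {F : Type} [Field F] [Fintype F] [DecidableEq F]

/-- a multiplicative function on the monic polynomials -/
structure IsMul (lm : F[X] → ℤ) : Prop where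
  one : lm 1 = 1
  mul : ∀ g h : F[X], g.Monic → h.Monic → lm (g * h) = lm g * lm h

variable {lm : F[X] → ℤ}

omit [Fintype F] [DecidableEq F] in
lemma IsMul.pow (hm : IsMul lm) (g : F[X]) (hg : g.Monic) (k : ℕ) : lm (g ^ k) = lm g ^ k := by
  induction k with
  | zero => simp [hm.one]
  | succ k ih => rw [pow_succ, hm.mul _ _ (hg.pow k) hg, ih, pow_succ]

variable (lm) in
/-- the sum over the monic polynomials of degree `n` -/
noncomputable def SA (n : ℕ) : ℤ := ∑ h ∈ Mon F n, lm h

omit [DecidableEq F] in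
lemma SA_zero (hm : IsMul lm) : SA lm 0 = 1 := by
  classical
  unfold SA
  rw [Mon_zero, sum_singleton, hm.one]

variable (lm) in
/-- the sum over irreducible polynomials of degree dividing `m` -/
noncomputable def ST (m : ℕ) : ℤ :=
  ∑ P ∈ (Irr F m).filter (fun P => P.natDegree ∣ m), P.natDegree * lm P ^ (m / P.natDegree)

open scoped Classical in
omit [DecidableEq F] in
theorem sum_pow_dvd (hm : IsMul lm) (P : F[X]) (hP : P.Monic) (n k : ℕ) :
    ∑ h ∈ Mon F n, (if P ^ k ∣ h then lm h else 0) =
      if k * P.natDegree ≤ n then lm P ^ k * SA lm (n - k * P.natDegree) else 0 := by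
  rw [← sum_filter]
  split_ifs with hkn
  · unfold SA
    rw [mul_sum]
    symm
    refine sum_bij' (fun g _ => P ^ k * g) (fun h _ => h /ₘ (P ^ k)) ?_ ?_ ?_ ?_ ?_
    · intro g hg
      rw [mem_Mon] at hg
      rw [mem_filter, mem_Mon]
      refine ⟨⟨(hP.pow k).mul hg.1, ?_⟩, dvd_mul_right _ _⟩
      rw [(hP.pow k).natDegree_mul hg.1, hP.natDegree_pow, hg.2]
      omega
    · intro h hh
      rw [mem_filter, mem_Mon] at hh
      obtain ⟨g, rfl⟩ := hh.2
      have hg : g.Monic := (hP.pow k).of_mul_monic_left hh.1.1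
      have h1 := hh.1.2
      rw [(hP.pow k).natDegree_mul hg, hP.natDegree_pow] at h1
      rw [mul_divByMonic_cancel_left _ (hP.pow k), mem_Mon]
      exact ⟨hg, by omega⟩
    · intro g hg
      exact mul_divByMonic_cancel_left _ (hP.pow k)
    · intro h hh
      rw [mem_filter] at hh
      obtain ⟨g, rfl⟩ := hh.2
      rw [mul_divByMonic_cancel_left _ (hP.pow k)]
    · intro g hg
      rw [mem_Mon] at hg
      rw [hm.mul _ _ (hP.pow k) hg.1, hm.pow _ hP]
  · apply sum_eq_zero
    intro h hh
    rw [mem_filter, mem_Mon] at hh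
    exfalso
    have := natDegree_le_of_dvd hh.2 hh.1.1.ne_zero
    rw [hP.natDegree_pow, hh.1.2] at this
    exact hkn this

theorem ST_eq (n m : ℕ) (hm : 1 ≤ m) (hmn : m ≤ n) :
    ST lm m = ∑ P ∈ Irr F n, ∑ k ∈ Icc 1 n,
      (if k * P.natDegree = m then (P.natDegree : ℤ) * lm P ^ k else 0) := by
  have h1 : ∀ P ∈ Irr F n, ∑ k ∈ Icc 1 n,
      (if k * P.natDegree = m then (P.natDegree : ℤ) * lm P ^ k else 0) =
      if P.natDegree ∣ m then (P.natDegree : ℤ) * lm P ^ (m / P.natDegree) else 0 := by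
    intro P hP
    rw [mem_Irr] at hP
    have h3 : 1 ≤ P.natDegree := hP.2.1.natDegree_pos
    split_ifs with hdvd
    · obtain ⟨k, hk⟩ := hdvd
      have hkm : k * P.natDegree = m := by rw [hk]; ring
      have hk1 : 1 ≤ k := by
        rcases Nat.eq_zero_or_pos k with h0 | h0
        · rw [h0] at hkm; omega
        · exact h0
      have hkn : k ≤ n := by nlinarith
      rw [sum_eq_single k]
      · rw [if_pos hkm]
        have : m / P.natDegree = k := by
          rw [hk]
          exact Nat.mul_div_cancel_left _ (by omega)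
        rw [this]
      · intro j _ hj
        rw [if_neg]
        intro hjm
        exact hj (Nat.eq_of_mul_eq_mul_right (by omega) (hjm.trans hkm.symm))
      · intro hk'
        exact absurd (mem_Icc.2 ⟨hk1, hkn⟩) hk'
    · apply sum_eq_zero
      intro k _
      rw [if_neg]
      intro hk
      exact hdvd ⟨k, by rw [← hk]; ring⟩
  rw [sum_congr rfl h1, ← sum_filter]
  unfold ST
  apply sum_congr _ fun _ _ => rfl
  ext P
  rw [mem_filter, mem_filter, mem_Irr, mem_Irr]
  constructor
  · rintro ⟨⟨h1, h2, h3⟩, h4⟩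
    exact ⟨⟨h1, h2, by omega⟩, h4⟩
  · rintro ⟨⟨h1, h2, h3⟩, h4⟩
    exact ⟨⟨h1, h2, Nat.le_of_dvd (by omega) h4⟩, h4⟩

/-- the logarithmic derivative identity -/
theorem n_mul_SA (hm : IsMul lm) (n : ℕ) :
    (n : ℤ) * SA lm n = ∑ m ∈ Icc 1 n, SA lm (n - m) * ST lm m := by
  classical
  have h1 : (n : ℤ) * SA lm n = ∑ P ∈ Irr F n, ∑ k ∈ Icc 1 n, (P.natDegree : ℤ) *
      ∑ h ∈ Mon F n, (if P ^ k ∣ h then lm h else 0) := by
    have h2 : (n : ℤ) * SA lm n = ∑ h ∈ Mon F n, ∑ P ∈ Irr F n, ∑ k ∈ Icc 1 n,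
        (P.natDegree : ℤ) * (if P ^ k ∣ h then lm h else 0) := by
      unfold SA
      rw [mul_sum]
      apply sum_congr rfl
      intro h hh
      rw [← count_dvd hh, sum_mul]
      apply sum_congr rfl
      intro P _
      rw [sum_mul]
      apply sum_congr rfl
      intro k _
      split_ifs <;> simp
    rw [h2, sum_comm]
    apply sum_congr rfl
    intro P _
    rw [sum_comm]
    apply sum_congr rfl
    intro k _
    rw [mul_sum]
  rw [h1]
  have h3 : ∀ P ∈ Irr F n, ∑ k ∈ Icc 1 n, (P.natDegree : ℤ) *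
      ∑ h ∈ Mon F n, (if P ^ k ∣ h then lm h else 0) =
      ∑ k ∈ Icc 1 n, ∑ m ∈ Icc 1 n, SA lm (n - m) *
        (if k * P.natDegree = m then (P.natDegree : ℤ) * lm P ^ k else 0) := by
    intro P hP
    rw [mem_Irr] at hP
    have hd : 1 ≤ P.natDegree := hP.2.1.natDegree_pos
    apply sum_congr rfl
    intro k hk
    rw [mem_Icc] at hk
    rw [sum_pow_dvd hm P hP.1]
    split_ifs with hkn
    · rw [sum_eq_single (k * P.natDegree)]
      · rw [if_pos rfl]; ring
      · intro m _ hm
        rw [if_neg (Ne.symm hm), mul_zero]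
      · intro hk'
        exact absurd (mem_Icc.2 ⟨Nat.mul_pos (by omega) hd, hkn⟩) hk'
    · rw [mul_zero]
      symm
      apply sum_eq_zero
      intro m hm
      rw [mem_Icc] at hm
      rw [if_neg (by omega), mul_zero]
  rw [sum_congr rfl h3]
  have h4 : ∑ m ∈ Icc 1 n, SA lm (n - m) * ST lm m = ∑ m ∈ Icc 1 n, ∑ P ∈ Irr F n, ∑ k ∈ Icc 1 n,
      SA lm (n - m) * (if k * P.natDegree = m then (P.natDegree : ℤ) * lm P ^ k else 0) := by
    apply sum_congr rfl
    intro m hm
    rw [mem_Icc] at hm
    rw [ST_eq n m hm.1 hm.2, mul_sum]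
    apply sum_congr rfl
    intro P _
    rw [mul_sum]
  rw [h4]
  symm
  rw [sum_comm]
  apply sum_congr rfl
  intro P _
  rw [sum_comm]

open Pool.Agent.H82R3.EK (luc) in
/-- the recursion if the `L`-polynomial has degree at most two -/
lemma ST_luc (hmul : IsMul lm) (hhigh : ∀ n, 3 ≤ n → SA lm n = 0) : ∀ n : ℕ,
    ST lm (n + 1) = - luc (- ST lm 1) (SA lm 2) (n + 1)
  | 0 => by simp [luc]
  | 1 => by
    have h1 := n_mul_SA hmul 1
    have h2 := n_mul_SA hmul 2
    rw [Finset.sum_Icc_succ_top (by norm_num), Finset.Icc_self, Finset.sum_singleton] at h2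
    rw [Finset.Icc_self, Finset.sum_singleton] at h1
    norm_num [SA_zero hmul] at h1 h2
    rw [h1] at h2
    simp only [luc]
    linear_combination -h2
  | n + 2 => by
    have h1 := n_mul_SA hmul 1
    rw [Finset.Icc_self, Finset.sum_singleton] at h1
    norm_num [SA_zero hmul] at h1
    have h2 := n_mul_SA hmul (n + 3)
    rw [hhigh _ (by omega), mul_zero] at h2
    have h3 : ∑ m ∈ Icc 1 (n + 3), SA lm (n + 3 - m) * ST lm m =
        SA lm 0 * ST lm (n + 3) + SA lm 1 * ST lm (n + 2) + SA lm 2 * ST lm (n + 1) := by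
      rw [Finset.sum_Icc_succ_top (by omega), Finset.sum_Icc_succ_top (by omega),
        Finset.sum_Icc_succ_top (by omega)]
      have h4 : ∑ m ∈ Icc 1 n, SA lm (n + 3 - m) * ST lm m = 0 := by
        apply Finset.sum_eq_zero
        intro m hm'
        rw [mem_Icc] at hm'
        rw [hhigh _ (by omega), zero_mul]
      rw [h4]
      have e1 : n + 3 - (n + 1) = 2 := by omega
      have e2 : n + 3 - (n + 1 + 1) = 1 := by omega
      have e3 : n + 3 - (n + 2 + 1) = 0 := by omega
      rw [e1, e2, e3]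
      ring
    rw [h3, SA_zero hmul, h1, ST_luc hmul hhigh n, ST_luc hmul hhigh (n + 1)] at h2
    have e : luc (- ST lm 1) (SA lm 2) (n + 3) = (- ST lm 1) * luc (- ST lm 1) (SA lm 2) (n + 2) -
      (SA lm 2) * luc (- ST lm 1) (SA lm 2) (n + 1) := rfl
    show ST lm (n + 3) = - luc (- ST lm 1) (SA lm 2) (n + 3)
    rw [e]
    linear_combination -h2

end Count

section field

variable {F E : Type} [Field F] [Fintype F] [DecidableEq F] [Field E] [Fintype E]
  [Algebra F E]

/-- the sum over the elements of an extension, grouped by the minimal polynomials -/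
theorem ST_eq_sum (lm : F[X] → ℤ) :
    ST lm (Module.finrank F E) = ∑ x : E,
      lm (minpoly F x) ^ (Module.finrank F E / (minpoly F x).natDegree) := by
  classical
  have : FiniteDimensional F E := Module.Finite.of_finite
  set m := Module.finrank F E with hm
  have hm0 : 0 < m := Module.finrank_pos
  unfold ST
  have h1 : ∀ x ∈ (univ : Finset E), minpoly F x ∈ (Irr F m).filter (fun P => P.natDegree ∣ m) := by
    intro x _
    have hx : IsIntegral F x := Algebra.IsIntegral.isIntegral x
    rw [mem_filter, mem_Irr]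
    refine ⟨⟨minpoly.monic hx, minpoly.irreducible hx, Nat.le_of_dvd hm0 (finrank_div x).2⟩,
      (finrank_div x).2⟩
  rw [← sum_fiberwise_of_maps_to h1]
  apply sum_congr rfl
  intro P hP
  rw [mem_filter, mem_Irr] at hP
  obtain ⟨⟨hmon, hirr, _⟩, hdvd⟩ := hP
  have h2 : ∀ x ∈ univ.filter (fun x : E => minpoly F x = P),
      lm (minpoly F x) ^ (m / (minpoly F x).natDegree) = lm P ^ (m / P.natDegree) := by
    intro x hx
    rw [mem_filter] at hx
    rw [hx.2]
  rw [sum_congr rfl h2, sum_const, nsmul_eq_mul]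
  congr 2
  have h3 : univ.filter (fun x : E => minpoly F x = P) = (P.rootSet E).toFinset := by
    ext x
    rw [mem_filter, Set.mem_toFinset, mem_rootSet]
    constructor
    · rintro ⟨_, rfl⟩
      exact ⟨hmon.ne_zero, minpoly.aeval F x⟩
    · rintro ⟨_, h⟩
      exact ⟨mem_univ _, (minpoly.eq_of_irreducible_of_monic hirr h hmon).symm⟩
  have hsplit : (P.map (algebraMap F E)).Splits := by
    have h4 : P ∣ X ^ (Nat.card F) ^ m - X :=
      (hirr.natDegree_dvd_iff_dvd_X_pow_card_pow_sub_X).1 hdvd
    have h5 : (P.map (algebraMap F E)) ∣ (X ^ (Nat.card F) ^ m - X : E[X]) := by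
      have := Polynomial.map_dvd (algebraMap F E) h4
      simpa using this
    have hcard : (Nat.card F) ^ m = Fintype.card E := by
      rw [Nat.card_eq_fintype_card, Module.card_eq_pow_finrank (K := F) (V := E)]
    rw [hcard] at h5
    have h6 : (X ^ Fintype.card E - X : E[X]).Splits := by
      rw [splits_iff_card_roots, FiniteField.roots_X_pow_card_sub_X,
        FiniteField.X_pow_card_sub_X_natDegree_eq _ Fintype.one_lt_card]
      rfl
    exact h6.of_dvd (FiniteField.X_pow_card_sub_X_ne_zero _ Fintype.one_lt_card) h5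
  rw [h3, Set.toFinset_card, card_rootSet_eq_natDegree (PerfectField.separable_of_irreducible hirr)
    hsplit]

end field

end Pool.Agent.P8H4.PL
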