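import Pool.Agent.P8H4.PL.Sel
import Pool.Agent.Y698.SG.Th

/-!
# The algebraic closures of the completions
-/

set_option autoImplicit false

open NumberField IsDedekindDomain

namespace Pool.Agent.P8H4.PL

open Fr (Gq)

section fin

variable {K : Type} [Field K] [NumberField K] {v : HeightOneSpectrum (𝓞 K)} {p : ℕ}
  [hp : Fact p.Prime] (hpv : (p : 𝓞 K) ∈ v.asIdeal)

lemma pth_cont : Continuous (Pool.Agent.Y698.SG.Th.pth hpv) := by
  have h1 : Continuous (UniformSpace.Completion.extensionHom (Pool.Agent.Y698.SG.Th.gth v p)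
      (Pool.Agent.Y698.SG.Th.gth_cont hpv)) := UniformSpace.Completion.continuous_extension
  have h2 : Continuous (Padic.withValRingEquiv (p := p)).symm :=
    (Padic.withValUniformEquiv (p := p)).symm.continuous
  exact h1.comp h2

lemma pth_alg : @Module.Finite ℚ_[p] (v.adicCompletion K) _ _
    (Pool.Agent.Y698.SG.Th.pth hpv).toAlgebra.toModule := by
  let ψ := Pool.Agent.Y698.SG.Th.pth hpv
  let : Algebra ℚ_[p] (v.adicCompletion K) := ψ.toAlgebra
  have : ContinuousSMul ℚ_[p] (v.adicCompletion K) := by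
    refine ⟨?_⟩
    have : (fun x : ℚ_[p] × v.adicCompletion K => x.1 • x.2) = fun x => ψ x.1 * x.2 := by
      funext x
      exact Algebra.smul_def _ _
    rw [this]
    exact ((pth_cont hpv).comp continuous_fst).mul continuous_snd
  let b := Module.finBasis ℚ K
  let W : Submodule ℚ_[p] (v.adicCompletion K) :=
    Submodule.span ℚ_[p] (Set.range fun i => algebraMap K (v.adicCompletion K) (b i))
  have : FiniteDimensional ℚ_[p] W := FiniteDimensional.span_of_finite _ (Set.finite_range _)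
  have hc : IsClosed (W : Set (v.adicCompletion K)) := Submodule.closed_of_finiteDimensional W
  have hK : ∀ x : K, algebraMap K (v.adicCompletion K) x ∈ W := by
    intro x
    rw [← b.sum_repr x, map_sum]
    refine sum_mem fun i _ => ?_
    rw [Algebra.smul_def, map_mul]
    have h : algebraMap K (v.adicCompletion K) (algebraMap ℚ K (b.repr x i)) =
        ψ (algebraMap ℚ ℚ_[p] (b.repr x i)) :=
      DFunLike.congr_fun (Subsingleton.elim
        ((algebraMap K (v.adicCompletion K)).comp (algebraMap ℚ K))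
        (ψ.comp (algebraMap ℚ ℚ_[p]))) _
    rw [h]
    have h2 : ψ (algebraMap ℚ ℚ_[p] (b.repr x i)) * algebraMap K (v.adicCompletion K) (b i) =
        (algebraMap ℚ ℚ_[p] (b.repr x i)) • algebraMap K (v.adicCompletion K) (b i) :=
      (Algebra.smul_def _ _).symm
    rw [h2]
    exact W.smul_mem _ (Submodule.subset_span ⟨i, rfl⟩)
  have ht : W = ⊤ := by
    rw [eq_top_iff]
    intro x _
    have hd := v.denseRange_algebraMap K x
    exact hc.closure_subset_iff.2 (by rintro _ ⟨y, rfl⟩; exact hK y) hd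
  have : Module.Finite ℚ_[p] (⊤ : Submodule ℚ_[p] (v.adicCompletion K)) := by
    rw [← ht]; infer_instance
  exact Module.Finite.equiv (Submodule.topEquiv (R := ℚ_[p]) (M := v.adicCompletion K))

end fin

lemma exists_prime_mem {K : Type} [Field K] [NumberField K] (v : HeightOneSpectrum (𝓞 K)) :
    ∃ p : ℕ, p.Prime ∧ (p : 𝓞 K) ∈ v.asIdeal := by
  have h1 : ((Ideal.absNorm v.asIdeal : ℕ) : 𝓞 K) ∈ v.asIdeal := Ideal.absNorm_mem v.asIdeal
  have h2 : Ideal.absNorm v.asIdeal ≠ 0 := fun h => v.ne_bot (Ideal.absNorm_eq_zero_iff.1 h)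
  have key : ∀ n : ℕ, n ≠ 0 → (n : 𝓞 K) ∈ v.asIdeal → ∃ p : ℕ, p.Prime ∧ (p : 𝓞 K) ∈ v.asIdeal := by
    intro n
    induction n using Nat.recOnMul with
    | zero => intro h; exact absurd rfl h
    | one =>
      intro _ h
      rw [Nat.cast_one] at h
      exact absurd ((Ideal.eq_top_iff_one _).2 h) v.isPrime.ne_top
    | prime p hp => intro _ h; exact ⟨p, hp, h⟩
    | mul a b iha ihb =>
      intro h0 h
      rw [Nat.cast_mul] at h
      rcases v.isPrime.mem_or_mem h with h | h
      · exact iha (fun h1 => h0 (by rw [h1, zero_mul])) h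
      · exact ihb (fun h1 => h0 (by rw [h1, mul_zero])) h
  exact key _ h2 h1

theorem plcK (K : Type) [Field K] [NumberField K] (v : HeightOneSpectrum (𝓞 K)) :
    ∃ (p : ℕ) (_ : Fact p.Prime) (Φ : AlgebraicClosure (v.adicCompletion K) ≃+* PadicAlgCl p),
      ∀ τ : AlgebraicClosure (v.adicCompletion K) ≃ₐ[v.adicCompletion K]
        AlgebraicClosure (v.adicCompletion K), ∃ τ' : Gq p, ∀ x, Φ (τ x) = τ' (Φ x) := by
  obtain ⟨p, hp, hpv⟩ := exists_prime_mem v
  have : Fact p.Prime := ⟨hp⟩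
  refine ⟨p, ⟨hp⟩, ?_⟩
  let ψ := Pool.Agent.Y698.SG.Th.pth hpv
  let i1 : Algebra ℚ_[p] (v.adicCompletion K) := ψ.toAlgebra
  have : Module.Finite ℚ_[p] (v.adicCompletion K) := pth_alg hpv
  have : Algebra.IsAlgebraic ℚ_[p] (v.adicCompletion K) := Algebra.IsAlgebraic.of_finite _ _
  have : Algebra.IsAlgebraic ℚ_[p] (AlgebraicClosure (v.adicCompletion K)) :=
    Algebra.IsAlgebraic.trans ℚ_[p] (v.adicCompletion K) _
  have : IsAlgClosure ℚ_[p] (AlgebraicClosure (v.adicCompletion K)) :=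
    ⟨inferInstance, inferInstance⟩
  let Φ : AlgebraicClosure (v.adicCompletion K) ≃ₐ[ℚ_[p]] PadicAlgCl p :=
    IsAlgClosure.equiv ℚ_[p] _ _
  refine ⟨Φ.toRingEquiv, fun τ => ⟨(Φ.symm.trans (τ.restrictScalars ℚ_[p])).trans Φ, fun x => ?_⟩⟩
  change Φ (τ x) = Φ (τ (Φ.symm (Φ x)))
  rw [AlgEquiv.symm_apply_apply]

section inf

/-- an automorphism of an algebraic closure of the real or complex numbers -/
lemma real_aut {R C : Type} [Field R] [Field C] [Algebra R C] [IsAlgClosure R C]
    (h : Nonempty (R ≃+* ℝ) ∨ Nonempty (R ≃+* ℂ)) :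
    ∃ τ₀ : C ≃ₐ[R] C, τ₀ * τ₀ = 1 ∧ ∀ τ : C ≃ₐ[R] C, τ = 1 ∨ τ = τ₀ := by
  have hC : IsAlgClosed C := IsAlgClosure.isAlgClosed R
  have halg : Algebra.IsAlgebraic R C := IsAlgClosure.isAlgebraic
  rcases h with ⟨⟨e⟩⟩ | ⟨⟨e⟩⟩
  · let i1 : Algebra ℝ R := e.symm.toRingHom.toAlgebra
    let i2 : Algebra ℝ C := ((algebraMap R C).comp e.symm.toRingHom).toAlgebra
    have : IsScalarTower ℝ R C := IsScalarTower.of_algebraMap_eq fun x => rfl
    have h1 : Algebra.IsAlgebraic ℝ R := ⟨fun x => by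
      have : x = algebraMap ℝ R (e x) := (e.symm_apply_apply x).symm
      rw [this]
      exact isAlgebraic_algebraMap _⟩
    have h2 : Algebra.IsAlgebraic ℝ C := Algebra.IsAlgebraic.trans ℝ R C
    have : IsAlgClosure ℝ C := ⟨inferInstance, inferInstance⟩
    have : IsAlgClosure ℝ ℂ := ⟨inferInstance, Algebra.IsAlgebraic.of_finite ℝ ℂ⟩
    let c : C ≃ₐ[ℝ] ℂ := IsAlgClosure.equiv ℝ C ℂ
    have hR : ∀ x : R, algebraMap R C x = algebraMap ℝ C (e x) := by
      intro x
      show _ = algebraMap R C (e.symm (e x))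
      rw [e.symm_apply_apply]
    let τ₀ : C ≃ₐ[R] C := AlgEquiv.ofRingEquiv (f := ((c.trans Complex.conjAe).trans c.symm).toRingEquiv)
      (fun x => by
        rw [hR]
        exact ((c.trans Complex.conjAe).trans c.symm).commutes _)
    have hτ₀ : ∀ x, τ₀ x = c.symm ((starRingEnd ℂ) (c x)) := fun x => rfl
    refine ⟨τ₀, ?_, ?_⟩
    · ext x
      show τ₀ (τ₀ x) = x
      rw [hτ₀, hτ₀, c.apply_symm_apply, Complex.conj_conj, c.symm_apply_apply]
    · intro τ
      let τ' : ℂ ≃ₐ[ℝ] ℂ := (c.symm.trans (τ.restrictScalars ℝ)).trans c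
      have hτ' : ∀ x, τ' (c x) = c (τ x) := by
        intro x
        show c (τ (c.symm (c x))) = _
        rw [c.symm_apply_apply]
      rcases Complex.real_algHom_eq_id_or_conj τ'.toAlgHom with h | h
      · left
        ext x
        apply c.injective
        rw [← hτ']
        exact DFunLike.congr_fun h _
      · right
        ext x
        apply c.injective
        rw [← hτ', hτ₀, c.apply_symm_apply]
        exact DFunLike.congr_fun h _
  · have h1 : IsAlgClosed R := IsAlgClosed.of_ringEquiv ℂ R e.symm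
    refine ⟨1, one_mul _, fun τ => Or.inl ?_⟩
    ext x
    obtain ⟨y, rfl⟩ := (IsAlgClosed.algebraMap_bijective_of_isIntegral (k := R) (K := C)).2 x
    rw [τ.commutes]
    rfl

end inf

end Pool.Agent.P8H4.PL
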