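import Pool.Agent.P8H4.PL.Bas
import Pool.Agent.N890.US.UNR

/-!
# Reduction of the points over an algebraic closure of `ℚ_q` at the primes `q ∤ 6 Δ`
-/

set_option autoImplicit false

open WeierstrassCurve

namespace Pool.Agent.P8H4.PL

open Pool.Agent.Y700 (VR nonsing)
open Pool.Agent.H901R3.MS Pool.Agent.TH942 Pool.Agent.TH954
open Pool.Agent.N890.US.UNR (exists_place norm_int_eq_one norm_int_le norm_equiv)

variable {W : WeierstrassCurve ℤ} {q : ℕ} [Fact q.Prime]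

lemma norm_six (h6 : ¬ q ∣ 6) : ‖(6 : PadicAlgCl q)‖ = 1 := by
  have := norm_int_eq_one (q := q) (n := 6) (by exact_mod_cast h6)
  exact_mod_cast this

omit [Fact q.Prime] in
lemma not_two (h6 : ¬ q ∣ 6) : ¬ q ∣ 2 := fun h => h6 (h.trans (by norm_num))
omit [Fact q.Prime] in
lemma not_three (h6 : ¬ q ∣ 6) : ¬ q ∣ 3 := fun h => h6 (h.trans (by norm_num))

lemma norm_two (h6 : ¬ q ∣ 6) : ‖(2 : PadicAlgCl q)‖ = 1 := by
  have := norm_int_eq_one (q := q) (n := 2) (by exact_mod_cast not_two h6)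
  exact_mod_cast this

lemma norm_three (h6 : ¬ q ∣ 6) : ‖(3 : PadicAlgCl q)‖ = 1 := by
  have := norm_int_eq_one (q := q) (n := 3) (by exact_mod_cast not_three h6)
  exact_mod_cast this

/-- the data of the reduction -/
structure Rd (W : WeierstrassCurve ℤ) (q : ℕ) [Fact q.Prime] where
  /-- the residue field -/
  k : Type
  /-- it is a field -/
  fk : Field k
  /-- the place -/
  v : Place (PadicAlgCl q) k
  memA : ∀ x, x ∈ v.A ↔ ‖x‖ ≤ 1
  r0 : ∀ x, ‖x‖ ≤ 1 → (v.r x = 0 ↔ ‖x‖ < 1)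
  /-- the reduction -/
  red : Pt W (PadicAlgCl q) →+ Pt W k
  red_far : ∀ x y (h : (base W (PadicAlgCl q)).toAffine.Nonsingular x y), 1 < ‖x‖ →
    red (pt h) = 0
  red_near : ∀ x y (h : (base W (PadicAlgCl q)).toAffine.Nonsingular x y), ‖x‖ ≤ 1 →
    ‖y‖ ≤ 1 ∧ ∃ h' : (base W k).toAffine.Nonsingular (v.r x) (v.r y), red (pt h) = pt h'

open scoped Classical in
theorem exists_rd (W : WeierstrassCurve ℤ) (h6 : ¬ q ∣ 6) (hΔ : ¬ (q : ℤ) ∣ W.Δ) :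
    Nonempty (Rd W q) := by
  obtain ⟨k, fk, v, hA, hr⟩ := exists_place (PadicAlgCl q)
  have hrr : ∀ x : PadicAlgCl q, ‖x‖ ≤ 1 → (v.r x = 0 ↔ ‖x‖ < 1) := fun x hx => by
    rw [v.r_of ((hA x).2 hx)]; exact hr x _
  have hun : ∀ n : ℤ, ¬ (q : ℤ) ∣ n → (n : k) ≠ 0 := by
    intro n hn h
    rw [← v.r_int n] at h
    have h1 := (hrr _ (norm_int_le n)).1 h
    rw [norm_int_eq_one hn] at h1
    exact lt_irrefl _ h1
  have h6Q : (6 : PadicAlgCl q) ≠ 0 := by norm_num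
  have h6k : (6 : k) ≠ 0 := by
    have := hun 6 (by exact_mod_cast h6)
    exact_mod_cast this
  have hΔ0 : W.Δ ≠ 0 := fun h => hΔ (by rw [h]; exact dvd_zero _)
  have hΔQ : (W.Δ : PadicAlgCl q) ≠ 0 := Int.cast_ne_zero.2 hΔ0
  have hΔk : (W.Δ : k) ≠ 0 := hun _ hΔ
  have ha : v.r (sa W (PadicAlgCl q)) = sa W k := v.r_int _
  have hb : v.r (sb W (PadicAlgCl q)) = sb W k := v.r_int _
  have haA : sa W (PadicAlgCl q) ∈ v.A := v.int_mem _
  have hbA : sb W (PadicAlgCl q) ∈ v.A := v.int_mem _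
  have hD : Disc (v.r (sa W (PadicAlgCl q))) (v.r (sb W (PadicAlgCl q))) := by
    rw [ha, hb]
    exact disc h6k hΔk
  obtain ⟨red0, -, h1, h2⟩ := t_R6K t_R1K t_R2K t_R3K t_R4K t_R5K (PadicAlgCl q) k v _ _ haA hbA hD
  have key : ∀ a' b' : k, v.r (sa W (PadicAlgCl q)) = a' → v.r (sb W (PadicAlgCl q)) = b' →
      ∃ red1 : (CV (sa W (PadicAlgCl q)) (sb W (PadicAlgCl q))).toAffine.Point →+
        (CV a' b').toAffine.Point,
      (∀ x y (h : (CV (sa W (PadicAlgCl q)) (sb W (PadicAlgCl q))).toAffine.Nonsingular x y),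
        x ∉ v.A → red1 (Affine.Point.some x y h) = Affine.Point.zero) ∧
      (∀ x y (h : (CV (sa W (PadicAlgCl q)) (sb W (PadicAlgCl q))).toAffine.Nonsingular x y),
        x ∈ v.A → y ∈ v.A ∧ ∃ g : (CV a' b').toAffine.Nonsingular (v.r x) (v.r y),
          red1 (Affine.Point.some x y h) = Affine.Point.some _ _ g) := by
    rintro _ _ rfl rfl
    exact ⟨red0, h1, h2⟩
  obtain ⟨red1, k1, k2⟩ := key _ _ ha hb
  have e6 : v.r (6 : PadicAlgCl q) = 6 := by exact_mod_cast v.r_int 6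
  have e2 : v.r (2 : PadicAlgCl q) = 2 := v.r_two
  have e12 : v.r (12 : PadicAlgCl q) = 12 := by exact_mod_cast v.r_int 12
  have e24 : v.r (24 : PadicAlgCl q) = 24 := by exact_mod_cast v.r_int 24
  have hk2 : (2 : k) ≠ 0 := two_ne h6k
  have hk3 : (3 : k) ≠ 0 := three_ne h6k
  have hk12 : (12 : k) ≠ 0 := by
    have : (12 : k) = 2 * 2 * 3 := by norm_num
    rw [this]
    exact mul_ne_zero (mul_ne_zero hk2 hk2) hk3
  have hk24 : (24 : k) ≠ 0 := by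
    have : (24 : k) = 2 * 2 * 2 * 3 := by norm_num
    rw [this]
    exact mul_ne_zero (mul_ne_zero (mul_ne_zero hk2 hk2) hk2) hk3
  have i6 : (1 / 6 : PadicAlgCl q) ∈ v.A ∧ v.r (1 / 6 : PadicAlgCl q) = 1 / 6 := by
    have h : v.r (6 : PadicAlgCl q) ≠ 0 := by rw [e6]; exact h6k
    exact ⟨v.div_mem v.A.one_mem h, by rw [v.r_div v.A.one_mem h, e6, v.r_one]⟩
  have ib : (-(W.b₂ : PadicAlgCl q) / 12) ∈ v.A ∧
      v.r (-(W.b₂ : PadicAlgCl q) / 12) = -(W.b₂ : k) / 12 := by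
    have h : v.r (12 : PadicAlgCl q) ≠ 0 := by rw [e12]; exact hk12
    have hm := v.A.neg_mem (v.int_mem W.b₂)
    exact ⟨v.div_mem hm h, by rw [v.r_div hm h, e12, v.r_neg (v.int_mem _), v.r_int]⟩
  have ia : (-(W.a₁ : PadicAlgCl q) / 2) ∈ v.A ∧
      v.r (-(W.a₁ : PadicAlgCl q) / 2) = -(W.a₁ : k) / 2 := by
    have h : v.r (2 : PadicAlgCl q) ≠ 0 := by rw [e2]; exact hk2
    have hm := v.A.neg_mem (v.int_mem W.a₁)
    exact ⟨v.div_mem hm h, by rw [v.r_div hm h, e2, v.r_neg (v.int_mem _), v.r_int]⟩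
  have it : ((W.a₁ : PadicAlgCl q) * W.b₂ / 24 - (W.a₃ : PadicAlgCl q) / 2) ∈ v.A ∧
      v.r ((W.a₁ : PadicAlgCl q) * W.b₂ / 24 - (W.a₃ : PadicAlgCl q) / 2) =
        (W.a₁ : k) * W.b₂ / 24 - (W.a₃ : k) / 2 := by
    have h : v.r (2 : PadicAlgCl q) ≠ 0 := by rw [e2]; exact hk2
    have h' : v.r (24 : PadicAlgCl q) ≠ 0 := by rw [e24]; exact hk24
    have hm := v.A.mul_mem (v.int_mem W.a₁) (v.int_mem W.b₂)
    have h3 := v.div_mem hm h'
    have h4 := v.div_mem (v.int_mem W.a₃) h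
    exact ⟨v.A.sub_mem h3 h4, by
      rw [v.r_sub h3 h4, v.r_div hm h', v.r_div (v.int_mem W.a₃) h, v.r_mul (v.int_mem W.a₁)
        (v.int_mem W.b₂), v.r_int, v.r_int, v.r_int, e24, e2]⟩
  have hX : ∀ x : PadicAlgCl q, x ∈ v.A → ((1 / 6) ^ 2 * x + -(W.b₂ : PadicAlgCl q) / 12) ∈ v.A ∧
      v.r ((1 / 6) ^ 2 * x + -(W.b₂ : PadicAlgCl q) / 12) =
        (1 / 6) ^ 2 * v.r x + -(W.b₂ : k) / 12 := by
    intro x hx
    have h1 := v.A.pow_mem i6.1 2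
    have h2 := v.A.mul_mem h1 hx
    exact ⟨v.A.add_mem h2 ib.1, by rw [v.r_add h2 ib.1, v.r_mul h1 hx, v.r_pow i6.1, i6.2, ib.2]⟩
  have hX' : ∀ x : PadicAlgCl q, ((1 / 6) ^ 2 * x + -(W.b₂ : PadicAlgCl q) / 12) ∈ v.A →
      x ∈ v.A := by
    intro x hx
    have h1 := v.A.sub_mem hx ib.1
    have h36 : (6 : PadicAlgCl q) ^ 2 ∈ v.A := v.A.pow_mem (by exact_mod_cast v.int_mem 6) 2
    have h2 := v.A.mul_mem h36 h1
    have e : (6 : PadicAlgCl q) ^ 2 * ((1 / 6) ^ 2 * x + -(W.b₂ : PadicAlgCl q) / 12 -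
        -(W.b₂ : PadicAlgCl q) / 12) = x := by
      field_simp
      ring
    rwa [e] at h2
  have hY : ∀ x y : PadicAlgCl q, x ∈ v.A → y ∈ v.A →
      ((1 / 6) ^ 3 * y + (1 / 6) ^ 2 * (-(W.a₁ : PadicAlgCl q) / 2) * x +
        ((W.a₁ : PadicAlgCl q) * W.b₂ / 24 - (W.a₃ : PadicAlgCl q) / 2)) ∈ v.A ∧
      v.r ((1 / 6) ^ 3 * y + (1 / 6) ^ 2 * (-(W.a₁ : PadicAlgCl q) / 2) * x +
        ((W.a₁ : PadicAlgCl q) * W.b₂ / 24 - (W.a₃ : PadicAlgCl q) / 2)) =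
        (1 / 6) ^ 3 * v.r y + (1 / 6) ^ 2 * (-(W.a₁ : k) / 2) * v.r x +
        ((W.a₁ : k) * W.b₂ / 24 - (W.a₃ : k) / 2) := by
    intro x y hx hy
    have h1 := v.A.pow_mem i6.1 3
    have h2 := v.A.mul_mem h1 hy
    have h3 := v.A.mul_mem (v.A.pow_mem i6.1 2) ia.1
    have h4 := v.A.mul_mem h3 hx
    exact ⟨v.A.add_mem (v.A.add_mem h2 h4) it.1, by
      rw [v.r_add (v.A.add_mem h2 h4) it.1, v.r_add h2 h4, v.r_mul h1 hy, v.r_mul h3 hx,
        v.r_mul (v.A.pow_mem i6.1 2) ia.1, v.r_pow i6.1, v.r_pow i6.1, i6.2, ia.2, it.2]⟩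
  let EQ := eqv (W := W) h6Q hΔQ
  let EK := eqv (W := W) (F := k) h6k hΔk
  let red : Pt W (PadicAlgCl q) →+ Pt W k :=
    (EK : _ →+ _).comp (red1.comp (EQ.symm : _ →+ _))
  have hcase := fun X Y => eqv_symm_pt (W := W) h6Q hΔQ (X := X) (Y := Y)
  refine ⟨⟨k, fk, v, hA, hrr, red, ?_, ?_⟩⟩
  · intro X Y H hX1
    obtain ⟨x, y, h, e, eX, eY⟩ := hcase X Y H
    have h0 : red1 (Affine.Point.some x y h) = Affine.Point.zero → red (pt H) = 0 := fun h0 =>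
      (congrArg (fun z => EK (red1 z)) e).trans ((congrArg EK h0).trans (map_zero EK))
    apply h0
    apply k1 x y h
    intro hx
    have h3 := (hX x hx).1
    rw [← eX, hA] at h3
    linarith
  · intro X Y H hX1
    obtain ⟨x, y, h, e, eX, eY⟩ := hcase X Y H
    have hxA : x ∈ v.A := by
      apply hX'
      rw [← eX, hA]
      exact hX1
    obtain ⟨hyA, g, e3⟩ := k2 x y h hxA
    obtain ⟨f1, f2⟩ := hY x y hxA hyA
    refine ⟨?_, ?_⟩
    · rw [← hA, eY]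
      exact f1
    · have h5 := (congrArg (fun z => EK (red1 z)) e).trans ((congrArg EK e3).trans
        (eqv_some (W := W) (F := k) h6k hΔk g))
      have hxx : v.r X = (1 / 6) ^ 2 * v.r x + -(W.b₂ : k) / 12 := by rw [eX]; exact (hX x hxA).2
      have hyy : v.r Y = (1 / 6) ^ 3 * v.r y + (1 / 6) ^ 2 * (-(W.a₁ : k) / 2) * v.r x +
          ((W.a₁ : k) * W.b₂ / 24 - (W.a₃ : k) / 2) := by rw [eY]; exact f2
      refine ⟨?_, ?_⟩
      · rw [hxx, hyy]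
        exact nonsing ((vr W h6k).delta_ne (short_delta h6k hΔk)) ((vr W h6k).eqn.2 g.1)
      · exact h5.trans (pt_congr _ _ hxx.symm hyy.symm)

end Pool.Agent.P8H4.PL
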