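import Pool.Agent.P8H4.PL.Red
import Pool.Agent.P8H4.PL.Frob
import Pool.Agent.N890.US.NTOR

/-!
# Properties of the reduction
-/

set_option autoImplicit false

open WeierstrassCurve

namespace Pool.Agent.P8H4.PL

open Pool.Agent.H901R3.MS Pool.Agent.TH942 Pool.Agent.TH954
open Pool.Agent.N890.US.UNR (norm_int_eq_one norm_int_le)
open Fr (Gq norm_eqv frob)

variable {W : WeierstrassCurve ℤ} {q : ℕ} [Fact q.Prime]

/-- the action of the Galois group of `ℚ_q` on the points -/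
noncomputable def Tq (W : WeierstrassCurve ℤ) (τ : Gq q) : Pt W (PadicAlgCl q) →+ Pt W (PadicAlgCl q) :=
  mp (τ : PadicAlgCl q →+* PadicAlgCl q)

lemma Tq_one (P : Pt W (PadicAlgCl q)) : Tq W 1 P = P := by
  rcases P with _ | ⟨x, y, h⟩
  · rfl
  · rfl

lemma Tq_mul (σ τ : Gq q) (P : Pt W (PadicAlgCl q)) : Tq W (σ * τ) P = Tq W σ (Tq W τ P) := by
  rcases P with _ | ⟨x, y, h⟩
  · rfl
  · rfl

lemma Tq_pt (τ : Gq q) {x y : PadicAlgCl q}
    (h : (base W (PadicAlgCl q)).toAffine.Nonsingular x y) :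
    Tq W τ (pt h) = pt (ns_map (τ : PadicAlgCl q →+* PadicAlgCl q) h) := rfl

namespace Rd

attribute [instance] Rd.fk

lemma red_eq_zero (R : Rd W q) (P : Pt W (PadicAlgCl q)) :
    R.red P = 0 ↔ ∀ x y (h : (base W (PadicAlgCl q)).toAffine.Nonsingular x y),
      P = pt h → 1 < ‖x‖ := by
  constructor
  · rintro h x y hxy rfl
    by_contra hx
    rw [not_lt] at hx
    obtain ⟨-, h', e⟩ := R.red_near x y hxy hx
    rw [e] at h
    exact pt_ne h' h
  · intro h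
    rcases pt_cases P with rfl | ⟨x, y, hxy, rfl⟩
    · exact map_zero _
    · exact R.red_far x y hxy (h x y hxy rfl)

lemma hinv (R : Rd W q) (τ : Gq q) (P : Pt W (PadicAlgCl q)) (h : R.red P = 0) :
    R.red (Tq W τ P) = 0 := by
  rw [red_eq_zero] at h ⊢
  rcases pt_cases P with rfl | ⟨x, y, hxy, rfl⟩
  · intro x y hxy e
    rw [map_zero] at e
    exact absurd e.symm (pt_ne hxy)
  · intro x' y' h' e
    have h1 := h x y hxy rfl
    rw [Tq_pt] at e
    obtain ⟨e1, -⟩ := pt_inj e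
    rw [← e1]
    exact h1.trans_eq (norm_eqv τ x).symm

/-- torsion prime to the residue characteristic is integral -/
lemma tor_int (h6 : ¬ q ∣ 6) (hΔ : ¬ (q : ℤ) ∣ W.Δ) {p : ℕ} (hp : p.Prime) (hp2 : 2 < p)
    (hpq : ¬ q ∣ p) {x y : PadicAlgCl q} (h : (base W (PadicAlgCl q)).toAffine.Nonsingular x y)
    (hT : p • pt h = 0) : ‖x‖ ≤ 1 := by
  classical
  have h6Q : (6 : PadicAlgCl q) ≠ 0 := by norm_num
  have hΔ0 : W.Δ ≠ 0 := fun h => hΔ (by rw [h]; exact dvd_zero _)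
  have hΔQ : (W.Δ : PadicAlgCl q) ≠ 0 := Int.cast_ne_zero.2 hΔ0
  have hsi : SI (L := PadicAlgCl q) (CV (sa W (PadicAlgCl q)) (sb W (PadicAlgCl q))) :=
    { h1 := rfl, h2 := rfl, h3 := rfl, ha := norm_int_le _, hb := norm_int_le _ }
  obtain ⟨x', y', h', e, e1, -⟩ := eqv_symm_pt (W := W) h6Q hΔQ h
  have h5 : p • (Affine.Point.some x' y' h' :
      (CV (sa W (PadicAlgCl q)) (sb W (PadicAlgCl q))).toAffine.Point) = 0 := by
    rw [← e, ← map_nsmul, hT, map_zero]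
  have hnp : ‖(p : PadicAlgCl q)‖ = 1 := by
    have := norm_int_eq_one (q := q) (n := (p : ℤ)) (by exact_mod_cast hpq)
    exact_mod_cast this
  have h6' := Pool.Agent.N890.US.NTOR.t_NTOR (PadicAlgCl q) _ hsi (norm_two h6) p hp hp2 hnp x' y' h' h5
  rw [e1]
  have hn12 : ‖(12 : PadicAlgCl q)‖ = 1 := by
    have : (12 : PadicAlgCl q) = 2 * 2 * 3 := by norm_num
    rw [this, norm_mul, norm_mul, norm_two h6, norm_three h6]; norm_num
  refine (IsUltrametricDist.norm_add_le_max _ _).trans (max_le ?_ ?_)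
  · rw [norm_mul, norm_pow, norm_div, norm_one, norm_six h6]
    simpa using h6'
  · rw [norm_div, norm_neg, hn12, div_one]
    exact norm_int_le _

lemma hinj (R : Rd W q) (h6 : ¬ q ∣ 6) (hΔ : ¬ (q : ℤ) ∣ W.Δ) {p : ℕ} (hp : p.Prime) (hp2 : 2 < p)
    (hpq : ¬ q ∣ p) (n : ℕ) (P : Pt W (PadicAlgCl q)) (hT : p ^ n • P = 0)
    (h : R.red P = 0) : P = 0 := by
  induction n generalizing P with
  | zero => rw [pow_zero, one_smul] at hT; exact hT
  | succ n ih =>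
    rw [pow_succ, mul_smul] at hT
    have h1 : p • P = 0 := ih (p • P) hT (by rw [map_nsmul, h, smul_zero])
    rcases pt_cases P with rfl | ⟨x, y, hxy, rfl⟩
    · rfl
    · exfalso
      have h2 := tor_int h6 hΔ hp hp2 hpq hxy h1
      have h3 := (R.red_eq_zero _).1 h x y hxy rfl
      linarith

lemma r_congr (R : Rd W q) {x y : PadicAlgCl q} (hx : ‖x‖ ≤ 1) (hy : ‖y‖ ≤ 1) (h : ‖x - y‖ < 1) :
    R.v.r x = R.v.r y := by
  rw [← sub_eq_zero, ← R.v.r_sub ((R.memA _).2 hx) ((R.memA _).2 hy)]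
  exact (R.r0 _ h.le).2 h

lemma r_congr' (R : Rd W q) {x y : PadicAlgCl q} (hx : ‖x‖ ≤ 1) (hy : ‖y‖ ≤ 1)
    (h : R.v.r x = R.v.r y) : ‖x - y‖ < 1 := by
  have h1 : ‖x - y‖ ≤ 1 := by
    have := IsUltrametricDist.norm_add_le_max x (-y)
    rw [norm_neg, ← sub_eq_add_neg] at this
    exact this.trans (max_le hx hy)
  rw [← R.r0 _ h1, R.v.r_sub ((R.memA _).2 hx) ((R.memA _).2 hy), h, sub_self]

/-- points with congruent coordinates have the same reduction -/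
lemma red_congr (R : Rd W q) {x y x' y' : PadicAlgCl q}
    (h : (base W (PadicAlgCl q)).toAffine.Nonsingular x y)
    (h' : (base W (PadicAlgCl q)).toAffine.Nonsingular x' y') (hx : ‖x‖ ≤ 1) (hx' : ‖x'‖ ≤ 1)
    (hxx : ‖x - x'‖ < 1) (hyy : ‖y - y'‖ < 1) : R.red (pt h) = R.red (pt h') := by
  obtain ⟨hy, g, e⟩ := R.red_near x y h hx
  obtain ⟨hy', g', e'⟩ := R.red_near x' y' h' hx'
  rw [e, e']
  exact pt_congr _ _ (R.r_congr hx hx' hxx) (R.r_congr hy hy' hyy)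

/-- the coordinate of a point -/
noncomputable def cx : Pt W (PadicAlgCl q) → PadicAlgCl q
  | Affine.Point.zero => 0
  | Affine.Point.some x _ _ => x

/-- the coordinate of a point -/
noncomputable def cy : Pt W (PadicAlgCl q) → PadicAlgCl q
  | Affine.Point.zero => 0
  | Affine.Point.some _ y _ => y

/-- Frobenius elements for points -/
theorem frobP (R : Rd W q) (D : Subgroup (Gq q)) (X : Finset (Pt W (PadicAlgCl q)))
    (S : Finset (PadicAlgCl q)) (hS : ∀ x ∈ S, ‖x‖ ≤ 1) :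
    ∃ φ ∈ D, ∀ τ ∈ D, ∃ n : ℕ, (∀ P ∈ X, R.red (Tq W τ P) = R.red (Tq W (φ ^ n) P)) ∧
      ∀ x ∈ S, ‖τ x - (φ ^ n) x‖ < 1 := by
  classical
  set S' : Finset (PadicAlgCl q) := S ∪ ((X.image cx ∪ X.image cy).filter (fun x => ‖x‖ ≤ 1)) with hS'
  obtain ⟨φ, hφ, h1⟩ := frob D S' (by
    intro x hx
    rw [hS', Finset.mem_union, Finset.mem_filter] at hx
    rcases hx with hx | hx
    · exact hS x hx
    · exact hx.2)
  refine ⟨φ, hφ, fun τ hτ => ?_⟩
  obtain ⟨n, hn⟩ := h1 τ hτ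
  refine ⟨n, fun P hP => ?_, fun x hx => hn x (by rw [hS', Finset.mem_union]; exact Or.inl hx)⟩
  rcases pt_cases P with rfl | ⟨x, y, h, rfl⟩
  · rw [map_zero (Tq W τ), map_zero (Tq W (φ ^ n))]
  · by_cases hx : ‖x‖ ≤ 1
    · have hy : ‖y‖ ≤ 1 := (R.red_near x y h hx).1
      have hxS : x ∈ S' := by
        rw [hS', Finset.mem_union, Finset.mem_filter, Finset.mem_union]
        exact Or.inr ⟨Or.inl (Finset.mem_image.2 ⟨_, hP, rfl⟩), hx⟩
      have hyS : y ∈ S' := by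
        rw [hS', Finset.mem_union, Finset.mem_filter, Finset.mem_union]
        exact Or.inr ⟨Or.inr (Finset.mem_image.2 ⟨_, hP, rfl⟩), hy⟩
      rw [Tq_pt, Tq_pt]
      exact R.red_congr _ _ ((norm_eqv τ x).trans_le hx) ((norm_eqv (φ ^ n) x).trans_le hx)
        (hn x hxS) (hn y hyS)
    · rw [not_le] at hx
      rw [Tq_pt, Tq_pt]
      exact (R.red_far _ _ _ (hx.trans_eq (norm_eqv τ x).symm)).trans
        (R.red_far _ _ _ (hx.trans_eq (norm_eqv (φ ^ n) x).symm)).symm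

end Rd

end Pool.Agent.P8H4.PL
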