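import Pool.Agent.P8H4.PL.Mon
import Pool.Agent.P8H4.PL.Cnt

/-!
# The number of the points over the finite fields of characteristic two
-/

set_option autoImplicit false

namespace Pool.Agent.P8H4.PL

open Polynomial Finset IntermediateField
open Pool.Agent.H341R2.Sharp (Mon mem_Mon Irr mem_Irr count_dvd Mon_zero finrank_div)
open Pool.Agent.H82R3.EK (luc sum_Mon_two)

section func

variable {R : Type} [CommRing R]

/-- the sum of the cubes of the roots in characteristic two -/
noncomputable def p3 (h : R[X]) : R := h.reverse.coeff 1 ^ 3 + h.reverse.coeff 1 * h.reverse.coeff 2 +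
  h.reverse.coeff 3

/-- the sum of the roots -/
noncomputable def p1 (h : R[X]) : R := h.reverse.coeff 1

lemma rev_coeff_mul [IsDomain R] {g h : R[X]} (hg : g.Monic) (hh : h.Monic) :
    (g * h).reverse.coeff 1 = g.reverse.coeff 1 + h.reverse.coeff 1 ∧
    (g * h).reverse.coeff 2 = g.reverse.coeff 2 + g.reverse.coeff 1 * h.reverse.coeff 1 +
      h.reverse.coeff 2 ∧
    (g * h).reverse.coeff 3 = g.reverse.coeff 3 + g.reverse.coeff 2 * h.reverse.coeff 1 +
      g.reverse.coeff 1 * h.reverse.coeff 2 + h.reverse.coeff 3 := by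
  have e0 : g.reverse.coeff 0 = 1 := by rw [coeff_zero_reverse]; exact hg
  have e1 : h.reverse.coeff 0 = 1 := by rw [coeff_zero_reverse]; exact hh
  rw [reverse_mul_of_domain]
  refine ⟨?_, ?_, ?_⟩
  · rw [coeff_mul, Finset.Nat.sum_antidiagonal_eq_sum_range_succ_mk]
    simp only [Finset.sum_range_succ, Finset.sum_range_zero, e0, e1]
    norm_num [e0, e1]
    ring
  · rw [coeff_mul, Finset.Nat.sum_antidiagonal_eq_sum_range_succ_mk]
    simp only [Finset.sum_range_succ, Finset.sum_range_zero, e0, e1]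
    norm_num [e0, e1]
    ring
  · rw [coeff_mul, Finset.Nat.sum_antidiagonal_eq_sum_range_succ_mk]
    simp only [Finset.sum_range_succ, Finset.sum_range_zero, e0, e1]
    norm_num [e0, e1]
    ring

lemma p3_mul [IsDomain R] (h2 : (2 : R) = 0) {g h : R[X]} (hg : g.Monic) (hh : h.Monic) :
    p3 (g * h) = p3 g + p3 h := by
  obtain ⟨e1, e2, e3⟩ := rev_coeff_mul hg hh
  unfold p3
  rw [e1, e2, e3]
  linear_combination (2 * g.reverse.coeff 1 ^ 2 * h.reverse.coeff 1 +
    2 * g.reverse.coeff 1 * h.reverse.coeff 1 ^ 2 + g.reverse.coeff 1 * h.reverse.coeff 2 +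
    h.reverse.coeff 1 * g.reverse.coeff 2) * h2

lemma p1_mul [IsDomain R] {g h : R[X]} (hg : g.Monic) (hh : h.Monic) :
    p1 (g * h) = p1 g + p1 h := (rev_coeff_mul hg hh).1

lemma rev_X_sub [Nontrivial R] (α : R) : (X - C α : R[X]).reverse.coeff 1 = -α ∧
    (X - C α : R[X]).reverse.coeff 2 = 0 ∧ (X - C α : R[X]).reverse.coeff 3 = 0 := by
  refine ⟨?_, ?_, ?_⟩
  · rw [coeff_reverse, natDegree_X_sub_C, revAt_le le_rfl]
    simp
  · rw [coeff_reverse, natDegree_X_sub_C, revAt_eq_self_of_lt (by norm_num)]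
    simp [coeff_X]
  · rw [coeff_reverse, natDegree_X_sub_C, revAt_eq_self_of_lt (by norm_num)]
    simp [coeff_X]

lemma p3_X_sub [Nontrivial R] (h2 : (2 : R) = 0) (α : R) : p3 (X - C α : R[X]) = α ^ 3 := by
  obtain ⟨e1, e2, e3⟩ := rev_X_sub α
  unfold p3
  rw [e1, e2, e3]
  linear_combination -α ^ 3 * h2

lemma p1_X_sub [Nontrivial R] (h2 : (2 : R) = 0) (α : R) : p1 (X - C α : R[X]) = α := by
  obtain ⟨e1, e2, e3⟩ := rev_X_sub α
  unfold p1
  rw [e1]
  linear_combination -α * h2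

lemma rev_map {S : Type} [CommRing S] (φ : R →+* S) (hφ : Function.Injective φ) (h : R[X]) (n : ℕ) :
    (h.map φ).reverse.coeff n = φ (h.reverse.coeff n) := by
  rw [coeff_reverse, coeff_reverse, natDegree_map_eq_of_injective hφ, coeff_map]

end func

section func2

variable {R : Type} [Field R]

/-- the sum of the inverses of the roots -/
noncomputable def pm1 (h : R[X]) : R := h.coeff 1 / h.coeff 0

lemma pm1_mul {g h : R[X]} (hg : g.coeff 0 ≠ 0) (hh : h.coeff 0 ≠ 0) :
    pm1 (g * h) = pm1 g + pm1 h := by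
  unfold pm1
  rw [mul_coeff_zero, mul_coeff_one]
  field_simp
  ring

lemma pm1_X_sub (h2 : (2 : R) = 0) {α : R} (hα : α ≠ 0) : pm1 (X - C α : R[X]) = α⁻¹ := by
  unfold pm1
  simp only [coeff_sub, coeff_X_one, coeff_C_zero, coeff_X_zero, zero_sub]
  rw [coeff_C, if_neg one_ne_zero, sub_zero]
  field_simp
  linear_combination -h2

/-- additive functions of the roots -/
lemma sum_roots (P : Multiset R) (Λ : R[X] → R) (G : R → R) (Q : R[X] → Prop) (h1 : Λ 1 = 0)
    (hQ : Q 1) (hadd : ∀ g, ∀ α ∈ P, Q g →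
      Q ((X - C α) * g) ∧ Λ ((X - C α) * g) = G α + Λ g) :
    Λ ((P.map (fun β => X - C β)).prod) = (P.map G).sum := by
  have key : ∀ s : Multiset R, s ≤ P → Q ((s.map (fun β => X - C β)).prod) ∧
      Λ ((s.map (fun β => X - C β)).prod) = (s.map G).sum := by
    intro s
    induction s using Multiset.induction_on with
    | empty => intro _; simp [h1, hQ]
    | cons a s ih =>
      intro hs
      have hs' : s ≤ P := (Multiset.le_cons_self s a).trans hs
      obtain ⟨h2, h3⟩ := ih hs'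
      rw [Multiset.map_cons, Multiset.prod_cons, Multiset.map_cons, Multiset.sum_cons, ← h3]
      exact hadd _ a (Multiset.mem_of_le hs (Multiset.mem_cons_self _ _)) h2
  exact (key P le_rfl).2

end func2

section trace

variable {F E Ω : Type} [Field F] [Field E] [Algebra F E] [FiniteDimensional F E]
  [Algebra.IsSeparable F E] [Field Ω] [IsAlgClosed Ω] [Algebra F Ω]

lemma trace_gen (x : E) (y : F⟮x⟯) (G : Ω → Ω)
    (hG : ∀ σ : F⟮x⟯ →ₐ[F] Ω, σ y = G (σ (AdjoinSimple.gen F x))) :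
    algebraMap F Ω (Algebra.trace F E (y : E)) =
      (Module.finrank F E / (minpoly F x).natDegree) • (((minpoly F x).aroots Ω).map G).sum := by
  classical
  set P := minpoly F x with hP
  have hx : IsIntegral F x := Algebra.IsIntegral.isIntegral x
  have : Algebra.IsSeparable F F⟮x⟯ := Algebra.isSeparable_tower_bot_of_isSeparable F F⟮x⟯ E
  have hsep : P.Separable := Algebra.IsSeparable.isSeparable F x
  have e1 : Algebra.trace F E (y : E) =
      (Module.finrank F E / P.natDegree) • Algebra.trace F F⟮x⟯ y := by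
    rw [← Algebra.trace_trace (S := F⟮x⟯)]
    have h1 : Algebra.trace F⟮x⟯ E (y : E) = Module.finrank F⟮x⟯ E • y :=
      Algebra.trace_algebraMap y
    rw [h1, map_nsmul, (finrank_div x).1]
  rw [e1, map_nsmul, trace_eq_sum_embeddings Ω]
  congr 1
  have h3 : ∑ σ : F⟮x⟯ →ₐ[F] Ω, σ y =
      ∑ a : { a // a ∈ P.aroots Ω }, G (a : Ω) := by
    refine Fintype.sum_equiv (algHomAdjoinIntegralEquiv F hx) _ _ ?_
    intro σ
    rw [hG σ]
    congr 1
  rw [h3, Finset.sum_mem_multiset (P.aroots Ω) (fun a => G (a : Ω)) G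
    (fun _ => rfl), Finset.sum_eq_multiset_sum, Multiset.toFinset_val,
    Multiset.dedup_eq_self.mpr (nodup_roots hsep.map)]

end trace

section sign

/-- the sign -/
def sg (a : ZMod 2) : ℤ := if a = 0 then 1 else -1

lemma sg_add (a b : ZMod 2) : sg (a + b) = sg a * sg b := by revert a b; decide

lemma sg_nsmul (n : ℕ) (a : ZMod 2) : sg (n • a) = sg a ^ n := by
  induction n with
  | zero => simp [sg]
  | succ n ih => rw [succ_nsmul, sg_add, ih, pow_succ]

lemma sg_sq (a : ZMod 2) : sg a ^ 2 = 1 := by revert a; decide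

lemma luc_tw (t u ε : ℤ) (hε : ε ^ 2 = 1) : ∀ n : ℕ, luc (ε * t) u n = ε ^ n * luc t u n
  | 0 => by simp [luc]
  | 1 => by simp [luc]
  | n + 2 => by
    rw [luc, luc, luc_tw t u ε hε (n + 1), luc_tw t u ε hε n]
    linear_combination (u * ε ^ n * luc t u n) * hε

variable {k : Type} [Field k] [Fintype k] [DecidableEq k] [Algebra (ZMod 2) k]

omit [DecidableEq k] in
lemma tr_sq (z : k) : Algebra.trace (ZMod 2) k (z ^ 2) = Algebra.trace (ZMod 2) k z := by
  have h := Algebra.trace_eq_of_algEquiv (FiniteField.frobeniusAlgEquivOfAlgebraic (ZMod 2) k) z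
  rw [← h]
  congr 1

/-- the number of the solutions of the equation of Artin and Schreier -/
lemma as_card (c : k) : (((univ : Finset k).filter (fun z => z ^ 2 + z = c)).card : ℤ) =
    1 + sg (Algebra.trace (ZMod 2) k c) := by
  have h2 : (2 : k) = 0 := by
    have := congrArg (algebraMap (ZMod 2) k) (show (2 : ZMod 2) = 0 by decide)
    rwa [map_ofNat, map_zero] at this
  have hfd : FiniteDimensional (ZMod 2) k := Module.Finite.of_finite
  set N : k → ℕ := fun t => ((Finset.univ : Finset k).filter (fun z => z ^ 2 + z = t)).card with hN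
  have hsum : ∑ t, N t = Fintype.card k := by
    rw [← Finset.card_univ]
    exact (Finset.card_eq_sum_card_fiberwise (f := fun z : k => z ^ 2 + z)
      (s := Finset.univ) (t := Finset.univ) (fun _ _ => Finset.mem_univ _)).symm
  have hN2 : ∀ t, N t ≤ 2 := by
    intro t
    rcases ((Finset.univ : Finset k).filter (fun z => z ^ 2 + z = t)).eq_empty_or_nonempty with
      h | ⟨z0, hz0⟩
    · show ((Finset.univ : Finset k).filter (fun z => z ^ 2 + z = t)).card ≤ 2
      rw [h, Finset.card_empty]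
      omega
    · refine (Finset.card_le_card (t := {z0, z0 + 1}) ?_).trans Finset.card_le_two
      intro z hz
      rw [Finset.mem_filter] at hz hz0
      rw [Finset.mem_insert, Finset.mem_singleton]
      have h3 : (z - z0) * (z - (z0 + 1)) = 0 := by
        linear_combination hz.2 - hz0.2 + (z0 ^ 2 + z0 - z - z * z0) * h2
      rcases mul_eq_zero.1 h3 with h | h
      · exact Or.inl (sub_eq_zero.1 h)
      · exact Or.inr (sub_eq_zero.1 h)
  have hN0 : ∀ t, Algebra.trace (ZMod 2) k t ≠ 0 → N t = 0 := by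
    intro t ht
    rw [hN]
    simp only [Finset.card_eq_zero, Finset.filter_eq_empty_iff]
    intro z _ hz
    apply ht
    rw [← hz, map_add, tr_sq, ← two_mul]
    have : (2 : ZMod 2) = 0 := by decide
    rw [this, zero_mul]
  set Z : Finset k := univ.filter (fun t => Algebra.trace (ZMod 2) k t = 0) with hZ
  obtain ⟨t₁, ht₁⟩ := Algebra.trace_surjective (ZMod 2) k 1
  have hcard : Fintype.card k = ∑ _t ∈ Z, 2 := by
    have e : (univ.filter (fun t => ¬ Algebra.trace (ZMod 2) k t = 0)).card = Z.card := by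
      refine Finset.card_bij (fun t _ => t + t₁) ?_ ?_ ?_
      · intro t ht
        rw [mem_filter] at ht
        rw [hZ, mem_filter]
        refine ⟨mem_univ _, ?_⟩
        rw [map_add, ht₁]
        have h4 : ∀ a : ZMod 2, ¬ a = 0 → a + 1 = 0 := by decide
        exact h4 _ ht.2
      · intro a _ b _ h
        exact add_right_cancel h
      · intro b hb
        rw [hZ, mem_filter] at hb
        refine ⟨b - t₁, ?_, by ring⟩
        rw [mem_filter]
        refine ⟨mem_univ _, ?_⟩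
        rw [map_sub, ht₁, hb.2]
        decide
    have h5 := Finset.card_filter_add_card_filter_not (s := (univ : Finset k))
      (fun t => Algebra.trace (ZMod 2) k t = 0)
    rw [e, Finset.card_univ] at h5
    rw [Finset.sum_const, smul_eq_mul, ← h5]
    ring
  have hZN : ∑ t ∈ Z, N t = ∑ _t ∈ Z, 2 := by
    rw [← hcard, ← hsum]
    apply Finset.sum_subset (subset_univ _)
    intro t _ ht
    apply hN0
    intro h
    exact ht (by rw [hZ, mem_filter]; exact ⟨mem_univ _, h⟩)
  have hall := (Finset.sum_eq_sum_iff_of_le (fun t _ => hN2 t)).1 hZN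
  show ((N c : ℕ) : ℤ) = _
  by_cases hc : Algebra.trace (ZMod 2) k c = 0
  · rw [hall c (by rw [hZ, mem_filter]; exact ⟨mem_univ _, hc⟩), hc]
    decide
  · rw [hN0 c hc]
    unfold sg
    rw [if_neg hc]
    norm_num

end sign

section lpoly

abbrev F2 : Type := ZMod 2

lemma two0 : (2 : F2) = 0 := by decide

/-- the function of the ordinary curves -/
noncomputable def lmA (h : F2[X]) : ℤ := if h.coeff 0 = 0 then 0 else sg (p1 h + pm1 h)

/-- the function of the supersingular curves -/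
noncomputable def lmB (a : F2) (h : F2[X]) : ℤ := sg (p3 h + a * p1 h)

lemma isMul_lmA : IsMul lmA := by
  constructor
  · unfold lmA p1 pm1
    rw [coeff_one_zero, if_neg one_ne_zero, coeff_one_reverse, coeff_one]
    simp [sg, nextCoeff]
  · intro g h hg hh
    unfold lmA
    rw [mul_coeff_zero]
    by_cases h1 : g.coeff 0 = 0
    · simp [h1]
    · by_cases h2 : h.coeff 0 = 0
      · simp [h2]
      · rw [if_neg (mul_ne_zero h1 h2), if_neg h1, if_neg h2, ← sg_add, p1_mul hg hh, pm1_mul h1 h2]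
        congr 1
        ring

lemma rev_one (n : ℕ) (hn : 0 < n) : (1 : F2[X]).reverse.coeff n = 0 := by
  rw [coeff_reverse, natDegree_one, revAt_eq_self_of_lt hn, coeff_one, if_neg hn.ne']

lemma isMul_lmB (a : F2) : IsMul (lmB a) := by
  constructor
  · unfold lmB p1 p3
    rw [rev_one 1 (by norm_num), rev_one 2 (by norm_num), rev_one 3 (by norm_num)]
    simp [sg]
  · intro g h hg hh
    unfold lmB
    rw [← sg_add, p1_mul hg hh, p3_mul two0 hg hh]
    congr 1
    ring

lemma rev_coeff {n j : ℕ} (hj : j ≤ n) {h : F2[X]} (hh : h ∈ Mon F2 n) :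
    h.reverse.coeff j = h.coeff (n - j) := by
  rw [mem_Mon] at hh
  rw [coeff_reverse, hh.2, revAt_le hj]

lemma mon_add {n i : ℕ} (hi : i < n) {h : F2[X]} (hh : h ∈ Mon F2 n) : h + X ^ i ∈ Mon F2 n := by
  rw [mem_Mon] at hh ⊢
  have h1 : (X ^ i : F2[X]).degree < h.degree := by
    rw [degree_X_pow, degree_eq_natDegree hh.1.ne_zero, hh.2]
    exact_mod_cast hi
  refine ⟨hh.1.add_of_left h1, ?_⟩
  rw [natDegree_add_eq_left_of_degree_lt h1, hh.2]

lemma add_add (h : F2[X]) (i : ℕ) : h + X ^ i + X ^ i = h := by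
  rw [add_assoc, ← two_mul]
  have : (2 : F2[X]) = 0 := by
    have := congrArg (C : F2 →+* F2[X]) two0
    rwa [map_ofNat, map_zero] at this
  rw [this, zero_mul, add_zero]

lemma sg_flip (a : F2) : sg a + sg (a + 1) = 0 := by revert a; decide

lemma SA_A {n : ℕ} (hn : 3 ≤ n) : SA lmA n = 0 := by
  unfold SA
  refine Finset.sum_involution (fun h _ => h + X ^ (n - 1)) ?_ ?_ ?_ ?_
  · intro h hh
    have hh' := mon_add (i := n - 1) (by omega) hh
    unfold lmA pm1 p1
    rw [rev_coeff (by omega : 1 ≤ n) hh, rev_coeff (by omega : 1 ≤ n) hh']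
    simp only [coeff_add, coeff_X_pow]
    rw [if_neg (by omega : ¬ 0 = n - 1), if_neg (by omega : ¬ 1 = n - 1)]
    simp only [if_true, add_zero]
    split_ifs
    · rfl
    · have e : h.coeff (n - 1) + 1 + h.coeff 1 / h.coeff 0 =
        h.coeff (n - 1) + h.coeff 1 / h.coeff 0 + 1 := by ring
      rw [e]
      exact sg_flip _
  · intro h hh _ h1
    have : (X ^ (n - 1) : F2[X]) = 0 := by
      have h2 : h + X ^ (n - 1) = h + 0 := by rw [add_zero]; exact h1
      exact add_left_cancel h2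
    exact pow_ne_zero _ X_ne_zero this
  · intro h hh
    exact mon_add (by omega) hh
  · intro h hh
    exact add_add _ _

lemma SA_B (a : F2) {n : ℕ} (hn : 3 ≤ n) : SA (lmB a) n = 0 := by
  unfold SA
  refine Finset.sum_involution (fun h _ => h + X ^ (n - 3)) ?_ ?_ ?_ ?_
  · intro h hh
    have hh' := mon_add (i := n - 3) (by omega) hh
    unfold lmB p3 p1
    rw [rev_coeff (by omega : 1 ≤ n) hh, rev_coeff (by omega : 1 ≤ n) hh',
      rev_coeff (by omega : 2 ≤ n) hh, rev_coeff (by omega : 2 ≤ n) hh',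
      rev_coeff (by omega : 3 ≤ n) hh, rev_coeff (by omega : 3 ≤ n) hh']
    simp only [coeff_add, coeff_X_pow]
    rw [if_neg (by omega : ¬ n - 1 = n - 3), if_neg (by omega : ¬ n - 2 = n - 3)]
    simp only [if_true, add_zero]
    have e : h.coeff (n - 1) ^ 3 + h.coeff (n - 1) * h.coeff (n - 2) + (h.coeff (n - 3) + 1) +
        a * h.coeff (n - 1) = (h.coeff (n - 1) ^ 3 + h.coeff (n - 1) * h.coeff (n - 2) +
        h.coeff (n - 3) + a * h.coeff (n - 1)) + 1 := by ring
    rw [e]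
    exact sg_flip _
  · intro h hh _ h1
    have : (X ^ (n - 3) : F2[X]) = 0 := by
      have h2 : h + X ^ (n - 3) = h + 0 := by rw [add_zero]; exact h1
      exact add_left_cancel h2
    exact pow_ne_zero _ X_ne_zero this
  · intro h hh
    exact mon_add (by omega) hh
  · intro h hh
    exact add_add _ _

lemma quad_coeff (b c : F2) : (X ^ 2 + C b * X + C c : F2[X]) ∈ Mon F2 2 ∧
    (X ^ 2 + C b * X + C c : F2[X]).coeff 0 = c ∧ (X ^ 2 + C b * X + C c : F2[X]).coeff 1 = b ∧
    (X ^ 2 + C b * X + C c : F2[X]).reverse.coeff 3 = 0 := by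
  have hd : (X ^ 2 + C b * X + C c : F2[X]).natDegree = 2 := by compute_degree!
  have hm : (X ^ 2 + C b * X + C c : F2[X]).Monic := by monicity!
  refine ⟨mem_Mon.2 ⟨hm, hd⟩, ?_, ?_, ?_⟩
  · simp
  · simp [coeff_X_pow, coeff_C]
  · rw [coeff_reverse, hd, revAt_eq_self_of_lt (by norm_num)]
    exact coeff_eq_zero_of_natDegree_lt (by rw [hd]; norm_num)

lemma SA_A2 : SA lmA 2 = 2 := by
  unfold SA
  rw [sum_Mon_two]
  have h1 : ∀ c b : F2, lmA (X ^ 2 + C b * X + C c) = if c = 0 then 0 else 1 := by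
    intro c b
    obtain ⟨e0, e1, e2, e3⟩ := quad_coeff b c
    unfold lmA p1 pm1
    rw [rev_coeff (by norm_num : 1 ≤ 2) e0, e1, e2]
    have h2 : ∀ c : F2, c ≠ 0 → c = 1 := by decide
    by_cases hc : c = 0
    · rw [if_pos hc, if_pos hc]
    · rw [if_neg hc, if_neg hc, h2 c hc, div_one]
      clear * - b
      revert b
      decide
  simp_rw [h1]
  clear h1
  decide

lemma SA_B2 (a : F2) : SA (lmB a) 2 = 2 := by
  unfold SA
  rw [sum_Mon_two]
  have h1 : ∀ c b : F2, lmB a (X ^ 2 + C b * X + C c) = sg (b ^ 3 + b * c + 0 + a * b) := by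
    intro c b
    obtain ⟨e0, e1, e2, e3⟩ := quad_coeff b c
    unfold lmB p1 p3
    rw [rev_coeff (by norm_num : 1 ≤ 2) e0, rev_coeff (by norm_num : 2 ≤ 2) e0, e3, e2, e1]
  simp_rw [h1]
  clear h1
  revert a
  decide

end lpoly

section fib

variable {k : Type} [Field k] [Fintype k] [Algebra (ZMod 2) k]

lemma prod_aroots {P : F2[X]} (hP : P.Monic) :
    P.map (algebraMap F2 (AlgebraicClosure F2)) =
      ((P.aroots (AlgebraicClosure F2)).map (fun β => X - C β)).prod :=
  (IsAlgClosed.splits _).eq_prod_roots_of_monic (hP.map _)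

lemma two0' : (2 : AlgebraicClosure F2) = 0 := by
  have := congrArg (algebraMap F2 (AlgebraicClosure F2)) two0
  rwa [map_ofNat, map_zero] at this

lemma tr_B (a : F2) (x : k) : Algebra.trace F2 k (x ^ 3 + algebraMap F2 k a * x) =
    (Module.finrank F2 k / (minpoly F2 x).natDegree) • (p3 (minpoly F2 x) + a * p1 (minpoly F2 x)) := by
  have hfd : FiniteDimensional F2 k := Module.Finite.of_finite
  set Ω := AlgebraicClosure F2 with hΩ
  set P := minpoly F2 x with hP
  have hmon : P.Monic := minpoly.monic (Algebra.IsIntegral.isIntegral x)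
  set ι := algebraMap F2 Ω with hι
  have h1 := trace_gen (F := F2) (E := k) (Ω := Ω) x
    ((AdjoinSimple.gen F2 x) ^ 3 + algebraMap F2 F2⟮x⟯ a * AdjoinSimple.gen F2 x)
    (fun α => α ^ 3 + ι a * α) (fun σ => by
      rw [map_add, map_mul, map_pow, σ.commutes])
  have h2 : (((AdjoinSimple.gen F2 x) ^ 3 + algebraMap F2 F2⟮x⟯ a * AdjoinSimple.gen F2 x : F2⟮x⟯) : k) =
      x ^ 3 + algebraMap F2 k a * x := by
    push_cast
    rfl
  rw [h2] at h1
  have h3 : ((P.aroots Ω).map (fun α => α ^ 3 + ι a * α)).sum = ι (p3 P + a * p1 P) := by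
    rw [← sum_roots (P.aroots Ω) (fun h => p3 h + ι a * p1 h) (fun α => α ^ 3 + ι a * α)
      (fun h => h.Monic) ?_ monic_one ?_]
    · show p3 _ + ι a * p1 _ = _
      rw [← prod_aroots hmon]
      unfold p3 p1
      rw [rev_map _ ι.injective, rev_map _ ι.injective, rev_map _ ι.injective]
      simp only [map_add, map_mul, map_pow]
    · show p3 1 + ι a * p1 1 = 0
      have e : ∀ n, 0 < n → (1 : Polynomial Ω).reverse.coeff n = 0 := fun n hn => by
        rw [coeff_reverse, natDegree_one, revAt_eq_self_of_lt hn, coeff_one, if_neg hn.ne']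
      unfold p3 p1
      rw [e 1 (by norm_num), e 2 (by norm_num), e 3 (by norm_num)]
      ring
    · intro g α _ hg
      refine ⟨(monic_X_sub_C α).mul hg, ?_⟩
      show p3 _ + ι a * p1 _ = α ^ 3 + ι a * α + (p3 g + ι a * p1 g)
      rw [p3_mul two0' (monic_X_sub_C α) hg, p1_mul (monic_X_sub_C α) hg, p3_X_sub two0',
        p1_X_sub two0']
      ring
  rw [h3, ← map_nsmul] at h1
  exact ι.injective h1

lemma tr_A {x : k} (hx : x ≠ 0) : Algebra.trace F2 k (x + x⁻¹) =
    (Module.finrank F2 k / (minpoly F2 x).natDegree) • (p1 (minpoly F2 x) + pm1 (minpoly F2 x)) := by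
  have hfd : FiniteDimensional F2 k := Module.Finite.of_finite
  set Ω := AlgebraicClosure F2 with hΩ
  set P := minpoly F2 x with hP
  have hmon : P.Monic := minpoly.monic (Algebra.IsIntegral.isIntegral x)
  set ι := algebraMap F2 Ω with hι
  have h1 := trace_gen (F := F2) (E := k) (Ω := Ω) x
    (AdjoinSimple.gen F2 x + (AdjoinSimple.gen F2 x)⁻¹)
    (fun α => α + α⁻¹) (fun σ => by
      rw [map_add, map_inv₀])
  have h2 : ((AdjoinSimple.gen F2 x + (AdjoinSimple.gen F2 x)⁻¹ : F2⟮x⟯) : k) =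
      x + x⁻¹ := by
    push_cast
    rfl
  rw [h2] at h1
  have hP0 : P.coeff 0 ≠ 0 := minpoly.coeff_zero_ne_zero (Algebra.IsIntegral.isIntegral x) hx
  have hr : ∀ α ∈ P.aroots Ω, α ≠ 0 := by
    rintro α hα rfl
    rw [mem_aroots] at hα
    apply hP0
    have h4 := hα.2
    rw [aeval_def, eval₂_at_zero] at h4
    exact ι.injective (by rw [h4, map_zero])
  have h3 : ((P.aroots Ω).map (fun α => α + α⁻¹)).sum = ι (p1 P + pm1 P) := by
    rw [← sum_roots (P.aroots Ω) (fun h => p1 h + pm1 h) (fun α => α + α⁻¹)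
      (fun h => h.Monic ∧ h.coeff 0 ≠ 0) ?_ ⟨monic_one, by simp⟩ ?_]
    · show p1 _ + pm1 _ = _
      rw [← prod_aroots hmon]
      unfold pm1 p1
      rw [rev_map _ ι.injective, coeff_map, coeff_map, map_add, map_div₀]
    · show p1 1 + pm1 1 = 0
      have e : (1 : Polynomial Ω).reverse.coeff 1 = 0 := by
        rw [coeff_reverse, natDegree_one, revAt_eq_self_of_lt one_pos, coeff_one, if_neg one_ne_zero]
      unfold pm1 p1
      rw [e, coeff_one, if_neg one_ne_zero]
      simp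
    · rintro g α hα ⟨hg, hg0⟩
      have h5 : (X - C α : Polynomial Ω).coeff 0 ≠ 0 := by
        simp only [coeff_sub, coeff_X_zero, coeff_C_zero, zero_sub]
        exact neg_ne_zero.2 (hr α hα)
      refine ⟨⟨(monic_X_sub_C α).mul hg, ?_⟩, ?_⟩
      · rw [mul_coeff_zero]
        exact mul_ne_zero h5 hg0
      · show p1 _ + pm1 _ = α + α⁻¹ + (p1 g + pm1 g)
        rw [pm1_mul h5 hg0, p1_mul (monic_X_sub_C α) hg, pm1_X_sub two0' (hr α hα),
          p1_X_sub two0']
        ring
  rw [h3, ← map_nsmul] at h1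
  exact ι.injective h1

lemma ST_A [DecidableEq k] : ST lmA (Module.finrank F2 k) =
    ∑ x : k, if x = 0 then 0 else sg (Algebra.trace F2 k (x + x⁻¹)) := by
  have hfd : FiniteDimensional F2 k := Module.Finite.of_finite
  rw [ST_eq_sum]
  refine Finset.sum_congr rfl fun x _ => ?_
  split_ifs with hx
  · rw [hx, minpoly.zero]
    unfold lmA
    rw [coeff_X_zero, if_pos rfl, natDegree_X, Nat.div_one, zero_pow Module.finrank_pos.ne']
  · have hP0 : (minpoly F2 x).coeff 0 ≠ 0 :=
      minpoly.coeff_zero_ne_zero (Algebra.IsIntegral.isIntegral x) hx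
    rw [tr_A hx, sg_nsmul]
    unfold lmA
    rw [if_neg hP0]

lemma ST_B (a : F2) : ST (lmB a) (Module.finrank F2 k) =
    ∑ x : k, sg (Algebra.trace F2 k (x ^ 3 + algebraMap F2 k a * x)) := by
  rw [ST_eq_sum]
  refine Finset.sum_congr rfl fun x _ => ?_
  rw [tr_B, sg_nsmul]
  rfl

end fib

section points

variable {k : Type} [Field k] [Fintype k] [DecidableEq k]

omit [Fintype k] [DecidableEq k] in
lemma card_fib [Fintype k] [DecidableEq k] (h g : k → k) :
    Nat.card {x : k × k // x.2 ^ 2 + h x.1 * x.2 = g x.1} =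
      ∑ x, ((Finset.univ : Finset k).filter (fun y => y ^ 2 + h x * y = g x)).card := by
  have e : {x : k × k // x.2 ^ 2 + h x.1 * x.2 = g x.1} ≃
      Σ x : k, {y : k // y ^ 2 + h x * y = g x} :=
    { toFun := fun p => ⟨p.1.1, ⟨p.1.2, p.2⟩⟩
      invFun := fun p => ⟨(p.1, p.2.1), p.2.2⟩
      left_inv := fun _ => rfl
      right_inv := fun _ => rfl }
  rw [Nat.card_congr e, Nat.card_eq_fintype_card, Fintype.card_sigma]
  refine Finset.sum_congr rfl fun x _ => ?_
  rw [Fintype.card_subtype]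

lemma fib_zero (h2 : (2 : k) = 0) (c : k) :
    ((Finset.univ : Finset k).filter (fun y => y ^ 2 + 0 * y = c)).card = 1 := by
  have hch : CharP k 2 := CharTwo.of_one_ne_zero_of_two_eq_zero one_ne_zero h2
  obtain ⟨y, hy⟩ := exists_root_pow 2 c
  rw [Finset.card_eq_one]
  refine ⟨y, ?_⟩
  ext z
  rw [mem_filter, mem_singleton]
  constructor
  · rintro ⟨_, hz⟩
    have h3 : (z - y) ^ 2 = 0 := by
      linear_combination hz - hy + (y ^ 2 - z * y) * h2
    exact sub_eq_zero.1 (pow_eq_zero_iff (by norm_num) |>.1 h3)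
  · rintro rfl
    exact ⟨mem_univ _, by rw [zero_mul, add_zero]; exact hy⟩

lemma fib_ne {u : k} (hu : u ≠ 0) (c : k) :
    ((Finset.univ : Finset k).filter (fun y => y ^ 2 + u * y = c)).card =
      ((Finset.univ : Finset k).filter (fun z => z ^ 2 + z = c / u ^ 2)).card := by
  refine Finset.card_bij (fun y _ => y / u) ?_ ?_ ?_
  · intro y hy
    rw [mem_filter] at hy ⊢
    refine ⟨mem_univ _, ?_⟩
    rw [← hy.2]
    field_simp
  · intro a _ b _ h
    exact (div_left_inj' hu).1 h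
  · intro z hz
    rw [mem_filter] at hz
    refine ⟨z * u, ?_, by field_simp⟩
    rw [mem_filter]
    refine ⟨mem_univ _, ?_⟩
    have h3 : c = (z ^ 2 + z) * u ^ 2 := by rw [hz.2]; field_simp
    rw [h3]
    ring

variable [Algebra (ZMod 2) k]

omit [DecidableEq k] in
lemma sg_const (c : F2) : sg (Algebra.trace F2 k (algebraMap F2 k c)) =
    sg c ^ Module.finrank F2 k := by
  rw [Algebra.trace_algebraMap, sg_nsmul]

lemma sg_pow_two (c : F2) (n : ℕ) : (sg c ^ n) ^ 2 = 1 := by
  rw [← pow_mul, mul_comm, pow_mul, sg_sq, one_pow]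

/-- the ordinary curves -/
lemma pts_ord (a₂ a₃ a₄ a₆ : F2)
    (hΔ : a₆ + a₃ * a₄ + a₂ * a₃ + a₄ = 1) :
    (Fintype.card k : ℤ) - Nat.card {x : k × k // x.2 ^ 2 + (x.1 + algebraMap F2 k a₃) * x.2 =
      x.1 ^ 3 + algebraMap F2 k a₂ * x.1 ^ 2 + algebraMap F2 k a₄ * x.1 + algebraMap F2 k a₆} =
      -(sg (a₂ + a₃) ^ Module.finrank F2 k * ST lmA (Module.finrank F2 k)) := by
  set ι := algebraMap F2 k with hι
  have h2 : (2 : k) = 0 := by
    have := congrArg ι two0
    rwa [map_ofNat, map_zero] at this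
  rw [card_fib (fun x => x + ι a₃) (fun x => x ^ 3 + ι a₂ * x ^ 2 + ι a₄ * x + ι a₆)]
  have hsh : ∑ x : k, ((Finset.univ : Finset k).filter (fun y => y ^ 2 + (x + ι a₃) * y =
      x ^ 3 + ι a₂ * x ^ 2 + ι a₄ * x + ι a₆)).card =
      ∑ u : k, ((Finset.univ : Finset k).filter (fun y => y ^ 2 + u * y =
      (u - ι a₃) ^ 3 + ι a₂ * (u - ι a₃) ^ 2 + ι a₄ * (u - ι a₃) + ι a₆)).card := by
    refine Fintype.sum_equiv (Equiv.addRight (ι a₃)) _ _ fun x => ?_
    simp only [Equiv.coe_addRight, add_sub_cancel_right]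
  rw [hsh, ST_A, Nat.cast_sum]
  have hterm : ∀ u : k, (((Finset.univ : Finset k).filter (fun y => y ^ 2 + u * y =
      (u - ι a₃) ^ 3 + ι a₂ * (u - ι a₃) ^ 2 + ι a₄ * (u - ι a₃) + ι a₆)).card : ℤ) =
      1 + sg (a₂ + a₃) ^ Module.finrank F2 k *
        (if u = 0 then 0 else sg (Algebra.trace F2 k (u + u⁻¹))) := by
    intro u
    by_cases hu : u = 0
    · rw [if_pos hu, hu, fib_zero h2]
      norm_num
    · rw [if_neg hu, fib_ne hu, as_card]
      congr 1
      rw [← sg_const (k := k), ← sg_add, ← map_add]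
      congr 1
      -- the traces
      have sq2 : ∀ a : F2, a ^ 2 = a := by decide
      have e3 : ι a₃ ^ 2 = ι a₃ := by rw [← map_pow, sq2]
      set c₀ : F2 := a₃ + a₂ * a₃ + a₃ * a₄ + a₆ with hc₀
      have hc1 : a₃ + a₄ = 1 + c₀ := by
        rw [hc₀]
        linear_combination -hΔ + (a₄ - 1) * two0
      have h1 : ι a₃ + ι a₄ = 1 + ι c₀ := by
        rw [← map_add, hc1, map_add, map_one]
      have eC : ι c₀ ^ 2 = ι c₀ := by rw [← map_pow, sq2]
      have hC : ι c₀ = ι a₃ + ι a₂ * ι a₃ + ι a₃ * ι a₄ + ι a₆ := by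
        rw [hc₀]
        simp only [map_add, map_mul]
      have key : ((u - ι a₃) ^ 3 + ι a₂ * (u - ι a₃) ^ 2 + ι a₄ * (u - ι a₃) + ι a₆) / u ^ 2 =
          (ι (a₂ + a₃) + (u + u⁻¹)) + (ι c₀ * u⁻¹ + (ι c₀ * u⁻¹) ^ 2) := by
        rw [div_eq_iff (pow_ne_zero 2 hu), map_add]
        have e5 : (ι a₂ + ι a₃ + (u + u⁻¹) + (ι c₀ * u⁻¹ + (ι c₀ * u⁻¹) ^ 2)) * u ^ 2 =
            (ι a₂ + ι a₃) * u ^ 2 + u ^ 3 + u + ι c₀ * u + ι c₀ ^ 2 := by
          field_simp
          ring
        rw [e5]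
        linear_combination (-2 * ι a₃ * u ^ 2 - ι a₂ * ι a₃ * u + ι a₃ * u - ι a₃ - ι a₃ * ι a₄) * h2 +
          u * h1 + (3 * u - ι a₃ - 1 + ι a₂) * e3 - eC - hC
      rw [key, map_add (Algebra.trace F2 k) _ (ι c₀ * u⁻¹ + (ι c₀ * u⁻¹) ^ 2),
        map_add (Algebra.trace F2 k) (ι c₀ * u⁻¹), tr_sq, ← two_mul]
      rw [two0, zero_mul, add_zero]
  rw [Finset.sum_congr rfl fun u _ => hterm u, Finset.sum_add_distrib, Finset.sum_const,
    Finset.card_univ, ← Finset.mul_sum]
  simp only [nsmul_eq_mul, mul_one]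
  ring

/-- the supersingular curves -/
lemma pts_ss (a₂ a₄ a₆ : F2) :
    (Fintype.card k : ℤ) - Nat.card {x : k × k // x.2 ^ 2 + 1 * x.2 =
      x.1 ^ 3 + algebraMap F2 k a₂ * x.1 ^ 2 + algebraMap F2 k a₄ * x.1 + algebraMap F2 k a₆} =
      -(sg a₆ ^ Module.finrank F2 k * ST (lmB (a₂ + a₄)) (Module.finrank F2 k)) := by
  set ι := algebraMap F2 k with hι
  have h2 : (2 : k) = 0 := by
    have := congrArg ι two0
    rwa [map_ofNat, map_zero] at this
  rw [card_fib (fun _ => 1) (fun x => x ^ 3 + ι a₂ * x ^ 2 + ι a₄ * x + ι a₆), ST_B, Nat.cast_sum]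
  have hterm : ∀ u : k, (((Finset.univ : Finset k).filter (fun y => y ^ 2 + 1 * y =
      u ^ 3 + ι a₂ * u ^ 2 + ι a₄ * u + ι a₆)).card : ℤ) =
      1 + sg a₆ ^ Module.finrank F2 k *
        (sg (Algebra.trace F2 k (u ^ 3 + ι (a₂ + a₄) * u))) := by
    intro u
    rw [fib_ne one_ne_zero, as_card]
    congr 1
    rw [← sg_const (k := k), ← sg_add, ← map_add]
    congr 1
    have sq2 : ∀ a : F2, a ^ 2 = a := by decide
    have e3 : ι a₂ ^ 2 = ι a₂ := by rw [← map_pow, sq2]
    have key : (u ^ 3 + ι a₂ * u ^ 2 + ι a₄ * u + ι a₆) / 1 ^ 2 =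
        (ι a₆ + (u ^ 3 + ι (a₂ + a₄) * u)) + (ι a₂ * u + (ι a₂ * u) ^ 2) := by
      rw [one_pow, div_one, map_add]
      linear_combination (-ι a₂ * u) * h2 - u ^ 2 * e3
    rw [key, map_add (Algebra.trace F2 k) _ (ι a₂ * u + (ι a₂ * u) ^ 2),
      map_add (Algebra.trace F2 k) (ι a₂ * u), tr_sq, ← two_mul]
    rw [two0, zero_mul, add_zero]
  rw [Finset.sum_congr rfl fun u _ => hterm u, Finset.sum_add_distrib, Finset.sum_const,
    Finset.card_univ, ← Finset.mul_sum]
  simp only [nsmul_eq_mul, mul_one]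
  ring

end points

/-- the conclusion from the `L`-polynomial -/
lemma luc_of {lm : F2[X] → ℤ} (hm : IsMul lm) (hh : ∀ n, 3 ≤ n → SA lm n = 0) (h2 : SA lm 2 = 2)
    (c : F2) {n : ℕ} (hn : n ≠ 0) :
    -(sg c ^ n * ST lm n) = luc (-(sg c ^ 1 * ST lm 1)) 2 n := by
  obtain ⟨j, rfl⟩ := Nat.exists_eq_succ_of_ne_zero hn
  rw [Nat.succ_eq_add_one, ST_luc hm hh j, h2, pow_one]
  have e : -(sg c * ST lm 1) = sg c * (-ST lm 1) := by ring
  rw [e, luc_tw _ _ _ (sg_sq c)]
  ring

theorem pts_two (W : WeierstrassCurve ℤ) (hΔ : ¬ (2 : ℤ) ∣ W.Δ) (k : Type) [Field k] [Fintype k]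
    [Algebra (ZMod 2) k] : (Fintype.card k : ℤ) - Pool.Agent.Y702.G.pts W k =
      luc ((2 : ℤ) - Pool.Agent.Y702.G.pts W (ZMod 2)) 2 (Module.finrank (ZMod 2) k) := by
  classical
  have hfd : FiniteDimensional F2 k := Module.Finite.of_finite
  have hf0 : Module.finrank F2 k ≠ 0 := Module.finrank_pos.ne'
  have h1 : Module.finrank F2 F2 = 1 := Module.finrank_self _
  have hcast : ∀ (l : Type) [Field l] [Algebra (ZMod 2) l] (n : ℤ),
      (n : l) = algebraMap F2 l ((n : ℤ) : F2) := fun l _ _ n => (map_intCast _ _).symm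
  have hΔ' : ((W.Δ : ℤ) : F2) = 1 := by
    have h3 : ((W.Δ : ℤ) : F2) ≠ 0 := fun h => hΔ ((ZMod.intCast_zmod_eq_zero_iff_dvd _ 2).1 h)
    revert h3
    generalize ((W.Δ : ℤ) : F2) = z
    revert z
    decide
  have hD : ((W.Δ : ℤ) : F2) = -((W.a₁ : F2) ^ 2 + 4 * (W.a₂ : F2)) ^ 2 *
      ((W.a₁ : F2) ^ 2 * (W.a₆ : F2) + 4 * (W.a₂ : F2) * (W.a₆ : F2) -
        (W.a₁ : F2) * (W.a₃ : F2) * (W.a₄ : F2) + (W.a₂ : F2) * (W.a₃ : F2) ^ 2 -
        (W.a₄ : F2) ^ 2) -
      8 * (2 * (W.a₄ : F2) + (W.a₁ : F2) * (W.a₃ : F2)) ^ 3 -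
      27 * ((W.a₃ : F2) ^ 2 + 4 * (W.a₆ : F2)) ^ 2 +
      9 * ((W.a₁ : F2) ^ 2 + 4 * (W.a₂ : F2)) * (2 * (W.a₄ : F2) + (W.a₁ : F2) * (W.a₃ : F2)) *
        ((W.a₃ : F2) ^ 2 + 4 * (W.a₆ : F2)) := by
    simp only [WeierstrassCurve.Δ, WeierstrassCurve.b₂, WeierstrassCurve.b₄, WeierstrassCurve.b₆,
      WeierstrassCurve.b₈]
    push_cast
    ring
  rw [hΔ'] at hD
  by_cases ha : (W.a₁ : F2) = 0
  · -- supersingular
    have ha3 : (W.a₃ : F2) = 1 := by
      rw [ha] at hD
      revert hD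
      generalize (W.a₃ : F2) = x3
      generalize (W.a₂ : F2) = x2
      generalize (W.a₄ : F2) = x4
      generalize (W.a₆ : F2) = x6
      revert x3 x2 x4 x6
      decide
    have key : ∀ (l : Type) [Field l] [Fintype l] [Algebra (ZMod 2) l],
        (Fintype.card l : ℤ) - Pool.Agent.Y702.G.pts W l =
        -(sg (W.a₆ : F2) ^ Module.finrank F2 l *
          ST (lmB ((W.a₂ : F2) + (W.a₄ : F2))) (Module.finrank F2 l)) := by
      intro l _ _ _
      rw [← pts_ss, Pool.Agent.Y238.G.pts_ring]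
      simp only [← hcast l]
      have e1 : (W.a₁ : l) = 0 := by rw [hcast l, ha, map_zero]
      have e3 : (W.a₃ : l) = 1 := by rw [hcast l, ha3, map_one]
      simp only [e1, e3, zero_mul, add_zero]
    have k0 := key F2
    rw [h1, ZMod.card] at k0
    have k0' : (2 : ℤ) - Pool.Agent.Y702.G.pts W (ZMod 2) = _ := k0
    rw [k0', key k, luc_of (isMul_lmB _) (fun n => SA_B _) (SA_B2 _) _ hf0]
  · -- ordinary
    have ha1 : (W.a₁ : F2) = 1 := by
      revert ha
      generalize (W.a₁ : F2) = z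
      revert z
      decide
    have hd : (W.a₆ : F2) + (W.a₃ : F2) * (W.a₄ : F2) + (W.a₂ : F2) * (W.a₃ : F2) + (W.a₄ : F2) = 1 := by
      rw [ha1] at hD
      revert hD
      generalize (W.a₃ : F2) = x3
      generalize (W.a₂ : F2) = x2
      generalize (W.a₄ : F2) = x4
      generalize (W.a₆ : F2) = x6
      revert x3 x2 x4 x6
      decide
    have key : ∀ (l : Type) [Field l] [Fintype l] [Algebra (ZMod 2) l],
        (Fintype.card l : ℤ) - Pool.Agent.Y702.G.pts W l =
        -(sg ((W.a₂ : F2) + (W.a₃ : F2)) ^ Module.finrank F2 l *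
          ST lmA (Module.finrank F2 l)) := by
      intro l _ _ _
      rw [← pts_ord _ _ _ _ hd, Pool.Agent.Y238.G.pts_ring]
      simp only [← hcast l]
      have e1 : (W.a₁ : l) = 1 := by rw [hcast l, ha1, map_one]
      simp only [e1, one_mul]
      congr 2
      refine Nat.card_congr (Equiv.subtypeEquivRight fun x => ?_)
      rw [add_mul, ← add_assoc]
    have k0 := key F2
    rw [h1, ZMod.card] at k0
    have k0' : (2 : ℤ) - Pool.Agent.Y702.G.pts W (ZMod 2) = _ := k0
    rw [k0', key k, luc_of isMul_lmA (fun n => SA_A) SA_A2 _ hf0]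

end Pool.Agent.P8H4.PL
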